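/-! BG project (helper95): the integer certificate for `DHL[49,2]`; kernel-friendly definitions (no imports). -/

namespace Pool.Agent.H95R2.BG.Cert



/-- divide and conquer traversal of packed arrays -/
noncomputable def dc (Bo Ba Bb : Nat) (leaf : Nat → Nat → Nat → Nat → Nat → Nat → Nat → Nat) (k : Nat) : Nat → Nat → Nat → Nat → Nat → Nat → Nat → Nat :=
  @Nat.rec (fun _ => Nat → Nat → Nat → Nat → Nat → Nat → Nat → Nat)
    (fun lo x1 x2 x3 y1 y2 y3 => leaf lo x1 x2 x3 y1 y2 y3)
    (fun k ih lo x1 x2 x3 y1 y2 y3 =>
      Nat.add
        (ih lo (Nat.land x1 (Nat.sub (Nat.shiftLeft 1 (Nat.mul Ba (Nat.pow 2 k))) 1))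
          (Nat.land x2 (Nat.sub (Nat.shiftLeft 1 (Nat.mul Ba (Nat.pow 2 k))) 1))
          (Nat.land x3 (Nat.sub (Nat.shiftLeft 1 (Nat.mul Ba (Nat.pow 2 k))) 1))
          (Nat.land y1 (Nat.sub (Nat.shiftLeft 1 (Nat.mul Bb (Nat.pow 2 k))) 1))
          (Nat.land y2 (Nat.sub (Nat.shiftLeft 1 (Nat.mul Bb (Nat.pow 2 k))) 1))
          (Nat.land y3 (Nat.sub (Nat.shiftLeft 1 (Nat.mul Bb (Nat.pow 2 k))) 1)))
        (Nat.shiftLeft
          (ih (Nat.add lo (Nat.pow 2 k)) (Nat.shiftRight x1 (Nat.mul Ba (Nat.pow 2 k)))
            (Nat.shiftRight x2 (Nat.mul Ba (Nat.pow 2 k)))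
            (Nat.shiftRight x3 (Nat.mul Ba (Nat.pow 2 k)))
            (Nat.shiftRight y1 (Nat.mul Bb (Nat.pow 2 k)))
            (Nat.shiftRight y2 (Nat.mul Bb (Nat.pow 2 k)))
            (Nat.shiftRight y3 (Nat.mul Bb (Nat.pow 2 k))))
          (Nat.mul Bo (Nat.pow 2 k)))) k

noncomputable def g (c : Nat) : Nat := Nat.div 557056 (Nat.add 136 c)
noncomputable def ph (c : Nat) : Nat := Nat.div (Nat.mul 2 (Nat.mul c c)) (Nat.add 30895 (Nat.mul 5 c))
noncomputable def look (T w i : Nat) : Nat := Nat.land (Nat.shiftRight T (Nat.mul w i)) (Nat.sub (Nat.shiftLeft 1 w) 1)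
noncomputable def T0 : Nat := 368398999895688462681769084604954672350657371452383649847361904374356837746245271943545271654015232922650663398517077100720229418020323405849451907629262907055078340362513663656225014645987774364260633376608635976499683984820336557192209084713707704814542298110646925231179779387043782915178453901523738243136714650311064644839721195271074238463300407772763219825163942080347051839007559822542952789431233383437967125669149935275672219992250329951217410627820160545747646519691219348377047346122631498685018699918600053892971942279327400881170221883774631870044121209286026152503384505819242771276779405711104802816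
noncomputable def T1 : Nat := 22881667950931651880712526802674335353301217924867373360371774419122355178459317676593237957890915949879222678284892333414117263732401675747133064060799942461521637296026410322860273720236919828716574438086582655777805730690090155315132140226112551509741989836093507281637300376470097974601338743937470997214626376262814785174108252748560280036740248221696652366980229494419098036235534677252598613044597038256125522975081663857821155509713002434899385742838737210912598650208550026956033175726239672501651878512495810461143872273146279703708606841531996911498133726425090957207279106651999246790068937110323200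
noncomputable def TP : Nat := 485224742267143442497845139615063032271933216230414946731530455047180799275190943000901567182226796617142118866568836487243936220461975434829187203667329482277636566201569887906032103719384590753109871524992415261459962369356013647503700188462115
noncomputable def TN : Nat := 958008800775186225745427946856418944316705363708818110824278708991051890976729038292711688516148044794284229186693077429676125230818061102990993828845261970610975166569572218804670617787573312662373158062563044300726940987663719710754208300493425746770417737887747635452425207544434883802905332459930592212929207837745159305787953520679039561820001209192556412730024583491374072347378844600632410293504229131123932501496502272185340806865678082214674844728964059783773663467309304017920143075650634682525080995087026236353684733218692256808513493363035706286806275566454574062405934985820000288589401112086622015122925748947628928258254485128773575005224446061538425583497843194970725529531728695475307634431650749743104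
noncomputable def hh (T n : Nat) : Nat := Nat.add (Nat.mul (Nat.sub 512 (Nat.mod n 512)) (look T 32 (Nat.div n 512)))
  (Nat.mul (Nat.mod n 512) (look T 32 (Nat.add (Nat.div n 512) 1)))
noncomputable def wgt (T q n : Nat) : Nat := cond (Nat.ble (Nat.add (Nat.div n 64) 1) 452) q (look T 40 (Nat.sub (Nat.div n 64) 452))

noncomputable def lq (lo _ _ _ _ _ _ : Nat) : Nat := Nat.mul (g lo) (g lo)
noncomputable def lq1 (lo _ _ _ _ _ _ : Nat) : Nat := Nat.mul (Nat.mul (g lo) (g lo)) (ph lo)
noncomputable def lq2 (lo _ _ _ _ _ _ : Nat) : Nat := Nat.mul (Nat.mul (g lo) (g lo)) (Nat.mul (ph lo) (ph lo))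
noncomputable def lrg (lo _ _ _ _ _ _ : Nat) : Nat := g (Nat.sub 32767 lo)
noncomputable def lrgp (lo _ _ _ _ _ _ : Nat) : Nat := Nat.mul (g (Nat.sub 32767 lo)) (ph (Nat.sub 32767 lo))
noncomputable def lh0 (lo _ _ _ _ _ _ : Nat) : Nat := hh T0 lo
noncomputable def lh1 (lo _ _ _ _ _ _ : Nat) : Nat := hh T1 lo

noncomputable def gen (Bo : Nat) (leaf : Nat → Nat → Nat → Nat → Nat → Nat → Nat → Nat) : Nat := dc Bo 1 1 leaf 15 0 0 0 0 0 0 0
noncomputable def MASK : Nat := Nat.sub (Nat.shiftLeft 1 52428800) 1
noncomputable def md (x : Nat) : Nat := Nat.land x MASK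
noncomputable def P1 : Nat := gen 1600 lq
noncomputable def Q1 : Nat := gen 1600 lq1
noncomputable def Q2 : Nat := gen 1600 lq2
noncomputable def P2 : Nat := md (Nat.mul P1 P1)
noncomputable def P4 : Nat := md (Nat.mul P2 P2)
noncomputable def P5 : Nat := md (Nat.mul P4 P1)
noncomputable def P10 : Nat := md (Nat.mul P5 P5)
noncomputable def P11 : Nat := md (Nat.mul P10 P1)
noncomputable def P22 : Nat := md (Nat.mul P11 P11)
noncomputable def P23 : Nat := md (Nat.mul P22 P1)
noncomputable def P46 : Nat := md (Nat.mul P23 P23)
noncomputable def P47 : Nat := md (Nat.mul P46 P1)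
noncomputable def P48 : Nat := md (Nat.mul P47 P1)
noncomputable def P49 : Nat := md (Nat.mul P48 P1)
noncomputable def Q11 : Nat := md (Nat.mul Q1 Q1)
noncomputable def E1 : Nat := Nat.mul 48 (md (Nat.mul Q1 P47))
noncomputable def E2 : Nat := Nat.add (Nat.mul 48 (md (Nat.mul Q2 P47))) (Nat.mul 2256 (md (Nat.mul Q11 P46)))
noncomputable def F1 : Nat := Nat.mul 49 (md (Nat.mul Q1 P48))
noncomputable def F2 : Nat := Nat.add (Nat.mul 49 (md (Nat.mul Q2 P48))) (Nat.mul 2352 (md (Nat.mul Q11 P47)))

noncomputable def RG : Nat := gen 128 lrg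
noncomputable def RGP : Nat := gen 128 lrgp
noncomputable def HH0 : Nat := gen 128 lh0
noncomputable def HH1 : Nat := gen 128 lh1
noncomputable def AP : Nat := Nat.shiftRight (Nat.mul RG HH0) 4194176
noncomputable def AM : Nat := Nat.shiftRight (Nat.mul RGP HH1) 4194176
noncomputable def BB : Nat := Nat.shiftRight (Nat.mul RG HH1) 4194176

noncomputable def leaf48 (TP' q TN' q' : Nat) (lo x1 x2 x3 y1 y2 y3 : Nat) : Nat :=
  Nat.add
    (Nat.mul (wgt TP' q lo)
      (Nat.add (Nat.mul (Nat.add (Nat.mul y1 y1) (Nat.mul y2 y2)) x1)
        (Nat.add (Nat.mul (Nat.mul 2 (Nat.mul y2 y3)) x2) (Nat.mul (Nat.mul y3 y3) x3))))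
    (Nat.mul (wgt TN' q' lo)
      (Nat.mul 2 (Nat.add (Nat.mul (Nat.mul y1 y2) x1) (Nat.mul (Nat.mul y1 y3) x2))))
noncomputable def L48 : Nat := dc 0 1600 128 (leaf48 TP 1048576 TN 0) 15 0 P48 E1 E2 AP AM BB
noncomputable def R48 : Nat := dc 0 1600 128 (leaf48 TN 0 TP 1048576) 15 0 P48 E1 E2 AP AM BB
noncomputable def leafP (lo x1 _ x3 _ _ _ : Nat) : Nat := Nat.add (Nat.mul (Nat.mul (hh T0 lo) (hh T0 lo)) x1) (Nat.mul (Nat.mul (hh T1 lo) (hh T1 lo)) x3)
noncomputable def leafM (lo _ x2 _ _ _ _ : Nat) : Nat := Nat.mul (Nat.mul 2 (Nat.mul (hh T0 lo) (hh T1 lo))) x2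
noncomputable def P49s : Nat := dc 0 1600 1 leafP 15 0 P49 F1 F2 0 0 0
noncomputable def M49s : Nat := dc 0 1600 1 leafM 15 0 P49 F1 F2 0 0 0

noncomputable def lhs : Nat := Nat.add (Nat.mul 129583022080 P49s) (Nat.mul 49 R48)
noncomputable def rhs : Nat := Nat.add (Nat.mul 49 L48) (Nat.mul 129583022080 M49s)

end Pool.Agent.H95R2.BG.Cert
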