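import Mathlib
import Pool.Agent.H378R2.M7n

/-! BG project (helper95): bounded gaps between primes, `DHL[49,2]`, `H_1 ≤ 240`.
Definitions of the analytic part. -/

open Finset Filter
open scoped ContDiff

namespace Pool.Agent.H95R2.BG

open Pool.Agent.H378R2

/-- sieve length `(1/4 - τ) log X` -/
noncomputable def Lt (τ X : ℝ) : ℝ := (1 / 4 - τ) * Real.log X

/-- truncation of the divisors -/
noncomputable def Rt (τ X : ℝ) : ℕ := ⌊Real.exp (3 * Lt τ X)⌋₊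

/-- the primes `≤ D` -/
def PD (D : ℕ) : Finset ℕ := (Icc 1 D).filter Nat.Prime

/-- the product of the primes `≤ D` -/
def WD (D : ℕ) : ℕ := ∏ p ∈ PD D, p

/-- truncated divisor sum with profile `f` -/
noncomputable def vv (τ : ℝ) (D : ℕ) (X : ℝ) (f : ℝ → ℝ) (x : ℤ) : ℝ :=
  VVm (PD D) (Rt τ X) (Lt τ X) f x

/-- normalisation -/
noncomputable def NN (τ : ℝ) (D : ℕ) (X : ℝ) (K : ℕ) : ℝ :=
  MPhi X * (1 / (WD D : ℝ)) * (1 / (Lt τ X * BE (PD D))) ^ K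

/-- a good profile of length `c` -/
structure GF (f : ℝ → ℝ) (c : ℝ) : Prop where
  smooth : ContDiff ℝ ∞ f
  compact : HasCompactSupport f
  bdd : ∀ x, |f x| ≤ 1
  zero : ∀ x, c < x → f x = 0
  nonneg : 0 ≤ c
  le_two : c ≤ 2

/-- the shifts are distinct modulo all primes `> D` -/
def Sep (D : ℕ) {K : ℕ} (h : Fin K → ℕ) : Prop :=
  ∀ i j, i ≠ j → ∀ p : ℕ, p.Prime → D < p → ¬ (p : ℤ) ∣ (h i : ℤ) - h j

/-- admissible tuple -/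
def Admissible {K : ℕ} (h : Fin K → ℕ) : Prop :=
  Function.Injective h ∧ ∀ p : ℕ, p.Prime → ∃ a : ℕ, ∀ i, ¬ p ∣ a + h i

/-- two primes infinitely often -/
def TwoPrimes {K : ℕ} (h : Fin K → ℕ) : Prop :=
  {n : ℕ | ∃ i j, i ≠ j ∧ (n + h i).Prime ∧ (n + h j).Prime}.Infinite

/-- boxes of cell indices -/
def Box (K M : ℕ) : Finset (Fin K → ℕ) := Fintype.piFinset (fun _ => range M)

/-- upper-end radius of a cell, in units `1 / N1` -/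
def rad {K : ℕ} (c : Fin K → ℕ) : ℕ := ∑ j, (c j + 1)

/-- marginal in coordinate `i` -/
noncomputable def UU {K0 : ℕ} (M : ℕ) (F : (Fin (K0 + 1) → ℕ) → ℝ) (i : Fin (K0 + 1)) (c : Fin K0 → ℕ) : ℝ :=
  ∑ t ∈ range M, F (Fin.insertNth (α := fun _ => ℕ) i t c)

/-- the remaining shifts -/
def hrem {K0 : ℕ} (h : Fin (K0 + 1) → ℕ) (i : Fin (K0 + 1)) : Fin K0 → ℕ := fun j => h (i.succAbove j)

/-- product of the cell functions -/
noncomputable def prodv (τ : ℝ) (D : ℕ) (X : ℝ) {J : ℕ} (f : ℕ → ℝ → ℝ) (h c : Fin J → ℕ) (n : ℕ) : ℝ :=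
  ∏ j, vv τ D X (f (c j)) ((n : ℤ) + h j)

/-- square root of the sieve weight -/
noncomputable def ww (τ : ℝ) (D : ℕ) (X : ℝ) {K0 : ℕ} (f : ℕ → ℝ → ℝ) (M : ℕ) (F : (Fin (K0 + 1) → ℕ) → ℝ)
    (h : Fin (K0 + 1) → ℕ) (n : ℕ) : ℝ :=
  ∑ c ∈ Box (K0 + 1) M, F c * prodv τ D X f h c n

/-- the sums which are bounded by the Selberg majorant of the primes: `ψ s` has length `2 - s / N1` -/
noncomputable def zz (τ : ℝ) (D : ℕ) (X : ℝ) {K0 : ℕ} (f ψ : ℕ → ℝ → ℝ) (M : ℕ) (F : (Fin (K0 + 1) → ℕ) → ℝ)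
    (h : Fin (K0 + 1) → ℕ) (i : Fin (K0 + 1)) (α : ℕ → ℝ) (n : ℕ) : ℝ :=
  ∑ c ∈ Box K0 M, α (rad c) * UU M F i c *
    (vv τ D X (ψ (rad c)) ((n : ℤ) + h i) * prodv τ D X f (hrem h i) c n)

/-- the quadratic form with coefficients `κ (rad c) (rad c')` -/
noncomputable def qq (τ : ℝ) (D : ℕ) (X : ℝ) {K0 : ℕ} (f : ℕ → ℝ → ℝ) (M : ℕ) (F : (Fin (K0 + 1) → ℕ) → ℝ)
    (h : Fin (K0 + 1) → ℕ) (i : Fin (K0 + 1)) (κ : ℕ → ℕ → ℝ) (n : ℕ) : ℝ :=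
  ∑ c ∈ Box K0 M, ∑ c' ∈ Box K0 M, κ (rad c) (rad c') *
    ((UU M F i c * prodv τ D X f (hrem h i) c n) * (UU M F i c' * prodv τ D X f (hrem h i) c' n))

/-- a family of cell functions for the cells `[c/N1, (c+1)/N1]`, `c < M`, with common energy `β` -/
structure Cells (N1 M : ℕ) (f : ℕ → ℝ → ℝ) (β : ℝ) : Prop where
  good : ∀ c, c < M → GF (f c) (((c : ℝ) + 1) / N1)
  one : ∀ c, f c 0 = 1
  orth : ∀ c c', c ≠ c' → DD (f c) (f c') = 0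
  energy : ∀ c, DD (f c) (f c) = β
  pos : 0 < β

/-- profiles `ψ s` of length `2 - s / N1`, `s < 2 N1`, with energy at most `(1 + κ₀) / (2 - s / N1)` -/
structure Psis (N1 : ℕ) (κ₀ : ℝ) (ψ : ℕ → ℝ → ℝ) : Prop where
  good : ∀ s, s < 2 * N1 → GF (ψ s) (2 - (s : ℝ) / N1)
  one : ∀ s, s < 2 * N1 → ψ s 0 = 1
  energy : ∀ s, s < 2 * N1 → DD (ψ s) (ψ s) ≤ (1 + κ₀) / (2 - (s : ℝ) / N1)
  nonneg : ∀ s, s < 2 * N1 → 0 ≤ DD (ψ s) (ψ s)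

end Pool.Agent.H95R2.BG
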