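import Mathlib
import Pool.Agent.H95R2.BG.Defs
import Pool.Agent.H95R2.BG.CertDefs

/-! BG project (helper95): mathematical meaning of the certificate: definitions. -/

open Finset

namespace Pool.Agent.H95R2.BG.Cert

/-- packed array -/
noncomputable def pk (B n : ℕ) (u : ℕ → ℕ) : ℕ := ∑ i ∈ range n, u i * 2 ^ (B * i)

/-- coefficient -/
noncomputable def cf (f : PowerSeries ℕ) (i : ℕ) : ℕ := PowerSeries.coeff i f

/-- packed power series -/
noncomputable def pkS (B n : ℕ) (f : PowerSeries ℕ) : ℕ := pk B n (cf f)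

/-- truncated mass of a power series -/
noncomputable def nrm (n : ℕ) (f : PowerSeries ℕ) : ℕ := ∑ i ∈ range n, cf f i

noncomputable def Qs : PowerSeries ℕ := PowerSeries.mk (fun i => g i * g i)
noncomputable def Q1s : PowerSeries ℕ := PowerSeries.mk (fun i => g i * g i * ph i)
noncomputable def Q2s : PowerSeries ℕ := PowerSeries.mk (fun i => g i * g i * (ph i * ph i))

/-- generating functions of the moments of `∑ ph` for `K` variables -/
noncomputable def G1 (K : ℕ) (q q1 : PowerSeries ℕ) : PowerSeries ℕ := (K : PowerSeries ℕ) * (q1 * q ^ (K - 1))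
noncomputable def G2 (K : ℕ) (q q1 q2 : PowerSeries ℕ) : PowerSeries ℕ :=
  (K : PowerSeries ℕ) * (q2 * q ^ (K - 1)) + ((K * (K - 1) : ℕ) : PowerSeries ℕ) * (q1 * q1 * q ^ (K - 2))

/-- correlations -/
noncomputable def ap (n : ℕ) : ℕ := ∑ t ∈ range (32768 - n), g t * hh T0 (n + t)
noncomputable def am (n : ℕ) : ℕ := ∑ t ∈ range (32768 - n), g t * ph t * hh T1 (n + t)
noncomputable def bb (n : ℕ) : ℕ := ∑ t ∈ range (32768 - n), g t * hh T1 (n + t)

/-- the sieve weight function -/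
noncomputable def FF {K : ℕ} (c : Fin K → ℕ) : ℝ :=
  if ∑ j, c j < 32768 then
    (∏ j, (g (c j) : ℝ)) * ((hh T0 (∑ j, c j) : ℝ) - hh T1 (∑ j, c j) * ∑ j, (ph (c j) : ℝ))
  else 0

/-- the weight of the radius `s`, multiplied by `2^20` it is `wgt TP 2^20 n - wgt TN 0 n`, `n = s - 48` -/
noncomputable def WW (s : ℕ) : ℝ :=
  if s ≤ 32815 then ((wgt TP 1048576 (s - 48) : ℝ) - wgt TN 0 (s - 48)) / 1048576 else 0

/-- the multipliers: `ta l = τ_l`, `l = 1, …, 30`, `w_l = τ_l / (2^20 - τ_l)`, `μ_l = (3/4) (w_{l+1} - w_l)` -/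
noncomputable def ta (l : ℕ) : ℕ := if l = 0 then 0 else look TP 40 (30 - l)
noncomputable def wl (l : ℕ) : ℝ := (ta l : ℝ) / (1048576 - ta l)
noncomputable def mul (l : Fin 30) : ℝ := 3 / 4 * (wl (l + 1) - wl l)

end Pool.Agent.H95R2.BG.Cert
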