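import Mathlib
import Pool.Agent.H95R2.BG.CertMath

/-! BG project, task K3 (helper81): box sums. -/

open Finset

namespace Pool.Agent.H95R2.BG.Cert

namespace K3

/-- the moment sums over tuples with sum `n` -/
noncomputable def T (e K N n : ℕ) (q p : ℕ → ℕ) : ℕ :=
  ∑ c ∈ Box K N, if ∑ j, c j = n then (∏ j, q (c j)) * (∑ j, p (c j)) ^ e else 0

lemma sum_box_succ {M : Type*} [AddCommMonoid M] (K N : ℕ) (f : (Fin (K + 1) → ℕ) → M) :
    ∑ c ∈ Box (K + 1) N, f c = ∑ t ∈ range N, ∑ d ∈ Box K N, f (Fin.cons t d : Fin (K + 1) → ℕ) := by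
  rw [← Finset.sum_product']
  refine Finset.sum_nbij' (fun c => (c 0, fun j => c j.succ))
    (fun x => (Fin.cons x.1 x.2 : Fin (K + 1) → ℕ)) ?_ ?_ ?_ ?_ ?_
  · intro c hc
    have hc' : ∀ i, c i ∈ range N := Fintype.mem_piFinset.mp hc
    simp only [Finset.mem_product]
    exact ⟨hc' 0, Fintype.mem_piFinset.mpr fun j => hc' j.succ⟩
  · intro x hx
    obtain ⟨h1, h2⟩ := Finset.mem_product.mp hx
    have h2' : ∀ i, x.2 i ∈ range N := Fintype.mem_piFinset.mp h2
    refine Fintype.mem_piFinset.mpr fun i => ?_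
    refine Fin.cases ?_ (fun j => ?_) i
    · simpa using h1
    · simpa using h2' j
  · intro c _
    funext i
    refine Fin.cases ?_ (fun j => ?_) i <;> simp
  · intro x _
    simp
  · intro c _
    congr 1
    funext i
    refine Fin.cases ?_ (fun j => ?_) i <;> simp

/-- splitting off the first entry -/
lemma sum_split (K N n : ℕ) (hn : n < N) (f : (Fin (K + 1) → ℕ) → ℕ) :
    (∑ c ∈ Box (K + 1) N, if ∑ j, c j = n then f c else 0) =
      ∑ x ∈ antidiagonal n, ∑ d ∈ Box K N,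
        if ∑ j, d j = x.2 then f (Fin.cons x.1 d : Fin (K + 1) → ℕ) else 0 := by
  rw [sum_box_succ, Finset.Nat.sum_antidiagonal_eq_sum_range_succ_mk]
  have hsub : range (n + 1) ⊆ range N := by
    intro x hx
    rw [Finset.mem_range] at hx ⊢
    omega
  rw [← Finset.sum_subset hsub]
  · refine Finset.sum_congr rfl fun t ht => Finset.sum_congr rfl fun d _ => ?_
    have ht' : t ≤ n := by
      rw [Finset.mem_range] at ht
      omega
    have e : (∑ j : Fin (K + 1), (Fin.cons t d : Fin (K + 1) → ℕ) j = n) ↔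
        (∑ j, d j = n - t) := by
      rw [Fin.sum_univ_succ]
      simp only [Fin.cons_zero, Fin.cons_succ]
      omega
    by_cases h : ∑ j, d j = n - t
    · rw [if_pos (e.mpr h), if_pos h]
    · rw [if_neg (fun h' => h (e.mp h')), if_neg h]
  · intro t _ ht
    refine Finset.sum_eq_zero fun d _ => if_neg ?_
    rw [Finset.mem_range] at ht
    rw [Fin.sum_univ_succ]
    simp only [Fin.cons_zero, Fin.cons_succ]
    omega

lemma T_succ (e K N n : ℕ) (hn : n < N) (q p : ℕ → ℕ) :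
    T e (K + 1) N n q p = ∑ x ∈ antidiagonal n, ∑ d ∈ Box K N,
        if ∑ j, d j = x.2 then (q x.1 * ∏ j, q (d j)) * (p x.1 + ∑ j, p (d j)) ^ e else 0 := by
  unfold T
  rw [sum_split K N n hn]
  refine Finset.sum_congr rfl fun x _ => Finset.sum_congr rfl fun d _ => ?_
  rw [Fin.prod_univ_succ, Fin.sum_univ_succ]
  simp only [Fin.cons_zero, Fin.cons_succ]

lemma T0_succ (K N n : ℕ) (hn : n < N) (q p : ℕ → ℕ) :
    T 0 (K + 1) N n q p = ∑ x ∈ antidiagonal n, q x.1 * T 0 K N x.2 q p := by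
  rw [T_succ 0 K N n hn]
  refine Finset.sum_congr rfl fun x _ => ?_
  unfold T
  rw [Finset.mul_sum]
  refine Finset.sum_congr rfl fun d _ => ?_
  rw [mul_ite, mul_zero]
  refine if_congr Iff.rfl ?_ rfl
  ring

lemma T1_succ (K N n : ℕ) (hn : n < N) (q p : ℕ → ℕ) :
    T 1 (K + 1) N n q p = ∑ x ∈ antidiagonal n,
      (q x.1 * p x.1 * T 0 K N x.2 q p + q x.1 * T 1 K N x.2 q p) := by
  rw [T_succ 1 K N n hn]
  refine Finset.sum_congr rfl fun x _ => ?_
  unfold T
  rw [Finset.mul_sum, Finset.mul_sum, ← Finset.sum_add_distrib]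
  refine Finset.sum_congr rfl fun d _ => ?_
  by_cases h : ∑ j, d j = x.2
  · simp only [if_pos h]
    ring
  · simp only [if_neg h, mul_zero, add_zero]

lemma T2_succ (K N n : ℕ) (hn : n < N) (q p : ℕ → ℕ) :
    T 2 (K + 1) N n q p = ∑ x ∈ antidiagonal n,
      (q x.1 * (p x.1 * p x.1) * T 0 K N x.2 q p + 2 * (q x.1 * p x.1 * T 1 K N x.2 q p) +
        q x.1 * T 2 K N x.2 q p) := by
  rw [T_succ 2 K N n hn]
  refine Finset.sum_congr rfl fun x _ => ?_
  unfold T
  rw [Finset.mul_sum, Finset.mul_sum, Finset.mul_sum, Finset.mul_sum, ← Finset.sum_add_distrib,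
    ← Finset.sum_add_distrib]
  refine Finset.sum_congr rfl fun d _ => ?_
  by_cases h : ∑ j, d j = x.2
  · simp only [if_pos h]
    ring
  · simp only [if_neg h, mul_zero, add_zero]

lemma T_zero (e N n : ℕ) (q p : ℕ → ℕ) : T e 0 N n q p = if n = 0 then 0 ^ e else 0 := by
  unfold T Box
  have : (Fintype.piFinset fun _ : Fin 0 => range N) = {Fin.elim0} := by
    ext c
    simp only [Fintype.mem_piFinset, Finset.mem_singleton]
    constructor
    · intro _
      funext i
      exact i.elim0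
    · intro _ i
      exact i.elim0
  rw [this, Finset.sum_singleton]
  simp only [Finset.univ_eq_empty, Finset.sum_empty, Finset.prod_empty, one_mul]
  by_cases h : n = 0
  · rw [if_pos h, if_pos h.symm]
  · rw [if_neg h, if_neg (Ne.symm h)]

lemma cf_mul (f h : PowerSeries ℕ) (n : ℕ) :
    cf (f * h) n = ∑ x ∈ antidiagonal n, cf f x.1 * cf h x.2 := by
  unfold cf
  exact PowerSeries.coeff_mul n f h

lemma cf_mk (f : ℕ → ℕ) (n : ℕ) : cf (PowerSeries.mk f) n = f n := by
  unfold cf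
  exact PowerSeries.coeff_mk n f

lemma cf_add (f h : PowerSeries ℕ) (n : ℕ) : cf (f + h) n = cf f n + cf h n := by
  unfold cf
  exact map_add _ _ _

lemma anti_lt {n N : ℕ} (hn : n < N) {x : ℕ × ℕ} (hx : x ∈ antidiagonal n) : x.2 < N := by
  have := Finset.HasAntidiagonal.mem_antidiagonal.mp hx
  omega

lemma T0_eq (q p : ℕ → ℕ) (N : ℕ) : ∀ K n : ℕ, n < N →
    T 0 K N n q p = cf ((PowerSeries.mk q) ^ K) n := by
  intro K
  induction K with
  | zero =>
    intro n _
    rw [T_zero, pow_zero, pow_zero]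
    unfold cf
    rw [PowerSeries.coeff_one]
  | succ K ih =>
    intro n hn
    rw [T0_succ K N n hn, pow_succ', cf_mul]
    refine Finset.sum_congr rfl fun x hx => ?_
    rw [cf_mk, ih x.2 (anti_lt hn hx)]

lemma G1_succ (K : ℕ) (q q1 : PowerSeries ℕ) : G1 (K + 1) q q1 = q1 * q ^ K + q * G1 K q q1 := by
  unfold G1
  rw [Nat.add_sub_cancel]
  cases K with
  | zero => simp
  | succ K =>
    rw [Nat.add_sub_cancel]
    push_cast
    ring

lemma G2_succ (K : ℕ) (q q1 q2 : PowerSeries ℕ) :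
    G2 (K + 1) q q1 q2 = q2 * q ^ K + 2 * (q1 * G1 K q q1) + q * G2 K q q1 q2 := by
  unfold G1 G2
  cases K with
  | zero => simp
  | succ K =>
    cases K with
    | zero =>
      simp
      ring
    | succ K =>
      have e1 : K + 1 + 1 + 1 - 1 = K + 2 := by omega
      have e2 : K + 1 + 1 + 1 - 2 = K + 1 := by omega
      have e3 : K + 1 + 1 - 1 = K + 1 := by omega
      have e4 : K + 1 + 1 - 2 = K := by omega
      rw [e1, e2, e3, e4]
      push_cast
      ring

lemma T1_eq (q p : ℕ → ℕ) (N : ℕ) : ∀ K n : ℕ, n < N →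
    T 1 K N n q p = cf (G1 K (PowerSeries.mk q) (PowerSeries.mk (fun i => q i * p i))) n := by
  intro K
  induction K with
  | zero =>
    intro n _
    rw [T_zero]
    unfold cf G1
    simp
  | succ K ih =>
    intro n hn
    rw [T1_succ K N n hn, G1_succ, cf_add, cf_mul, cf_mul, ← Finset.sum_add_distrib]
    refine Finset.sum_congr rfl fun x hx => ?_
    rw [cf_mk, cf_mk, ih x.2 (anti_lt hn hx), T0_eq q p N K x.2 (anti_lt hn hx)]

lemma cf_two_mul (f : PowerSeries ℕ) (n : ℕ) : cf (2 * f) n = 2 * cf f n := by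
  rw [two_mul, two_mul, cf_add]

lemma T2_eq (q p : ℕ → ℕ) (N : ℕ) : ∀ K n : ℕ, n < N →
    T 2 K N n q p = cf (G2 K (PowerSeries.mk q) (PowerSeries.mk (fun i => q i * p i))
      (PowerSeries.mk (fun i => q i * (p i * p i)))) n := by
  intro K
  induction K with
  | zero =>
    intro n _
    rw [T_zero]
    unfold cf G2
    simp
  | succ K ih =>
    intro n hn
    rw [T2_succ K N n hn, G2_succ, cf_add, cf_add, cf_two_mul, cf_mul, cf_mul, cf_mul,
      Finset.mul_sum, ← Finset.sum_add_distrib, ← Finset.sum_add_distrib]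
    refine Finset.sum_congr rfl fun x hx => ?_
    rw [cf_mk, cf_mk, cf_mk, ih x.2 (anti_lt hn hx), T0_eq q p N K x.2 (anti_lt hn hx),
      T1_eq q p N K x.2 (anti_lt hn hx)]

/-- sorting the box by the sum of the entries -/
lemma box_sort (e K N : ℕ) (q p : ℕ → ℕ) (A : ℕ → ℝ) :
    ∑ c ∈ Box K N, (if ∑ j, c j < N then
      A (∑ j, c j) * ((∏ j, (q (c j) : ℝ)) * (∑ j, (p (c j) : ℝ)) ^ e) else 0) =
      ∑ n ∈ range N, A n * (T e K N n q p : ℝ) := by
  have : ∀ n ∈ range N, A n * (T e K N n q p : ℝ) = ∑ c ∈ Box K N,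
      if ∑ j, c j = n then A (∑ j, c j) * ((∏ j, (q (c j) : ℝ)) * (∑ j, (p (c j) : ℝ)) ^ e)
        else 0 := by
    intro n _
    unfold T
    rw [Nat.cast_sum, Finset.mul_sum]
    refine Finset.sum_congr rfl fun c _ => ?_
    by_cases h : ∑ j, c j = n
    · rw [if_pos h, if_pos h, h]
      push_cast
      ring
    · rw [if_neg h, if_neg h, Nat.cast_zero, mul_zero]
  rw [Finset.sum_congr rfl this, Finset.sum_comm]
  refine Finset.sum_congr rfl fun c _ => ?_
  rw [Finset.sum_ite_eq]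
  simp only [Finset.mem_range]

end K3

theorem box_sum0 (K N : ℕ) (q : ℕ → ℕ) (A : ℕ → ℝ) :
    ∑ c ∈ Box K N, (if ∑ j, c j < N then A (∑ j, c j) * ∏ j, (q (c j) : ℝ) else 0) =
      ∑ n ∈ range N, A n * (cf ((PowerSeries.mk q) ^ K) n : ℝ) := by
  have h := K3.box_sort 0 K N q (fun _ => 0) A
  simp only [pow_zero, mul_one] at h
  rw [h]
  refine Finset.sum_congr rfl fun n hn => ?_
  rw [K3.T0_eq q _ N K n (Finset.mem_range.mp hn)]

theorem box_sum1 (K N : ℕ) (hK : 1 ≤ K) (q p : ℕ → ℕ) (A : ℕ → ℝ) :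
    ∑ c ∈ Box K N, (if ∑ j, c j < N then A (∑ j, c j) * (∏ j, (q (c j) : ℝ)) * ∑ j, (p (c j) : ℝ) else 0) =
      ∑ n ∈ range N, A n *
        (cf (G1 K (PowerSeries.mk q) (PowerSeries.mk (fun i => q i * p i))) n : ℝ) := by
  have h := K3.box_sort 1 K N q p A
  simp only [pow_one, ← mul_assoc] at h
  rw [h]
  refine Finset.sum_congr rfl fun n hn => ?_
  rw [K3.T1_eq q p N K n (Finset.mem_range.mp hn)]

theorem box_sum2 (K N : ℕ) (hK : 2 ≤ K) (q p : ℕ → ℕ) (A : ℕ → ℝ) :
    ∑ c ∈ Box K N, (if ∑ j, c j < N then A (∑ j, c j) * (∏ j, (q (c j) : ℝ)) * (∑ j, (p (c j) : ℝ)) ^ 2 else 0) =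
      ∑ n ∈ range N, A n *
        (cf (G2 K (PowerSeries.mk q) (PowerSeries.mk (fun i => q i * p i))
          (PowerSeries.mk (fun i => q i * (p i * p i)))) n : ℝ) := by
  have h := K3.box_sort 2 K N q p A
  simp only [← mul_assoc] at h
  rw [h]
  refine Finset.sum_congr rfl fun n hn => ?_
  rw [K3.T2_eq q p N K n (Finset.mem_range.mp hn)]

end Pool.Agent.H95R2.BG.Cert
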