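import Mathlib
import Pool.Agent.H95R2.BG.CertMath
import Pool.Agent.H95R2.BG.K3

/-! BG project (helper95), task K4 (helper93): the sums of `FF`. -/

open Finset

namespace Pool.Agent.H95R2.BG.Cert

theorem k4_rad {K : ℕ} (c : Fin K → ℕ) : rad c = ∑ j, c j + K := by
  unfold rad
  rw [sum_add_distrib]
  simp

theorem FF_supp (c : Fin 49 → ℕ) (h : FF c ≠ 0) : rad c ≤ 30895 + 1920 + 1 := by
  unfold FF at h
  split_ifs at h with h1
  · rw [k4_rad]; omega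
  · exact absurd rfl h

/-- the three box sums together -/
theorem k4_all (K : ℕ) (hK : 2 ≤ K) (A0 A1 A2 : ℕ → ℝ) :
    ∑ c ∈ Box K 32768, (if ∑ j, c j < 32768 then
      (∏ j, ((g (c j) * g (c j) : ℕ) : ℝ)) * (A0 (∑ j, c j) + A1 (∑ j, c j) * ∑ j, (ph (c j) : ℝ) +
        A2 (∑ j, c j) * (∑ j, (ph (c j) : ℝ)) ^ 2) else 0) =
    ∑ n ∈ range 32768, (A0 n * (cf (Qs ^ K) n : ℝ) + A1 n * (cf (G1 K Qs Q1s) n : ℝ) +
      A2 n * (cf (G2 K Qs Q1s Q2s) n : ℝ)) := by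
  have e0 := box_sum0 K 32768 (fun i => g i * g i) A0
  have e1 := box_sum1 K 32768 (by omega) (fun i => g i * g i) ph A1
  have e2 := box_sum2 K 32768 hK (fun i => g i * g i) ph A2
  rw [sum_add_distrib, sum_add_distrib]
  have q0 : (PowerSeries.mk fun i => g i * g i) = Qs := rfl
  have q1 : (PowerSeries.mk fun i => (fun i => g i * g i) i * ph i) = Q1s := rfl
  have q2 : (PowerSeries.mk fun i => (fun i => g i * g i) i * (ph i * ph i)) = Q2s := rfl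
  rw [q0] at e0
  rw [q0, q1] at e1
  rw [q0, q1, q2] at e2
  rw [← e0, ← e1, ← e2, ← sum_add_distrib, ← sum_add_distrib]
  refine sum_congr rfl fun c _ => ?_
  split_ifs
  · ring
  · simp

theorem sum_F2 : ∑ c ∈ Box 49 32768, FF c ^ 2 =
    ∑ n ∈ range 32768, ((hh T0 n : ℝ) ^ 2 * (cf (Qs ^ 49) n : ℝ) +
      (hh T1 n : ℝ) ^ 2 * (cf (G2 49 Qs Q1s Q2s) n : ℝ) -
      2 * ((hh T0 n : ℝ) * hh T1 n) * (cf (G1 49 Qs Q1s) n : ℝ)) := by
  have key := k4_all 49 (by norm_num) (fun n => (hh T0 n : ℝ) ^ 2)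
    (fun n => - 2 * ((hh T0 n : ℝ) * hh T1 n)) (fun n => (hh T1 n : ℝ) ^ 2)
  have h1 : ∑ c ∈ Box 49 32768, FF c ^ 2 = ∑ c ∈ Box 49 32768, (if ∑ j, c j < 32768 then
      (∏ j, ((g (c j) * g (c j) : ℕ) : ℝ)) * ((hh T0 (∑ j, c j) : ℝ) ^ 2 +
        (- 2 * ((hh T0 (∑ j, c j) : ℝ) * hh T1 (∑ j, c j))) * ∑ j, (ph (c j) : ℝ) +
        (hh T1 (∑ j, c j) : ℝ) ^ 2 * (∑ j, (ph (c j) : ℝ)) ^ 2) else 0) := by
    refine sum_congr rfl fun c _ => ?_
    unfold FF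
    split_ifs
    · have : ∏ j, ((g (c j) * g (c j) : ℕ) : ℝ) = (∏ j, (g (c j) : ℝ)) ^ 2 := by
        rw [← prod_pow]
        refine prod_congr rfl fun j _ => ?_
        push_cast; ring
      rw [this]
      ring
    · norm_num
  rw [h1]
  refine key.trans ?_
  refine sum_congr rfl fun n _ => ?_
  ring

theorem k4_FF_insert (i : Fin 49) (t : ℕ) (c : Fin 48 → ℕ) :
    FF (Fin.insertNth (α := fun _ => ℕ) i t c) = if t + ∑ j, c j < 32768 then
      (g t : ℝ) * (∏ j, (g (c j) : ℝ)) * ((hh T0 (t + ∑ j, c j) : ℝ) -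
        hh T1 (t + ∑ j, c j) * ((ph t : ℝ) + ∑ j, (ph (c j) : ℝ))) else 0 := by
  have h1 : ∑ j, (Fin.insertNth (α := fun _ => ℕ) i t c) j = t + ∑ j, c j := by
    rw [Fin.sum_univ_succAbove _ i]
    simp
  have h2 : ∏ j, (g ((Fin.insertNth (α := fun _ => ℕ) i t c) j) : ℝ) =
      (g t : ℝ) * ∏ j, (g (c j) : ℝ) := by
    rw [Fin.prod_univ_succAbove _ i]
    simp
  have h3 : ∑ j, (ph ((Fin.insertNth (α := fun _ => ℕ) i t c) j) : ℝ) =
      (ph t : ℝ) + ∑ j, (ph (c j) : ℝ) := by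
    rw [Fin.sum_univ_succAbove _ i]
    simp
  unfold FF
  rw [h1, h2, h3]

theorem UU_FF (i : Fin 49) (c : Fin 48 → ℕ) (hc : ∑ j, c j < 32768) : UU 32768 FF i c =
    (∏ j, (g (c j) : ℝ)) * ((ap (∑ j, c j) : ℝ) - am (∑ j, c j) - bb (∑ j, c j) * ∑ j, (ph (c j) : ℝ)) := by
  unfold UU
  set n := ∑ j, c j with hn
  have h1 : ∀ t ∈ range 32768, FF (Fin.insertNth (α := fun _ => ℕ) i t c) =
      if t ∈ range (32768 - n) then
        (g t : ℝ) * (∏ j, (g (c j) : ℝ)) * ((hh T0 (n + t) : ℝ) -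
        hh T1 (n + t) * ((ph t : ℝ) + ∑ j, (ph (c j) : ℝ))) else 0 := by
    intro t _
    rw [k4_FF_insert, ← hn, add_comm t n]
    by_cases h : n + t < 32768
    · rw [if_pos h, if_pos (by rw [mem_range]; omega)]
    · rw [if_neg h, if_neg (by rw [mem_range]; omega)]
  rw [sum_congr rfl h1, ← sum_filter]
  have h2 : (range 32768).filter (fun t => t ∈ range (32768 - n)) = range (32768 - n) := by
    ext t; simp only [mem_filter, mem_range]; omega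
  rw [h2]
  have e : ∀ t ∈ range (32768 - n), (g t : ℝ) * (∏ j, (g (c j) : ℝ)) * ((hh T0 (n + t) : ℝ) -
      hh T1 (n + t) * ((ph t : ℝ) + ∑ j, (ph (c j) : ℝ))) =
      (∏ j, (g (c j) : ℝ)) * ((g t : ℝ) * hh T0 (n + t) - (g t : ℝ) * ph t * hh T1 (n + t) -
        (g t : ℝ) * hh T1 (n + t) * ∑ j, (ph (c j) : ℝ)) := fun t _ => by ring
  rw [sum_congr rfl e, ← mul_sum, sum_sub_distrib, sum_sub_distrib, ← sum_mul]
  unfold ap am bb
  push_cast
  rfl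

theorem UU_FF_zero (i : Fin 49) (c : Fin 48 → ℕ) (hc : 32768 ≤ ∑ j, c j) : UU 32768 FF i c = 0 := by
  unfold UU
  refine sum_eq_zero fun t _ => ?_
  rw [k4_FF_insert, if_neg (by omega)]

theorem sum_U2 (W : ℕ → ℝ) (i : Fin 49) : ∑ c ∈ Box 48 32768, W (rad c) * UU 32768 FF i c ^ 2 =
    ∑ n ∈ range 32768, W (n + 48) *
      (((ap n : ℝ) - am n) ^ 2 * (cf (Qs ^ 48) n : ℝ) -
        2 * ((ap n : ℝ) - am n) * bb n * (cf (G1 48 Qs Q1s) n : ℝ) +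
        (bb n : ℝ) ^ 2 * (cf (G2 48 Qs Q1s Q2s) n : ℝ)) := by
  have key := k4_all 48 (by norm_num) (fun n => W (n + 48) * ((ap n : ℝ) - am n) ^ 2)
    (fun n => W (n + 48) * (- (2 * ((ap n : ℝ) - am n) * bb n))) (fun n => W (n + 48) * (bb n : ℝ) ^ 2)
  have h1 : ∑ c ∈ Box 48 32768, W (rad c) * UU 32768 FF i c ^ 2 =
      ∑ c ∈ Box 48 32768, (if ∑ j, c j < 32768 then
      (∏ j, ((g (c j) * g (c j) : ℕ) : ℝ)) *
        (W (∑ j, c j + 48) * ((ap (∑ j, c j) : ℝ) - am (∑ j, c j)) ^ 2 +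
        (W (∑ j, c j + 48) * (- (2 * ((ap (∑ j, c j) : ℝ) - am (∑ j, c j)) * bb (∑ j, c j)))) *
          ∑ j, (ph (c j) : ℝ) +
        (W (∑ j, c j + 48) * (bb (∑ j, c j) : ℝ) ^ 2) * (∑ j, (ph (c j) : ℝ)) ^ 2) else 0) := by
    refine sum_congr rfl fun c _ => ?_
    rw [k4_rad]
    split_ifs with h
    · rw [UU_FF i c h]
      have : ∏ j, ((g (c j) * g (c j) : ℕ) : ℝ) = (∏ j, (g (c j) : ℝ)) ^ 2 := by
        rw [← prod_pow]
        refine prod_congr rfl fun j _ => ?_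
        push_cast; ring
      rw [this]
      ring
    · rw [UU_FF_zero i c (by omega)]
      norm_num
  rw [h1]
  refine key.trans ?_
  refine sum_congr rfl fun n _ => ?_
  ring

end Pool.Agent.H95R2.BG.Cert
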