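import Mathlib
import Pool.Agent.H95R2.BG.CertMath

/-! BG project (helper95), task K5: the weights. -/

open Finset

namespace Pool.Agent.H95R2.BG.Cert

theorem ta_le (l : ℕ) (hl : l ≤ 30) : ta l < 1048576 := by
  have h : ∀ l < 31, ta l < 1048576 := by decide +kernel
  exact h l (by omega)

theorem ta_mono (l : ℕ) (hl : l < 30) : ta l ≤ ta (l + 1) := by
  have h : ∀ l < 30, ta l ≤ ta (l + 1) := by decide +kernel
  exact h l hl

theorem wl_zero : wl 0 = 0 := by
  have h : ta 0 = 0 := by unfold ta; rfl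
  simp [wl, h]

theorem wl_nonneg (l : ℕ) (hl : l ≤ 30) : 0 ≤ wl l := by
  have h : (ta l : ℝ) < 1048576 := by exact_mod_cast ta_le l hl
  unfold wl
  exact div_nonneg (Nat.cast_nonneg _) (by linarith)

theorem mul_nonneg' (l : Fin 30) : 0 ≤ mul l := by
  have h1 : (ta l : ℝ) ≤ ta (l + 1) := by exact_mod_cast ta_mono l l.2
  have h2 : (ta ((l : ℕ) + 1) : ℝ) < 1048576 := by exact_mod_cast ta_le (l + 1) l.2
  have h3 : wl l ≤ wl (l + 1) := by
    unfold wl
    exact div_le_div₀ (Nat.cast_nonneg _) h1 (by linarith) (by linarith)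
  unfold mul
  linarith

theorem sum_mul (k : ℕ) (hk : k ≤ 30) :
    (∑ l : Fin 30, if (l : ℕ) < k then mul l else 0) = 3 / 4 * wl k := by
  have h1 : (∑ l : Fin 30, if (l : ℕ) < k then mul l else 0) =
      ∑ l : Fin 30, (fun l : ℕ => if l < k then 3 / 4 * (wl (l + 1) - wl l) else 0) l := by
    refine Finset.sum_congr rfl fun l _ => ?_
    simp only [mul]
  rw [h1, Fin.sum_univ_eq_sum_range (fun l : ℕ => if l < k then 3 / 4 * (wl (l + 1) - wl l) else 0) 30,
    ← Finset.sum_filter]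
  have h2 : (Finset.range 30).filter (fun l => l < k) = Finset.range k := by
    ext l
    simp only [Finset.mem_filter, Finset.mem_range]
    omega
  rw [h2, ← Finset.mul_sum, Finset.sum_range_sub, wl_zero, sub_zero]

theorem wgt_low (T q n : ℕ) (h : n < 28928) : wgt T q n = q := by
  unfold wgt
  have : Nat.ble (Nat.add (Nat.div n 64) 1) 452 = true := by
    rw [Nat.ble_eq]
    show n / 64 + 1 ≤ 452
    omega
  rw [this]
  rfl

theorem wgt_high (T q n b : ℕ) (h : n / 64 = 452 + b) : wgt T q n = look T 40 b := by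
  unfold wgt
  have h1 : Nat.ble (Nat.add (Nat.div n 64) 1) 452 = false := by
    rw [← Bool.not_eq_true, Nat.ble_eq]
    show ¬ (n / 64 + 1 ≤ 452)
    omega
  have h2 : Nat.sub (Nat.div n 64) 452 = b := by
    show n / 64 - 452 = b
    omega
  rw [h1, h2]
  rfl

theorem WW_X (s : ℕ) (h : s + 1920 ≤ 30895) : WW s ≤ 1 := by
  unfold WW
  rw [if_pos (by omega), wgt_low _ _ _ (by omega), wgt_low _ _ _ (by omega)]
  norm_num

theorem lookTP0 (j : ℕ) (h : 30 ≤ j) (h' : j < 60) : look TP 40 j = 0 := by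
  have h1 : ∀ j < 60, 30 ≤ j → look TP 40 j = 0 := by decide +kernel
  exact h1 j h' h

theorem lookTN0 (j : ℕ) (h : j < 30) : look TN 40 j = 0 := by
  have h1 : ∀ j < 30, look TN 40 j = 0 := by decide +kernel
  exact h1 j h

theorem bound (l : ℕ) (h : l < 30) :
    3 * ta (l + 1) * 30895 * 1048576 ≤
      look TN 40 (30 + l) * (1048576 - ta (l + 1)) * (30895 - 64 * (l + 1)) := by
  have h1 : ∀ l < 30, 3 * ta (l + 1) * 30895 * 1048576 ≤
      look TN 40 (30 + l) * (1048576 - ta (l + 1)) * (30895 - 64 * (l + 1)) := by decide +kernel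
  exact h1 l h

theorem WW_A (s : ℕ) (h : 30895 < s + 1920) (h' : s ≤ 30895) :
    WW s ≤ 1 - 1 / (1 + 4 / 3 * ∑ l : Fin 30, if 64 * (l : ℕ) ≤ 30895 - s then mul l else 0) := by
  obtain ⟨d, hd⟩ : ∃ d, d = 30895 - s := ⟨_, rfl⟩
  have hd2 : d ≤ 1919 := by omega
  have hs : (∑ l : Fin 30, if 64 * (l : ℕ) ≤ 30895 - s then mul l else 0) = 3 / 4 * wl (d / 64 + 1) := by
    rw [← sum_mul (d / 64 + 1) (by omega)]
    refine Finset.sum_congr rfl fun l _ => ?_
    have : (64 * (l : ℕ) ≤ 30895 - s) ↔ ((l : ℕ) < d / 64 + 1) := by omega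
    simp only [this]
  have ht := ta_le (d / 64 + 1) (by omega)
  have hta : look TP 40 (29 - d / 64) = ta (d / 64 + 1) := by
    unfold ta
    rw [if_neg (by omega)]
    congr 1
    omega
  unfold WW
  rw [if_pos (by omega), wgt_high _ _ (s - 48) (29 - d / 64) (by omega),
    wgt_high _ _ (s - 48) (29 - d / 64) (by omega), lookTN0 _ (by omega), hs, hta]
  have ht' : (0 : ℝ) < 1048576 - ta (d / 64 + 1) := by
    have : (ta (d / 64 + 1) : ℝ) < 1048576 := by exact_mod_cast ht
    linarith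
  unfold wl
  refine le_of_eq ?_
  field_simp
  ring

theorem WW_B (s : ℕ) (h : 30895 < s) (h' : s ≤ 30895 + 1920) :
    WW s ≤ - (4 * (∑ l : Fin 30, if 64 * (l : ℕ) < s - 30895 then mul l else 0) / (2 - (s : ℝ) / (30895 : ℕ))) := by
  obtain ⟨e, he⟩ : ∃ e, s = 30896 + e := ⟨s - 30896, by omega⟩
  have he2 : e ≤ 1919 := by omega
  have hs : (∑ l : Fin 30, if 64 * (l : ℕ) < s - 30895 then mul l else 0) = 3 / 4 * wl (e / 64 + 1) := by
    rw [← sum_mul (e / 64 + 1) (by omega)]
    refine Finset.sum_congr rfl fun l _ => ?_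
    have : (64 * (l : ℕ) < s - 30895) ↔ ((l : ℕ) < e / 64 + 1) := by omega
    simp only [this]
  have ht := ta_le (e / 64 + 1) (by omega)
  have hb := bound (e / 64) (by omega)
  have hw := wl_nonneg (e / 64 + 1) (by omega)
  rw [hs]
  unfold WW
  rw [if_pos (by omega), wgt_high _ _ (s - 48) (30 + e / 64) (by omega),
    wgt_high _ _ (s - 48) (30 + e / 64) (by omega), lookTP0 _ (by omega) (by omega)]
  obtain ⟨l, hl⟩ : ∃ l, e / 64 = l := ⟨_, rfl⟩
  rw [hl] at ht hb hw ⊢
  have hl2 : e ≤ 64 * l + 63 := by omega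
  have hl3 : l ≤ 29 := by omega
  have h1 : (0 : ℝ) < 1048576 - ta (l + 1) := by
    have : (ta (l + 1) : ℝ) < 1048576 := by exact_mod_cast ht
    linarith
  have h2 : (0 : ℝ) < 30895 - 64 * (l + 1) := by
    have : (l : ℝ) ≤ 29 := by exact_mod_cast hl3
    linarith
  have hb' : 3 * (ta (l + 1) : ℝ) * 30895 * 1048576 ≤
      look TN 40 (30 + l) * (1048576 - ta (l + 1)) * (30895 - 64 * (l + 1)) := by
    have h3 : ((1048576 - ta (l + 1) : ℕ) : ℝ) = 1048576 - ta (l + 1) := by
      rw [Nat.cast_sub ht.le]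
      norm_num
    have h4 : ((30895 - 64 * (l + 1) : ℕ) : ℝ) = 30895 - 64 * (l + 1) := by
      rw [Nat.cast_sub (by omega)]
      push_cast
      ring
    have := (Nat.cast_le (α := ℝ)).2 hb
    simp only [Nat.cast_mul, h3, h4] at this
    exact_mod_cast this
  have hs1 : (30895 - 64 * (l + 1) : ℝ) / 30895 ≤ 2 - (s : ℝ) / (30895 : ℕ) := by
    have : (e : ℝ) ≤ 64 * l + 63 := by exact_mod_cast hl2
    rw [he]
    push_cast
    rw [div_le_iff₀ (by norm_num)]
    have h5 : (2 - (30896 + (e : ℝ)) / 30895) * 30895 = 61790 - (30896 + e) := by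
      field_simp
      ring
    rw [h5]
    linarith
  have hs2 : (0 : ℝ) < (30895 - 64 * (l + 1) : ℝ) / 30895 := div_pos h2 (by norm_num)
  have hmain : 4 * (3 / 4 * wl (l + 1)) / (2 - (s : ℝ) / (30895 : ℕ)) ≤ (look TN 40 (30 + l) : ℝ) / 1048576 := by
    calc 4 * (3 / 4 * wl (l + 1)) / (2 - (s : ℝ) / (30895 : ℕ))
        ≤ 4 * (3 / 4 * wl (l + 1)) / ((30895 - 64 * (l + 1) : ℝ) / 30895) :=
          div_le_div_of_nonneg_left
            (mul_nonneg (by norm_num) (mul_nonneg (by norm_num) hw)) hs2 hs1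
      _ ≤ (look TN 40 (30 + l) : ℝ) / 1048576 := by
          unfold wl
          rw [div_le_div_iff₀ hs2 (by norm_num)]
          have h6 : 4 * (3 / 4 * ((ta (l + 1) : ℝ) / (1048576 - ta (l + 1)))) * 1048576 =
              3 * (ta (l + 1) : ℝ) * 1048576 / (1048576 - ta (l + 1)) := by
            field_simp
          rw [h6, div_le_iff₀ h1]
          have h7 : (look TN 40 (30 + l) : ℝ) * ((30895 - 64 * (l + 1)) / 30895) * (1048576 - ta (l + 1)) =
              (look TN 40 (30 + l) * (1048576 - ta (l + 1)) * (30895 - 64 * (l + 1))) / 30895 := by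
            field_simp
          rw [h7, le_div_iff₀ (by norm_num)]
          linarith
  have : ((0 : ℕ) : ℝ) - (look TN 40 (30 + l) : ℝ) = - (look TN 40 (30 + l) : ℝ) := by simp
  rw [this, neg_div]
  exact neg_le_neg hmain

end Pool.Agent.H95R2.BG.Cert
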