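import Pool.Agent.H95R2.BG.CertDefs

/-! BG project (helper95): the kernel computation. -/

namespace Pool.Agent.H95R2.BG.Cert

/-- the main inequality (about one minute of kernel time) -/
theorem chk : Nat.ble (Nat.add lhs 1) rhs = true := by decide +kernel

/-- total masses -/
theorem chk0 : Nat.ble (dc 0 1 1 lq 15 0 0 0 0 0 0 0) (Nat.pow 2 32) = true := by decide +kernel

theorem chk1 : Nat.ble (dc 0 1 1 lq1 15 0 0 0 0 0 0 0) (Nat.pow 2 38) = true := by decide +kernel

theorem chk2 : Nat.ble (dc 0 1 1 lq2 15 0 0 0 0 0 0 0) (Nat.pow 2 51) = true := by decide +kernel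

end Pool.Agent.H95R2.BG.Cert
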