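import Mathlib
import Pool.Agent.H95R2.BG.CertMath

/-! BG project (helper95): packed arrays (K1, helper819). -/

set_option autoImplicit false

open Finset

namespace Pool.Agent.H95R2.BG.Cert

theorem pk_add (B n m : ℕ) (u : ℕ → ℕ) :
    pk B (n + m) u = pk B n u + pk B m (fun i => u (n + i)) * 2 ^ (B * n) := by
  unfold pk
  rw [Finset.sum_range_add, Finset.sum_mul]
  refine congrArg₂ (· + ·) rfl (Finset.sum_congr rfl fun i _ => ?_)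
  rw [mul_add, pow_add]
  ring

theorem pk_succ_pow (B k : ℕ) (u : ℕ → ℕ) :
    pk B (2 ^ (k + 1)) u = pk B (2 ^ k) u + pk B (2 ^ k) (fun i => u (2 ^ k + i)) * 2 ^ (B * 2 ^ k) := by
  rw [pow_succ, mul_two, pk_add]

theorem pk_lt (B n : ℕ) (u : ℕ → ℕ) (h : ∀ i < n, u i < 2 ^ B) : pk B n u < 2 ^ (B * n) := by
  induction n with
  | zero => simp [pk]
  | succ n ih =>
    have h1 := ih fun i hi => h i (by omega)
    have h2 : pk B (n + 1) u = pk B n u + u n * 2 ^ (B * n) := by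
      unfold pk
      rw [Finset.sum_range_succ]
    have h3 : u n + 1 ≤ 2 ^ B := h n (by omega)
    have h4 : (u n + 1) * 2 ^ (B * n) ≤ 2 ^ B * 2 ^ (B * n) := Nat.mul_le_mul_right _ h3
    have h5 : 2 ^ (B * (n + 1)) = 2 ^ B * 2 ^ (B * n) := by
      rw [mul_add, mul_one, pow_add, mul_comm]
    rw [h2, h5]
    have h6 : (u n + 1) * 2 ^ (B * n) = u n * 2 ^ (B * n) + 2 ^ (B * n) := by ring
    omega

theorem land_mask (a m : ℕ) : Nat.land a (Nat.sub (Nat.shiftLeft 1 m) 1) = a % 2 ^ m := by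
  have h : Nat.shiftLeft 1 m = 2 ^ m := by
    have := Nat.shiftLeft_eq 1 m
    rw [one_mul] at this
    exact this
  rw [h]
  exact Nat.and_two_pow_sub_one_eq_mod a m

theorem pk_land (B k : ℕ) (u : ℕ → ℕ) (h : ∀ i < 2 ^ k, u i < 2 ^ B) :
    Nat.land (pk B (2 ^ (k + 1)) u) (Nat.sub (Nat.shiftLeft 1 (Nat.mul B (Nat.pow 2 k))) 1) = pk B (2 ^ k) u := by
  rw [land_mask, pk_succ_pow]
  show (pk B (2 ^ k) u + pk B (2 ^ k) (fun i => u (2 ^ k + i)) * 2 ^ (B * 2 ^ k)) % 2 ^ (B * 2 ^ k) = _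
  rw [Nat.add_mul_mod_self_right]
  exact Nat.mod_eq_of_lt (pk_lt B _ u h)

theorem pk_shiftRight (B k : ℕ) (u : ℕ → ℕ) (h : ∀ i < 2 ^ k, u i < 2 ^ B) :
    Nat.shiftRight (pk B (2 ^ (k + 1)) u) (Nat.mul B (Nat.pow 2 k)) = pk B (2 ^ k) (fun i => u (2 ^ k + i)) := by
  show (pk B (2 ^ (k + 1)) u) >>> (B * 2 ^ k) = _
  rw [Nat.shiftRight_eq_div_pow, pk_succ_pow,
    Nat.add_mul_div_right _ _ (Nat.pow_pos (by norm_num)),
    Nat.div_eq_of_lt (pk_lt B _ u h), zero_add]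

theorem pk_zero_fun (B n : ℕ) : pk B n (fun _ => 0) = 0 := by
  simp [pk]

theorem pk_base_zero (n : ℕ) (u : ℕ → ℕ) : pk 0 n u = ∑ i ∈ range n, u i := by
  simp [pk]

theorem pk_one (B : ℕ) (u : ℕ → ℕ) : pk B (2 ^ 0) u = u 0 := by
  simp [pk]

theorem dc_zero (Bo Ba Bb : ℕ) (leaf : ℕ → ℕ → ℕ → ℕ → ℕ → ℕ → ℕ → ℕ) (lo x1 x2 x3 y1 y2 y3 : ℕ) :
    dc Bo Ba Bb leaf 0 lo x1 x2 x3 y1 y2 y3 = leaf lo x1 x2 x3 y1 y2 y3 := rfl

theorem dc_succ (Bo Ba Bb : ℕ) (leaf : ℕ → ℕ → ℕ → ℕ → ℕ → ℕ → ℕ → ℕ)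
    (k lo x1 x2 x3 y1 y2 y3 : ℕ) :
    dc Bo Ba Bb leaf (k + 1) lo x1 x2 x3 y1 y2 y3 =
      Nat.add
        (dc Bo Ba Bb leaf k lo (Nat.land x1 (Nat.sub (Nat.shiftLeft 1 (Nat.mul Ba (Nat.pow 2 k))) 1))
          (Nat.land x2 (Nat.sub (Nat.shiftLeft 1 (Nat.mul Ba (Nat.pow 2 k))) 1))
          (Nat.land x3 (Nat.sub (Nat.shiftLeft 1 (Nat.mul Ba (Nat.pow 2 k))) 1))
          (Nat.land y1 (Nat.sub (Nat.shiftLeft 1 (Nat.mul Bb (Nat.pow 2 k))) 1))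
          (Nat.land y2 (Nat.sub (Nat.shiftLeft 1 (Nat.mul Bb (Nat.pow 2 k))) 1))
          (Nat.land y3 (Nat.sub (Nat.shiftLeft 1 (Nat.mul Bb (Nat.pow 2 k))) 1)))
        (Nat.shiftLeft
          (dc Bo Ba Bb leaf k (Nat.add lo (Nat.pow 2 k)) (Nat.shiftRight x1 (Nat.mul Ba (Nat.pow 2 k)))
            (Nat.shiftRight x2 (Nat.mul Ba (Nat.pow 2 k)))
            (Nat.shiftRight x3 (Nat.mul Ba (Nat.pow 2 k)))
            (Nat.shiftRight y1 (Nat.mul Bb (Nat.pow 2 k)))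
            (Nat.shiftRight y2 (Nat.mul Bb (Nat.pow 2 k)))
            (Nat.shiftRight y3 (Nat.mul Bb (Nat.pow 2 k))))
          (Nat.mul Bo (Nat.pow 2 k))) := rfl

/-- the traversal computes the packed array of the leaves -/
theorem dc_spec (Bo Ba Bb : ℕ) (leaf : ℕ → ℕ → ℕ → ℕ → ℕ → ℕ → ℕ → ℕ) (k lo : ℕ)
    (u1 u2 u3 v1 v2 v3 : ℕ → ℕ) (h1 : ∀ i < 2 ^ k, u1 i < 2 ^ Ba) (h2 : ∀ i < 2 ^ k, u2 i < 2 ^ Ba)
    (h3 : ∀ i < 2 ^ k, u3 i < 2 ^ Ba) (k1 : ∀ i < 2 ^ k, v1 i < 2 ^ Bb) (k2 : ∀ i < 2 ^ k, v2 i < 2 ^ Bb)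
    (k3 : ∀ i < 2 ^ k, v3 i < 2 ^ Bb) :
    dc Bo Ba Bb leaf k lo (pk Ba (2 ^ k) u1) (pk Ba (2 ^ k) u2) (pk Ba (2 ^ k) u3)
      (pk Bb (2 ^ k) v1) (pk Bb (2 ^ k) v2) (pk Bb (2 ^ k) v3) =
    pk Bo (2 ^ k) (fun i => leaf (lo + i) (u1 i) (u2 i) (u3 i) (v1 i) (v2 i) (v3 i)) := by
  induction k generalizing lo u1 u2 u3 v1 v2 v3 with
  | zero =>
    rw [dc_zero]
    simp only [pk_one, add_zero]
  | succ k ih =>
    have lo2 : ∀ {i : ℕ}, i < 2 ^ k → i < 2 ^ (k + 1) := fun hi =>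
      hi.trans_le (Nat.pow_le_pow_right (by norm_num) (by omega))
    have hi2 : ∀ {i : ℕ}, i < 2 ^ k → 2 ^ k + i < 2 ^ (k + 1) := by
      intro i hi
      rw [pow_succ, mul_two]
      omega
    rw [dc_succ]
    rw [pk_land Ba k u1 (fun i hi => h1 i (lo2 hi)), pk_land Ba k u2 (fun i hi => h2 i (lo2 hi)),
      pk_land Ba k u3 (fun i hi => h3 i (lo2 hi)), pk_land Bb k v1 (fun i hi => k1 i (lo2 hi)),
      pk_land Bb k v2 (fun i hi => k2 i (lo2 hi)), pk_land Bb k v3 (fun i hi => k3 i (lo2 hi)),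
      pk_shiftRight Ba k u1 (fun i hi => h1 i (lo2 hi)),
      pk_shiftRight Ba k u2 (fun i hi => h2 i (lo2 hi)),
      pk_shiftRight Ba k u3 (fun i hi => h3 i (lo2 hi)),
      pk_shiftRight Bb k v1 (fun i hi => k1 i (lo2 hi)),
      pk_shiftRight Bb k v2 (fun i hi => k2 i (lo2 hi)),
      pk_shiftRight Bb k v3 (fun i hi => k3 i (lo2 hi))]
    rw [ih lo u1 u2 u3 v1 v2 v3 (fun i hi => h1 i (lo2 hi)) (fun i hi => h2 i (lo2 hi))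
      (fun i hi => h3 i (lo2 hi)) (fun i hi => k1 i (lo2 hi)) (fun i hi => k2 i (lo2 hi))
      (fun i hi => k3 i (lo2 hi))]
    rw [ih (Nat.add lo (Nat.pow 2 k)) (fun i => u1 (2 ^ k + i)) (fun i => u2 (2 ^ k + i))
      (fun i => u3 (2 ^ k + i)) (fun i => v1 (2 ^ k + i)) (fun i => v2 (2 ^ k + i))
      (fun i => v3 (2 ^ k + i)) (fun i hi => h1 _ (hi2 hi)) (fun i hi => h2 _ (hi2 hi))
      (fun i hi => h3 _ (hi2 hi)) (fun i hi => k1 _ (hi2 hi)) (fun i hi => k2 _ (hi2 hi))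
      (fun i hi => k3 _ (hi2 hi))]
    rw [pk_succ_pow]
    have e1 : ∀ a m : ℕ, Nat.shiftLeft a m = a * 2 ^ m := fun a m => Nat.shiftLeft_eq a m
    rw [e1]
    have e2 : ∀ i : ℕ, Nat.add lo (Nat.pow 2 k) + i = lo + (2 ^ k + i) := fun i => by
      show lo + 2 ^ k + i = lo + (2 ^ k + i)
      rw [add_assoc]
    simp only [e2]
    rfl

end Pool.Agent.H95R2.BG.Cert
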