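import Mathlib
import Pool.Agent.H95R2.BG.CertMath

/-! BG project (helper95), task K2: products of packed power series, correlations. -/

open Finset

namespace Pool.Agent.H95R2.BG.Cert

theorem K2_pk_lt (B n : ℕ) (u : ℕ → ℕ) (h : ∀ i < n, u i < 2 ^ B) : pk B n u < 2 ^ (B * n) := by
  induction n with
  | zero => simp [pk]
  | succ n ih =>
    have h1 := ih (fun i hi => h i (by omega))
    have h2 := h n (by omega)
    unfold pk at h1 ⊢
    rw [sum_range_succ]
    have h3 : u n * 2 ^ (B * n) + 2 ^ (B * n) ≤ 2 ^ (B * (n + 1)) := by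
      calc u n * 2 ^ (B * n) + 2 ^ (B * n) = (u n + 1) * 2 ^ (B * n) := by ring
        _ ≤ 2 ^ B * 2 ^ (B * n) := Nat.mul_le_mul_right _ h2
        _ = 2 ^ (B * (n + 1)) := by rw [← pow_add]; ring_nf
    omega

theorem coeff_le_nrm (n i : ℕ) (hi : i < n) (f : PowerSeries ℕ) : cf f i ≤ nrm n f := by
  unfold nrm
  exact Finset.single_le_sum (f := fun i => cf f i) (fun _ _ => Nat.zero_le _) (mem_range.2 hi)

theorem K2_cf_mul (f h : PowerSeries ℕ) (i : ℕ) :
    cf (f * h) i = ∑ k ∈ range (i + 1), cf f k * cf h (i - k) := by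
  unfold cf
  rw [PowerSeries.coeff_mul,
    Finset.Nat.sum_antidiagonal_eq_sum_range_succ (fun a b => PowerSeries.coeff a f * PowerSeries.coeff b h)]

theorem K2_split (n a : ℕ) (ha : a < n) (F : ℕ → ℕ) :
    ∑ b ∈ range n, F b = ∑ b ∈ range (n - a), F b + ∑ b ∈ range a, F (n - a + b) := by
  have h1 : n = (n - a) + a := by omega
  conv_lhs => rw [h1]
  rw [Finset.sum_range_add]

theorem nrm_mul (n : ℕ) (f h : PowerSeries ℕ) : nrm n (f * h) ≤ nrm n f * nrm n h := by
  unfold nrm
  have h1 : ∑ i ∈ range n, cf (f * h) i = ∑ a ∈ range n, ∑ b ∈ range (n - a), cf f a * cf h b := by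
    rw [← Finset.sum_range_diag_flip n (fun a b => cf f a * cf h b)]
    exact sum_congr rfl fun i _ => K2_cf_mul f h i
  rw [h1, sum_mul_sum]
  refine sum_le_sum fun a _ => ?_
  exact sum_le_sum_of_subset (range_subset_range.2 (Nat.sub_le _ _))

theorem nrm_add (n : ℕ) (f h : PowerSeries ℕ) : nrm n (f + h) = nrm n f + nrm n h := by
  unfold nrm cf
  rw [← sum_add_distrib]
  exact sum_congr rfl fun i _ => by rw [map_add]

theorem K2_cf_natCast_mul (m : ℕ) (f : PowerSeries ℕ) (i : ℕ) :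
    cf ((m : PowerSeries ℕ) * f) i = m * cf f i := by
  unfold cf
  rw [← nsmul_eq_mul, map_nsmul, nsmul_eq_mul, Nat.cast_id]

theorem nrm_natCast_mul (n m : ℕ) (f : PowerSeries ℕ) :
    nrm n ((m : PowerSeries ℕ) * f) = m * nrm n f := by
  unfold nrm
  rw [mul_sum]
  exact sum_congr rfl fun i _ => K2_cf_natCast_mul m f i

theorem nrm_pow (n m : ℕ) (hn : 0 < n) (f : PowerSeries ℕ) : nrm n (f ^ m) ≤ nrm n f ^ m := by
  induction m with
  | zero =>
    rw [pow_zero, pow_zero]
    unfold nrm cf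
    have h1 : ∀ i ∈ range n, PowerSeries.coeff i (1 : PowerSeries ℕ) = if i = 0 then 1 else 0 :=
      fun i _ => PowerSeries.coeff_one i
    rw [sum_congr rfl h1, sum_ite_eq' (range n) 0 (fun _ => 1)]
    split_ifs <;> omega
  | succ m ih =>
    rw [pow_succ, pow_succ]
    exact (nrm_mul n _ _).trans (Nat.mul_le_mul_right _ ih)

theorem pkS_mul (B n : ℕ) (f h : PowerSeries ℕ) (hb : nrm n f * nrm n h < 2 ^ B) :
    Nat.land (Nat.mul (pkS B n f) (pkS B n h)) (Nat.sub (Nat.shiftLeft 1 (B * n)) 1) = pkS B n (f * h) := by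
  have e0 : Nat.sub (Nat.shiftLeft 1 (B * n)) 1 = 2 ^ (B * n) - 1 := by
    show (1 <<< (B * n)) - 1 = 2 ^ (B * n) - 1
    rw [Nat.shiftLeft_eq, one_mul]
  have e1 : ∀ x : ℕ, Nat.land x (2 ^ (B * n) - 1) = x % 2 ^ (B * n) := fun x =>
    Nat.and_two_pow_sub_one_eq_mod x (B * n)
  rw [e0, e1]
  have e2 : Nat.mul (pkS B n f) (pkS B n h) = pkS B n (f * h) +
      2 ^ (B * n) * ∑ a ∈ range n, ∑ b ∈ range a, cf f a * cf h (n - a + b) * 2 ^ (B * b) := by
    show pkS B n f * pkS B n h = _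
    unfold pkS pk
    rw [sum_mul_sum]
    have e3 : ∑ i ∈ range n, cf (f * h) i * 2 ^ (B * i) =
        ∑ a ∈ range n, ∑ b ∈ range (n - a), cf f a * 2 ^ (B * a) * (cf h b * 2 ^ (B * b)) := by
      rw [← Finset.sum_range_diag_flip n (fun a b => cf f a * 2 ^ (B * a) * (cf h b * 2 ^ (B * b)))]
      refine sum_congr rfl fun i _ => ?_
      rw [K2_cf_mul, sum_mul]
      refine sum_congr rfl fun k hk => ?_
      have hk' : k ≤ i := by
        have := mem_range.1 hk
        omega
      have e4 : 2 ^ (B * i) = 2 ^ (B * k) * 2 ^ (B * (i - k)) := by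
        rw [← pow_add, ← mul_add]
        congr 2
        omega
      rw [e4]
      ring
    rw [e3, mul_sum, ← sum_add_distrib]
    refine sum_congr rfl fun a ha => ?_
    have ha' : a < n := mem_range.1 ha
    rw [K2_split n a ha', mul_sum]
    congr 1
    refine sum_congr rfl fun b _ => ?_
    have e5 : 2 ^ (B * a) * 2 ^ (B * (n - a + b)) = 2 ^ (B * n) * 2 ^ (B * b) := by
      rw [← pow_add, ← pow_add, ← mul_add, ← mul_add]
      congr 2
      omega
    calc cf f a * 2 ^ (B * a) * (cf h (n - a + b) * 2 ^ (B * (n - a + b)))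
        = cf f a * cf h (n - a + b) * (2 ^ (B * a) * 2 ^ (B * (n - a + b))) := by ring
      _ = 2 ^ (B * n) * (cf f a * cf h (n - a + b) * 2 ^ (B * b)) := by rw [e5]; ring
  rw [e2, Nat.add_mul_mod_self_left]
  apply Nat.mod_eq_of_lt
  apply K2_pk_lt
  intro i hi
  exact ((coeff_le_nrm n i hi _).trans (nrm_mul n f h)).trans_lt hb

theorem pkS_add (B n : ℕ) (f h : PowerSeries ℕ) : pkS B n (f + h) = pkS B n f + pkS B n h := by
  unfold pkS pk cf
  rw [← sum_add_distrib]
  exact sum_congr rfl fun i _ => by rw [map_add, add_mul]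

theorem pkS_natCast_mul (B n m : ℕ) (f : PowerSeries ℕ) :
    pkS B n ((m : PowerSeries ℕ) * f) = m * pkS B n f := by
  unfold pkS pk
  rw [mul_sum]
  exact sum_congr rfl fun i _ => by rw [K2_cf_natCast_mul, mul_assoc]

/-- correlation of two arrays -/
theorem corr_spec (B n : ℕ) (hn : 0 < n) (w h : ℕ → ℕ) (Wm Hm : ℕ) (hw : ∀ i < n, w i ≤ Wm) (hh : ∀ i < n, h i ≤ Hm)
    (hb : n * Wm * Hm < 2 ^ B) :
    Nat.shiftRight (Nat.mul (pk B n (fun i => w (n - 1 - i))) (pk B n h)) (B * (n - 1)) =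
      pk B n (fun m => ∑ t ∈ range (n - m), w t * h (m + t)) := by
  have e1 : ∀ x : ℕ, Nat.shiftRight x (B * (n - 1)) = x / 2 ^ (B * (n - 1)) := fun x =>
    Nat.shiftRight_eq_div_pow x (B * (n - 1))
  rw [e1]
  set low : ℕ := ∑ t ∈ range n, ∑ j ∈ range t, w t * h j * 2 ^ (B * (n - 1 - t + j)) with hlow
  have e2 : Nat.mul (pk B n (fun i => w (n - 1 - i))) (pk B n h) =
      low + 2 ^ (B * (n - 1)) * pk B n (fun m => ∑ t ∈ range (n - m), w t * h (m + t)) := by
    show pk B n (fun i => w (n - 1 - i)) * pk B n h = _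
    have e3 : pk B n (fun i => w (n - 1 - i)) = ∑ t ∈ range n, w t * 2 ^ (B * (n - 1 - t)) := by
      unfold pk
      rw [← Finset.sum_range_reflect (fun t => w t * 2 ^ (B * (n - 1 - t))) n]
      refine sum_congr rfl fun i hi => ?_
      have hi' := mem_range.1 hi
      have e4 : n - 1 - (n - 1 - i) = i := by omega
      rw [e4]
    rw [e3]
    unfold pk
    rw [sum_mul_sum]
    have e5 : ∑ m ∈ range n, (∑ t ∈ range (n - m), w t * h (m + t)) * 2 ^ (B * m) =
        ∑ t ∈ range n, ∑ m ∈ range (n - t), w t * h (m + t) * 2 ^ (B * m) := by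
      simp only [sum_mul]
      refine Finset.sum_comm' ?_
      intro x y
      simp only [mem_range]
      omega
    rw [e5, hlow, mul_sum, ← sum_add_distrib]
    refine sum_congr rfl fun t ht => ?_
    have ht' : t < n := mem_range.1 ht
    have e6 : n = t + (n - t) := by omega
    have e7 : ∑ j ∈ range n, w t * 2 ^ (B * (n - 1 - t)) * (h j * 2 ^ (B * j)) =
        ∑ j ∈ range t, w t * 2 ^ (B * (n - 1 - t)) * (h j * 2 ^ (B * j)) +
        ∑ m ∈ range (n - t), w t * 2 ^ (B * (n - 1 - t)) * (h (t + m) * 2 ^ (B * (t + m))) := by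
      conv_lhs => rw [show range n = range (t + (n - t)) by rw [← e6]]
      rw [Finset.sum_range_add]
    rw [e7, mul_sum]
    congr 1
    · refine sum_congr rfl fun j _ => ?_
      rw [mul_add, pow_add]
      ring
    · refine sum_congr rfl fun m _ => ?_
      have e8 : 2 ^ (B * (n - 1 - t)) * 2 ^ (B * (t + m)) = 2 ^ (B * (n - 1)) * 2 ^ (B * m) := by
        rw [← pow_add, ← pow_add, ← mul_add, ← mul_add]
        congr 2
        omega
      calc w t * 2 ^ (B * (n - 1 - t)) * (h (t + m) * 2 ^ (B * (t + m)))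
          = w t * h (t + m) * (2 ^ (B * (n - 1 - t)) * 2 ^ (B * (t + m))) := by ring
        _ = 2 ^ (B * (n - 1)) * (w t * h (m + t) * 2 ^ (B * m)) := by
          rw [e8, add_comm t m]
          ring
  have e9 : low < 2 ^ (B * (n - 1)) := by
    have h1 : low ≤ pk B (n - 1) (fun _ => n * Wm * Hm) := by
      have h2 : ∀ t ∈ range n, ∑ j ∈ range t, w t * h j * 2 ^ (B * (n - 1 - t + j)) ≤
          Wm * Hm * ∑ e ∈ range (n - 1), 2 ^ (B * e) := by
        intro t ht
        have ht' : t < n := mem_range.1 ht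
        have h3 : ∑ j ∈ range t, 2 ^ (B * (n - 1 - t + j)) ≤ ∑ e ∈ range (n - 1), 2 ^ (B * e) := by
          conv_rhs => rw [show n - 1 = (n - 1 - t) + t by omega]
          rw [Finset.sum_range_add]
          exact Nat.le_add_left _ _
        calc ∑ j ∈ range t, w t * h j * 2 ^ (B * (n - 1 - t + j))
            ≤ ∑ j ∈ range t, Wm * Hm * 2 ^ (B * (n - 1 - t + j)) := by
              refine sum_le_sum fun j hj => ?_
              have hj' := mem_range.1 hj
              exact Nat.mul_le_mul_right _ (Nat.mul_le_mul (hw t ht') (hh j (by omega)))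
          _ = Wm * Hm * ∑ j ∈ range t, 2 ^ (B * (n - 1 - t + j)) := by rw [mul_sum]
          _ ≤ _ := Nat.mul_le_mul_left _ h3
      calc low ≤ ∑ _t ∈ range n, Wm * Hm * ∑ e ∈ range (n - 1), 2 ^ (B * e) := sum_le_sum h2
        _ = n * Wm * Hm * ∑ e ∈ range (n - 1), 2 ^ (B * e) := by
          rw [sum_const, card_range, smul_eq_mul]
          ring
        _ = pk B (n - 1) (fun _ => n * Wm * Hm) := by
          unfold pk
          rw [mul_sum]
    exact h1.trans_lt (K2_pk_lt B (n - 1) _ fun _ _ => hb)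
  rw [e2, Nat.add_mul_div_left _ _ (Nat.two_pow_pos _), Nat.div_eq_of_lt e9, zero_add]

end Pool.Agent.H95R2.BG.Cert
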