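import Mathlib
import Pool.Agent.H95R2.BG.CertMath
import Pool.Agent.H95R2.BG.CertCheck
import Pool.Agent.H95R2.BG.K1
import Pool.Agent.H95R2.BG.K2

/-! BG project, task K6a (helper873): norms, the chain `P46, …, P49`, `E1, E2, F1, F2`, digit bounds. -/

set_option autoImplicit false

open Finset

namespace Pool.Agent.H95R2.BG.Cert

/-- generated arrays -/
theorem K6a_dc (Bo : ℕ) (leaf : ℕ → ℕ → ℕ → ℕ → ℕ → ℕ → ℕ → ℕ) :
    dc Bo 1 1 leaf 15 0 0 0 0 0 0 0 = pk Bo 32768 (fun i => leaf i 0 0 0 0 0 0) := by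
  have h := dc_spec Bo 1 1 leaf 15 0 (fun _ => 0) (fun _ => 0) (fun _ => 0) (fun _ => 0)
    (fun _ => 0) (fun _ => 0) (fun _ _ => by norm_num) (fun _ _ => by norm_num)
    (fun _ _ => by norm_num) (fun _ _ => by norm_num) (fun _ _ => by norm_num)
    (fun _ _ => by norm_num)
  rw [pk_zero_fun] at h
  have h2 : (2 : ℕ) ^ 15 = 32768 := by norm_num
  rw [h2] at h
  rw [h]
  unfold pk
  refine Finset.sum_congr rfl fun i _ => ?_
  show leaf (0 + i) 0 0 0 0 0 0 * _ = leaf i 0 0 0 0 0 0 * _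
  rw [Nat.zero_add]

theorem K6a_cfQ (i : ℕ) : cf Qs i = g i * g i := by
  unfold cf Qs
  rw [PowerSeries.coeff_mk]

theorem K6a_cfQ1 (i : ℕ) : cf Q1s i = g i * g i * ph i := by
  unfold cf Q1s
  rw [PowerSeries.coeff_mk]

theorem K6a_cfQ2 (i : ℕ) : cf Q2s i = g i * g i * (ph i * ph i) := by
  unfold cf Q2s
  rw [PowerSeries.coeff_mk]

theorem K6a_lq : (fun i => lq i 0 0 0 0 0 0) = cf Qs := by
  funext i
  rw [K6a_cfQ]
  rfl

theorem K6a_lq1 : (fun i => lq1 i 0 0 0 0 0 0) = cf Q1s := by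
  funext i
  rw [K6a_cfQ1]
  rfl

theorem K6a_lq2 : (fun i => lq2 i 0 0 0 0 0 0) = cf Q2s := by
  funext i
  rw [K6a_cfQ2]
  rfl

theorem nrm_Qs : nrm 32768 Qs ≤ 2 ^ 32 := by
  have h := Nat.le_of_ble_eq_true chk0
  rw [K6a_dc, K6a_lq, pk_base_zero] at h
  exact h

theorem nrm_Q1s : nrm 32768 Q1s ≤ 2 ^ 38 := by
  have h := Nat.le_of_ble_eq_true chk1
  rw [K6a_dc, K6a_lq1, pk_base_zero] at h
  exact h

theorem nrm_Q2s : nrm 32768 Q2s ≤ 2 ^ 51 := by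
  have h := Nat.le_of_ble_eq_true chk2
  rw [K6a_dc, K6a_lq2, pk_base_zero] at h
  exact h

theorem P1_eq : P1 = pkS 1600 32768 Qs := by
  unfold P1 gen pkS
  rw [K6a_dc, K6a_lq]

theorem Q1_eq : Q1 = pkS 1600 32768 Q1s := by
  unfold Q1 gen pkS
  rw [K6a_dc, K6a_lq1]

theorem Q2_eq : Q2 = pkS 1600 32768 Q2s := by
  unfold Q2 gen pkS
  rw [K6a_dc, K6a_lq2]

/-- masses of powers -/
theorem K6a_nrm_pow (a : ℕ) : nrm 32768 (Qs ^ a) ≤ 2 ^ (32 * a) := by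
  refine (nrm_pow 32768 a (by norm_num) Qs).trans ?_
  rw [pow_mul]
  exact Nat.pow_le_pow_left nrm_Qs a

/-- product step, with the factors and the mask length as variables -/
theorem K6a_mul0 (B n s X Y : ℕ) (f h : PowerSeries ℕ) (hs : s = B * n) (hX : X = pkS B n f)
    (hY : Y = pkS B n h) (hb : nrm n f * nrm n h < 2 ^ B) :
    Nat.land (Nat.mul X Y) (Nat.sub (Nat.shiftLeft 1 s) 1) = pkS B n (f * h) := by
  subst hs hX hY
  exact pkS_mul B n f h hb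

attribute [local irreducible] pk pkS nrm

theorem K6a_mul (X Y : ℕ) (f h : PowerSeries ℕ) (hX : X = pkS 1600 32768 f)
    (hY : Y = pkS 1600 32768 h) (a b : ℕ) (ha : nrm 32768 f ≤ 2 ^ a) (hb : nrm 32768 h ≤ 2 ^ b)
    (hab : a + b < 1600) : md (Nat.mul X Y) = pkS 1600 32768 (f * h) := by
  delta md MASK
  refine K6a_mul0 1600 32768 52428800 X Y f h (by norm_num) hX hY ?_
  refine (Nat.mul_le_mul ha hb).trans_lt ?_
  rw [← pow_add]
  have h := Nat.pow_lt_pow_right (a := 2) Nat.one_lt_two hab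
  exact h

theorem K6a_pow (X Y : ℕ) (a b : ℕ) (hX : X = pkS 1600 32768 (Qs ^ a))
    (hY : Y = pkS 1600 32768 (Qs ^ b)) (hab : a + b < 50) :
    md (Nat.mul X Y) = pkS 1600 32768 (Qs ^ (a + b)) := by
  rw [pow_add]
  exact K6a_mul X Y _ _ hX hY (32 * a) (32 * b) (K6a_nrm_pow a) (K6a_nrm_pow b) (by omega)

attribute [local irreducible] P1 Q1 Q2 md MASK

theorem K6a_P1 : P1 = pkS 1600 32768 (Qs ^ 1) := by
  rw [pow_one]
  exact P1_eq

theorem K6a_P2 : P2 = pkS 1600 32768 (Qs ^ 2) := by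
  delta P2
  exact K6a_pow P1 P1 1 1 K6a_P1 K6a_P1 (by norm_num)

attribute [local irreducible] P2

theorem K6a_P4 : P4 = pkS 1600 32768 (Qs ^ 4) := by
  delta P4
  exact K6a_pow P2 P2 2 2 K6a_P2 K6a_P2 (by norm_num)

attribute [local irreducible] P4

theorem K6a_P5 : P5 = pkS 1600 32768 (Qs ^ 5) := by
  delta P5
  exact K6a_pow P4 P1 4 1 K6a_P4 K6a_P1 (by norm_num)

attribute [local irreducible] P5

theorem K6a_P10 : P10 = pkS 1600 32768 (Qs ^ 10) := by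
  delta P10
  exact K6a_pow P5 P5 5 5 K6a_P5 K6a_P5 (by norm_num)

attribute [local irreducible] P10

theorem K6a_P11 : P11 = pkS 1600 32768 (Qs ^ 11) := by
  delta P11
  exact K6a_pow P10 P1 10 1 K6a_P10 K6a_P1 (by norm_num)

attribute [local irreducible] P11

theorem K6a_P22 : P22 = pkS 1600 32768 (Qs ^ 22) := by
  delta P22
  exact K6a_pow P11 P11 11 11 K6a_P11 K6a_P11 (by norm_num)

attribute [local irreducible] P22

theorem K6a_P23 : P23 = pkS 1600 32768 (Qs ^ 23) := by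
  delta P23
  exact K6a_pow P22 P1 22 1 K6a_P22 K6a_P1 (by norm_num)

attribute [local irreducible] P23

theorem P46_eq : P46 = pkS 1600 32768 (Qs ^ 46) := by
  delta P46
  exact K6a_pow P23 P23 23 23 K6a_P23 K6a_P23 (by norm_num)

attribute [local irreducible] P46

theorem P47_eq : P47 = pkS 1600 32768 (Qs ^ 47) := by
  delta P47
  exact K6a_pow P46 P1 46 1 P46_eq K6a_P1 (by norm_num)

attribute [local irreducible] P47

theorem P48_eq : P48 = pkS 1600 32768 (Qs ^ 48) := by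
  delta P48
  exact K6a_pow P47 P1 47 1 P47_eq K6a_P1 (by norm_num)

attribute [local irreducible] P48

theorem P49_eq : P49 = pkS 1600 32768 (Qs ^ 49) := by
  delta P49
  exact K6a_pow P48 P1 48 1 P48_eq K6a_P1 (by norm_num)

attribute [local irreducible] P49

theorem K6a_nrm_Q11 : nrm 32768 (Q1s * Q1s) ≤ 2 ^ 76 := by
  refine (nrm_mul 32768 Q1s Q1s).trans ((Nat.mul_le_mul nrm_Q1s nrm_Q1s).trans ?_)
  norm_num

theorem K6a_Q11 : Q11 = pkS 1600 32768 (Q1s * Q1s) := by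
  delta Q11
  exact K6a_mul Q1 Q1 Q1s Q1s Q1_eq Q1_eq 38 38 nrm_Q1s nrm_Q1s (by norm_num)

attribute [local irreducible] Q11

/-- the first moment -/
theorem K6a_G1 (m k X : ℕ) (hk : k = m - 1) (hX : X = pkS 1600 32768 (Qs ^ k)) (hm : m < 50) :
    Nat.mul m (md (Nat.mul Q1 X)) = pkS 1600 32768 (G1 m Qs Q1s) := by
  have h := K6a_mul Q1 X Q1s (Qs ^ k) Q1_eq hX 38 (32 * k) nrm_Q1s (K6a_nrm_pow _)
    (by omega)
  have h' := pkS_natCast_mul 1600 32768 m (Q1s * Qs ^ k)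
  subst hk
  delta G1
  rw [h, h']
  exact rfl

/-- the second moment -/
theorem K6a_G2 (m k l c X Y : ℕ) (hk : k = m - 1) (hl : l = m - 2) (hX : X = pkS 1600 32768 (Qs ^ k))
    (hY : Y = pkS 1600 32768 (Qs ^ l)) (hm : m < 50) (hm2 : 2 ≤ m) (hc : c = m * (m - 1)) :
    Nat.add (Nat.mul m (md (Nat.mul Q2 X))) (Nat.mul c (md (Nat.mul Q11 Y))) =
      pkS 1600 32768 (G2 m Qs Q1s Q2s) := by
  have h1 := K6a_mul Q2 X Q2s (Qs ^ k) Q2_eq hX 51 (32 * k) nrm_Q2s (K6a_nrm_pow _)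
    (by omega)
  have h2 := K6a_mul Q11 Y (Q1s * Q1s) (Qs ^ l) K6a_Q11 hY 76 (32 * l) K6a_nrm_Q11
    (K6a_nrm_pow _) (by omega)
  have h3 := pkS_natCast_mul 1600 32768 m (Q2s * Qs ^ k)
  have h4 := pkS_natCast_mul 1600 32768 (m * (m - 1)) (Q1s * Q1s * Qs ^ l)
  subst hk hl hc
  delta G2
  rw [h1, h2, pkS_add, h3, h4]
  exact rfl

/-! The redexes with the free variable `z` below keep the kernel from evaluating closed products. -/

theorem K6a_E1u : ∀ z : ℕ, E1 = Nat.mul 48 ((fun _ : z = z => md (Nat.mul Q1 P47)) rfl) :=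
  fun _ => rfl

theorem K6a_F1u : ∀ z : ℕ, F1 = Nat.mul 49 ((fun _ : z = z => md (Nat.mul Q1 P48)) rfl) :=
  fun _ => rfl

theorem K6a_E2u : ∀ z : ℕ, E2 = Nat.add (Nat.mul 48 ((fun _ : z = z => md (Nat.mul Q2 P47)) rfl))
    (Nat.mul 2256 ((fun _ : z = z => md (Nat.mul Q11 P46)) rfl)) :=
  fun _ => rfl

theorem K6a_F2u : ∀ z : ℕ, F2 = Nat.add (Nat.mul 49 ((fun _ : z = z => md (Nat.mul Q2 P48)) rfl))
    (Nat.mul 2352 ((fun _ : z = z => md (Nat.mul Q11 P47)) rfl)) :=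
  fun _ => rfl

theorem K6a_t1 (E m x R : ℕ) (h1 : ∀ z : ℕ, E = Nat.mul m ((fun _ : z = z => x) rfl))
    (h3 : Nat.mul m x = R) : E = R :=
  (h1 0).trans h3

theorem K6a_t2 (E m x n y R : ℕ) (h1 : ∀ z : ℕ, E = Nat.add (Nat.mul m ((fun _ : z = z => x) rfl))
    (Nat.mul n ((fun _ : z = z => y) rfl)))
    (h3 : Nat.add (Nat.mul m x) (Nat.mul n y) = R) : E = R :=
  (h1 0).trans h3

theorem E1_eq : E1 = pkS 1600 32768 (G1 48 Qs Q1s) :=
  K6a_t1 E1 48 (md (Nat.mul Q1 P47)) (pkS 1600 32768 (G1 48 Qs Q1s)) K6a_E1u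
    (K6a_G1 48 47 P47 (by norm_num) P47_eq (by norm_num))

theorem E2_eq : E2 = pkS 1600 32768 (G2 48 Qs Q1s Q2s) :=
  K6a_t2 E2 48 (md (Nat.mul Q2 P47)) 2256 (md (Nat.mul Q11 P46))
    (pkS 1600 32768 (G2 48 Qs Q1s Q2s)) K6a_E2u
    (K6a_G2 48 47 46 2256 P47 P46 (by norm_num) (by norm_num) P47_eq P46_eq (by norm_num)
      (by norm_num) (by norm_num))

theorem F1_eq : F1 = pkS 1600 32768 (G1 49 Qs Q1s) :=
  K6a_t1 F1 49 (md (Nat.mul Q1 P48)) (pkS 1600 32768 (G1 49 Qs Q1s)) K6a_F1u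
    (K6a_G1 49 48 P48 (by norm_num) P48_eq (by norm_num))

theorem F2_eq : F2 = pkS 1600 32768 (G2 49 Qs Q1s Q2s) :=
  K6a_t2 F2 49 (md (Nat.mul Q2 P48)) 2352 (md (Nat.mul Q11 P47))
    (pkS 1600 32768 (G2 49 Qs Q1s Q2s)) K6a_F2u
    (K6a_G2 49 48 47 2352 P48 P47 (by norm_num) (by norm_num) P48_eq P47_eq (by norm_num)
      (by norm_num) (by norm_num))

theorem K6a_digP (a i : ℕ) (ha : a < 50) (hi : i < 32768) : cf (Qs ^ a) i < 2 ^ 1600 := by
  refine ((coeff_le_nrm 32768 i hi _).trans (K6a_nrm_pow a)).trans_lt ?_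
  have h : 32 * a < 1600 := by omega
  have h' := Nat.pow_lt_pow_right (a := 2) Nat.one_lt_two h
  exact h'

theorem K6a_nrm_G1 (m : ℕ) : nrm 32768 (G1 m Qs Q1s) ≤ m * (2 ^ 38 * 2 ^ (32 * (m - 1))) := by
  delta G1
  rw [nrm_natCast_mul]
  refine Nat.mul_le_mul_left m ((nrm_mul _ _ _).trans ?_)
  exact Nat.mul_le_mul nrm_Q1s (K6a_nrm_pow _)

theorem K6a_nrm_G2 (m : ℕ) : nrm 32768 (G2 m Qs Q1s Q2s) ≤
    m * (2 ^ 51 * 2 ^ (32 * (m - 1))) + m * (m - 1) * (2 ^ 76 * 2 ^ (32 * (m - 2))) := by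
  delta G2
  rw [nrm_add, nrm_natCast_mul, nrm_natCast_mul]
  refine Nat.add_le_add (Nat.mul_le_mul_left m ((nrm_mul _ _ _).trans ?_))
    (Nat.mul_le_mul_left _ ((nrm_mul _ _ _).trans ?_))
  · exact Nat.mul_le_mul nrm_Q2s (K6a_nrm_pow _)
  · exact Nat.mul_le_mul K6a_nrm_Q11 (K6a_nrm_pow _)

theorem dig48 (i : ℕ) (hi : i < 32768) : cf (Qs ^ 48) i < 2 ^ 1600 :=
  K6a_digP 48 i (by norm_num) hi

theorem dig49 (i : ℕ) (hi : i < 32768) : cf (Qs ^ 49) i < 2 ^ 1600 :=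
  K6a_digP 49 i (by norm_num) hi

set_option exponentiation.threshold 4000 in
theorem digE1 (i : ℕ) (hi : i < 32768) : cf (G1 48 Qs Q1s) i < 2 ^ 1600 := by
  refine ((coeff_le_nrm 32768 i hi _).trans (K6a_nrm_G1 48)).trans_lt ?_
  norm_num

set_option exponentiation.threshold 4000 in
theorem digE2 (i : ℕ) (hi : i < 32768) : cf (G2 48 Qs Q1s Q2s) i < 2 ^ 1600 := by
  refine ((coeff_le_nrm 32768 i hi _).trans (K6a_nrm_G2 48)).trans_lt ?_
  norm_num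

set_option exponentiation.threshold 4000 in
theorem digF1 (i : ℕ) (hi : i < 32768) : cf (G1 49 Qs Q1s) i < 2 ^ 1600 := by
  refine ((coeff_le_nrm 32768 i hi _).trans (K6a_nrm_G1 49)).trans_lt ?_
  norm_num

set_option exponentiation.threshold 4000 in
theorem digF2 (i : ℕ) (hi : i < 32768) : cf (G2 49 Qs Q1s Q2s) i < 2 ^ 1600 := by
  refine ((coeff_le_nrm 32768 i hi _).trans (K6a_nrm_G2 49)).trans_lt ?_
  norm_num

end Pool.Agent.H95R2.BG.Cert
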