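import Pool.Agent.H95R2.BG.CertMath
import Pool.Agent.H95R2.BG.K1
import Pool.Agent.H95R2.BG.K2

/-! BG project, task K6b: correlations. -/

open Finset

namespace Pool.Agent.H95R2.BG.Cert

theorem K6b_g_le (i : ℕ) : g i ≤ 4096 := by
  unfold g
  show 557056 / (136 + i) ≤ 4096
  have h : 557056 / (136 + i) ≤ 557056 / 136 := Nat.div_le_div_left (by omega) (by omega)
  exact h.trans (by norm_num)

theorem K6b_ph_le (i : ℕ) : ph i ≤ i := by
  unfold ph
  show (2 * (i * i)) / (30895 + 5 * i) ≤ i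
  rcases Nat.eq_zero_or_pos i with h | h
  · subst h
    simp
  · apply Nat.div_le_of_le_mul
    nlinarith

theorem K6b_look_le (T i : ℕ) : look T 32 i ≤ 4294967295 := by
  unfold look
  have h1 : Nat.sub (Nat.shiftLeft 1 32) 1 = 4294967295 := rfl
  rw [h1]
  exact Nat.and_le_right

theorem K6b_hh_le (T n : ℕ) : hh T n ≤ 2199023255552 := by
  unfold hh
  show (512 - n % 512) * look T 32 (n / 512) + n % 512 * look T 32 (n / 512 + 1) ≤ 2199023255552
  have h1 := K6b_look_le T (n / 512)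
  have h2 := K6b_look_le T (n / 512 + 1)
  have h3 : n % 512 < 512 := Nat.mod_lt _ (by norm_num)
  have h4 : (512 - n % 512) * look T 32 (n / 512) ≤ (512 - n % 512) * 4294967295 :=
    Nat.mul_le_mul_left _ h1
  have h5 : n % 512 * look T 32 (n / 512 + 1) ≤ n % 512 * 4294967295 := Nat.mul_le_mul_left _ h2
  omega

/-- generated arrays -/
theorem K6b_gen (Bo : ℕ) (leaf : ℕ → ℕ → ℕ → ℕ → ℕ → ℕ → ℕ → ℕ) :
    gen Bo leaf = pk Bo 32768 (fun i => leaf i 0 0 0 0 0 0) := by
  have h := dc_spec Bo 1 1 leaf 15 0 (fun _ => 0) (fun _ => 0) (fun _ => 0) (fun _ => 0)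
    (fun _ => 0) (fun _ => 0) (fun _ _ => by norm_num) (fun _ _ => by norm_num)
    (fun _ _ => by norm_num) (fun _ _ => by norm_num) (fun _ _ => by norm_num)
    (fun _ _ => by norm_num)
  rw [pk_zero_fun] at h
  have h2 : (2 : ℕ) ^ 15 = 32768 := by norm_num
  rw [h2] at h
  unfold gen
  rw [h]
  unfold pk
  refine Finset.sum_congr rfl fun i _ => ?_
  show leaf (0 + i) 0 0 0 0 0 0 * _ = leaf i 0 0 0 0 0 0 * _
  rw [Nat.zero_add]

theorem K6b_sub (i : ℕ) : Nat.sub 32767 i = 32768 - 1 - i := rfl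

theorem K6b_RG : RG = pk 128 32768 (fun i => g (32768 - 1 - i)) := by
  unfold RG
  rw [K6b_gen]
  rfl

theorem K6b_RGP : RGP = pk 128 32768 (fun i => (fun t => g t * ph t) (32768 - 1 - i)) := by
  unfold RGP
  rw [K6b_gen]
  rfl

theorem K6b_HH0 : HH0 = pk 128 32768 (hh T0) := by
  unfold HH0
  rw [K6b_gen]
  rfl

theorem K6b_HH1 : HH1 = pk 128 32768 (hh T1) := by
  unfold HH1
  rw [K6b_gen]
  rfl

/-- the correlation with the two factors as variables -/
theorem K6b_corr (B n s X Y : ℕ) (hn : 0 < n) (w h : ℕ → ℕ) (Wm Hm : ℕ) (hs : s = B * (n - 1))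
    (hX : X = pk B n (fun i => w (n - 1 - i))) (hY : Y = pk B n h) (hw : ∀ i < n, w i ≤ Wm)
    (hh : ∀ i < n, h i ≤ Hm) (hb : n * Wm * Hm < 2 ^ B) :
    Nat.shiftRight (Nat.mul X Y) s = pk B n (fun m => ∑ t ∈ range (n - m), w t * h (m + t)) := by
  subst hs hX hY
  exact corr_spec B n hn w h Wm Hm hw hh hb

attribute [local irreducible] pk RG RGP HH0 HH1

theorem AP_eq : AP = pk 128 32768 ap := by
  delta AP
  exact K6b_corr 128 32768 4194176 RG HH0 (by norm_num) g (hh T0) 4096 2199023255552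
    (by norm_num) K6b_RG K6b_HH0 (fun i _ => K6b_g_le i) (fun i _ => K6b_hh_le T0 i) (by norm_num)

theorem AM_eq : AM = pk 128 32768 am := by
  delta AM
  exact K6b_corr 128 32768 4194176 RGP HH1 (by norm_num) (fun t => g t * ph t) (hh T1)
    (4096 * 32768) 2199023255552 (by norm_num) K6b_RGP K6b_HH1
    (fun i hi => Nat.mul_le_mul (K6b_g_le i) ((K6b_ph_le i).trans hi.le))
    (fun i _ => K6b_hh_le T1 i) (by norm_num)

theorem BB_eq : BB = pk 128 32768 bb := by
  delta BB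
  exact K6b_corr 128 32768 4194176 RG HH1 (by norm_num) g (hh T1) 4096 2199023255552
    (by norm_num) K6b_RG K6b_HH1 (fun i _ => K6b_g_le i) (fun i _ => K6b_hh_le T1 i) (by norm_num)

theorem K6b_sum_lt (n : ℕ) (f : ℕ → ℕ) (M : ℕ) (h : ∀ t ∈ range (32768 - n), f t ≤ M)
    (hM : 32768 * M < 2 ^ 128) : ∑ t ∈ range (32768 - n), f t < 2 ^ 128 := by
  have h1 := Finset.sum_le_card_nsmul (range (32768 - n)) f M h
  rw [card_range, smul_eq_mul] at h1
  have h2 : (32768 - n) * M ≤ 32768 * M := Nat.mul_le_mul_right M (Nat.sub_le _ _)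
  exact (h1.trans h2).trans_lt hM

theorem digAP (i : ℕ) (hi : i < 32768) : ap i < 2 ^ 128 := by
  unfold ap
  exact K6b_sum_lt i _ (4096 * 2199023255552)
    (fun t _ => Nat.mul_le_mul (K6b_g_le t) (K6b_hh_le _ _)) (by norm_num)

theorem digAM (i : ℕ) (hi : i < 32768) : am i < 2 ^ 128 := by
  unfold am
  refine K6b_sum_lt i _ (4096 * 32768 * 2199023255552) (fun t ht => ?_) (by norm_num)
  have h1 : t < 32768 := (mem_range.1 ht).trans_le (Nat.sub_le _ _)
  exact Nat.mul_le_mul (Nat.mul_le_mul (K6b_g_le t) ((K6b_ph_le t).trans h1.le)) (K6b_hh_le _ _)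

theorem digBB (i : ℕ) (hi : i < 32768) : bb i < 2 ^ 128 := by
  unfold bb
  exact K6b_sum_lt i _ (4096 * 2199023255552)
    (fun t _ => Nat.mul_le_mul (K6b_g_le t) (K6b_hh_le _ _)) (by norm_num)

end Pool.Agent.H95R2.BG.Cert
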