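import Mathlib
import Pool.Agent.H95R2.BG.CertMath
import Pool.Agent.H95R2.BG.K1
import Pool.Agent.H95R2.BG.K6a
import Pool.Agent.H95R2.BG.K6b

/-! BG project (helper95), task K6c: meaning of the final sums; proof by helper439. -/

open Finset

namespace Pool.Agent.H95R2.BG.Cert

theorem K6c_gen (Bb : ℕ) (leaf : ℕ → ℕ → ℕ → ℕ → ℕ → ℕ → ℕ → ℕ) (a b c d e f : ℕ)
    (u1 u2 u3 v1 v2 v3 : ℕ → ℕ) (ha : a = pk 1600 32768 u1) (hb : b = pk 1600 32768 u2)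
    (hc : c = pk 1600 32768 u3) (hd : d = pk Bb 32768 v1) (he : e = pk Bb 32768 v2)
    (hf : f = pk Bb 32768 v3) (h1 : ∀ i < 32768, u1 i < 2 ^ 1600)
    (h2 : ∀ i < 32768, u2 i < 2 ^ 1600) (h3 : ∀ i < 32768, u3 i < 2 ^ 1600)
    (k1 : ∀ i < 32768, v1 i < 2 ^ Bb) (k2 : ∀ i < 32768, v2 i < 2 ^ Bb)
    (k3 : ∀ i < 32768, v3 i < 2 ^ Bb) :
    dc 0 1600 Bb leaf 15 0 a b c d e f =
      ∑ n ∈ range 32768, leaf n (u1 n) (u2 n) (u3 n) (v1 n) (v2 n) (v3 n) := by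
  have h15 : (2 : ℕ) ^ 15 = 32768 := by norm_num
  have h := dc_spec 0 1600 Bb leaf 15 0 u1 u2 u3 v1 v2 v3
  rw [h15] at h
  rw [ha, hb, hc, hd, he, hf, h h1 h2 h3 k1 k2 k3, pk_base_zero]
  refine sum_congr rfl fun n _ => ?_
  rw [Nat.zero_add]

theorem L48_eq : L48 = ∑ n ∈ range 32768, leaf48 TP 1048576 TN 0 n (cf (Qs ^ 48) n)
    (cf (G1 48 Qs Q1s) n) (cf (G2 48 Qs Q1s Q2s) n) (ap n) (am n) (bb n) := by
  unfold L48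
  exact K6c_gen 128 (leaf48 TP 1048576 TN 0) P48 E1 E2 AP AM BB (cf (Qs ^ 48)) (cf (G1 48 Qs Q1s))
    (cf (G2 48 Qs Q1s Q2s)) ap am bb P48_eq E1_eq E2_eq AP_eq AM_eq BB_eq dig48 digE1 digE2
    digAP digAM digBB

theorem R48_eq : R48 = ∑ n ∈ range 32768, leaf48 TN 0 TP 1048576 n (cf (Qs ^ 48) n)
    (cf (G1 48 Qs Q1s) n) (cf (G2 48 Qs Q1s Q2s) n) (ap n) (am n) (bb n) := by
  unfold R48
  exact K6c_gen 128 (leaf48 TN 0 TP 1048576) P48 E1 E2 AP AM BB (cf (Qs ^ 48)) (cf (G1 48 Qs Q1s))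
    (cf (G2 48 Qs Q1s Q2s)) ap am bb P48_eq E1_eq E2_eq AP_eq AM_eq BB_eq dig48 digE1 digE2
    digAP digAM digBB

theorem K6c_zero : (0 : ℕ) = pk 1 32768 (fun _ => 0) := (pk_zero_fun 1 32768).symm

theorem K6c_zero_lt : ∀ i < 32768, (fun _ : ℕ => (0 : ℕ)) i < 2 ^ 1 := fun _ _ => by norm_num

theorem P49s_eq : P49s = ∑ n ∈ range 32768, (hh T0 n * hh T0 n * cf (Qs ^ 49) n +
    hh T1 n * hh T1 n * cf (G2 49 Qs Q1s Q2s) n) := by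
  unfold P49s
  exact K6c_gen 1 leafP P49 F1 F2 0 0 0 (cf (Qs ^ 49)) (cf (G1 49 Qs Q1s))
    (cf (G2 49 Qs Q1s Q2s)) (fun _ => 0) (fun _ => 0) (fun _ => 0) P49_eq F1_eq F2_eq
    K6c_zero K6c_zero K6c_zero dig49 digF1 digF2 K6c_zero_lt K6c_zero_lt K6c_zero_lt

theorem M49s_eq : M49s = ∑ n ∈ range 32768, 2 * (hh T0 n * hh T1 n) * cf (G1 49 Qs Q1s) n := by
  unfold M49s
  exact K6c_gen 1 leafM P49 F1 F2 0 0 0 (cf (Qs ^ 49)) (cf (G1 49 Qs Q1s))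
    (cf (G2 49 Qs Q1s Q2s)) (fun _ => 0) (fun _ => 0) (fun _ => 0) P49_eq F1_eq F2_eq
    K6c_zero K6c_zero K6c_zero dig49 digF1 digF2 K6c_zero_lt K6c_zero_lt K6c_zero_lt

end Pool.Agent.H95R2.BG.Cert
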