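import Mathlib
import Pool.Agent.H95R2.BG.K4
import Pool.Agent.H95R2.BG.K6c
import Pool.Agent.H95R2.BG.CertCheck

/-! BG project (helper459 for helper95): the final inequality of the certificate. -/

open Finset

namespace Pool.Agent.H95R2.BG.Cert

/-- first projection; it only serves to keep the kernel from evaluating closed terms -/
abbrev K7pr (a _x : ℕ) : ℕ := a

theorem K7pr_eq (a x : ℕ) : K7pr a x = a := rfl

theorem K7lhs_eq (x : ℕ) : lhs = Nat.add (Nat.mul 129583022080 (K7pr P49s x)) (Nat.mul 49 (K7pr R48 x)) := rfl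

theorem K7rhs_eq (x : ℕ) : rhs = Nat.add (Nat.mul 49 (K7pr L48 x)) (Nat.mul 129583022080 (K7pr M49s x)) := rfl

theorem K7lt (a b : ℕ) (h : Nat.ble (Nat.add a 1) b = true) : a < b := Nat.le_of_ble_eq_true h

theorem K7cast (a b P R L M : ℕ) (ha : a = Nat.add (Nat.mul 129583022080 P) (Nat.mul 49 R))
    (hb : b = Nat.add (Nat.mul 49 L) (Nat.mul 129583022080 M)) (h : a < b) :
    (129583022080 : ℝ) * P + 49 * R < 49 * L + 129583022080 * M := by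
  have h' : 129583022080 * P + 49 * R < 49 * L + 129583022080 * M := by
    rw [ha, hb] at h
    exact h
  exact_mod_cast h'

theorem K7main : (129583022080 : ℝ) * (P49s : ℕ) + 49 * (R48 : ℕ) < 49 * (L48 : ℕ) + 129583022080 * (M49s : ℕ) :=
  K7cast lhs rhs (K7pr P49s 0) (K7pr R48 0) (K7pr L48 0) (K7pr M49s 0) (K7lhs_eq 0) (K7rhs_eq 0) (K7lt lhs rhs chk)

theorem K7leaf (T q T' q' n x1 x2 x3 y1 y2 y3 : ℕ) :
    (leaf48 T q T' q' n x1 x2 x3 y1 y2 y3 : ℝ) - (leaf48 T' q' T q n x1 x2 x3 y1 y2 y3 : ℝ) =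
      ((wgt T q n : ℝ) - wgt T' q' n) *
        (((y1 : ℝ) - y2) ^ 2 * x1 - 2 * ((y1 : ℝ) - y2) * y3 * x2 + (y3 : ℝ) ^ 2 * x3) := by
  have h : ∀ a b : ℕ, ∀ a' b', a' = wgt T q n → b' = wgt T' q' n →
      (leaf48 T q T' q' n x1 x2 x3 y1 y2 y3 : ℕ) = a' * ((y1 * y1 + y2 * y2) * x1 + (2 * (y2 * y3) * x2 + y3 * y3 * x3)) +
        b' * (2 * (y1 * y2 * x1 + y1 * y3 * x2)) ∧
      (leaf48 T' q' T q n x1 x2 x3 y1 y2 y3 : ℕ) = b' * ((y1 * y1 + y2 * y2) * x1 + (2 * (y2 * y3) * x2 + y3 * y3 * x3)) +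
        a' * (2 * (y1 * y2 * x1 + y1 * y3 * x2)) := by
    intro a b a' b' h1 h2
    subst h1 h2
    exact ⟨rfl, rfl⟩
  obtain ⟨h1, h2⟩ := h 0 0 _ _ rfl rfl
  rw [h1, h2]
  push_cast
  ring

theorem K7WW (n : ℕ) (hn : n < 32768) :
    1048576 * WW (n + 48) = (wgt TP 1048576 n : ℝ) - wgt TN 0 n := by
  unfold WW
  rw [if_pos (by omega), Nat.add_sub_cancel]
  ring

theorem K7F : ∑ c ∈ Box 49 32768, FF c ^ 2 = (P49s : ℕ) - (M49s : ℕ) := by
  have e1 : ((P49s : ℕ) : ℝ) = _ := congrArg (Nat.cast : ℕ → ℝ) P49s_eq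
  have e2 : ((M49s : ℕ) : ℝ) = _ := congrArg (Nat.cast : ℕ → ℝ) M49s_eq
  rw [e1, e2, sum_F2, Nat.cast_sum, Nat.cast_sum, ← Finset.sum_sub_distrib]
  apply Finset.sum_congr rfl
  intro n _
  push_cast
  ring

theorem K7U (i : Fin 49) :
    1048576 * ∑ c ∈ Box 48 32768, WW (rad c) * UU 32768 FF i c ^ 2 = (L48 : ℕ) - (R48 : ℕ) := by
  have e1 : ((L48 : ℕ) : ℝ) = _ := congrArg (Nat.cast : ℕ → ℝ) L48_eq
  have e2 : ((R48 : ℕ) : ℝ) = _ := congrArg (Nat.cast : ℕ → ℝ) R48_eq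
  rw [e1, e2, sum_U2 WW i, Nat.cast_sum, Nat.cast_sum, ← Finset.sum_sub_distrib, Finset.mul_sum]
  apply Finset.sum_congr rfl
  intro n hn
  rw [K7leaf, ← K7WW n (Finset.mem_range.mp hn)]
  ring

theorem K7fin (S : ℝ) (U : Fin 49 → ℝ) (P M L R : ℝ) (hS : S = P - M) (hU : ∀ i, 1048576 * U i = L - R)
    (h : 129583022080 * P + 49 * R < 49 * L + 129583022080 * M) :
    4 * ((30895 : ℕ) : ℝ) * S < ∑ i : Fin 49, U i := by
  have hU' : ∀ i, U i = (L - R) / 1048576 := by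
    intro i
    rw [eq_div_iff (by norm_num), mul_comm]
    exact hU i
  rw [Finset.sum_congr rfl (fun i _ => hU' i), Finset.sum_const, Finset.card_univ, Fintype.card_fin, nsmul_eq_mul, hS]
  push_cast
  linarith

theorem crit49 : 4 * ((30895 : ℕ) : ℝ) * ∑ c ∈ Box 49 32768, FF c ^ 2 <
    ∑ i : Fin 49, ∑ c ∈ Box 48 32768, WW (rad c) * UU 32768 FF i c ^ 2 :=
  K7fin _ (fun i => ∑ c ∈ Box 48 32768, WW (rad c) * UU 32768 FF i c ^ 2) _ _ _ _ K7F K7U K7main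

end Pool.Agent.H95R2.BG.Cert
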