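import Mathlib

/-! BG project (helper95): a smooth bump with integral one and small energy. -/

open MeasureTheory
open scoped ContDiff

namespace Pool.Agent.H95R2.BG

/-- F1 -/
theorem ramp (len κ₀ : ℝ) (hlen : 0 < len) (hκ : 0 < κ₀) :
    ∃ ρ : ℝ → ℝ, ContDiff ℝ ∞ ρ ∧ (∀ x, 0 ≤ ρ x) ∧ (∀ x, x ≤ 0 → ρ x = 0) ∧ (∀ x, len ≤ x → ρ x = 0) ∧
      ∫ x in (0 : ℝ)..len, ρ x = 1 ∧ ∫ x in (0 : ℝ)..len, ρ x ^ 2 ≤ (1 + κ₀) / len := by
  have h1κ : 0 < 1 + κ₀ := by linarith
  obtain ⟨η, hη0, hη1⟩ : ∃ η : ℝ, 0 < η ∧ η * (4 * (1 + κ₀)) = len * κ₀ :=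
    ⟨len * κ₀ / (4 * (1 + κ₀)), by positivity, by field_simp⟩
  have hη4 : 2 * η < len := by nlinarith
  set r : ℝ → ℝ := fun x => Real.smoothTransition (x / η) * Real.smoothTransition ((len - x) / η) with hr
  have hrs : ContDiff ℝ ∞ r := by
    apply ContDiff.mul
    · exact Real.smoothTransition.contDiff.comp (contDiff_id.div_const η)
    · exact Real.smoothTransition.contDiff.comp ((contDiff_const.sub contDiff_id).div_const η)
  have hrc : Continuous r := hrs.continuous
  have hr0 : ∀ x, 0 ≤ r x := fun x =>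
    mul_nonneg (Real.smoothTransition.nonneg _) (Real.smoothTransition.nonneg _)
  have hr1 : ∀ x, r x ≤ 1 := fun x =>
    mul_le_one₀ (Real.smoothTransition.le_one _) (Real.smoothTransition.nonneg _)
      (Real.smoothTransition.le_one _)
  have hrz0 : ∀ x, x ≤ 0 → r x = 0 := by
    intro x hx
    show Real.smoothTransition (x / η) * Real.smoothTransition ((len - x) / η) = 0
    rw [Real.smoothTransition.zero_of_nonpos (div_nonpos_of_nonpos_of_nonneg hx hη0.le), zero_mul]
  have hrz1 : ∀ x, len ≤ x → r x = 0 := by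
    intro x hx
    show Real.smoothTransition (x / η) * Real.smoothTransition ((len - x) / η) = 0
    rw [Real.smoothTransition.zero_of_nonpos
      (div_nonpos_of_nonpos_of_nonneg (by linarith : len - x ≤ 0) hη0.le), mul_zero]
  have hone : ∀ x, η ≤ x → x ≤ len - η → r x = 1 := by
    intro x h1 h2
    show Real.smoothTransition (x / η) * Real.smoothTransition ((len - x) / η) = 1
    rw [Real.smoothTransition.one_of_one_le ((one_le_div hη0).2 h1),
      Real.smoothTransition.one_of_one_le ((one_le_div hη0).2 (by linarith)), one_mul]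
  have hint : ∀ a b, IntervalIntegrable r volume a b := fun a b => hrc.intervalIntegrable a b
  obtain ⟨I, hI⟩ : ∃ I : ℝ, I = ∫ x in (0 : ℝ)..len, r x := ⟨_, rfl⟩
  have hIge : len - 2 * η ≤ I := by
    have e1 : I = (∫ x in (0 : ℝ)..η, r x) + (∫ x in η..(len - η), r x) + ∫ x in (len - η)..len, r x := by
      rw [intervalIntegral.integral_add_adjacent_intervals (hint _ _) (hint _ _),
        intervalIntegral.integral_add_adjacent_intervals (hint _ _) (hint _ _), hI]
    have e2 : 0 ≤ ∫ x in (0 : ℝ)..η, r x :=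
      intervalIntegral.integral_nonneg hη0.le (fun x _ => hr0 x)
    have e3 : 0 ≤ ∫ x in (len - η)..len, r x :=
      intervalIntegral.integral_nonneg (by linarith) (fun x _ => hr0 x)
    have e4 : ∫ x in η..(len - η), r x = len - 2 * η := by
      have h1 : ∫ x in η..(len - η), r x = ∫ x in η..(len - η), (1 : ℝ) := by
        apply intervalIntegral.integral_congr
        intro x hx
        rw [Set.uIcc_of_le (by linarith)] at hx
        exact hone x hx.1 hx.2
      rw [h1, intervalIntegral.integral_const, smul_eq_mul]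
      ring
    linarith
  have hIpos : 0 < I := by linarith
  refine ⟨fun x => r x / I, hrs.div_const I, fun x => div_nonneg (hr0 x) hIpos.le,
    fun x hx => ?_, fun x hx => ?_, ?_, ?_⟩
  · show r x / I = 0
    rw [hrz0 x hx, zero_div]
  · show r x / I = 0
    rw [hrz1 x hx, zero_div]
  · rw [intervalIntegral.integral_div, ← hI]
    exact div_self hIpos.ne'
  · have h1 : ∫ x in (0 : ℝ)..len, (r x / I) ^ 2 ≤ ∫ x in (0 : ℝ)..len, r x / I ^ 2 := by
      apply intervalIntegral.integral_mono_on hlen.le
      · exact ((hrc.div_const I).pow 2).intervalIntegrable _ _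
      · exact (hrc.div_const (I ^ 2)).intervalIntegrable _ _
      · intro x _
        rw [div_pow]
        apply div_le_div_of_nonneg_right _ (by positivity)
        nlinarith [hr0 x, hr1 x]
    refine h1.trans ?_
    rw [intervalIntegral.integral_div, ← hI]
    have h2 : I / I ^ 2 = 1 / I := by field_simp
    rw [h2, div_le_div_iff₀ hIpos hlen]
    nlinarith

end Pool.Agent.H95R2.BG
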