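import Pool.Agent.H95R2.BG.Defs
import Pool.Agent.H95R2.BG.Ramp

/-! BG project: cell functions and Selberg profiles (F2, F3). -/

open Finset Filter MeasureTheory
open scoped ContDiff

namespace Pool.Agent.H95R2.BG

open Pool.Agent.H378R2

/-- the ramp -/
structure Cells_R (len : ℝ) (ρ : ℝ → ℝ) : Prop where
  len_pos : 0 < len
  smooth : ContDiff ℝ ∞ ρ
  nonneg : ∀ x, 0 ≤ ρ x
  left : ∀ x, x ≤ 0 → ρ x = 0
  right : ∀ x, len ≤ x → ρ x = 0
  one : ∫ x in (0 : ℝ)..len, ρ x = 1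

namespace Cells_R

variable {len : ℝ} {ρ : ℝ → ℝ} (h : Cells_R len ρ)

include h

theorem ii (a b : ℝ) : IntervalIntegrable ρ volume a b :=
  h.smooth.continuous.intervalIntegrable a b

theorem int_left {y : ℝ} (hy : y ≤ 0) : ∫ x in (0 : ℝ)..y, ρ x = 0 := by
  rw [intervalIntegral.integral_symm, neg_eq_zero]
  rw [intervalIntegral.integral_congr (g := fun _ => (0:ℝ))]
  · simp
  · intro x hx
    rw [Set.uIcc_of_le hy] at hx
    exact h.left x hx.2

theorem int_right {y : ℝ} (hy : len ≤ y) : ∫ x in (0 : ℝ)..y, ρ x = 1 := by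
  rw [← intervalIntegral.integral_add_adjacent_intervals (h.ii 0 len) (h.ii len y), h.one]
  rw [intervalIntegral.integral_congr (g := fun _ => (0:ℝ)) (a := len)]
  · simp
  · intro x hx
    rw [Set.uIcc_of_le hy] at hx
    exact h.right x hx.1

theorem int_nonneg (y : ℝ) : 0 ≤ ∫ x in (0 : ℝ)..y, ρ x := by
  rcases le_total y 0 with hy | hy
  · rw [h.int_left hy]
  · exact intervalIntegral.integral_nonneg hy fun x _ => h.nonneg x

theorem int_le_one (y : ℝ) : ∫ x in (0 : ℝ)..y, ρ x ≤ 1 := by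
  rcases le_total y len with hy | hy
  · have h1 := intervalIntegral.integral_add_adjacent_intervals (h.ii 0 y) (h.ii y len)
    have h2 : 0 ≤ ∫ x in y..len, ρ x :=
      intervalIntegral.integral_nonneg hy fun x _ => h.nonneg x
    rw [h.one] at h1
    linarith
  · rw [h.int_right hy]

theorem hasDeriv (y : ℝ) : HasDerivAt (fun y => ∫ x in (0 : ℝ)..y, ρ x) (ρ y) y :=
  intervalIntegral.integral_hasDerivAt_right (h.ii 0 y)
    (h.smooth.continuous.stronglyMeasurableAtFilter _ _) h.smooth.continuous.continuousAt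

theorem smoothI : ContDiff ℝ ∞ (fun y => ∫ x in (0 : ℝ)..y, ρ x) := by
  rw [contDiff_infty_iff_deriv]
  refine ⟨fun y => (h.hasDeriv y).differentiableAt, ?_⟩
  have h1 : deriv (fun y => ∫ x in (0 : ℝ)..y, ρ x) = ρ := by
    funext y
    exact (h.hasDeriv y).deriv
  rw [h1]
  exact h.smooth

theorem exists_prof (a : ℝ) (ha : 0 ≤ a) : ∃ f : ℝ → ℝ, ContDiff ℝ ∞ f ∧ HasCompactSupport f ∧
    (∀ x, |f x| ≤ 1) ∧ f 0 = 1 ∧ (∀ x, a + len ≤ x → f x = 0) ∧
    ∀ x, 0 < x → deriv f x = -ρ (x - a) := by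
  set R : ℝ → ℝ := fun y => ∫ x in (0 : ℝ)..y, ρ x with hR
  set χ : ℝ → ℝ := fun x => Real.smoothTransition (2 * (x + 1)) with hχ
  have hχs : ContDiff ℝ ∞ χ := by
    refine Real.smoothTransition.contDiff.comp ?_
    fun_prop
  have hRs : ContDiff ℝ ∞ (fun x => R (x - a)) := h.smoothI.comp (by fun_prop)
  have hχ1 : ∀ x, -(1/2) ≤ x → χ x = 1 := fun x hx =>
    Real.smoothTransition.one_of_one_le (by linarith)
  have hχ0 : ∀ x, x ≤ -1 → χ x = 0 := fun x hx =>
    Real.smoothTransition.zero_of_nonpos (by linarith)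
  refine ⟨fun x => χ x * (1 - R (x - a)), ?_, ?_, ?_, ?_, ?_, ?_⟩
  · exact hχs.mul (contDiff_const.sub hRs)
  · refine HasCompactSupport.intro (isCompact_Icc (a := (-1:ℝ)) (b := a + len)) fun x hx => ?_
    rw [Set.mem_Icc, not_and_or, not_le, not_le] at hx
    rcases hx with hx | hx
    · simp only [hχ0 x hx.le, zero_mul]
    · have h1 : R (x - a) = 1 := h.int_right (by linarith)
      simp only [h1, sub_self, mul_zero]
  · intro x
    have h1 : 0 ≤ χ x := Real.smoothTransition.nonneg _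
    have h2 : χ x ≤ 1 := Real.smoothTransition.le_one _
    have h3 : 0 ≤ R (x - a) := h.int_nonneg _
    have h4 : R (x - a) ≤ 1 := h.int_le_one _
    rw [abs_le]
    constructor
    · have : 0 ≤ χ x * (1 - R (x - a)) := mul_nonneg h1 (by linarith)
      linarith
    · exact mul_le_one₀ h2 (by linarith) (by linarith)
  · have h1 : R (0 - a) = 0 := h.int_left (by linarith)
    simp only [h1, hχ1 0 (by norm_num), sub_zero, mul_one]
  · intro x hx
    have h1 : R (x - a) = 1 := h.int_right (by linarith)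
    simp only [h1, sub_self, mul_zero]
  · intro x hx
    have h1 : (fun x => χ x * (1 - R (x - a))) =ᶠ[nhds x] fun x => 1 - R (x - a) := by
      filter_upwards [lt_mem_nhds hx] with y hy
      rw [hχ1 y (by linarith), one_mul]
    rw [h1.deriv_eq]
    have h2 : HasDerivAt (fun x => R (x - a)) (ρ (x - a)) x := by
      have h3 := (h.hasDeriv (x - a)).comp x ((hasDerivAt_id x).sub_const a)
      rw [mul_one] at h3
      exact h3
    exact (h2.const_sub 1).deriv

theorem energy (a : ℝ) (ha : 0 ≤ a) :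
    ∫ t in Set.Ioi (0 : ℝ), ρ (t - a) * ρ (t - a) = ∫ x in (0 : ℝ)..len, ρ x ^ 2 := by
  have h1 : ∫ t in Set.Ioi (0 : ℝ), ρ (t - a) * ρ (t - a) = ∫ t, ρ (t - a) * ρ (t - a) := by
    refine setIntegral_eq_integral_of_forall_compl_eq_zero fun t ht => ?_
    rw [h.left (t - a) (by rw [Set.mem_Ioi, not_lt] at ht; linarith), zero_mul]
  have h2 : ∫ t, ρ (t - a) * ρ (t - a) = ∫ t, ρ t * ρ t :=
    integral_sub_right_eq_self (fun t => ρ t * ρ t) a
  have h3 : ∫ x in (0 : ℝ)..len, ρ x ^ 2 = ∫ t, ρ t * ρ t := by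
    rw [intervalIntegral.integral_of_le h.len_pos.le]
    have h4 : ∀ t, ρ t ^ 2 = ρ t * ρ t := fun t => sq _
    simp only [h4]
    refine setIntegral_eq_integral_of_forall_compl_eq_zero fun t ht => ?_
    rw [Set.mem_Ioc, not_and_or, not_lt, not_le] at ht
    rcases ht with ht | ht
    · rw [h.left t ht, zero_mul]
    · rw [h.right t ht.le, zero_mul]
  rw [h1, h2, h3]

theorem energy_pos : 0 < ∫ x in (0 : ℝ)..len, ρ x ^ 2 := by
  have hl := h.len_pos
  have hc := h.smooth.continuous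
  have h1 : 0 ≤ ∫ x in (0 : ℝ)..len, (ρ x - 1 / len) ^ 2 :=
    intervalIntegral.integral_nonneg hl.le fun x _ => sq_nonneg _
  have h2 : ∫ x in (0 : ℝ)..len, (ρ x - 1 / len) ^ 2 =
      (∫ x in (0 : ℝ)..len, ρ x ^ 2) - 2 / len * (∫ x in (0 : ℝ)..len, ρ x) +
        ∫ _x in (0 : ℝ)..len, (1 / len) ^ 2 := by
    rw [← intervalIntegral.integral_const_mul, ← intervalIntegral.integral_sub,
      ← intervalIntegral.integral_add]
    · refine intervalIntegral.integral_congr fun x _ => ?_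
      ring
    · exact ((hc.pow 2).sub (hc.const_mul _)).intervalIntegrable _ _
    · exact continuous_const.intervalIntegrable _ _
    · exact (hc.pow 2).intervalIntegrable _ _
    · exact (hc.const_mul _).intervalIntegrable _ _
  rw [h2, h.one, intervalIntegral.integral_const, smul_eq_mul] at h1
  have h3 : (len - 0) * (1 / len) ^ 2 = 1 / len := by
    field_simp
    ring
  rw [h3] at h1
  have h4 : 0 < 1 / len := by positivity
  have h5 : 2 / len = 2 * (1 / len) := by ring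
  rw [h5] at h1
  linarith

end Cells_R

/-- F2 -/
theorem cells_exist (N1 M : ℕ) (hN1 : 0 < N1) (hM : M ≤ 2 * N1) (κ₀ : ℝ) (hκ : 0 < κ₀) :
    ∃ (f : ℕ → ℝ → ℝ) (β : ℝ), Cells N1 M f β ∧ β ≤ (1 + κ₀) * N1 := by
  have hN : (0:ℝ) < N1 := by exact_mod_cast hN1
  obtain ⟨ρ, h1, h2, h3, h4, h5, h6⟩ := ramp (1 / N1) κ₀ (by positivity) hκ
  have h : Cells_R (1 / N1) ρ := ⟨by positivity, h1, h2, h3, h4, h5⟩
  choose f hf1 hf2 hf3 hf4 hf5 hf6 using fun c : ℕ => h.exists_prof ((c:ℝ) / N1) (by positivity)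
  have hsum : ∀ c : ℕ, (c:ℝ) / N1 + 1 / N1 = ((c:ℝ) + 1) / N1 := fun c => by ring
  have hen : ∀ c c', DD (f c) (f c') =
      ∫ t in Set.Ioi (0 : ℝ), ρ (t - (c:ℝ) / N1) * ρ (t - (c':ℝ) / N1) := by
    intro c c'
    unfold DD
    refine setIntegral_congr_fun measurableSet_Ioi fun t ht => ?_
    simp only [hf6 c t ht, hf6 c' t ht]
    ring
  refine ⟨f, ∫ x in (0 : ℝ)..(1 / N1), ρ x ^ 2, ⟨?_, hf4, ?_, ?_, h.energy_pos⟩, ?_⟩
  · intro c hc
    refine ⟨hf1 c, hf2 c, hf3 c, ?_, by positivity, ?_⟩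
    · intro x hx
      exact hf5 c x (by rw [hsum]; exact hx.le)
    · rw [div_le_iff₀ hN]
      have : c + 1 ≤ 2 * N1 := by omega
      exact_mod_cast this
  · intro c c' hcc
    rw [hen]
    rw [setIntegral_congr_fun (g := fun _ => (0:ℝ)) measurableSet_Ioi]
    · simp
    · intro t _
      simp only
      by_contra hne
      have h7 : ρ (t - (c:ℝ) / N1) ≠ 0 := fun h0 => hne (by rw [h0, zero_mul])
      have h8 : ρ (t - (c':ℝ) / N1) ≠ 0 := fun h0 => hne (by rw [h0, mul_zero])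
      have h9 : ∀ b : ℕ, ρ (t - (b:ℝ) / N1) ≠ 0 → (b:ℝ) < t * N1 ∧ t * N1 < (b:ℝ) + 1 := by
        intro b hb
        have h10 : 0 < t - (b:ℝ) / N1 := by
          by_contra hc
          exact hb (h3 _ (not_lt.1 hc))
        have h11 : t - (b:ℝ) / N1 < 1 / N1 := by
          by_contra hc
          exact hb (h4 _ (not_lt.1 hc))
        constructor
        · have h12 : (b:ℝ) / N1 < t := by linarith
          exact (div_lt_iff₀ hN).1 h12
        · have h12 : t < ((b:ℝ) + 1) / N1 := by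
            rw [← hsum]
            linarith
          exact (lt_div_iff₀ hN).1 h12
      obtain ⟨k1, k2⟩ := h9 c h7
      obtain ⟨k3, k4⟩ := h9 c' h8
      have k5 : (c:ℝ) < (c':ℝ) + 1 := by linarith
      have k6 : (c':ℝ) < (c:ℝ) + 1 := by linarith
      have k7 : c < c' + 1 := by exact_mod_cast k5
      have k8 : c' < c + 1 := by exact_mod_cast k6
      omega
  · intro c
    rw [hen]
    exact h.energy _ (by positivity)
  · refine le_trans h6 (le_of_eq ?_)
    field_simp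

/-- F3 -/
theorem psis_exist (N1 : ℕ) (hN1 : 0 < N1) (κ₀ : ℝ) (hκ : 0 < κ₀) :
    ∃ ψ : ℕ → ℝ → ℝ, Psis N1 κ₀ ψ := by
  have hN : (0:ℝ) < N1 := by exact_mod_cast hN1
  have key : ∀ s : ℕ, ∃ ψ : ℝ → ℝ, s < 2 * N1 → GF ψ (2 - (s : ℝ) / N1) ∧ ψ 0 = 1 ∧
      DD ψ ψ ≤ (1 + κ₀) / (2 - (s : ℝ) / N1) ∧ 0 ≤ DD ψ ψ := by
    intro s
    by_cases hs : s < 2 * N1
    · have hs' : (s:ℝ) < 2 * N1 := by exact_mod_cast hs
      have hlen : 0 < 2 - (s:ℝ) / N1 := by
        have : (s:ℝ) / N1 < 2 := (div_lt_iff₀ hN).2 hs'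
        linarith
      obtain ⟨ρ, h1, h2, h3, h4, h5, h6⟩ := ramp (2 - (s:ℝ) / N1) κ₀ hlen hκ
      have h : Cells_R (2 - (s:ℝ) / N1) ρ := ⟨hlen, h1, h2, h3, h4, h5⟩
      obtain ⟨ψ, p1, p2, p3, p4, p5, p6⟩ := h.exists_prof 0 le_rfl
      have hen : DD ψ ψ = ∫ x in (0 : ℝ)..(2 - (s:ℝ) / N1), ρ x ^ 2 := by
        rw [← h.energy 0 le_rfl]
        unfold DD
        refine setIntegral_congr_fun measurableSet_Ioi fun t ht => ?_
        simp only [p6 t ht]
        ring
      refine ⟨ψ, fun _ => ⟨⟨p1, p2, p3, ?_, hlen.le, ?_⟩, p4, ?_, ?_⟩⟩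
      · intro x hx
        exact p5 x (by linarith)
      · have : 0 ≤ (s:ℝ) / N1 := by positivity
        linarith
      · rw [hen]
        exact h6
      · rw [hen]
        exact h.energy_pos.le
    · exact ⟨fun _ => 0, fun hc => absurd hc hs⟩
  choose ψ hψ using key
  exact ⟨ψ, fun s hs => (hψ s hs).1, fun s hs => (hψ s hs).2.1, fun s hs => (hψ s hs).2.2.1,
    fun s hs => (hψ s hs).2.2.2⟩

end Pool.Agent.H95R2.BG
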