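import Mathlib
import Pool.Agent.H95R2.BG.Defs

/-! BG project (helper95): the same theorem for linear forms `A i * n + B i`: definitions. -/

open Finset Filter
open scoped ContDiff

namespace Pool.Agent.H95R2.BG.LF

open Pool.Agent.H378R2

/-- the leading coefficients and the resultants have no prime factor `> D` -/
def SepL (D : ℕ) {K : ℕ} (A B : Fin K → ℕ) : Prop :=
  (∀ i j, i ≠ j → ∀ p : ℕ, p.Prime → D < p → ¬ (p : ℤ) ∣ (A i : ℤ) * B j - (A j : ℤ) * B i) ∧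
    (∀ i, 1 ≤ A i) ∧ ∀ i, ∀ p : ℕ, p.Prime → D < p → ¬ p ∣ A i

/-- admissible forms -/
def AdmissibleL {K : ℕ} (A B : Fin K → ℕ) : Prop :=
  (∀ i, 1 ≤ A i) ∧ (∀ i j, i ≠ j → A i * B j ≠ A j * B i) ∧ ∀ p : ℕ, p.Prime → ∃ a : ℕ, ∀ i, ¬ p ∣ A i * a + B i

/-- the remaining coefficients -/
def rem {K0 : ℕ} (A : Fin (K0 + 1) → ℕ) (i : Fin (K0 + 1)) : Fin K0 → ℕ := fun j => A (i.succAbove j)

/-- product of the cell functions -/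
noncomputable def prodv (τ : ℝ) (D : ℕ) (X : ℝ) {J : ℕ} (f : ℕ → ℝ → ℝ) (A B c : Fin J → ℕ) (n : ℕ) : ℝ :=
  ∏ j, vv τ D X (f (c j)) ((A j : ℤ) * n + B j)

/-- square root of the sieve weight -/
noncomputable def ww (τ : ℝ) (D : ℕ) (X : ℝ) {K0 : ℕ} (f : ℕ → ℝ → ℝ) (M : ℕ) (F : (Fin (K0 + 1) → ℕ) → ℝ)
    (A B : Fin (K0 + 1) → ℕ) (n : ℕ) : ℝ :=
  ∑ c ∈ Box (K0 + 1) M, F c * prodv τ D X f A B c n

noncomputable def zz (τ : ℝ) (D : ℕ) (X : ℝ) {K0 : ℕ} (f ψ : ℕ → ℝ → ℝ) (M : ℕ) (F : (Fin (K0 + 1) → ℕ) → ℝ)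
    (A B : Fin (K0 + 1) → ℕ) (i : Fin (K0 + 1)) (α : ℕ → ℝ) (n : ℕ) : ℝ :=
  ∑ c ∈ Box K0 M, α (rad c) * UU M F i c *
    (vv τ D X (ψ (rad c)) ((A i : ℤ) * n + B i) * prodv τ D X f (rem A i) (rem B i) c n)

noncomputable def qq (τ : ℝ) (D : ℕ) (X : ℝ) {K0 : ℕ} (f : ℕ → ℝ → ℝ) (M : ℕ) (F : (Fin (K0 + 1) → ℕ) → ℝ)
    (A B : Fin (K0 + 1) → ℕ) (i : Fin (K0 + 1)) (κ : ℕ → ℕ → ℝ) (n : ℕ) : ℝ :=
  ∑ c ∈ Box K0 M, ∑ c' ∈ Box K0 M, κ (rad c) (rad c') *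
    ((UU M F i c * prodv τ D X f (rem A i) (rem B i) c n) * (UU M F i c' * prodv τ D X f (rem A i) (rem B i) c' n))

open Classical in
/-- the good integers `n ≤ X` -/
noncomputable def goodL {K : ℕ} (A B : Fin K → ℕ) (X : ℝ) : Finset ℕ :=
  (Icc 1 ⌊X⌋₊).filter (fun n => ∃ i j, i ≠ j ∧ (A i * n + B i).Prime ∧ (A j * n + B j).Prime)

/-- `DHL[49,2]` for linear forms, with a count -/
def Dhl49L : Prop := ∀ (A B : Fin 49 → ℕ), AdmissibleL A B → ∀ ε : ℝ, 0 < ε →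
  ∀ᶠ X : ℝ in atTop, X ^ (1 - ε) ≤ ((goodL A B X).card : ℝ)

end Pool.Agent.H95R2.BG.LF
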