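import Mathlib
import Pool.Agent.H95R2.BG.Defs
import Pool.Agent.H378R2.M5

/-! BG project (helper95): pair asymptotics over all integers. -/

open Finset Filter MeasureTheory
open scoped ContDiff

namespace Pool.Agent.H95R2.BG

open Pool.Agent.H378R2

theorem mem_PD {D p : ℕ} : p ∈ PD D ↔ (1 ≤ p ∧ p ≤ D) ∧ p.Prime := by
  unfold PD
  rw [Finset.mem_filter, Finset.mem_Icc]

theorem mem_PD' {D p : ℕ} (hp : p.Prime) (h : p ≤ D) : p ∈ PD D := mem_PD.2 ⟨⟨hp.one_lt.le, h⟩, hp⟩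

/-- basic facts on the parameters -/
theorem BE_PD_pos (D : ℕ) : 0 < BE (PD D) := BE_pos fun _ hp => (mem_PD.1 hp).2

theorem BE_PD_le_one (D : ℕ) : BE (PD D) ≤ 1 := BE_le_one fun _ hp => (mem_PD.1 hp).2

theorem WD_pos (D : ℕ) : 0 < WD D := Finset.prod_pos fun _ hp => (mem_PD.1 hp).2.pos

theorem prime_dvd_WD {D p : ℕ} (hp : p.Prime) : p ∣ WD D ↔ p ∈ PD D := by
  unfold WD
  constructor
  · intro h
    obtain ⟨q, hq, hpq⟩ := (Prime.dvd_finsetProd_iff hp.prime _).1 h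
    have hq' := (mem_PD.1 hq).2
    rw [(Nat.prime_dvd_prime_iff_eq hp hq').1 hpq]
    exact hq
  · intro h
    exact Finset.dvd_prod_of_mem _ h

theorem WD_squarefree (D : ℕ) : Squarefree (WD D) := by
  unfold WD
  have : ∀ s : Finset ℕ, (∀ p ∈ s, p.Prime) → Squarefree (∏ p ∈ s, p) := by
    intro s
    induction s using Finset.induction_on with
    | empty => intro _; simp
    | insert a s ha ih =>
      intro hs
      rw [Finset.prod_insert ha, Nat.squarefree_mul_iff]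
      refine ⟨?_, (hs a (Finset.mem_insert_self _ _)).prime.squarefree,
        ih fun p hp => hs p (Finset.mem_insert_of_mem hp)⟩
      apply Nat.Coprime.prod_right
      intro i hi
      rw [Nat.coprime_primes (hs a (Finset.mem_insert_self _ _)) (hs i (Finset.mem_insert_of_mem hi))]
      rintro rfl
      exact ha hi
  exact this _ fun p hp => (mem_PD.1 hp).2

theorem WD_primeFactors (D : ℕ) : (WD D).primeFactors = PD D := by
  ext p
  rw [Nat.mem_primeFactors]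
  constructor
  · rintro ⟨hp, h, _⟩
    exact (prime_dvd_WD hp).1 h
  · intro h
    exact ⟨(mem_PD.1 h).2, (prime_dvd_WD (mem_PD.1 h).2).2 h, (WD_pos D).ne'⟩

theorem totient_WD (D : ℕ) : ((WD D).totient : ℝ) = WD D * BE (PD D) := by
  have h1 := totient_sqf (WD_squarefree D)
  rw [WD_primeFactors] at h1
  rw [h1]
  unfold WD BE
  push_cast
  rw [← Finset.prod_mul_distrib]
  refine Finset.prod_congr rfl fun p hp => ?_
  have : (p : ℝ) ≠ 0 := by exact_mod_cast (mem_PD.1 hp).2.ne_zero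
  field_simp

theorem Lt_tendsto {τ : ℝ} (hτ : τ < 1 / 4) : Tendsto (Lt τ) atTop atTop :=
  Real.tendsto_log_atTop.const_mul_atTop (by linarith)

theorem Lt_pos {τ X : ℝ} (hτ : τ < 1 / 4) (hX : 1 < X) : 0 < Lt τ X :=
  mul_pos (by linarith) (Real.log_pos hX)

theorem NN_pos (τ : ℝ) (hτ : τ < 1 / 4) (D K : ℕ) : ∀ᶠ X : ℝ in atTop, 0 < NN τ D X K := by
  filter_upwards [eventually_ge_atTop 40] with X hX
  have h1 := MPhi_ge X hX
  have h2 : 0 < MPhi X := by linarith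
  have h3 : (0 : ℝ) < WD D := by exact_mod_cast WD_pos D
  have h4 := BE_PD_pos D
  have h5 := Lt_pos hτ (by linarith : 1 < X)
  unfold NN
  positivity

/-- the level of truncation is large enough -/
theorem Rt_ge {τ X : ℝ} (h : 1 ≤ Lt τ X) : 2 ≤ Real.log (Rt τ X) / Lt τ X := by
  have hpos : 0 < Lt τ X := by linarith
  rw [le_div_iff₀ hpos]
  have h1 : Real.exp (3 * Lt τ X) - 1 < (⌊Real.exp (3 * Lt τ X)⌋₊ : ℝ) := by
    have := Nat.lt_floor_add_one (Real.exp (3 * Lt τ X))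
    linarith
  have h2 : Real.exp (2 * Lt τ X) ≤ Real.exp (3 * Lt τ X) - 1 := by
    have h3 : Real.exp (3 * Lt τ X) = Real.exp (2 * Lt τ X) * Real.exp (Lt τ X) := by
      rw [← Real.exp_add]; ring_nf
    have h4 : 2 ≤ Real.exp (Lt τ X) := by
      have := Real.add_one_le_exp (Lt τ X)
      linarith
    have h5 : 1 ≤ Real.exp (2 * Lt τ X) := Real.one_le_exp (by linarith)
    rw [h3]
    nlinarith
  unfold Rt
  rw [Real.le_log_iff_exp_le (by linarith [Real.exp_pos (2 * Lt τ X)])]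
  linarith

/-- negligible errors -/
theorem err_small {τ : ℝ} (hτ : 0 < τ) (hτ' : τ < 1 / 8) (D J : ℕ) (ε : ℝ) (hε : 0 < ε) :
    ∀ᶠ X : ℝ in atTop, 5 * Real.exp (4 * Lt τ X) ≤ ε * NN τ D X J := by
  have hW : (0 : ℝ) < WD D := by exact_mod_cast WD_pos D
  have hB := BE_PD_pos D
  have hB1 := BE_PD_le_one D
  have h1 := (isLittleO_log_rpow_rpow_atTop (J : ℝ) (by linarith : 0 < 4 * τ)).bound
    (by positivity : (0 : ℝ) < ε / (100 * WD D))
  filter_upwards [h1, eventually_ge_atTop 40] with X h2 hX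
  have hX0 : 0 < X := by linarith
  have hX1 : 1 < X := by linarith
  have hlog : 0 < Real.log X := Real.log_pos hX1
  have hL := Lt_pos (by linarith : τ < 1 / 4) hX1
  have hM := MPhi_ge X hX
  rw [Real.rpow_natCast, Real.norm_of_nonneg (by positivity), Real.norm_of_nonneg (by positivity)] at h2
  have e1 : Real.exp (4 * Lt τ X) = X / X ^ (4 * τ) := by
    rw [Real.rpow_def_of_pos hX0]
    rw [eq_div_iff (Real.exp_pos _).ne', ← Real.exp_add]
    have : 4 * Lt τ X + Real.log X * (4 * τ) = Real.log X := by unfold Lt; ring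
    rw [this, Real.exp_log hX0]
  have hLB : Lt τ X * BE (PD D) ≤ Real.log X := by
    unfold Lt
    have : (1 / 4 - τ) * Real.log X ≤ Real.log X := by nlinarith
    have h0 : 0 ≤ (1 / 4 - τ) * Real.log X := by
      apply mul_nonneg (by linarith) hlog.le
    nlinarith
  have hLBpos : 0 < Lt τ X * BE (PD D) := by positivity
  have hpow : (Lt τ X * BE (PD D)) ^ J ≤ Real.log X ^ J := pow_le_pow_left₀ hLBpos.le hLB J
  have hXt : 0 < X ^ (4 * τ) := by positivity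
  have h3 : 100 * WD D * (Lt τ X * BE (PD D)) ^ J ≤ ε * X ^ (4 * τ) := by
    have := hpow.trans h2
    rw [div_mul_eq_mul_div, le_div_iff₀ (by positivity)] at this
    linarith
  rw [e1]
  unfold NN
  rw [one_div_pow]
  have h4 : 5 * (X / X ^ (4 * τ)) ≤ ε * (X / 20 * (1 / (WD D : ℝ)) * (1 / (Lt τ X * BE (PD D)) ^ J)) := by
    have e2 : ε * (X / 20 * (1 / (WD D : ℝ)) * (1 / (Lt τ X * BE (PD D)) ^ J)) =
        (ε * X) / (20 * WD D * (Lt τ X * BE (PD D)) ^ J) := by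
      field_simp
    rw [e2, ← mul_div_assoc, div_le_div_iff₀ hXt (by positivity)]
    nlinarith
  refine h4.trans ?_
  gcongr

/-- S1: pair asymptotics over all integers -/
theorem S1pair {J : ℕ} (τ : ℝ) (hτ : 0 < τ) (hτ' : τ < 1 / 8) (F G : Fin J → ℝ → ℝ) (cF cG : Fin J → ℝ)
    (hF : ∀ j, GF (F j) (cF j)) (hG : ∀ j, GF (G j) (cG j)) (hsum : ∑ j, cF j + ∑ j, cG j ≤ 4)
    (ε : ℝ) (hε : 0 < ε) :
    ∃ D0 : ℕ, ∀ D : ℕ, D0 ≤ D → ∀ h : Fin J → ℕ, Sep D h → ∀ a : ℕ, ∀ᶠ X : ℝ in atTop,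
      |∑ n ∈ Icc 1 ⌊3 * X⌋₊, nu X (WD D) a n *
          ∏ j, (vv τ D X (F j) ((n : ℤ) + h j) * vv τ D X (G j) ((n : ℤ) + h j)) -
        NN τ D X J * ∏ j, DD (F j) (G j)| ≤ ε * NN τ D X J := by
  obtain ⟨δ, hδ, hS⟩ := sieve_asymp J F G (fun j => (hF j).smooth) (fun j => (hG j).smooth)
    (fun j => (hF j).compact) (fun j => (hG j).compact) (ε / 2) (by positivity)
  refine ⟨⌈1 / δ⌉₊, fun D hD h hsep a => ?_⟩
  have hτ4 : τ < 1 / 4 := by linarith
  have hLt := Lt_tendsto hτ4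
  have e1 : ∀ᶠ X : ℝ in atTop, ∑ p ∈ PD D, Real.log p / p ≤ (Lt τ X) ^ (1 / 4 : ℝ) :=
    ((tendsto_rpow_atTop (by norm_num)).comp hLt).eventually_ge_atTop _
  have e2 : ∀ᶠ X : ℝ in atTop, ∑ p ∈ PD D, (1 : ℝ) / p ≤ Real.log (Lt τ X) / 32 :=
    ((Real.tendsto_log_atTop.comp hLt).atTop_div_const (by norm_num)).eventually_ge_atTop _
  have e3 := err_small hτ hτ' D J (ε / 2) (by positivity)
  have e4 := err_small hτ hτ' D 0 1 one_pos
  filter_upwards [e1, e2, e3, e4, hLt.eventually_ge_atTop 1, hLt.eventually_ge_atTop (1 / δ),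
    eventually_ge_atTop 40] with X h1 h2 h3 h4 h5 h6 hX
  have hW : (0 : ℝ) < WD D := by exact_mod_cast WD_pos D
  have hB := BE_PD_pos D
  have hL : 0 < Lt τ X := by linarith
  have hM : 0 < MPhi X := by have := MPhi_ge X hX; linarith
  have hsize : (WD D : ℝ) * Real.exp (Lt τ X * (∑ j, cF j + ∑ j, cG j)) ≤ X := by
    have k1 : Real.exp (Lt τ X * (∑ j, cF j + ∑ j, cG j)) ≤ Real.exp (4 * Lt τ X) := by
      apply Real.exp_le_exp.2
      nlinarith
    unfold NN at h4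
    rw [pow_zero, mul_one, one_mul, mul_one_div, le_div_iff₀ hW] at h4
    have k2 := MPhi_le X (by linarith)
    have k3 : 0 < Real.exp (4 * Lt τ X) := Real.exp_pos _
    nlinarith
  have k1 := sum1 X (by linarith) (WD D) a (WD_pos D) F G (Lt τ X) 1 hL zero_le_one cF cG
    (fun j => (hF j).bdd) (fun j => (hG j).bdd) (fun j => (hF j).zero) (fun j => (hG j).zero)
    (fun _ => PD D) (Rt τ X) (fun _ => 1) (fun j => (h j : ℤ))
    (fun _ p hp hpD hdvd => hpD ((prime_dvd_WD hp).1 hdvd))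
    (fun _ p hp _ hdvd => hp.one_lt.ne' (Nat.dvd_one.1 hdvd))
    (by
      intro i j hij p hp hpE _ n hh
      have hpD : D < p := by
        by_contra hc
        push Not at hc
        exact hpE (mem_PD' hp hc)
      apply hsep i j hij p hp hpD
      have := dvd_sub hh.1 hh.2
      have h7 : ((1 : ℕ) : ℤ) * n + h i - (((1 : ℕ) : ℤ) * n + h j) = h i - h j := by ring
      rwa [h7] at this)
    hsize
  have k2 := hS (Lt τ X) (fun _ => PD D) (fun p _ => 1 / (p : ℝ)) (Rt τ X) h6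
    (by
      intro j x hx
      have h7 : 2 < x := lt_of_le_of_lt (Rt_ge h5) hx
      exact ⟨(hF j).zero x (lt_of_le_of_lt (hF j).le_two h7),
        (hG j).zero x (lt_of_le_of_lt (hG j).le_two h7)⟩)
    (fun _ p hp => (mem_PD.1 hp).2)
    (by
      intro _ p hp hpl
      apply mem_PD' hp
      have : (p : ℝ) ≤ ⌈1 / δ⌉₊ := hpl.trans (Nat.le_ceil (1 / δ))
      have : p ≤ ⌈1 / δ⌉₊ := by exact_mod_cast this
      omega)
    (fun _ => h1) (fun _ => h2) (fun _ p _ _ => w_one p)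
  have k3 : ∏ j : Fin J, (Lt τ X * ∏ p ∈ PD D, (1 - 1 / (p : ℝ))) = (Lt τ X * BE (PD D)) ^ J := by
    rw [Finset.prod_const, Finset.card_univ, Fintype.card_fin]
    rfl
  rw [k3] at k2
  set SS := sieveSum J F G (Lt τ X) (fun _ => PD D) (fun p _ => 1 / (p : ℝ)) (Rt τ X) with hSS
  set P := ∏ j, DD (F j) (G j) with hP
  have k2' : |(Lt τ X * BE (PD D)) ^ J * SS - P| ≤ ε / 2 := k2
  have k4 : MPhi X * (1 / (WD D : ℝ)) * SS - NN τ D X J * P =
      NN τ D X J * ((Lt τ X * BE (PD D)) ^ J * SS - P) := by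
    unfold NN
    rw [one_div_pow]
    have : (Lt τ X * BE (PD D)) ^ J ≠ 0 := by positivity
    field_simp
  have hNN : 0 < NN τ D X J := by
    unfold NN
    positivity
  have k5 : |MPhi X * (1 / (WD D : ℝ)) * SS - NN τ D X J * P| ≤ ε / 2 * NN τ D X J := by
    rw [k4, abs_mul, abs_of_pos hNN, mul_comm]
    exact mul_le_mul_of_nonneg_right k2' hNN.le
  have k6 : 5 * (1 : ℝ) ^ (2 * J) * Real.exp (Lt τ X * (∑ j, cF j + ∑ j, cG j)) ≤ ε / 2 * NN τ D X J := by
    refine le_trans ?_ h3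
    rw [one_pow, mul_one]
    have : Real.exp (Lt τ X * (∑ j, cF j + ∑ j, cG j)) ≤ Real.exp (4 * Lt τ X) := by
      apply Real.exp_le_exp.2
      nlinarith
    linarith
  have k7 : ∑ n ∈ Icc 1 ⌊3 * X⌋₊, nu X (WD D) a n *
          ∏ j, (vv τ D X (F j) ((n : ℤ) + h j) * vv τ D X (G j) ((n : ℤ) + h j)) =
      ∑ n ∈ Icc 1 ⌊3 * X⌋₊, (if n ≡ a [MOD WD D] then Phi (n / X) else 0) *
        ∏ j, (VVm (PD D) (Rt τ X) (Lt τ X) (F j) (((1 : ℕ) : ℤ) * n + h j) *
          VVm (PD D) (Rt τ X) (Lt τ X) (G j) (((1 : ℕ) : ℤ) * n + h j)) := by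
    refine Finset.sum_congr rfl fun n _ => ?_
    unfold nu vv
    simp only [Nat.cast_one, one_mul]
  rw [k7]
  calc _ = |(∑ n ∈ Icc 1 ⌊3 * X⌋₊, (if n ≡ a [MOD WD D] then Phi (n / X) else 0) *
        ∏ j, (VVm (PD D) (Rt τ X) (Lt τ X) (F j) (((1 : ℕ) : ℤ) * n + h j) *
          VVm (PD D) (Rt τ X) (Lt τ X) (G j) (((1 : ℕ) : ℤ) * n + h j)) -
        MPhi X * (1 / (WD D : ℝ)) * SS) + (MPhi X * (1 / (WD D : ℝ)) * SS - NN τ D X J * P)| := by
        congr 1; ring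
    _ ≤ _ := abs_add_le _ _
    _ ≤ ε / 2 * NN τ D X J + ε / 2 * NN τ D X J := add_le_add (k1.trans k6) k5
    _ = ε * NN τ D X J := by ring

end Pool.Agent.H95R2.BG
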