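import Mathlib
import Pool.Agent.H95R2.BG.Defs
import Pool.Agent.H732R2.MT_B2
import Pool.Agent.H398R2.BV6
import Pool.Agent.H379R2.SWMain
import Pool.Agent.H307R2.Sg6

/-! BG project (helper95): Bombieri-Vinogradov with the tent weight. -/

open Finset Filter MeasureTheory
open scoped ContDiff

namespace Pool.Agent.H95R2.BG

open Pool.Agent.H378R2
open Pool.Agent.H410R2 (psiLogAP psiLog1 BVAP)

theorem bvap' : BVAP :=
  Pool.Agent.H732R2.bvAP (Pool.Agent.H398R2.bvTotal (Pool.Agent.H379R2.SW.siegelWalfisz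
    Pool.Agent.H307R2.siegel))

theorem tent_decomp (t : ℝ) : max 0 (1 / 2 - |(-t) - 1 / 2|) =
    max 0 (1 + t) - 2 * max 0 (1 / 2 + t) + max 0 t := by
  rcases le_or_gt t (-1) with h1 | h1
  · rw [max_eq_left (by linarith : (1 + t) ≤ 0), max_eq_left (by linarith : (1 / 2 + t) ≤ 0),
      max_eq_left (by linarith : t ≤ 0), abs_of_nonneg (by linarith), max_eq_left (by linarith)]
    ring
  · rcases le_or_gt t (-1 / 2) with h2 | h2
    · rw [max_eq_right (by linarith : 0 ≤ (1 + t)), max_eq_left (by linarith : (1 / 2 + t) ≤ 0),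
        max_eq_left (by linarith : t ≤ 0), abs_of_nonneg (by linarith), max_eq_right (by linarith)]
      ring
    · rcases le_or_gt t 0 with h3 | h3
      · rw [max_eq_right (by linarith : 0 ≤ (1 + t)), max_eq_right (by linarith : 0 ≤ (1 / 2 + t)),
          max_eq_left (by linarith : t ≤ 0), abs_of_nonpos (by linarith), max_eq_right (by linarith)]
        ring
      · rw [max_eq_right (by linarith : 0 ≤ (1 + t)), max_eq_right (by linarith : 0 ≤ (1 / 2 + t)),
          max_eq_right h3.le, abs_of_nonpos (by linarith), max_eq_left (by linarith)]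
        ring

/-- `Phi (n / X)` as a combination of truncated logarithms -/
theorem Phi_decomp (X : ℝ) (hX : 0 < X) (n : ℕ) (hn : 0 < n) :
    Phi (n / X) = max 0 (Real.log (Real.exp 1 * X / n)) - 2 * max 0 (Real.log (Real.exp (1 / 2) * X / n)) +
      max 0 (Real.log (X / n)) := by
  have hnr : (0 : ℝ) < n := by exact_mod_cast hn
  have h1 : Real.log (Real.exp 1 * X / n) = 1 + Real.log (X / n) := by
    rw [mul_div_assoc, Real.log_mul (Real.exp_pos _).ne' (by positivity), Real.log_exp]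
  have h2 : Real.log (Real.exp (1 / 2) * X / n) = 1 / 2 + Real.log (X / n) := by
    rw [mul_div_assoc, Real.log_mul (Real.exp_pos _).ne' (by positivity), Real.log_exp]
  have h3 : Real.log (n / X) = - Real.log (X / n) := by
    rw [← Real.log_inv, inv_div]
  unfold Phi
  rw [h1, h2, h3, tent_decomp]

/-- extension of a truncated logarithmic sum -/
theorem sum_ext (X Y : ℝ) (hY : 0 < Y) (hYX : Y ≤ 3 * X) (P : ℕ → Prop) [DecidablePred P] :
    ∑ n ∈ (Icc 1 ⌊Y⌋₊).filter P, ArithmeticFunction.vonMangoldt n * Real.log (Y / n) =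
      ∑ n ∈ (Icc 1 ⌊3 * X⌋₊).filter P, max 0 (Real.log (Y / n)) * ArithmeticFunction.vonMangoldt n := by
  have hsub : (Icc 1 ⌊Y⌋₊).filter P ⊆ (Icc 1 ⌊3 * X⌋₊).filter P := by
    apply Finset.filter_subset_filter
    apply Finset.Icc_subset_Icc_right
    exact Nat.floor_le_floor hYX
  rw [← Finset.sum_subset hsub]
  · refine Finset.sum_congr rfl fun n hn => ?_
    rw [Finset.mem_filter, Finset.mem_Icc] at hn
    have hn0 : (0 : ℝ) < n := by exact_mod_cast hn.1.1
    have hnY : (n : ℝ) ≤ Y := (Nat.le_floor_iff hY.le).1 hn.1.2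
    rw [max_eq_right (Real.log_nonneg ((one_le_div hn0).2 hnY)), mul_comm]
  · intro n hn hn'
    rw [Finset.mem_filter, Finset.mem_Icc] at hn hn'
    have hn0 : (0 : ℝ) < n := by exact_mod_cast hn.1.1
    have hnY : Y < n := by
      by_contra hc
      push Not at hc
      exact hn' ⟨⟨hn.1.1, (Nat.le_floor_iff hY.le).2 hc⟩, hn.2⟩
    rw [max_eq_left (Real.log_nonpos (by positivity) ((div_le_one hn0).2 hnY.le)), zero_mul]

theorem sum_Phi (X : ℝ) (hX : 0 < X) (P : ℕ → Prop) [DecidablePred P] :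
    ∑ n ∈ (Icc 1 ⌊3 * X⌋₊).filter P, Phi (n / X) * ArithmeticFunction.vonMangoldt n =
      ∑ n ∈ (Icc 1 ⌊Real.exp 1 * X⌋₊).filter P,
        ArithmeticFunction.vonMangoldt n * Real.log (Real.exp 1 * X / n) -
      2 * ∑ n ∈ (Icc 1 ⌊Real.exp (1 / 2) * X⌋₊).filter P,
        ArithmeticFunction.vonMangoldt n * Real.log (Real.exp (1 / 2) * X / n) +
      ∑ n ∈ (Icc 1 ⌊X⌋₊).filter P, ArithmeticFunction.vonMangoldt n * Real.log (X / n) := by
  have he3 : Real.exp 1 < 3 := exp_one_lt_three'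
  have he2 : Real.exp (1 / 2) ≤ Real.exp 1 := Real.exp_le_exp.2 (by norm_num)
  rw [sum_ext X (Real.exp 1 * X) (by positivity) (by nlinarith) P,
    sum_ext X (Real.exp (1 / 2) * X) (by positivity) (by nlinarith) P,
    sum_ext X X hX (by linarith) P, Finset.mul_sum, ← Finset.sum_sub_distrib, ← Finset.sum_add_distrib]
  refine Finset.sum_congr rfl fun n hn => ?_
  rw [Finset.mem_filter, Finset.mem_Icc] at hn
  rw [Phi_decomp X hX n (by omega)]
  ring

theorem EPhi_decomp (X : ℝ) (hX : 0 < X) (Q b : ℕ) :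
    |EPhi X Q b| ≤
      |psiLogAP (Real.exp 1 * X) Q b - psiLog1 (Real.exp 1 * X) / (Nat.totient Q : ℝ)| +
      2 * |psiLogAP (Real.exp (1 / 2) * X) Q b - psiLog1 (Real.exp (1 / 2) * X) / (Nat.totient Q : ℝ)| +
      |psiLogAP X Q b - psiLog1 X / (Nat.totient Q : ℝ)| := by
  have h1 := sum_Phi X hX (fun n => n ≡ b [MOD Q])
  have h2 := sum_Phi X hX (fun _ => True)
  simp only [Finset.filter_true] at h2
  have h3 : EPhi X Q b =
      (psiLogAP (Real.exp 1 * X) Q b - psiLog1 (Real.exp 1 * X) / (Nat.totient Q : ℝ)) -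
      2 * (psiLogAP (Real.exp (1 / 2) * X) Q b - psiLog1 (Real.exp (1 / 2) * X) / (Nat.totient Q : ℝ)) +
      (psiLogAP X Q b - psiLog1 X / (Nat.totient Q : ℝ)) := by
    unfold EPhi
    rw [h1, h2]
    unfold psiLogAP psiLog1
    ring
  rw [h3]
  refine (abs_add_le _ _).trans ?_
  refine add_le_add_left ((abs_sub _ _).trans ?_) _
  rw [abs_mul, abs_two]

theorem card_divisors_sqf {q : ℕ} (hq : Squarefree q) : q.divisors.card = 2 ^ q.primeFactors.card := by
  rw [Nat.card_divisors hq.ne_zero]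
  rw [Finset.prod_congr rfl (g := fun _ => 2), Finset.prod_const]
  intro p hp
  rw [Nat.factorization_eq_one_of_squarefree hq (Nat.prime_of_mem_primeFactors hp)
    (Nat.dvd_of_mem_primeFactors hp)]

/-- Bombieri-Vinogradov with the tent weight -/
theorem bv_tent (W : ℕ) (hW : 0 < W) (θ : ℝ) (hθ : θ < 1 / 2) (k A : ℕ) :
    ∀ᶠ X : ℝ in atTop, ∀ B : ℕ → ℕ, (∀ q, (B q).Coprime (W * q)) →
      ∑ q ∈ (Icc 1 ⌊X ^ θ⌋₊).filter (fun q => Squarefree q),
        (q.divisors.card : ℝ) ^ k * |EPhi X (W * q) (B q)| ≤ X / (Real.log X) ^ A := by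
  obtain ⟨θ₁, h1, h0, hθ1⟩ : ∃ θ₁ : ℝ, θ ≤ θ₁ ∧ 0 ≤ θ₁ ∧ θ₁ < 1 / 2 :=
    ⟨max θ 0, le_max_left _ _, le_max_right _ _, max_lt hθ (by norm_num)⟩
  obtain ⟨X₀, hbv⟩ := bvap' W hW ((2 : ℝ) ^ k) (one_le_pow₀ (by norm_num)) ((1 / 2 - θ₁) / 2)
    (by linarith) (A + 1)
  filter_upwards [eventually_ge_atTop X₀, eventually_ge_atTop 3,
    Real.tendsto_log_atTop.eventually_ge_atTop 12] with X hX hX3 hlog
  intro B hB
  have hX1 : 1 ≤ X := by linarith
  have hX0 : 0 < X := by linarith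
  have hlog0 : 0 < Real.log X := by linarith
  have he3 : Real.exp 1 < 3 := exp_one_lt_three'
  -- the bound at one height
  have hY : ∀ Y : ℝ, X ≤ Y → Y ≤ 3 * X →
      ∑ q ∈ (Icc 1 ⌊X ^ θ⌋₊).filter (fun q => Squarefree q),
        (q.divisors.card : ℝ) ^ k *
          |psiLogAP Y (W * q) (B q) - psiLog1 Y / (Nat.totient (W * q) : ℝ)| ≤
        3 * X / (Real.log X) ^ (A + 1) := by
    intro Y hXY hY3
    have hb := hbv Y (hX.trans hXY) B
    have hfl : ⌊X ^ θ⌋₊ ≤ ⌊Y ^ (1 / 2 - (1 / 2 - θ₁) / 2)⌋₊ := by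
      apply Nat.floor_le_floor
      calc X ^ θ ≤ X ^ (1 / 2 - (1 / 2 - θ₁) / 2) := Real.rpow_le_rpow_of_exponent_le hX1 (by linarith)
        _ ≤ Y ^ (1 / 2 - (1 / 2 - θ₁) / 2) := Real.rpow_le_rpow hX0.le hXY (by linarith)
    have hsub : (Icc 1 ⌊X ^ θ⌋₊).filter (fun q => Squarefree q) ⊆
        (Icc 1 ⌊Y ^ (1 / 2 - (1 / 2 - θ₁) / 2)⌋₊).filter
          (fun q => Squarefree q ∧ (B q).Coprime (W * q)) := by
      intro q hq
      rw [Finset.mem_filter, Finset.mem_Icc] at hq ⊢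
      exact ⟨⟨hq.1.1, hq.1.2.trans hfl⟩, hq.2, hB q⟩
    calc ∑ q ∈ (Icc 1 ⌊X ^ θ⌋₊).filter (fun q => Squarefree q),
        (q.divisors.card : ℝ) ^ k *
          |psiLogAP Y (W * q) (B q) - psiLog1 Y / (Nat.totient (W * q) : ℝ)|
        = ∑ q ∈ (Icc 1 ⌊X ^ θ⌋₊).filter (fun q => Squarefree q),
          ((2 : ℝ) ^ k) ^ q.primeFactors.card *
          |psiLogAP Y (W * q) (B q) - psiLog1 Y / (Nat.totient (W * q) : ℝ)| := by
          refine Finset.sum_congr rfl fun q hq => ?_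
          rw [card_divisors_sqf (Finset.mem_filter.1 hq).2]
          push_cast
          rw [← pow_mul, ← pow_mul, mul_comm k]
      _ ≤ _ := Finset.sum_le_sum_of_subset_of_nonneg hsub (fun q _ _ => by positivity)
      _ ≤ Y / (Real.log Y) ^ (A + 1) := hb
      _ ≤ 3 * X / (Real.log X) ^ (A + 1) := by
          have hll : Real.log X ≤ Real.log Y := Real.log_le_log hX0 hXY
          apply div_le_div₀ (by linarith) hY3 (by positivity)
          exact pow_le_pow_left₀ hlog0.le hll _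
  have he1 : 1 ≤ Real.exp 1 := Real.one_le_exp (by norm_num)
  have he2 : 1 ≤ Real.exp (1 / 2) := Real.one_le_exp (by norm_num)
  have he21 : Real.exp (1 / 2) ≤ Real.exp 1 := Real.exp_le_exp.2 (by norm_num)
  have b1 := hY (Real.exp 1 * X) (by nlinarith) (by nlinarith)
  have b2 := hY (Real.exp (1 / 2) * X) (by nlinarith) (by nlinarith)
  have b3 := hY X le_rfl (by linarith)
  calc ∑ q ∈ (Icc 1 ⌊X ^ θ⌋₊).filter (fun q => Squarefree q),
        (q.divisors.card : ℝ) ^ k * |EPhi X (W * q) (B q)|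
      ≤ ∑ q ∈ (Icc 1 ⌊X ^ θ⌋₊).filter (fun q => Squarefree q),
        ((q.divisors.card : ℝ) ^ k *
          |psiLogAP (Real.exp 1 * X) (W * q) (B q) - psiLog1 (Real.exp 1 * X) / (Nat.totient (W * q) : ℝ)| +
        2 * ((q.divisors.card : ℝ) ^ k *
          |psiLogAP (Real.exp (1 / 2) * X) (W * q) (B q) -
            psiLog1 (Real.exp (1 / 2) * X) / (Nat.totient (W * q) : ℝ)|) +
        (q.divisors.card : ℝ) ^ k *
          |psiLogAP X (W * q) (B q) - psiLog1 X / (Nat.totient (W * q) : ℝ)|) := by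
        refine Finset.sum_le_sum fun q _ => ?_
        have := mul_le_mul_of_nonneg_left (EPhi_decomp X hX0 (W * q) (B q))
          (by positivity : (0 : ℝ) ≤ (q.divisors.card : ℝ) ^ k)
        refine this.trans (le_of_eq ?_)
        ring
    _ ≤ 3 * X / (Real.log X) ^ (A + 1) + 2 * (3 * X / (Real.log X) ^ (A + 1)) +
        3 * X / (Real.log X) ^ (A + 1) := by
        rw [Finset.sum_add_distrib, Finset.sum_add_distrib, ← Finset.mul_sum]
        linarith
    _ = (X / (Real.log X) ^ A) * (12 / Real.log X) := by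
        rw [pow_succ]
        field_simp
        ring
    _ ≤ (X / (Real.log X) ^ A) * 1 := by
        apply mul_le_mul_of_nonneg_left _ (by positivity)
        rw [div_le_one hlog0]
        exact hlog
    _ = X / (Real.log X) ^ A := mul_one _

end Pool.Agent.H95R2.BG
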