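import Mathlib
import Pool.Agent.H95R2.BG.S1
import Pool.Agent.H95R2.BG.BV
import Pool.Agent.H510R2.Maier.MA1

/-! BG project: task 5 (S2pair). -/

open Finset Filter
open scoped ContDiff

namespace Pool.Agent.H95R2.BG

open Pool.Agent.H378R2

namespace S2

theorem EPhi_mod (X : ℝ) (Q b : ℕ) : EPhi X Q (b % Q) = EPhi X Q b := by
  unfold EPhi
  have : ∀ n : ℕ, (n ≡ b % Q [MOD Q]) ↔ (n ≡ b [MOD Q]) := by
    intro n
    unfold Nat.ModEq
    rw [Nat.mod_mod]
  simp only [this]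

/-- choice of the worst residue classes -/
theorem worst (X : ℝ) (W : ℕ) (hW : 0 < W) : ∃ B : ℕ → ℕ, (∀ q, (B q).Coprime (W * q)) ∧
    ∀ q, 1 ≤ q → ∀ b' : ℕ, b'.Coprime (W * q) → |EPhi X (W * q) b'| ≤ |EPhi X (W * q) (B q)| := by
  have key : ∀ q : ℕ, ∃ b : ℕ, b.Coprime (W * q) ∧
      (1 ≤ q → ∀ b' : ℕ, b'.Coprime (W * q) → |EPhi X (W * q) b'| ≤ |EPhi X (W * q) b|) := by
    intro q
    rcases Nat.eq_zero_or_pos q with rfl | hq
    · exact ⟨1, Nat.coprime_one_left _, fun h => by omega⟩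
    · have hQ : 0 < W * q := Nat.mul_pos hW hq
      obtain ⟨b, hb, hmax⟩ := Finset.exists_max_image
        ((range (W * q + 1)).filter (fun b => b.Coprime (W * q))) (fun b => |EPhi X (W * q) b|)
        ⟨1, by
          rw [Finset.mem_filter, Finset.mem_range]
          exact ⟨by omega, Nat.coprime_one_left _⟩⟩
      refine ⟨b, (Finset.mem_filter.1 hb).2, fun _ b' hb' => ?_⟩
      have h1 := hmax (b' % (W * q)) (by
        rw [Finset.mem_filter, Finset.mem_range]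
        refine ⟨(Nat.mod_lt _ hQ).trans (Nat.lt_succ_self _), ?_⟩
        have h2 : Nat.gcd (b' % (W * q)) (W * q) = Nat.gcd b' (W * q) :=
          (Nat.mod_modEq b' (W * q)).gcd_eq
        rw [Nat.coprime_iff_gcd_eq_one, h2]
        exact hb')
      simp only [EPhi_mod] at h1
      exact h1
  choose B hB1 hB2 using key
  exact ⟨B, hB1, hB2⟩

/-- the size of the products of the truncated divisor sums -/
theorem prod_le {K : ℕ} (E : Finset ℕ) (R : ℕ) (L : ℝ) (hL : 0 < L) (F G : Fin K → ℝ → ℝ)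
    (cF cG : Fin K → ℝ) (hF : ∀ j, GF (F j) (cF j)) (hG : ∀ j, GF (G j) (cG j))
    (hsum : ∑ j, cF j + ∑ j, cG j ≤ 2) (x : Fin K → ℤ) :
    |∏ j, (VVm E R L (F j) (x j) * VVm E R L (G j) (x j))| ≤ Real.exp (2 * L) := by
  rw [Finset.abs_prod]
  have h1 : ∀ j, |VVm E R L (F j) (x j) * VVm E R L (G j) (x j)| ≤
      Real.exp (L * cF j) * Real.exp (L * cG j) := by
    intro j
    rw [abs_mul]
    exact mul_le_mul (VV_abs_le E R L hL _ _ (hF j).bdd (hF j).zero _)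
      (VV_abs_le E R L hL _ _ (hG j).bdd (hG j).zero _) (abs_nonneg _) (Real.exp_pos _).le
  refine (Finset.prod_le_prod (fun j _ => abs_nonneg _) (fun j _ => h1 j)).trans ?_
  rw [Finset.prod_mul_distrib, ← Real.exp_sum, ← Real.exp_sum, ← Real.exp_add, ← Finset.mul_sum,
    ← Finset.mul_sum]
  apply Real.exp_le_exp.2
  nlinarith

theorem exp_two_Lt (τ X : ℝ) (hX : 0 < X) : Real.exp (2 * Lt τ X) = X ^ (1 / 2 - 2 * τ) := by
  rw [Real.rpow_def_of_pos hX]
  congr 1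
  unfold Lt
  ring

/-- the main term dominates `X / (log X)^(K0+1)` -/
theorem err1 {τ : ℝ} (hτ : 0 < τ) (hτ' : τ < 1 / 8) (D K0 : ℕ) (ε : ℝ) (hε : 0 < ε) :
    ∀ᶠ X : ℝ in atTop, X / (Real.log X) ^ (K0 + 1) ≤
      ε * (MPhi X * ((1 / ((WD D).totient : ℝ)) * (1 / (Lt τ X * BE (PD D)) ^ K0))) := by
  have hφ : (0 : ℝ) < ((WD D).totient : ℝ) := by exact_mod_cast Nat.totient_pos.2 (WD_pos D)
  filter_upwards [eventually_ge_atTop 40,
    Real.tendsto_log_atTop.eventually_ge_atTop (20 * ((WD D).totient : ℝ) / ε)] with X hX h1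
  have hX0 : 0 < X := by linarith
  have hX1 : 1 < X := by linarith
  have hlog : 0 < Real.log X := Real.log_pos hX1
  have hL := Lt_pos (by linarith : τ < 1 / 4) hX1
  have hM := MPhi_ge X hX
  have hB := BE_PD_pos D
  have hB1 := BE_PD_le_one D
  have hLB : Lt τ X * BE (PD D) ≤ Real.log X := by
    unfold Lt at hL ⊢
    have : (1 / 4 - τ) * Real.log X ≤ Real.log X := by nlinarith
    nlinarith
  have hLBpos : 0 < Lt τ X * BE (PD D) := by positivity
  have hpow : (Lt τ X * BE (PD D)) ^ K0 ≤ Real.log X ^ K0 := pow_le_pow_left₀ hLBpos.le hLB K0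
  have hM0 : 0 ≤ MPhi X := by linarith
  have h2 : ε * (X / 20 * ((1 / ((WD D).totient : ℝ)) * (1 / Real.log X ^ K0))) ≤
      ε * (MPhi X * ((1 / ((WD D).totient : ℝ)) * (1 / (Lt τ X * BE (PD D)) ^ K0))) := by
    gcongr
  refine le_trans ?_ h2
  have h3 : ε * (X / 20 * ((1 / ((WD D).totient : ℝ)) * (1 / Real.log X ^ K0))) =
      (ε * X * Real.log X) / (20 * ((WD D).totient : ℝ) * Real.log X ^ (K0 + 1)) := by
    rw [pow_succ]
    field_simp
  rw [h3, div_le_div_iff₀ (by positivity) (by positivity)]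
  rw [div_le_iff₀ hε] at h1
  have h4 : 0 ≤ X * Real.log X ^ (K0 + 1) := by positivity
  nlinarith

/-- the error of the shift is negligible -/
theorem err2 {τ : ℝ} (hτ : 0 < τ) (K0 t : ℕ) :
    ∀ᶠ X : ℝ in atTop, Real.exp (2 * Lt τ X) *
      ((4 * t) * Real.log (4 * X) + 4 * Real.sqrt X * Real.log (4 * X)) ≤
      X / (Real.log X) ^ (K0 + 1) := by
  have h1 := (isLittleO_log_rpow_rpow_atTop ((K0 + 2 : ℕ) : ℝ) (by linarith : 0 < 2 * τ)).bound
    (by norm_num : (0 : ℝ) < 1 / 16)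
  have h3 : Tendsto (fun X : ℝ => Real.sqrt X) atTop atTop := Real.tendsto_sqrt_atTop
  filter_upwards [h1, eventually_ge_atTop 40, h3.eventually_ge_atTop (t : ℝ)] with X h2 hX hs
  have hX0 : 0 < X := by linarith
  have hX1 : 1 < X := by linarith
  have hlog : 0 < Real.log X := Real.log_pos hX1
  rw [Real.rpow_natCast, Real.norm_of_nonneg (by positivity), Real.norm_of_nonneg (by positivity)] at h2
  have hl4 : Real.log (4 * X) ≤ 2 * Real.log X := by
    rw [Real.log_mul (by norm_num) hX0.ne']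
    have : Real.log 4 ≤ Real.log X := Real.log_le_log (by norm_num) (by linarith)
    linarith
  have hl4' : 0 ≤ Real.log (4 * X) := Real.log_nonneg (by linarith)
  have hs0 : 0 < Real.sqrt X := Real.sqrt_pos.2 hX0
  rw [exp_two_Lt τ X hX0]
  have h4 : (4 * (t : ℝ)) * Real.log (4 * X) + 4 * Real.sqrt X * Real.log (4 * X) ≤
      16 * Real.sqrt X * Real.log X := by
    nlinarith [mul_nonneg hs0.le hl4', mul_le_mul_of_nonneg_left hl4 hs0.le,
      mul_le_mul_of_nonneg_right hs hl4']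
  have h5 : X ^ (1 / 2 - 2 * τ) * Real.sqrt X * X ^ (2 * τ) = X := by
    rw [Real.sqrt_eq_rpow, ← Real.rpow_add hX0, ← Real.rpow_add hX0]
    have : 1 / 2 - 2 * τ + 1 / 2 + 2 * τ = (1 : ℝ) := by ring
    rw [this, Real.rpow_one]
  have hp1 : 0 < X ^ (1 / 2 - 2 * τ) := Real.rpow_pos_of_pos hX0 _
  rw [le_div_iff₀ (by positivity)]
  calc X ^ (1 / 2 - 2 * τ) * ((4 * (t : ℝ)) * Real.log (4 * X) + 4 * Real.sqrt X * Real.log (4 * X)) *
        Real.log X ^ (K0 + 1)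
      ≤ X ^ (1 / 2 - 2 * τ) * (16 * Real.sqrt X * Real.log X) * Real.log X ^ (K0 + 1) := by gcongr
    _ = X ^ (1 / 2 - 2 * τ) * Real.sqrt X * (16 * Real.log X ^ (K0 + 2)) := by ring
    _ ≤ X ^ (1 / 2 - 2 * τ) * Real.sqrt X * X ^ (2 * τ) := by
        apply mul_le_mul_of_nonneg_left _ (by positivity)
        linarith
    _ = X := h5

end S2

/-- S2: pair asymptotics over the primes `n + h i` -/
theorem S2pair {K0 : ℕ} (τ : ℝ) (hτ : 0 < τ) (hτ' : τ < 1 / 8) (F G : Fin K0 → ℝ → ℝ) (cF cG : Fin K0 → ℝ)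
    (hF : ∀ j, GF (F j) (cF j)) (hG : ∀ j, GF (G j) (cG j)) (hsum : ∑ j, cF j + ∑ j, cG j ≤ 2)
    (ε : ℝ) (hε : 0 < ε) :
    ∃ D0 : ℕ, ∀ D : ℕ, D0 ≤ D → ∀ h : Fin (K0 + 1) → ℕ, Sep D h → ∀ (i : Fin (K0 + 1)) (a : ℕ),
      (a + h i).Coprime (WD D) → ∀ᶠ X : ℝ in atTop,
      |∑ n ∈ Icc 1 ⌊3 * X⌋₊, nu X (WD D) a n * th (n + h i) *
          ∏ j : Fin K0, (vv τ D X (F j) ((n : ℤ) + hrem h i j) * vv τ D X (G j) ((n : ℤ) + hrem h i j)) -
        NN τ D X (K0 + 1) * Real.log X * ((1 / 4 - τ) * ∏ j, DD (F j) (G j))| ≤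
      ε * (NN τ D X (K0 + 1) * Real.log X) := by
  obtain ⟨δ, hδ, hS⟩ := sieve_asymp K0 F G (fun j => (hF j).smooth) (fun j => (hG j).smooth)
    (fun j => (hF j).compact) (fun j => (hG j).compact) (ε / 8) (by positivity)
  refine ⟨⌈1 / δ⌉₊, fun D hD h hsep i a hcop => ?_⟩
  set P := ∏ j, DD (F j) (G j) with hP
  have hτ4 : τ < 1 / 4 := by linarith
  have hLt := Lt_tendsto hτ4
  have e1 : ∀ᶠ X : ℝ in atTop, ∑ p ∈ PD D, Real.log p / p ≤ (Lt τ X) ^ (1 / 4 : ℝ) :=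
    ((tendsto_rpow_atTop (by norm_num)).comp hLt).eventually_ge_atTop _
  have e2 : ∀ᶠ X : ℝ in atTop, ∑ p ∈ PD D, (1 : ℝ) / p ≤ Real.log (Lt τ X) / 32 :=
    ((Real.tendsto_log_atTop.comp hLt).atTop_div_const (by norm_num)).eventually_ge_atTop _
  have e3 := S2.err1 hτ hτ' D K0 (ε / 4) (by positivity)
  have e4 := S2.err2 hτ K0 (h i)
  have e5 := bv_tent (WD D) (WD_pos D) (1 / 2 - 2 * τ) (by linarith) (2 * K0) (K0 + 1)
  have hPP : 0 < 80 * (|P| + 1) := by positivity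
  have e6 := Pool.Agent.H510R2.Maier.lphi_mphi (min (1 / 20) (ε / (80 * (|P| + 1)))) (by positivity)
  filter_upwards [e1, e2, e3, e4, e5, e6, hLt.eventually_ge_atTop 1, hLt.eventually_ge_atTop (1 / δ),
    eventually_ge_atTop 40, eventually_ge_atTop (2 * (h i : ℝ))] with X h1 h2 h3 h4 h5 h6 h7 h8 hX hX2
  obtain ⟨B, hBc, hBm⟩ := S2.worst X (WD D) (WD_pos D)
  have h5' := h5 B hBc
  have hW : (0 : ℝ) < WD D := by exact_mod_cast WD_pos D
  have hφ : (0 : ℝ) < ((WD D).totient : ℝ) := by exact_mod_cast Nat.totient_pos.2 (WD_pos D)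
  have hB := BE_PD_pos D
  have hL : 0 < Lt τ X := by linarith
  have hX0 : 0 < X := by linarith
  have hMge := MPhi_ge X hX
  have hM : 0 < MPhi X := by linarith
  have hlog : 0 < Real.log X := Real.log_pos (by linarith)
  have hnot : ∀ p : ℕ, p.Prime → p ∉ PD D → D < p := by
    intro p hp hpE
    by_contra hc
    push Not at hc
    exact hpE (mem_PD' hp hc)
  -- step 1: shift
  set Pf : ℕ → ℝ := fun n => ∏ j : Fin K0, (VVm (PD D) (Rt τ X) (Lt τ X) (F j)
      ((n : ℤ) + ((hrem h i j : ℤ) - h i)) *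
    VVm (PD D) (Rt τ X) (Lt τ X) (G j) ((n : ℤ) + ((hrem h i j : ℤ) - h i))) with hPf
  have s1 := shift_bound X (by linarith) (WD D) a (h i) (by linarith) Pf (Real.exp (2 * Lt τ X))
    (fun n => S2.prod_le _ _ _ hL F G cF cG hF hG hsum _)
  have s1' : ∑ n ∈ Icc 1 ⌊3 * X⌋₊, nu X (WD D) a n * th (n + h i) *
          ∏ j : Fin K0, (vv τ D X (F j) ((n : ℤ) + hrem h i j) * vv τ D X (G j) ((n : ℤ) + hrem h i j)) =
      ∑ n ∈ Icc 1 ⌊3 * X⌋₊, nu X (WD D) a n * th (n + h i) * Pf (n + h i) := by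
    refine Finset.sum_congr rfl fun n _ => ?_
    congr 1
    rw [hPf]
    refine Finset.prod_congr rfl fun j _ => ?_
    have : (((n + h i : ℕ) : ℤ)) + ((hrem h i j : ℤ) - h i) = (n : ℤ) + hrem h i j := by
      push_cast; ring
    rw [this]
    rfl
  -- step 2: sieve
  have s2 := sum2 X (WD D) (WD D) (a + h i) (WD_pos D) hcop F G (Lt τ X) 1 hL zero_le_one cF cG
    (fun j => (hF j).bdd) (fun j => (hG j).bdd) (fun j => (hF j).zero) (fun j => (hG j).zero)
    (fun _ => PD D) (Rt τ X) (fun j => (hrem h i j : ℤ) - h i)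
    (fun _ p hp hpD hdvd => hpD ((prime_dvd_WD hp).1 hdvd))
    (fun _ p hp hpD hdvd => hpD ((prime_dvd_WD hp).1 hdvd))
    (fun j p hp hpE => hsep _ _ (Fin.succAbove_ne i j) p hp (hnot p hp hpE))
    (by
      intro j k hjk p hp hpE _ n hh
      have hne : i.succAbove j ≠ i.succAbove k := fun h => hjk (Fin.succAbove_right_injective h)
      apply hsep _ _ hne p hp (hnot p hp hpE)
      have := dvd_sub hh.1 hh.2
      have h8 : (n : ℤ) + ((hrem h i j : ℤ) - h i) - (n + ((hrem h i k : ℤ) - h i)) =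
        h (i.succAbove j) - h (i.succAbove k) := by unfold hrem; ring
      rwa [h8] at this)
    B hBm
  have s3 : ∑ n ∈ Icc 1 ⌊3 * X⌋₊, (if n ≡ a + h i [MOD WD D] then Phi (n / X) *
      ArithmeticFunction.vonMangoldt n else 0) * Pf n =
      ∑ n ∈ Icc 1 ⌊3 * X⌋₊, (if n ≡ a + h i [MOD WD D] then Phi (n / X) *
        ArithmeticFunction.vonMangoldt n else 0) *
        ∏ j : Fin K0, (VVm (PD D) (Rt τ X) (Lt τ X) (F j) (n + ((hrem h i j : ℤ) - h i)) *
          VVm (PD D) (Rt τ X) (Lt τ X) (G j) (n + ((hrem h i j : ℤ) - h i))) := rfl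
  rw [← s3] at s2
  have s4 : (1 : ℝ) ^ (2 * K0) * ∑ q ∈ (Icc 1 ⌊Real.exp (Lt τ X * (∑ j, cF j + ∑ j, cG j))⌋₊).filter
      (fun q => Squarefree q ∧ q.Coprime (WD D)),
        (q.divisors.card : ℝ) ^ (2 * K0) * |EPhi X (WD D * q) (B q)| ≤
      X / (Real.log X) ^ (K0 + 1) := by
    rw [one_pow, one_mul]
    refine le_trans ?_ h5'
    apply Finset.sum_le_sum_of_subset_of_nonneg
    · intro q hq
      rw [Finset.mem_filter, Finset.mem_Icc] at hq ⊢
      refine ⟨⟨hq.1.1, hq.1.2.trans (Nat.floor_le_floor ?_)⟩, hq.2.1⟩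
      rw [← S2.exp_two_Lt τ X hX0]
      apply Real.exp_le_exp.2
      nlinarith
    · intro q _ _
      positivity
  -- step 3: asymptotics
  have s5 := hS (Lt τ X) (fun _ => PD D) (fun p _ => 1 / ((p : ℝ) - 1)) (Rt τ X) h8
    (by
      intro j x hx
      have h7 : 2 < x := lt_of_le_of_lt (Rt_ge h7) hx
      exact ⟨(hF j).zero x (lt_of_le_of_lt (hF j).le_two h7),
        (hG j).zero x (lt_of_le_of_lt (hG j).le_two h7)⟩)
    (fun _ p hp => (mem_PD.1 hp).2)
    (by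
      intro _ p hp hpl
      apply mem_PD' hp
      have : (p : ℝ) ≤ ⌈1 / δ⌉₊ := hpl.trans (Nat.le_ceil (1 / δ))
      have : p ≤ ⌈1 / δ⌉₊ := by exact_mod_cast this
      omega)
    (fun _ => h1) (fun _ => h2) (fun _ p hp _ => w_two hp)
  have k3 : ∏ j : Fin K0, (Lt τ X * ∏ p ∈ PD D, (1 - 1 / (p : ℝ))) = (Lt τ X * BE (PD D)) ^ K0 := by
    rw [Finset.prod_const, Finset.card_univ, Fintype.card_fin]
    rfl
  rw [k3] at s5
  set SS := sieveSum K0 F G (Lt τ X) (fun _ => PD D) (fun p _ => 1 / ((p : ℝ) - 1)) (Rt τ X) with hSS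
  have s5' : |(Lt τ X * BE (PD D)) ^ K0 * SS - P| ≤ ε / 8 := s5
  set Q : ℝ := (1 / ((WD D).totient : ℝ)) * (1 / (Lt τ X * BE (PD D)) ^ K0) with hQ
  have hQ0 : 0 < Q := by positivity
  have hLP0 : 0 ≤ LPhi X := by
    unfold LPhi
    exact Finset.sum_nonneg fun n _ => mul_nonneg (Phi_nonneg _) ArithmeticFunction.vonMangoldt_nonneg
  have s6 : |(LPhi X * (1 / ((WD D).totient : ℝ))) * SS - LPhi X * Q * P| ≤ LPhi X * Q * (ε / 8) := by
    have : (LPhi X * (1 / ((WD D).totient : ℝ))) * SS - LPhi X * Q * P =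
      LPhi X * Q * ((Lt τ X * BE (PD D)) ^ K0 * SS - P) := by
      rw [hQ]
      have : (Lt τ X * BE (PD D)) ^ K0 ≠ 0 := by positivity
      field_simp
    rw [this, abs_mul, abs_of_nonneg (by positivity)]
    exact mul_le_mul_of_nonneg_left s5' (by positivity)
  -- step 4: `LPhi` and `MPhi`
  have h6a : |LPhi X - MPhi X| ≤ 1 / 20 * X :=
    h6.trans (mul_le_mul_of_nonneg_right (min_le_left _ _) hX0.le)
  have h6b : |LPhi X - MPhi X| ≤ ε / (80 * (|P| + 1)) * X :=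
    h6.trans (mul_le_mul_of_nonneg_right (min_le_right _ _) hX0.le)
  have hLP2 : LPhi X ≤ 2 * MPhi X := by
    have := (abs_le.1 h6a).2
    linarith
  have s7 : |LPhi X * Q * P - MPhi X * Q * P| ≤ ε / 4 * (MPhi X * Q) := by
    have e : LPhi X * Q * P - MPhi X * Q * P = (LPhi X - MPhi X) * (Q * P) := by ring
    rw [e, abs_mul, abs_mul, abs_of_pos hQ0]
    have h9 : |LPhi X - MPhi X| * |P| ≤ ε / 4 * MPhi X := by
      calc |LPhi X - MPhi X| * |P| ≤ ε / (80 * (|P| + 1)) * X * |P| :=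
            mul_le_mul_of_nonneg_right h6b (abs_nonneg _)
        _ = ε / 80 * X * (|P| / (|P| + 1)) := by field_simp
        _ ≤ ε / 80 * X * 1 := by
            apply mul_le_mul_of_nonneg_left _ (by positivity)
            rw [div_le_one (by positivity)]
            linarith
        _ ≤ ε / 4 * MPhi X := by nlinarith
    calc |LPhi X - MPhi X| * (Q * |P|) = (|LPhi X - MPhi X| * |P|) * Q := by ring
      _ ≤ ε / 4 * MPhi X * Q := mul_le_mul_of_nonneg_right h9 hQ0.le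
      _ = _ := by ring
  -- step 5: the normalisation
  have hL0 : Lt τ X = (1 / 4 - τ) * Real.log X := rfl
  have hNN : NN τ D X (K0 + 1) * Real.log X * (1 / 4 - τ) = MPhi X * Q := by
    have h9 : NN τ D X (K0 + 1) * Real.log X * (1 / 4 - τ) = NN τ D X (K0 + 1) * Lt τ X := by
      rw [hL0]; ring
    rw [h9, hQ, totient_WD]
    unfold NN
    rw [one_div_pow, pow_succ]
    field_simp
  have hNN' : MPhi X * Q ≤ NN τ D X (K0 + 1) * Real.log X := by
    rw [← hNN]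
    have h9 : 0 ≤ NN τ D X (K0 + 1) * Real.log X := by
      unfold NN
      positivity
    nlinarith
  have s8 : MPhi X * Q * P = NN τ D X (K0 + 1) * Real.log X * ((1 / 4 - τ) * P) := by
    rw [← hNN]; ring
  have s9 : LPhi X * Q * (ε / 8) ≤ ε / 4 * (MPhi X * Q) := by
    have : LPhi X * (Q * ε) ≤ 2 * MPhi X * (Q * ε) := mul_le_mul_of_nonneg_right hLP2 (by positivity)
    linarith
  have hfin : ε * (MPhi X * Q) ≤ ε * (NN τ D X (K0 + 1) * Real.log X) :=
    mul_le_mul_of_nonneg_left hNN' hε.le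
  rw [s1', ← s8]
  have t1 := abs_le.1 s1
  have t2 := abs_le.1 s2
  have t6 := abs_le.1 s6
  have t7 := abs_le.1 s7
  rw [abs_le]
  constructor <;> linarith [t1.1, t1.2, t2.1, t2.2, t6.1, t6.2, t7.1, t7.2, s4, h3, h4, s9, hfin]

end Pool.Agent.H95R2.BG
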