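import Mathlib
import Pool.Agent.H95R2.BG.S1
import Pool.Agent.H95R2.BG.S2

/-! BG project: task 6 (S1quad, S2quad). -/

open Finset Filter
open scoped ContDiff

namespace Pool.Agent.H95R2.BG

open Pool.Agent.H378R2

namespace Quad

theorem gen {ι : Type} (A : Finset ι) (x S T : ι → ι → ℝ) (N ε ε' : ℝ) (hN : 0 ≤ N)
    (hε : ε' * ∑ a ∈ A, ∑ b ∈ A, |x a b| ≤ ε)
    (h : ∀ a ∈ A, ∀ b ∈ A, x a b ≠ 0 → |S a b - N * T a b| ≤ ε' * N) :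
    |∑ a ∈ A, ∑ b ∈ A, x a b * S a b - N * ∑ a ∈ A, ∑ b ∈ A, x a b * T a b| ≤ ε * N := by
  have e1 : ∑ a ∈ A, ∑ b ∈ A, x a b * S a b - N * ∑ a ∈ A, ∑ b ∈ A, x a b * T a b =
      ∑ a ∈ A, ∑ b ∈ A, x a b * (S a b - N * T a b) := by
    rw [Finset.mul_sum, ← Finset.sum_sub_distrib]
    refine Finset.sum_congr rfl fun a _ => ?_
    rw [Finset.mul_sum, ← Finset.sum_sub_distrib]
    refine Finset.sum_congr rfl fun b _ => ?_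
    ring
  rw [e1]
  calc |∑ a ∈ A, ∑ b ∈ A, x a b * (S a b - N * T a b)|
      ≤ ∑ a ∈ A, |∑ b ∈ A, x a b * (S a b - N * T a b)| := Finset.abs_sum_le_sum_abs _ _
    _ ≤ ∑ a ∈ A, ∑ b ∈ A, |x a b * (S a b - N * T a b)| :=
        Finset.sum_le_sum fun a _ => Finset.abs_sum_le_sum_abs _ _
    _ ≤ ∑ a ∈ A, ∑ b ∈ A, |x a b| * (ε' * N) := by
        refine Finset.sum_le_sum fun a ha => Finset.sum_le_sum fun b hb => ?_
        rw [abs_mul]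
        by_cases h0 : x a b = 0
        · simp [h0]
        · exact mul_le_mul_of_nonneg_left (h a ha b hb h0) (abs_nonneg _)
    _ = (ε' * ∑ a ∈ A, ∑ b ∈ A, |x a b|) * N := by
        simp only [← Finset.sum_mul]
        ring
    _ ≤ ε * N := mul_le_mul_of_nonneg_right hε hN

theorem eps_le {ι : Type} (A : Finset ι) (x : ι → ι → ℝ) (ε : ℝ) (hε : 0 < ε) :
    0 < ε / (∑ a ∈ A, ∑ b ∈ A, |x a b| + 1) ∧
    ε / (∑ a ∈ A, ∑ b ∈ A, |x a b| + 1) * ∑ a ∈ A, ∑ b ∈ A, |x a b| ≤ ε := by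
  have h0 : 0 ≤ ∑ a ∈ A, ∑ b ∈ A, |x a b| :=
    Finset.sum_nonneg fun a _ => Finset.sum_nonneg fun b _ => abs_nonneg _
  refine ⟨by positivity, ?_⟩
  rw [div_mul_eq_mul_div, div_le_iff₀ (by positivity)]
  nlinarith

end Quad

/-- S1 for squares of finite sums -/
theorem S1quad {J : ℕ} {ι : Type} (A : Finset ι) (τ : ℝ) (hτ : 0 < τ) (hτ' : τ < 1 / 8)
    (F : ι → Fin J → ℝ → ℝ) (c : ι → Fin J → ℝ) (hF : ∀ a ∈ A, ∀ j, GF (F a j) (c a j))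
    (hsum : ∀ a ∈ A, ∑ j, c a j ≤ 2) (x : ι → ℝ) (ε : ℝ) (hε : 0 < ε) :
    ∃ D0 : ℕ, ∀ D : ℕ, D0 ≤ D → ∀ h : Fin J → ℕ, Sep D h → ∀ a0 : ℕ, ∀ᶠ X : ℝ in atTop,
      |∑ n ∈ Icc 1 ⌊3 * X⌋₊, nu X (WD D) a0 n * (∑ a ∈ A, x a * ∏ j, vv τ D X (F a j) ((n : ℤ) + h j)) ^ 2 -
        NN τ D X J * ∑ a ∈ A, ∑ b ∈ A, x a * x b * ∏ j, DD (F a j) (F b j)| ≤ ε * NN τ D X J := by
  classical
  obtain ⟨hε', hε''⟩ := Quad.eps_le A (fun a b => x a * x b) ε hε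
  set ε' := ε / (∑ a ∈ A, ∑ b ∈ A, |x a * x b| + 1) with hdef
  have key : ∀ p ∈ A ×ˢ A, ∃ D0 : ℕ, ∀ D : ℕ, D0 ≤ D → ∀ h : Fin J → ℕ, Sep D h →
      ∀ a : ℕ, ∀ᶠ X : ℝ in atTop,
      |∑ n ∈ Icc 1 ⌊3 * X⌋₊, nu X (WD D) a n *
          ∏ j, (vv τ D X (F p.1 j) ((n : ℤ) + h j) * vv τ D X (F p.2 j) ((n : ℤ) + h j)) -
        NN τ D X J * ∏ j, DD (F p.1 j) (F p.2 j)| ≤ ε' * NN τ D X J := by
    intro p hp
    rw [Finset.mem_product] at hp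
    refine S1pair τ hτ hτ' (F p.1) (F p.2) (c p.1) (c p.2) (hF _ hp.1) (hF _ hp.2) ?_ ε' hε'
    linarith [hsum _ hp.1, hsum _ hp.2]
  choose! D0 hD0 using key
  refine ⟨(A ×ˢ A).sup D0, fun D hD h hS a0 => ?_⟩
  have hall : ∀ᶠ X : ℝ in atTop, ∀ p ∈ A ×ˢ A,
      |∑ n ∈ Icc 1 ⌊3 * X⌋₊, nu X (WD D) a0 n *
          ∏ j, (vv τ D X (F p.1 j) ((n : ℤ) + h j) * vv τ D X (F p.2 j) ((n : ℤ) + h j)) -
        NN τ D X J * ∏ j, DD (F p.1 j) (F p.2 j)| ≤ ε' * NN τ D X J := by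
    rw [Filter.eventually_all_finset]
    intro p hp
    exact hD0 p hp D ((Finset.le_sup hp).trans hD) h hS a0
  filter_upwards [hall, NN_pos τ (by linarith) D J] with X hX hN
  have := Quad.gen A (fun a b => x a * x b)
    (fun a b => ∑ n ∈ Icc 1 ⌊3 * X⌋₊, nu X (WD D) a0 n *
          ∏ j, (vv τ D X (F a j) ((n : ℤ) + h j) * vv τ D X (F b j) ((n : ℤ) + h j)))
    (fun a b => ∏ j, DD (F a j) (F b j)) (NN τ D X J) ε ε' hN.le hε''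
    (fun a ha b hb _ => hX (a, b) (Finset.mem_product.2 ⟨ha, hb⟩))
  have e2 : ∑ n ∈ Icc 1 ⌊3 * X⌋₊, nu X (WD D) a0 n *
      (∑ a ∈ A, x a * ∏ j, vv τ D X (F a j) ((n : ℤ) + h j)) ^ 2 =
      ∑ a ∈ A, ∑ b ∈ A, x a * x b * ∑ n ∈ Icc 1 ⌊3 * X⌋₊, nu X (WD D) a0 n *
          ∏ j, (vv τ D X (F a j) ((n : ℤ) + h j) * vv τ D X (F b j) ((n : ℤ) + h j)) := by
    simp only [sq, Finset.sum_mul_sum]
    simp only [Finset.mul_sum]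
    rw [Finset.sum_comm]
    refine Finset.sum_congr rfl fun a _ => ?_
    rw [Finset.sum_comm]
    refine Finset.sum_congr rfl fun b _ => Finset.sum_congr rfl fun n _ => ?_
    rw [Finset.prod_mul_distrib]
    ring
  rw [e2]
  exact this

/-- S2 for quadratic forms -/
theorem S2quad {K0 : ℕ} {ι : Type} (A : Finset ι) (τ : ℝ) (hτ : 0 < τ) (hτ' : τ < 1 / 8)
    (F : ι → Fin K0 → ℝ → ℝ) (c : ι → Fin K0 → ℝ) (hF : ∀ a ∈ A, ∀ j, GF (F a j) (c a j))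
    (x : ι → ι → ℝ) (hsum : ∀ a ∈ A, ∀ b ∈ A, x a b ≠ 0 → ∑ j, c a j + ∑ j, c b j ≤ 2) (ε : ℝ) (hε : 0 < ε) :
    ∃ D0 : ℕ, ∀ D : ℕ, D0 ≤ D → ∀ h : Fin (K0 + 1) → ℕ, Sep D h → ∀ (i : Fin (K0 + 1)) (a0 : ℕ),
      (a0 + h i).Coprime (WD D) → ∀ᶠ X : ℝ in atTop,
      |∑ n ∈ Icc 1 ⌊3 * X⌋₊, nu X (WD D) a0 n * th (n + h i) * (∑ a ∈ A, ∑ b ∈ A, x a b *
          ((∏ j, vv τ D X (F a j) ((n : ℤ) + hrem h i j)) * ∏ j, vv τ D X (F b j) ((n : ℤ) + hrem h i j))) -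
        NN τ D X (K0 + 1) * Real.log X * ((1 / 4 - τ) * ∑ a ∈ A, ∑ b ∈ A, x a b * ∏ j, DD (F a j) (F b j))| ≤
      ε * (NN τ D X (K0 + 1) * Real.log X) := by
  classical
  obtain ⟨hε', hε''⟩ := Quad.eps_le A x ε hε
  set ε' := ε / (∑ a ∈ A, ∑ b ∈ A, |x a b| + 1) with hdef
  have key : ∀ p ∈ (A ×ˢ A).filter (fun p => x p.1 p.2 ≠ 0), ∃ D0 : ℕ, ∀ D : ℕ, D0 ≤ D →
      ∀ h : Fin (K0 + 1) → ℕ, Sep D h → ∀ (i : Fin (K0 + 1)) (a : ℕ),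
      (a + h i).Coprime (WD D) → ∀ᶠ X : ℝ in atTop,
      |∑ n ∈ Icc 1 ⌊3 * X⌋₊, nu X (WD D) a n * th (n + h i) *
          ∏ j : Fin K0, (vv τ D X (F p.1 j) ((n : ℤ) + hrem h i j) *
            vv τ D X (F p.2 j) ((n : ℤ) + hrem h i j)) -
        NN τ D X (K0 + 1) * Real.log X * ((1 / 4 - τ) * ∏ j, DD (F p.1 j) (F p.2 j))| ≤
      ε' * (NN τ D X (K0 + 1) * Real.log X) := by
    intro p hp
    rw [Finset.mem_filter, Finset.mem_product] at hp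
    exact S2pair τ hτ hτ' (F p.1) (F p.2) (c p.1) (c p.2) (hF _ hp.1.1) (hF _ hp.1.2)
      (hsum _ hp.1.1 _ hp.1.2 hp.2) ε' hε'
  choose! D0 hD0 using key
  refine ⟨((A ×ˢ A).filter (fun p => x p.1 p.2 ≠ 0)).sup D0, fun D hD h hS i a0 hcop => ?_⟩
  have hall : ∀ᶠ X : ℝ in atTop, ∀ p ∈ (A ×ˢ A).filter (fun p => x p.1 p.2 ≠ 0),
      |∑ n ∈ Icc 1 ⌊3 * X⌋₊, nu X (WD D) a0 n * th (n + h i) *
          ∏ j : Fin K0, (vv τ D X (F p.1 j) ((n : ℤ) + hrem h i j) *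
            vv τ D X (F p.2 j) ((n : ℤ) + hrem h i j)) -
        NN τ D X (K0 + 1) * Real.log X * ((1 / 4 - τ) * ∏ j, DD (F p.1 j) (F p.2 j))| ≤
      ε' * (NN τ D X (K0 + 1) * Real.log X) := by
    rw [Filter.eventually_all_finset]
    intro p hp
    exact hD0 p hp D ((Finset.le_sup hp).trans hD) h hS i a0 hcop
  filter_upwards [hall, NN_pos τ (by linarith) D (K0 + 1), eventually_ge_atTop 1] with X hX hN hX1
  have hlog : 0 ≤ Real.log X := Real.log_nonneg hX1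
  have := Quad.gen A x
    (fun a b => ∑ n ∈ Icc 1 ⌊3 * X⌋₊, nu X (WD D) a0 n * th (n + h i) *
          ∏ j : Fin K0, (vv τ D X (F a j) ((n : ℤ) + hrem h i j) *
            vv τ D X (F b j) ((n : ℤ) + hrem h i j)))
    (fun a b => (1 / 4 - τ) * ∏ j, DD (F a j) (F b j)) (NN τ D X (K0 + 1) * Real.log X) ε ε'
    (mul_nonneg hN.le hlog) hε''
    (fun a ha b hb h0 => hX (a, b) (Finset.mem_filter.2 ⟨Finset.mem_product.2 ⟨ha, hb⟩, h0⟩))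
  have e2 : ∑ n ∈ Icc 1 ⌊3 * X⌋₊, nu X (WD D) a0 n * th (n + h i) * (∑ a ∈ A, ∑ b ∈ A, x a b *
          ((∏ j, vv τ D X (F a j) ((n : ℤ) + hrem h i j)) * ∏ j, vv τ D X (F b j) ((n : ℤ) + hrem h i j))) =
      ∑ a ∈ A, ∑ b ∈ A, x a b * ∑ n ∈ Icc 1 ⌊3 * X⌋₊, nu X (WD D) a0 n * th (n + h i) *
          ∏ j : Fin K0, (vv τ D X (F a j) ((n : ℤ) + hrem h i j) *
            vv τ D X (F b j) ((n : ℤ) + hrem h i j)) := by
    simp only [Finset.mul_sum]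
    rw [Finset.sum_comm]
    refine Finset.sum_congr rfl fun a _ => ?_
    rw [Finset.sum_comm]
    refine Finset.sum_congr rfl fun b _ => ?_
    refine Finset.sum_congr rfl fun n _ => ?_
    rw [Finset.prod_mul_distrib]
    ring
  have e3 : ∑ a ∈ A, ∑ b ∈ A, x a b * ((1 / 4 - τ) * ∏ j, DD (F a j) (F b j)) =
      (1 / 4 - τ) * ∑ a ∈ A, ∑ b ∈ A, x a b * ∏ j, DD (F a j) (F b j) := by
    simp only [Finset.mul_sum]
    refine Finset.sum_congr rfl fun a _ => Finset.sum_congr rfl fun b _ => ?_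
    ring
  rw [e2, ← e3]
  exact this

end Pool.Agent.H95R2.BG
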