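import Mathlib
import Pool.Agent.H95R2.BG.DefsL
import Pool.Agent.H95R2.BG.S1
import Pool.Agent.H95R2.BG.Quad

/-! BG project, linear forms: task L1 (S1pairL, S1quadL) (helper680, adapted from S1.lean and Quad.lean). -/

open Finset Filter MeasureTheory
open scoped ContDiff

namespace Pool.Agent.H95R2.BG.LF

open Pool.Agent.H378R2

/-- S1: pair asymptotics over all integers -/
theorem S1pairL {J : ℕ} (τ : ℝ) (hτ : 0 < τ) (hτ' : τ < 1 / 8) (F G : Fin J → ℝ → ℝ) (cF cG : Fin J → ℝ)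
    (hF : ∀ j, GF (F j) (cF j)) (hG : ∀ j, GF (G j) (cG j)) (hsum : ∑ j, cF j + ∑ j, cG j ≤ 4)
    (ε : ℝ) (hε : 0 < ε) :
    ∃ D0 : ℕ, ∀ D : ℕ, D0 ≤ D → ∀ A B : Fin J → ℕ, SepL D A B → ∀ a : ℕ, ∀ᶠ X : ℝ in atTop,
      |∑ n ∈ Icc 1 ⌊3 * X⌋₊, nu X (WD D) a n *
          ∏ j, (vv τ D X (F j) ((A j : ℤ) * n + B j) * vv τ D X (G j) ((A j : ℤ) * n + B j)) -
        NN τ D X J * ∏ j, DD (F j) (G j)| ≤ ε * NN τ D X J := by
  obtain ⟨δ, hδ, hS⟩ := sieve_asymp J F G (fun j => (hF j).smooth) (fun j => (hG j).smooth)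
    (fun j => (hF j).compact) (fun j => (hG j).compact) (ε / 2) (by positivity)
  refine ⟨⌈1 / δ⌉₊, fun D hD A B hsep a => ?_⟩
  have hτ4 : τ < 1 / 4 := by linarith
  have hLt := Lt_tendsto hτ4
  have e1 : ∀ᶠ X : ℝ in atTop, ∑ p ∈ PD D, Real.log p / p ≤ (Lt τ X) ^ (1 / 4 : ℝ) :=
    ((tendsto_rpow_atTop (by norm_num)).comp hLt).eventually_ge_atTop _
  have e2 : ∀ᶠ X : ℝ in atTop, ∑ p ∈ PD D, (1 : ℝ) / p ≤ Real.log (Lt τ X) / 32 :=
    ((Real.tendsto_log_atTop.comp hLt).atTop_div_const (by norm_num)).eventually_ge_atTop _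
  have e3 := err_small hτ hτ' D J (ε / 2) (by positivity)
  have e4 := err_small hτ hτ' D 0 1 one_pos
  filter_upwards [e1, e2, e3, e4, hLt.eventually_ge_atTop 1, hLt.eventually_ge_atTop (1 / δ),
    eventually_ge_atTop 40] with X h1 h2 h3 h4 h5 h6 hX
  have hW : (0 : ℝ) < WD D := by exact_mod_cast WD_pos D
  have hB := BE_PD_pos D
  have hL : 0 < Lt τ X := by linarith
  have hM : 0 < MPhi X := by have := MPhi_ge X hX; linarith
  have hsize : (WD D : ℝ) * Real.exp (Lt τ X * (∑ j, cF j + ∑ j, cG j)) ≤ X := by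
    have k1 : Real.exp (Lt τ X * (∑ j, cF j + ∑ j, cG j)) ≤ Real.exp (4 * Lt τ X) := by
      apply Real.exp_le_exp.2
      nlinarith
    unfold NN at h4
    rw [pow_zero, mul_one, one_mul, mul_one_div, le_div_iff₀ hW] at h4
    have k2 := MPhi_le X (by linarith)
    have k3 : 0 < Real.exp (4 * Lt τ X) := Real.exp_pos _
    nlinarith
  have k1 := sum1 X (by linarith) (WD D) a (WD_pos D) F G (Lt τ X) 1 hL zero_le_one cF cG
    (fun j => (hF j).bdd) (fun j => (hG j).bdd) (fun j => (hF j).zero) (fun j => (hG j).zero)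
    (fun _ => PD D) (Rt τ X) A (fun j => (B j : ℤ))
    (fun _ p hp hpD hdvd => hpD ((prime_dvd_WD hp).1 hdvd))
    (fun j p hp hpE => hsep.2.2 j p hp (by
      by_contra hc
      push Not at hc
      exact hpE (mem_PD' hp hc)))
    (by
      intro i j hij p hp hpE _ n hh
      have hpD : D < p := by
        by_contra hc
        push Not at hc
        exact hpE (mem_PD' hp hc)
      apply hsep.1 i j hij p hp hpD
      have := dvd_sub (Dvd.dvd.mul_left hh.2 (A i : ℤ)) (Dvd.dvd.mul_left hh.1 (A j : ℤ))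
      have h7 : (A i : ℤ) * ((A j : ℤ) * n + B j) - (A j : ℤ) * ((A i : ℤ) * n + B i) =
        (A i : ℤ) * B j - (A j : ℤ) * B i := by ring
      rwa [h7] at this)
    hsize
  have k2 := hS (Lt τ X) (fun _ => PD D) (fun p _ => 1 / (p : ℝ)) (Rt τ X) h6
    (by
      intro j x hx
      have h7 : 2 < x := lt_of_le_of_lt (Rt_ge h5) hx
      exact ⟨(hF j).zero x (lt_of_le_of_lt (hF j).le_two h7),
        (hG j).zero x (lt_of_le_of_lt (hG j).le_two h7)⟩)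
    (fun _ p hp => (mem_PD.1 hp).2)
    (by
      intro _ p hp hpl
      apply mem_PD' hp
      have : (p : ℝ) ≤ ⌈1 / δ⌉₊ := hpl.trans (Nat.le_ceil (1 / δ))
      have : p ≤ ⌈1 / δ⌉₊ := by exact_mod_cast this
      omega)
    (fun _ => h1) (fun _ => h2) (fun _ p _ _ => w_one p)
  have k3 : ∏ j : Fin J, (Lt τ X * ∏ p ∈ PD D, (1 - 1 / (p : ℝ))) = (Lt τ X * BE (PD D)) ^ J := by
    rw [Finset.prod_const, Finset.card_univ, Fintype.card_fin]
    rfl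
  rw [k3] at k2
  set SS := sieveSum J F G (Lt τ X) (fun _ => PD D) (fun p _ => 1 / (p : ℝ)) (Rt τ X) with hSS
  set P := ∏ j, DD (F j) (G j) with hP
  have k2' : |(Lt τ X * BE (PD D)) ^ J * SS - P| ≤ ε / 2 := k2
  have k4 : MPhi X * (1 / (WD D : ℝ)) * SS - NN τ D X J * P =
      NN τ D X J * ((Lt τ X * BE (PD D)) ^ J * SS - P) := by
    unfold NN
    rw [one_div_pow]
    have : (Lt τ X * BE (PD D)) ^ J ≠ 0 := by positivity
    field_simp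
  have hNN : 0 < NN τ D X J := by
    unfold NN
    positivity
  have k5 : |MPhi X * (1 / (WD D : ℝ)) * SS - NN τ D X J * P| ≤ ε / 2 * NN τ D X J := by
    rw [k4, abs_mul, abs_of_pos hNN, mul_comm]
    exact mul_le_mul_of_nonneg_right k2' hNN.le
  have k6 : 5 * (1 : ℝ) ^ (2 * J) * Real.exp (Lt τ X * (∑ j, cF j + ∑ j, cG j)) ≤ ε / 2 * NN τ D X J := by
    refine le_trans ?_ h3
    rw [one_pow, mul_one]
    have : Real.exp (Lt τ X * (∑ j, cF j + ∑ j, cG j)) ≤ Real.exp (4 * Lt τ X) := by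
      apply Real.exp_le_exp.2
      nlinarith
    linarith
  have k7 : ∑ n ∈ Icc 1 ⌊3 * X⌋₊, nu X (WD D) a n *
          ∏ j, (vv τ D X (F j) ((A j : ℤ) * n + B j) * vv τ D X (G j) ((A j : ℤ) * n + B j)) =
      ∑ n ∈ Icc 1 ⌊3 * X⌋₊, (if n ≡ a [MOD WD D] then Phi (n / X) else 0) *
        ∏ j, (VVm (PD D) (Rt τ X) (Lt τ X) (F j) ((A j : ℤ) * n + B j) *
          VVm (PD D) (Rt τ X) (Lt τ X) (G j) ((A j : ℤ) * n + B j)) := by
    refine Finset.sum_congr rfl fun n _ => ?_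
    unfold nu vv
    rfl
  rw [k7]
  calc _ = |(∑ n ∈ Icc 1 ⌊3 * X⌋₊, (if n ≡ a [MOD WD D] then Phi (n / X) else 0) *
        ∏ j, (VVm (PD D) (Rt τ X) (Lt τ X) (F j) ((A j : ℤ) * n + B j) *
          VVm (PD D) (Rt τ X) (Lt τ X) (G j) ((A j : ℤ) * n + B j)) -
        MPhi X * (1 / (WD D : ℝ)) * SS) + (MPhi X * (1 / (WD D : ℝ)) * SS - NN τ D X J * P)| := by
        congr 1; ring
    _ ≤ _ := abs_add_le _ _
    _ ≤ ε / 2 * NN τ D X J + ε / 2 * NN τ D X J := add_le_add (k1.trans k6) k5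
    _ = ε * NN τ D X J := by ring


/-- S1 for squares of finite sums -/
theorem S1quadL {J : ℕ} {ι : Type} (T : Finset ι) (τ : ℝ) (hτ : 0 < τ) (hτ' : τ < 1 / 8)
    (F : ι → Fin J → ℝ → ℝ) (c : ι → Fin J → ℝ) (hF : ∀ a ∈ T, ∀ j, GF (F a j) (c a j))
    (hsum : ∀ a ∈ T, ∑ j, c a j ≤ 2) (x : ι → ℝ) (ε : ℝ) (hε : 0 < ε) :
    ∃ D0 : ℕ, ∀ D : ℕ, D0 ≤ D → ∀ A B : Fin J → ℕ, SepL D A B → ∀ a0 : ℕ, ∀ᶠ X : ℝ in atTop,
      |∑ n ∈ Icc 1 ⌊3 * X⌋₊, nu X (WD D) a0 n * (∑ a ∈ T, x a * ∏ j, vv τ D X (F a j) ((A j : ℤ) * n + B j)) ^ 2 -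
        NN τ D X J * ∑ a ∈ T, ∑ b ∈ T, x a * x b * ∏ j, DD (F a j) (F b j)| ≤ ε * NN τ D X J := by
  classical
  obtain ⟨hε', hε''⟩ := Quad.eps_le T (fun a b => x a * x b) ε hε
  set ε' := ε / (∑ a ∈ T, ∑ b ∈ T, |x a * x b| + 1) with hdef
  have key : ∀ p ∈ T ×ˢ T, ∃ D0 : ℕ, ∀ D : ℕ, D0 ≤ D → ∀ A B : Fin J → ℕ, SepL D A B →
      ∀ a : ℕ, ∀ᶠ X : ℝ in atTop,
      |∑ n ∈ Icc 1 ⌊3 * X⌋₊, nu X (WD D) a n *
          ∏ j, (vv τ D X (F p.1 j) ((A j : ℤ) * n + B j) * vv τ D X (F p.2 j) ((A j : ℤ) * n + B j)) -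
        NN τ D X J * ∏ j, DD (F p.1 j) (F p.2 j)| ≤ ε' * NN τ D X J := by
    intro p hp
    rw [Finset.mem_product] at hp
    refine S1pairL τ hτ hτ' (F p.1) (F p.2) (c p.1) (c p.2) (hF _ hp.1) (hF _ hp.2) ?_ ε' hε'
    linarith [hsum _ hp.1, hsum _ hp.2]
  choose! D0 hD0 using key
  refine ⟨(T ×ˢ T).sup D0, fun D hD A B hS a0 => ?_⟩
  have hall : ∀ᶠ X : ℝ in atTop, ∀ p ∈ T ×ˢ T,
      |∑ n ∈ Icc 1 ⌊3 * X⌋₊, nu X (WD D) a0 n *
          ∏ j, (vv τ D X (F p.1 j) ((A j : ℤ) * n + B j) * vv τ D X (F p.2 j) ((A j : ℤ) * n + B j)) -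
        NN τ D X J * ∏ j, DD (F p.1 j) (F p.2 j)| ≤ ε' * NN τ D X J := by
    rw [Filter.eventually_all_finset]
    intro p hp
    exact hD0 p hp D ((Finset.le_sup hp).trans hD) A B hS a0
  filter_upwards [hall, NN_pos τ (by linarith) D J] with X hX hN
  have := Quad.gen T (fun a b => x a * x b)
    (fun a b => ∑ n ∈ Icc 1 ⌊3 * X⌋₊, nu X (WD D) a0 n *
          ∏ j, (vv τ D X (F a j) ((A j : ℤ) * n + B j) * vv τ D X (F b j) ((A j : ℤ) * n + B j)))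
    (fun a b => ∏ j, DD (F a j) (F b j)) (NN τ D X J) ε ε' hN.le hε''
    (fun a ha b hb _ => hX (a, b) (Finset.mem_product.2 ⟨ha, hb⟩))
  have e2 : ∑ n ∈ Icc 1 ⌊3 * X⌋₊, nu X (WD D) a0 n *
      (∑ a ∈ T, x a * ∏ j, vv τ D X (F a j) ((A j : ℤ) * n + B j)) ^ 2 =
      ∑ a ∈ T, ∑ b ∈ T, x a * x b * ∑ n ∈ Icc 1 ⌊3 * X⌋₊, nu X (WD D) a0 n *
          ∏ j, (vv τ D X (F a j) ((A j : ℤ) * n + B j) * vv τ D X (F b j) ((A j : ℤ) * n + B j)) := by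
    simp only [sq, Finset.sum_mul_sum]
    simp only [Finset.mul_sum]
    rw [Finset.sum_comm]
    refine Finset.sum_congr rfl fun a _ => ?_
    rw [Finset.sum_comm]
    refine Finset.sum_congr rfl fun b _ => Finset.sum_congr rfl fun n _ => ?_
    rw [Finset.prod_mul_distrib]
    ring
  rw [e2]
  exact this


end Pool.Agent.H95R2.BG.LF
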