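import Mathlib
import Pool.Agent.H95R2.BG.DefsL
import Pool.Agent.H95R2.BG.S2
import Pool.Agent.H95R2.BG.LSum2

/-! BG project, linear forms: tasks L0b, L2 (MPhi_scale, S2pairL) (helper680, adapted from S2.lean). -/

open Finset Filter
open scoped ContDiff

namespace Pool.Agent.H95R2.BG.LF

open Pool.Agent.H378R2

namespace LS2

/-- the class of the multiples of `α` -/
theorem reindex (X : ℝ) (α W a : ℕ) (hα : 1 ≤ α) (g : ℕ → ℝ) :
    ∑ n ∈ Icc 1 ⌊3 * ((α : ℝ) * X)⌋₊, nu (α * X) (α * W) (α * a) n * g n =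
      ∑ n ∈ Icc 1 ⌊3 * X⌋₊, nu X W a n * g (α * n) := by
  classical
  have hα0 : (0 : ℝ) < α := by exact_mod_cast hα
  have hinj : Set.InjOn (fun n : ℕ => α * n) (Icc 1 ⌊3 * X⌋₊ : Finset ℕ) := by
    intro x _ y _ h
    exact Nat.eq_of_mul_eq_mul_left (by omega) h
  have h1 : ∑ n ∈ Icc 1 ⌊3 * X⌋₊, nu X W a n * g (α * n) =
      ∑ n ∈ (Icc 1 ⌊3 * X⌋₊).image (fun n : ℕ => α * n), nu (α * X) (α * W) (α * a) n * g n := by
    rw [Finset.sum_image hinj]
    refine Finset.sum_congr rfl fun n _ => ?_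
    congr 1
    unfold nu
    have e1 : (α * n ≡ α * a [MOD α * W]) ↔ (n ≡ a [MOD W]) :=
      Nat.ModEq.mul_left_cancel_iff' (by omega)
    have e2 : ((α * n : ℕ) : ℝ) / (α * X) = n / X := by
      push_cast
      exact mul_div_mul_left _ _ hα0.ne'
    rw [e2]
    simp only [e1]
  rw [h1]
  symm
  apply Finset.sum_subset
  · intro m hm
    rw [Finset.mem_image] at hm
    obtain ⟨n, hn, rfl⟩ := hm
    rw [Finset.mem_Icc] at hn ⊢
    refine ⟨Nat.mul_pos hα hn.1, ?_⟩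
    have h3X : 0 ≤ 3 * X := by
      by_contra h
      push Not at h
      have := Nat.floor_of_nonpos h.le
      omega
    apply Nat.le_floor
    have h2 : (n : ℝ) ≤ 3 * X := (Nat.le_floor_iff h3X).1 hn.2
    push_cast
    nlinarith
  · intro m hm hm'
    have h0 : nu (α * X) (α * W) (α * a) m = 0 := by
      unfold nu
      rw [if_neg]
      intro hc
      apply hm'
      have hdvd : α ∣ m := by
        have h2 : m ≡ α * a [MOD α] := Nat.ModEq.of_mul_right W hc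
        have h3 : α * a ≡ 0 [MOD α] := by
          rw [Nat.modEq_zero_iff_dvd]; exact Dvd.intro _ rfl
        exact (Nat.modEq_zero_iff_dvd).1 (h2.trans h3)
      obtain ⟨n, rfl⟩ := hdvd
      rw [Finset.mem_image]
      refine ⟨n, ?_, rfl⟩
      rw [Finset.mem_Icc] at hm ⊢
      have hn0 : 0 < n := by
        rcases Nat.eq_zero_or_pos n with h | h
        · rw [h] at hm; simp at hm
        · exact h
      refine ⟨hn0, Nat.le_floor ?_⟩
      have h4 : ((α * n : ℕ) : ℝ) ≤ 3 * (α * X) := by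
        have h5 : 0 < ⌊3 * ((α : ℝ) * X)⌋₊ := lt_of_lt_of_le (Nat.mul_pos hα hn0) hm.2
        exact (Nat.le_floor_iff (Nat.pos_of_floor_pos h5).le).1 hm.2
      push_cast at h4
      nlinarith
    rw [h0, zero_mul]

/-- `VVm` does not see a factor prime to the divisors -/
theorem VVm_mul (D R : ℕ) (L : ℝ) (F : ℝ → ℝ) (α : ℕ) (hα : ∀ p : ℕ, p.Prime → D < p → ¬ p ∣ α)
    (x : ℤ) : VVm (PD D) R L F (α * x) = VVm (PD D) R L F x := by
  unfold VVm
  refine Finset.sum_congr rfl fun d hd => ?_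
  unfold adm at hd
  rw [Finset.mem_filter] at hd
  have hcop : Nat.Coprime d α := by
    rw [Nat.coprime_iff_gcd_eq_one]
    by_contra h
    obtain ⟨p, hp, hpd⟩ := Nat.exists_prime_and_dvd h
    have h1 : p ∣ d := hpd.trans (Nat.gcd_dvd_left _ _)
    have h2 : p ∣ α := hpd.trans (Nat.gcd_dvd_right _ _)
    have h3 : D < p := by
      by_contra hc
      push Not at hc
      exact hd.2.2 p (mem_PD' hp hc) hp h1
    exact hα p hp h3 h2
  have hiff : ((d : ℤ) ∣ α * x) ↔ ((d : ℤ) ∣ x) := by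
    constructor
    · intro h
      exact IsCoprime.dvd_of_dvd_mul_left (Nat.isCoprime_iff_coprime.2 hcop) h
    · intro h
      exact Dvd.dvd.mul_left h _
  simp only [hiff]

/-- totient of `α W` if every prime of `α` divides `W` -/
theorem totient_mul' (α W : ℕ) (hα : 1 ≤ α) (hW : 0 < W) (h : ∀ p : ℕ, p.Prime → p ∣ α → p ∣ W) :
    (α * W).totient = α * W.totient := by
  have h1 : (α * W).primeFactors = W.primeFactors := by
    ext p
    rw [Nat.mem_primeFactors, Nat.mem_primeFactors]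
    constructor
    · rintro ⟨hp, hd, _⟩
      refine ⟨hp, ?_, hW.ne'⟩
      rcases (Nat.Prime.dvd_mul hp).1 hd with h2 | h2
      · exact h p hp h2
      · exact h2
    · rintro ⟨hp, hd, _⟩
      exact ⟨hp, Dvd.dvd.mul_left hd _, (Nat.mul_pos hα hW).ne'⟩
  have h2 := Nat.totient_eq_mul_prod_factors (α * W)
  have h3 := Nat.totient_eq_mul_prod_factors W
  rw [h1] at h2
  have h4 : (((α * W).totient : ℕ) : ℚ) = ((α * W.totient : ℕ) : ℚ) := by
    rw [h2]
    push_cast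
    rw [h3]
    ring
  exact_mod_cast h4

theorem MPhi_scale' (a : ℕ) (ha : 1 ≤ a) (X : ℝ) (hX : 4 ≤ X) :
    |MPhi (a * X) - a * MPhi X| ≤ 5 * a := by
  have ha0 : (0 : ℝ) < a := by exact_mod_cast ha
  have ha1 : (1 : ℝ) ≤ a := by exact_mod_cast ha
  have hX' : 4 ≤ a * X := by nlinarith
  have haX : (a : ℝ) ≤ a * X := by nlinarith
  have h1 := phi_sum_class (a * X) hX' a 0 ha haX
  have h2 : ∑ n ∈ (Icc 1 ⌊3 * (a * X)⌋₊).filter (fun n => n ≡ 0 [MOD a]), Phi (n / (a * X)) =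
      MPhi X := by
    have h3 := reindex X a 1 0 ha (fun _ => 1)
    simp only [mul_one, mul_zero] at h3
    have h4 : ∑ n ∈ Icc 1 ⌊3 * X⌋₊, nu X 1 0 n = MPhi X := by
      unfold MPhi nu
      refine Finset.sum_congr rfl fun n _ => ?_
      rw [if_pos (Nat.modEq_one)]
    rw [h4] at h3
    rw [← h3, Finset.sum_filter]
    rfl
  rw [h2] at h1
  have h5 : MPhi (a * X) - a * MPhi X = - (a * (MPhi X - MPhi (a * X) * (1 / a))) := by
    field_simp
    ring
  rw [h5, abs_neg, abs_mul, abs_of_pos ha0, mul_comm 5]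
  exact mul_le_mul_of_nonneg_left h1 ha0.le

end LS2

/-- L0b: `MPhi (a X) ~ a MPhi X` -/
theorem MPhi_scale (a : ℕ) (ha : 1 ≤ a) (ε : ℝ) (hε : 0 < ε) :
    ∀ᶠ X : ℝ in atTop, |MPhi (a * X) - a * MPhi X| ≤ ε * MPhi X := by
  filter_upwards [eventually_ge_atTop 40, eventually_ge_atTop (100 * (a : ℝ) / ε)] with X hX h1
  refine (LS2.MPhi_scale' a ha X (by linarith)).trans ?_
  have h2 := MPhi_ge X hX
  rw [div_le_iff₀ hε] at h1
  nlinarith

/-- L2: S2 for pairs -/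
theorem S2pairL {K0 : ℕ} (τ : ℝ) (hτ : 0 < τ) (hτ' : τ < 1 / 8) (F G : Fin K0 → ℝ → ℝ) (cF cG : Fin K0 → ℝ)
    (hF : ∀ j, GF (F j) (cF j)) (hG : ∀ j, GF (G j) (cG j)) (hsum : ∑ j, cF j + ∑ j, cG j ≤ 2)
    (ε : ℝ) (hε : 0 < ε) :
    ∃ D0 : ℕ, ∀ D : ℕ, D0 ≤ D → ∀ A B : Fin (K0 + 1) → ℕ, SepL D A B → ∀ (i : Fin (K0 + 1)) (a : ℕ),
      (A i * a + B i).Coprime (WD D) → ∀ᶠ X : ℝ in atTop,
      |∑ n ∈ Icc 1 ⌊3 * X⌋₊, nu X (WD D) a n * th (A i * n + B i) *
          ∏ j : Fin K0, (vv τ D X (F j) ((rem A i j : ℤ) * n + rem B i j) *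
            vv τ D X (G j) ((rem A i j : ℤ) * n + rem B i j)) -
        NN τ D X (K0 + 1) * Real.log X * ((1 / 4 - τ) * ∏ j, DD (F j) (G j))| ≤
      ε * (NN τ D X (K0 + 1) * Real.log X) := by
  obtain ⟨δ, hδ, hS⟩ := sieve_asymp K0 F G (fun j => (hF j).smooth) (fun j => (hG j).smooth)
    (fun j => (hF j).compact) (fun j => (hG j).compact) (ε / 8) (by positivity)
  refine ⟨⌈1 / δ⌉₊, fun D hD A B hsep i a hcop => ?_⟩
  set P := ∏ j, DD (F j) (G j) with hP
  obtain ⟨α, hαdef⟩ : ∃ α : ℕ, α = A i := ⟨_, rfl⟩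
  obtain ⟨β, hβdef⟩ : ∃ β : ℕ, β = B i := ⟨_, rfl⟩
  rw [← hαdef, ← hβdef] at hcop ⊢
  have hα1 : 1 ≤ α := by rw [hαdef]; exact hsep.2.1 i
  have hαr : (1 : ℝ) ≤ α := by exact_mod_cast hα1
  have hα0 : (0 : ℝ) < α := by linarith
  have hαp : ∀ p : ℕ, p.Prime → D < p → ¬ p ∣ α := by rw [hαdef]; exact hsep.2.2 i
  have hαW : ∀ p : ℕ, p.Prime → p ∣ α → p ∣ WD D := by
    intro p hp hpα
    rw [prime_dvd_WD hp]
    apply mem_PD' hp
    by_contra hc
    push Not at hc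
    exact hαp p hp hc hpα
  have hτ4 : τ < 1 / 4 := by linarith
  have hLt := Lt_tendsto hτ4
  have hsc : Tendsto (fun X : ℝ => (α : ℝ) * X) atTop atTop := tendsto_id.const_mul_atTop hα0
  have e1 : ∀ᶠ X : ℝ in atTop, ∑ p ∈ PD D, Real.log p / p ≤ (Lt τ X) ^ (1 / 4 : ℝ) :=
    ((tendsto_rpow_atTop (by norm_num)).comp hLt).eventually_ge_atTop _
  have e2 : ∀ᶠ X : ℝ in atTop, ∑ p ∈ PD D, (1 : ℝ) / p ≤ Real.log (Lt τ X) / 32 :=
    ((Real.tendsto_log_atTop.comp hLt).atTop_div_const (by norm_num)).eventually_ge_atTop _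
  have e3 := S2.err1 hτ hτ' D K0 (ε / (4 * α)) (by positivity)
  have e4 := hsc.eventually (S2.err2 hτ K0 β)
  have e5 := hsc.eventually (bv_tent (α * WD D) (Nat.mul_pos hα1 (WD_pos D)) (1 / 2 - 2 * τ)
    (by linarith) (2 * K0) (K0 + 1))
  have hPP : 0 < 160 * (|P| + 1) := by positivity
  obtain ⟨η, hηdef⟩ : ∃ η : ℝ, η = min (1 / 40) (ε / (160 * (|P| + 1))) := ⟨_, rfl⟩
  have hη0 : 0 < η := by rw [hηdef]; positivity
  have e6 := hsc.eventually (Pool.Agent.H510R2.Maier.lphi_mphi η hη0)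
  filter_upwards [e1, e2, e3, e4, e5, e6, hLt.eventually_ge_atTop 1, hLt.eventually_ge_atTop (1 / δ),
    eventually_ge_atTop 40, eventually_ge_atTop (2 * (β : ℝ)), eventually_ge_atTop (5 / η)] with
    X h1 h2 h3 h4 h5 h6 h7 h8 hX hX2 hX5
  have hX0 : 0 < X := by linarith
  have hXα : X ≤ α * X := by nlinarith
  have hXα0 : 0 < α * X := by linarith
  have hW'pos : 0 < α * WD D := Nat.mul_pos hα1 (WD_pos D)
  obtain ⟨Bw, hBc, hBm⟩ := S2.worst (α * X) (α * WD D) hW'pos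
  have h5' := h5 Bw hBc
  have hW : (0 : ℝ) < WD D := by exact_mod_cast WD_pos D
  have hφ : (0 : ℝ) < ((WD D).totient : ℝ) := by exact_mod_cast Nat.totient_pos.2 (WD_pos D)
  have hB := BE_PD_pos D
  have hL : 0 < Lt τ X := by linarith
  have hMge := MPhi_ge X hX
  have hM : 0 < MPhi X := by linarith
  have hlog : 0 < Real.log X := Real.log_pos (by linarith)
  have hlogα : Real.log X ≤ Real.log (α * X) := Real.log_le_log hX0 hXα
  have hLtα : Lt τ X ≤ Lt τ (α * X) := by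
    unfold Lt
    exact mul_le_mul_of_nonneg_left hlogα (by linarith)
  have hnot : ∀ p : ℕ, p.Prime → p ∉ PD D → D < p := by
    intro p hp hpE
    by_contra hc
    push Not at hc
    exact hpE (mem_PD' hp hc)
  have hcop' : (α * a + β).Coprime (α * WD D) := by
    apply Nat.Coprime.mul_right _ hcop
    rw [Nat.coprime_iff_gcd_eq_one]
    by_contra h
    obtain ⟨p, hp, hpd⟩ := Nat.exists_prime_and_dvd h
    have g1 : p ∣ α * a + β := hpd.trans (Nat.gcd_dvd_left _ _)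
    have g2 : p ∣ α := hpd.trans (Nat.gcd_dvd_right _ _)
    exact hp.one_lt.ne' (Nat.dvd_one.1 (hcop ▸ Nat.dvd_gcd g1 (hαW p hp g2)))
  -- step 1: shift
  set Pf : ℕ → ℝ := fun n => ∏ j : Fin K0, (VVm (PD D) (Rt τ X) (Lt τ X) (F j)
      ((rem A i j : ℤ) * n + ((α : ℤ) * rem B i j - (rem A i j : ℤ) * β)) *
    VVm (PD D) (Rt τ X) (Lt τ X) (G j)
      ((rem A i j : ℤ) * n + ((α : ℤ) * rem B i j - (rem A i j : ℤ) * β))) with hPf
  have s1 := shift_bound (α * X) (by linarith) (α * WD D) (α * a) β (by linarith) Pf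
    (Real.exp (2 * Lt τ X)) (fun n => S2.prod_le _ _ _ hL F G cF cG hF hG hsum _)
  have s1' : ∑ n ∈ Icc 1 ⌊3 * X⌋₊, nu X (WD D) a n * th (α * n + β) *
          ∏ j : Fin K0, (vv τ D X (F j) ((rem A i j : ℤ) * n + rem B i j) *
            vv τ D X (G j) ((rem A i j : ℤ) * n + rem B i j)) =
      ∑ n ∈ Icc 1 ⌊3 * (α * X)⌋₊, nu (α * X) (α * WD D) (α * a) n * th (n + β) * Pf (n + β) := by
    have hr := LS2.reindex X α (WD D) a hα1 (fun n => th (n + β) * Pf (n + β))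
    have hr2 : ∑ n ∈ Icc 1 ⌊3 * ((α : ℝ) * X)⌋₊, nu (α * X) (α * WD D) (α * a) n *
        (th (n + β) * Pf (n + β)) = ∑ n ∈ Icc 1 ⌊3 * (α * X)⌋₊, nu (α * X) (α * WD D) (α * a) n *
          th (n + β) * Pf (n + β) := Finset.sum_congr rfl fun n _ => by ring
    rw [← hr2, hr]
    refine Finset.sum_congr rfl fun n _ => ?_
    rw [mul_assoc]
    congr 2
    rw [hPf]
    refine Finset.prod_congr rfl fun j _ => ?_
    have : (rem A i j : ℤ) * ((α * n + β : ℕ) : ℤ) + ((α : ℤ) * rem B i j - (rem A i j : ℤ) * β) =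
        α * ((rem A i j : ℤ) * n + rem B i j) := by
      push_cast; ring
    rw [this, LS2.VVm_mul D _ _ _ α hαp, LS2.VVm_mul D _ _ _ α hαp]
    rfl
  -- step 2: sieve
  have s2 := sum2L (α * X) (α * WD D) (WD D) (α * a + β) hW'pos hcop' F G (Lt τ X) 1 hL zero_le_one cF cG
    (fun j => (hF j).bdd) (fun j => (hG j).bdd) (fun j => (hF j).zero) (fun j => (hG j).zero)
    (fun _ => PD D) (Rt τ X) (rem A i) (fun j => (α : ℤ) * rem B i j - (rem A i j : ℤ) * β)
    (fun _ p hp hpD hdvd => by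
      rcases (Nat.Prime.dvd_mul hp).1 hdvd with h9 | h9
      · exact hαp p hp (hnot p hp hpD) h9
      · exact hpD ((prime_dvd_WD hp).1 h9))
    (fun _ p hp hpD hdvd => hpD ((prime_dvd_WD hp).1 hdvd))
    (fun j p hp hpE => hsep.2.2 _ p hp (hnot p hp hpE))
    (fun j p hp hpE => by
      rw [hαdef, hβdef]
      exact hsep.1 _ _ (Fin.succAbove_ne i j).symm p hp (hnot p hp hpE))
    (by
      intro j k hjk p hp hpE _ n hh
      have hne : i.succAbove j ≠ i.succAbove k := fun h => hjk (Fin.succAbove_right_injective h)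
      have hpD := hnot p hp hpE
      have h9 := dvd_sub (Dvd.dvd.mul_left hh.1 (rem A i k : ℤ)) (Dvd.dvd.mul_left hh.2 (rem A i j : ℤ))
      have h10 : (rem A i k : ℤ) * ((rem A i j : ℤ) * n + ((α : ℤ) * rem B i j - (rem A i j : ℤ) * β)) -
          (rem A i j : ℤ) * ((rem A i k : ℤ) * n + ((α : ℤ) * rem B i k - (rem A i k : ℤ) * β)) =
          (α : ℤ) * ((A (i.succAbove k) : ℤ) * B (i.succAbove j) -
            (A (i.succAbove j) : ℤ) * B (i.succAbove k)) := by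
        unfold rem; ring
      rw [h10] at h9
      rcases (Nat.prime_iff_prime_int.1 hp).dvd_or_dvd h9 with h11 | h11
      · exact hαp p hp hpD (Int.natCast_dvd_natCast.1 h11)
      · exact hsep.1 _ _ hne.symm p hp hpD h11)
    Bw hBm
  have s3 : ∑ n ∈ Icc 1 ⌊3 * (α * X)⌋₊, (if n ≡ α * a + β [MOD α * WD D] then Phi (n / (α * X)) *
      ArithmeticFunction.vonMangoldt n else 0) * Pf n =
      ∑ n ∈ Icc 1 ⌊3 * (α * X)⌋₊, (if n ≡ α * a + β [MOD α * WD D] then Phi (n / (α * X)) *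
        ArithmeticFunction.vonMangoldt n else 0) *
        ∏ j : Fin K0, (VVm (PD D) (Rt τ X) (Lt τ X) (F j)
            ((rem A i j : ℕ) * n + ((α : ℤ) * rem B i j - (rem A i j : ℤ) * β)) *
          VVm (PD D) (Rt τ X) (Lt τ X) (G j)
            ((rem A i j : ℕ) * n + ((α : ℤ) * rem B i j - (rem A i j : ℤ) * β))) := rfl
  rw [← s3] at s2
  have s4 : (1 : ℝ) ^ (2 * K0) * ∑ q ∈ (Icc 1 ⌊Real.exp (Lt τ X * (∑ j, cF j + ∑ j, cG j))⌋₊).filter
      (fun q => Squarefree q ∧ q.Coprime (WD D)),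
        (q.divisors.card : ℝ) ^ (2 * K0) * |EPhi (α * X) (α * WD D * q) (Bw q)| ≤
      (α * X) / (Real.log (α * X)) ^ (K0 + 1) := by
    rw [one_pow, one_mul]
    refine le_trans ?_ h5'
    apply Finset.sum_le_sum_of_subset_of_nonneg
    · intro q hq
      rw [Finset.mem_filter, Finset.mem_Icc] at hq ⊢
      refine ⟨⟨hq.1.1, hq.1.2.trans (Nat.floor_le_floor ?_)⟩, hq.2.1⟩
      rw [← S2.exp_two_Lt τ (α * X) hXα0]
      apply Real.exp_le_exp.2
      nlinarith
    · intro q _ _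
      positivity
  have s4' : (α * X) / (Real.log (α * X)) ^ (K0 + 1) ≤ α * (X / (Real.log X) ^ (K0 + 1)) := by
    rw [← mul_div_assoc]
    apply div_le_div_of_nonneg_left hXα0.le (by positivity)
    exact pow_le_pow_left₀ hlog.le hlogα _
  have h4' : Real.exp (2 * Lt τ X) * ((4 * β) * Real.log (4 * (α * X)) +
      4 * Real.sqrt (α * X) * Real.log (4 * (α * X))) ≤ α * (X / (Real.log X) ^ (K0 + 1)) := by
    refine le_trans ?_ (h4.trans s4')
    apply mul_le_mul_of_nonneg_right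
    · apply Real.exp_le_exp.2
      linarith
    · have : 0 ≤ Real.log (4 * (α * X)) := Real.log_nonneg (by linarith)
      positivity
  -- step 3: asymptotics
  have s5 := hS (Lt τ X) (fun _ => PD D) (fun p _ => 1 / ((p : ℝ) - 1)) (Rt τ X) h8
    (by
      intro j x hx
      have h7 : 2 < x := lt_of_le_of_lt (Rt_ge h7) hx
      exact ⟨(hF j).zero x (lt_of_le_of_lt (hF j).le_two h7),
        (hG j).zero x (lt_of_le_of_lt (hG j).le_two h7)⟩)
    (fun _ p hp => (mem_PD.1 hp).2)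
    (by
      intro _ p hp hpl
      apply mem_PD' hp
      have : (p : ℝ) ≤ ⌈1 / δ⌉₊ := hpl.trans (Nat.le_ceil (1 / δ))
      have : p ≤ ⌈1 / δ⌉₊ := by exact_mod_cast this
      omega)
    (fun _ => h1) (fun _ => h2) (fun _ p hp _ => w_two hp)
  have k3 : ∏ j : Fin K0, (Lt τ X * ∏ p ∈ PD D, (1 - 1 / (p : ℝ))) = (Lt τ X * BE (PD D)) ^ K0 := by
    rw [Finset.prod_const, Finset.card_univ, Fintype.card_fin]
    rfl
  rw [k3] at s5
  set SS := sieveSum K0 F G (Lt τ X) (fun _ => PD D) (fun p _ => 1 / ((p : ℝ) - 1)) (Rt τ X) with hSS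
  have s5' : |(Lt τ X * BE (PD D)) ^ K0 * SS - P| ≤ ε / 8 := s5
  set Q : ℝ := (1 / ((WD D).totient : ℝ)) * (1 / (Lt τ X * BE (PD D)) ^ K0) with hQ
  have hQ0 : 0 < Q := by positivity
  obtain ⟨Λ, hΛdef⟩ : ∃ Λ : ℝ, Λ = LPhi (α * X) / α := ⟨_, rfl⟩
  have hLP0 : 0 ≤ Λ := by
    rw [hΛdef]
    apply div_nonneg _ hα0.le
    unfold LPhi
    exact Finset.sum_nonneg fun n _ => mul_nonneg (Phi_nonneg _) ArithmeticFunction.vonMangoldt_nonneg
  have hLW : LPhi (α * X) * (1 / ((α * WD D).totient : ℝ)) = Λ * (1 / ((WD D).totient : ℝ)) := by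
    rw [LS2.totient_mul' α (WD D) hα1 (WD_pos D) hαW, hΛdef]
    push_cast
    field_simp
  rw [hLW] at s2
  have s6 : |(Λ * (1 / ((WD D).totient : ℝ))) * SS - Λ * Q * P| ≤ Λ * Q * (ε / 8) := by
    have : (Λ * (1 / ((WD D).totient : ℝ))) * SS - Λ * Q * P =
      Λ * Q * ((Lt τ X * BE (PD D)) ^ K0 * SS - P) := by
      rw [hQ]
      have : (Lt τ X * BE (PD D)) ^ K0 ≠ 0 := by positivity
      field_simp
    rw [this, abs_mul, abs_of_nonneg (by positivity)]
    exact mul_le_mul_of_nonneg_left s5' (by positivity)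
  -- step 4: `LPhi` and `MPhi`
  have h6' : |Λ - MPhi X| ≤ 2 * η * X := by
    have g1 := LS2.MPhi_scale' α hα1 X (by linarith)
    have g2 : Λ - MPhi X = ((LPhi (α * X) - MPhi (α * X)) + (MPhi (α * X) - α * MPhi X)) / α := by
      rw [hΛdef]; field_simp; ring
    rw [g2, abs_div, abs_of_pos hα0, div_le_iff₀ hα0]
    have g3 : 5 ≤ η * X := by
      rw [div_le_iff₀ hη0] at hX5
      linarith
    have g4 : 5 * (α : ℝ) ≤ η * X * α := mul_le_mul_of_nonneg_right g3 hα0.le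
    calc |(LPhi (α * X) - MPhi (α * X)) + (MPhi (α * X) - α * MPhi X)|
        ≤ |LPhi (α * X) - MPhi (α * X)| + |MPhi (α * X) - α * MPhi X| := abs_add_le _ _
      _ ≤ η * (α * X) + 5 * α := add_le_add h6 g1
      _ ≤ 2 * η * X * α := by linarith
  have hη1 : 2 * η ≤ 1 / 20 := by
    have := min_le_left (1 / 40 : ℝ) (ε / (160 * (|P| + 1)))
    rw [← hηdef] at this
    linarith
  have hη2 : 2 * η ≤ ε / (80 * (|P| + 1)) := by
    have := min_le_right (1 / 40 : ℝ) (ε / (160 * (|P| + 1)))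
    rw [← hηdef] at this
    have g5 : ε / (80 * (|P| + 1)) = 2 * (ε / (160 * (|P| + 1))) := by
      field_simp
      norm_num
    rw [g5]
    linarith
  have h6a : |Λ - MPhi X| ≤ 1 / 20 * X := h6'.trans (mul_le_mul_of_nonneg_right hη1 hX0.le)
  have h6b : |Λ - MPhi X| ≤ ε / (80 * (|P| + 1)) * X :=
    h6'.trans (mul_le_mul_of_nonneg_right hη2 hX0.le)
  have hLP2 : Λ ≤ 2 * MPhi X := by
    have := (abs_le.1 h6a).2
    linarith
  have s7 : |Λ * Q * P - MPhi X * Q * P| ≤ ε / 4 * (MPhi X * Q) := by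
    have e : Λ * Q * P - MPhi X * Q * P = (Λ - MPhi X) * (Q * P) := by ring
    rw [e, abs_mul, abs_mul, abs_of_pos hQ0]
    have h9 : |Λ - MPhi X| * |P| ≤ ε / 4 * MPhi X := by
      calc |Λ - MPhi X| * |P| ≤ ε / (80 * (|P| + 1)) * X * |P| :=
            mul_le_mul_of_nonneg_right h6b (abs_nonneg _)
        _ = ε / 80 * X * (|P| / (|P| + 1)) := by field_simp
        _ ≤ ε / 80 * X * 1 := by
            apply mul_le_mul_of_nonneg_left _ (by positivity)
            rw [div_le_one (by positivity)]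
            linarith
        _ ≤ ε / 4 * MPhi X := by nlinarith
    calc |Λ - MPhi X| * (Q * |P|) = (|Λ - MPhi X| * |P|) * Q := by ring
      _ ≤ ε / 4 * MPhi X * Q := mul_le_mul_of_nonneg_right h9 hQ0.le
      _ = _ := by ring
  -- step 5: the normalisation
  have hL0 : Lt τ X = (1 / 4 - τ) * Real.log X := rfl
  have hNN : NN τ D X (K0 + 1) * Real.log X * (1 / 4 - τ) = MPhi X * Q := by
    have h9 : NN τ D X (K0 + 1) * Real.log X * (1 / 4 - τ) = NN τ D X (K0 + 1) * Lt τ X := by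
      rw [hL0]; ring
    rw [h9, hQ, totient_WD]
    unfold NN
    rw [one_div_pow, pow_succ]
    field_simp
  have hNN' : MPhi X * Q ≤ NN τ D X (K0 + 1) * Real.log X := by
    rw [← hNN]
    have h9 : 0 ≤ NN τ D X (K0 + 1) * Real.log X := by
      unfold NN
      positivity
    nlinarith
  have s8 : MPhi X * Q * P = NN τ D X (K0 + 1) * Real.log X * ((1 / 4 - τ) * P) := by
    rw [← hNN]; ring
  have s9 : Λ * Q * (ε / 8) ≤ ε / 4 * (MPhi X * Q) := by
    have : Λ * (Q * ε) ≤ 2 * MPhi X * (Q * ε) := mul_le_mul_of_nonneg_right hLP2 (by positivity)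
    linarith
  have h3' : α * (X / (Real.log X) ^ (K0 + 1)) ≤ ε / 4 * (MPhi X * Q) := by
    calc α * (X / (Real.log X) ^ (K0 + 1)) ≤ α * (ε / (4 * α) * (MPhi X * Q)) :=
          mul_le_mul_of_nonneg_left h3 hα0.le
      _ = ε / 4 * (MPhi X * Q) := by field_simp
  have hfin : ε * (MPhi X * Q) ≤ ε * (NN τ D X (K0 + 1) * Real.log X) :=
    mul_le_mul_of_nonneg_left hNN' hε.le
  rw [s1', ← s8]
  have t1 := abs_le.1 s1
  have t2 := abs_le.1 s2
  have t6 := abs_le.1 s6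
  have t7 := abs_le.1 s7
  rw [abs_le]
  constructor <;> linarith [t1.1, t1.2, t2.1, t2.2, t6.1, t6.2, t7.1, t7.2, s4, s4', h3', h4', s9, hfin]

end Pool.Agent.H95R2.BG.LF
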