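import Mathlib
import Pool.Agent.H95R2.BG.DefsL
import Pool.Agent.H95R2.BG.LS1
import Pool.Agent.H95R2.BG.LS2

/-! BG project, linear forms: task L2b (S2quadL) (helper680, adapted from Quad.lean). -/

open Finset Filter
open scoped ContDiff

namespace Pool.Agent.H95R2.BG.LF

open Pool.Agent.H378R2

/-- S2 for quadratic forms -/
theorem S2quadL {K0 : ℕ} {ι : Type} (T : Finset ι) (τ : ℝ) (hτ : 0 < τ) (hτ' : τ < 1 / 8)
    (F : ι → Fin K0 → ℝ → ℝ) (c : ι → Fin K0 → ℝ) (hF : ∀ a ∈ T, ∀ j, GF (F a j) (c a j))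
    (x : ι → ι → ℝ) (hsum : ∀ a ∈ T, ∀ b ∈ T, x a b ≠ 0 → ∑ j, c a j + ∑ j, c b j ≤ 2) (ε : ℝ) (hε : 0 < ε) :
    ∃ D0 : ℕ, ∀ D : ℕ, D0 ≤ D → ∀ A B : Fin (K0 + 1) → ℕ, SepL D A B → ∀ (i : Fin (K0 + 1)) (a0 : ℕ),
      (A i * a0 + B i).Coprime (WD D) → ∀ᶠ X : ℝ in atTop,
      |∑ n ∈ Icc 1 ⌊3 * X⌋₊, nu X (WD D) a0 n * th (A i * n + B i) * (∑ a ∈ T, ∑ b ∈ T, x a b *
          ((∏ j, vv τ D X (F a j) ((rem A i j : ℤ) * n + rem B i j)) * ∏ j, vv τ D X (F b j) ((rem A i j : ℤ) * n + rem B i j))) -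
        NN τ D X (K0 + 1) * Real.log X * ((1 / 4 - τ) * ∑ a ∈ T, ∑ b ∈ T, x a b * ∏ j, DD (F a j) (F b j))| ≤
      ε * (NN τ D X (K0 + 1) * Real.log X) := by
  classical
  obtain ⟨hε', hε''⟩ := Quad.eps_le T x ε hε
  set ε' := ε / (∑ a ∈ T, ∑ b ∈ T, |x a b| + 1) with hdef
  have key : ∀ p ∈ (T ×ˢ T).filter (fun p => x p.1 p.2 ≠ 0), ∃ D0 : ℕ, ∀ D : ℕ, D0 ≤ D →
      ∀ A B : Fin (K0 + 1) → ℕ, SepL D A B → ∀ (i : Fin (K0 + 1)) (a : ℕ),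
      (A i * a + B i).Coprime (WD D) → ∀ᶠ X : ℝ in atTop,
      |∑ n ∈ Icc 1 ⌊3 * X⌋₊, nu X (WD D) a n * th (A i * n + B i) *
          ∏ j : Fin K0, (vv τ D X (F p.1 j) ((rem A i j : ℤ) * n + rem B i j) *
            vv τ D X (F p.2 j) ((rem A i j : ℤ) * n + rem B i j)) -
        NN τ D X (K0 + 1) * Real.log X * ((1 / 4 - τ) * ∏ j, DD (F p.1 j) (F p.2 j))| ≤
      ε' * (NN τ D X (K0 + 1) * Real.log X) := by
    intro p hp
    rw [Finset.mem_filter, Finset.mem_product] at hp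
    exact S2pairL τ hτ hτ' (F p.1) (F p.2) (c p.1) (c p.2) (hF _ hp.1.1) (hF _ hp.1.2)
      (hsum _ hp.1.1 _ hp.1.2 hp.2) ε' hε'
  choose! D0 hD0 using key
  refine ⟨((T ×ˢ T).filter (fun p => x p.1 p.2 ≠ 0)).sup D0, fun D hD A B hS i a0 hcop => ?_⟩
  have hall : ∀ᶠ X : ℝ in atTop, ∀ p ∈ (T ×ˢ T).filter (fun p => x p.1 p.2 ≠ 0),
      |∑ n ∈ Icc 1 ⌊3 * X⌋₊, nu X (WD D) a0 n * th (A i * n + B i) *
          ∏ j : Fin K0, (vv τ D X (F p.1 j) ((rem A i j : ℤ) * n + rem B i j) *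
            vv τ D X (F p.2 j) ((rem A i j : ℤ) * n + rem B i j)) -
        NN τ D X (K0 + 1) * Real.log X * ((1 / 4 - τ) * ∏ j, DD (F p.1 j) (F p.2 j))| ≤
      ε' * (NN τ D X (K0 + 1) * Real.log X) := by
    rw [Filter.eventually_all_finset]
    intro p hp
    exact hD0 p hp D ((Finset.le_sup hp).trans hD) A B hS i a0 hcop
  filter_upwards [hall, NN_pos τ (by linarith) D (K0 + 1), eventually_ge_atTop 1] with X hX hN hX1
  have hlog : 0 ≤ Real.log X := Real.log_nonneg hX1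
  have := Quad.gen T x
    (fun a b => ∑ n ∈ Icc 1 ⌊3 * X⌋₊, nu X (WD D) a0 n * th (A i * n + B i) *
          ∏ j : Fin K0, (vv τ D X (F a j) ((rem A i j : ℤ) * n + rem B i j) *
            vv τ D X (F b j) ((rem A i j : ℤ) * n + rem B i j)))
    (fun a b => (1 / 4 - τ) * ∏ j, DD (F a j) (F b j)) (NN τ D X (K0 + 1) * Real.log X) ε ε'
    (mul_nonneg hN.le hlog) hε''
    (fun a ha b hb h0 => hX (a, b) (Finset.mem_filter.2 ⟨Finset.mem_product.2 ⟨ha, hb⟩, h0⟩))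
  have e2 : ∑ n ∈ Icc 1 ⌊3 * X⌋₊, nu X (WD D) a0 n * th (A i * n + B i) * (∑ a ∈ T, ∑ b ∈ T, x a b *
          ((∏ j, vv τ D X (F a j) ((rem A i j : ℤ) * n + rem B i j)) * ∏ j, vv τ D X (F b j) ((rem A i j : ℤ) * n + rem B i j))) =
      ∑ a ∈ T, ∑ b ∈ T, x a b * ∑ n ∈ Icc 1 ⌊3 * X⌋₊, nu X (WD D) a0 n * th (A i * n + B i) *
          ∏ j : Fin K0, (vv τ D X (F a j) ((rem A i j : ℤ) * n + rem B i j) *
            vv τ D X (F b j) ((rem A i j : ℤ) * n + rem B i j)) := by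
    simp only [Finset.mul_sum]
    rw [Finset.sum_comm]
    refine Finset.sum_congr rfl fun a _ => ?_
    rw [Finset.sum_comm]
    refine Finset.sum_congr rfl fun b _ => ?_
    refine Finset.sum_congr rfl fun n _ => ?_
    rw [Finset.prod_mul_distrib]
    ring
  have e3 : ∑ a ∈ T, ∑ b ∈ T, x a b * ((1 / 4 - τ) * ∏ j, DD (F a j) (F b j)) =
      (1 / 4 - τ) * ∑ a ∈ T, ∑ b ∈ T, x a b * ∏ j, DD (F a j) (F b j) := by
    simp only [Finset.mul_sum]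
    refine Finset.sum_congr rfl fun a _ => Finset.sum_congr rfl fun b _ => ?_
    ring
  rw [e2, ← e3]
  exact this

end Pool.Agent.H95R2.BG.LF
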