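import Mathlib
import Pool.Agent.H95R2.BG.LQuad
import Pool.Agent.H95R2.BG.LLimAux

/-! BG project: task L4 (lim_wwL, lim_qqL, lim_zzL). -/

open Finset Filter
open scoped ContDiff

namespace Pool.Agent.H95R2.BG.LF

open Pool.Agent.H378R2

section crit

variable {K0 N1 M R : ℕ} {f ψ : ℕ → ℝ → ℝ} {β κ₀ : ℝ}

/-- L4a -/
theorem lim_wwL (hN1 : 0 < N1) (hM : M ≤ 2 * N1) (hR : R < 2 * N1) (hf : Cells N1 M f β)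
    (F : (Fin (K0 + 1) → ℕ) → ℝ) (hF : ∀ c, F c ≠ 0 → rad c ≤ R + 1)
    (τ : ℝ) (hτ : 0 < τ) (hτ' : τ < 1 / 8) (ε : ℝ) (hε : 0 < ε) :
    ∃ D0 : ℕ, ∀ D : ℕ, D0 ≤ D → ∀ A B : Fin (K0 + 1) → ℕ, SepL D A B → ∀ a : ℕ, ∀ᶠ X : ℝ in atTop,
      ∑ n ∈ Icc 1 ⌊3 * X⌋₊, nu X (WD D) a n * ww τ D X f M F A B n ^ 2 ≤
        NN τ D X (K0 + 1) * (β ^ (K0 + 1) * ∑ c ∈ Box (K0 + 1) M, F c ^ 2 + ε) :=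
  lim_wwL_of (fun T τ hτ hτ' F c hF hs x ε hε => S1quadL T τ hτ hτ' F c hF hs x ε hε)
    hN1 hM hR hf F hF τ hτ hτ' ε hε

/-- L4b -/
theorem lim_qqL (hN1 : 0 < N1) (hM : M ≤ 2 * N1) (hR : R < 2 * N1) (hf : Cells N1 M f β)
    (F : (Fin (K0 + 1) → ℕ) → ℝ) (hF : ∀ c, F c ≠ 0 → rad c ≤ R + 1) (κ : ℕ → ℕ → ℝ)
    (hκ : ∀ s s', s ≤ R → s' ≤ R → 2 * N1 < s + s' → κ s s' = 0)
    (τ : ℝ) (hτ : 0 < τ) (hτ' : τ < 1 / 8) (ε : ℝ) (hε : 0 < ε) :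
    ∃ D0 : ℕ, ∀ D : ℕ, D0 ≤ D → ∀ A B : Fin (K0 + 1) → ℕ, SepL D A B → ∀ (i : Fin (K0 + 1)) (a : ℕ),
      (A i * a + B i).Coprime (WD D) → ∀ᶠ X : ℝ in atTop,
      NN τ D X (K0 + 1) * Real.log X *
          ((1 / 4 - τ) * (β ^ K0 * ∑ c ∈ Box K0 M, κ (rad c) (rad c) * UU M F i c ^ 2) - ε) ≤
        ∑ n ∈ Icc 1 ⌊3 * X⌋₊, nu X (WD D) a n * (th (A i * n + B i) * qq τ D X f M F A B i κ n) :=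
  lim_qqL_of (fun T τ hτ hτ' F c hF x hs ε hε => S2quadL T τ hτ hτ' F c hF x hs ε hε)
    hN1 hM hR hf F hF κ hκ τ hτ hτ' ε hε

/-- L4c -/
theorem lim_zzL (hN1 : 0 < N1) (hM : M ≤ 2 * N1) (hR : R < 2 * N1) (hf : Cells N1 M f β) (hψ : Psis N1 κ₀ ψ)
    (hκ₀ : 0 < κ₀) (F : (Fin (K0 + 1) → ℕ) → ℝ) (hF : ∀ c, F c ≠ 0 → rad c ≤ R + 1) (α : ℕ → ℝ)
    (τ : ℝ) (hτ : 0 < τ) (hτ' : τ < 1 / 8) (ε : ℝ) (hε : 0 < ε) :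
    ∃ D0 : ℕ, ∀ D : ℕ, D0 ≤ D → ∀ A B : Fin (K0 + 1) → ℕ, SepL D A B → ∀ (i : Fin (K0 + 1)) (a : ℕ),
      ∀ᶠ X : ℝ in atTop,
      ∑ n ∈ Icc 1 ⌊3 * X⌋₊, nu X (WD D) a n * zz τ D X f ψ M F A B i α n ^ 2 ≤
        NN τ D X (K0 + 1) * (β ^ K0 * ((1 + κ₀) *
          ∑ c ∈ Box K0 M, α (rad c) ^ 2 / (2 - (rad c : ℝ) / N1) * UU M F i c ^ 2) + ε) :=
  lim_zzL_of (fun T τ hτ hτ' F c hF hs x ε hε => S1quadL T τ hτ hτ' F c hF hs x ε hε)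
    hN1 hM hR hf hψ hκ₀ F hF α τ hτ hτ' ε hε

end crit

end Pool.Agent.H95R2.BG.LF
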