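import Mathlib
import Pool.Agent.H95R2.BG.Defs

/-! BG project: C1, the pointwise inequality (helper482). -/

open Finset Filter MeasureTheory
open scoped ContDiff

namespace Pool.Agent.H95R2.BG

open Pool.Agent.H378R2

theorem C1_Rt_pos (τ : ℝ) (hτ' : τ < 1 / 8) (X : ℝ) (hX : 1 ≤ X) : 1 ≤ Rt τ X := by
  unfold Rt Lt
  apply Nat.le_floor
  rw [Nat.cast_one]
  apply Real.one_le_exp
  have := Real.log_nonneg hX
  have h2 : 0 ≤ (1 / 4 - τ) * Real.log X := mul_nonneg (by linarith) this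
  linarith

theorem C1_Rt_lt (τ : ℝ) (hτ : 0 < τ) (X : ℝ) (hX : 1 < X) : (Rt τ X : ℝ) < X := by
  have h0 : 0 < X := by linarith
  have hl := Real.log_pos hX
  have h1 : (Rt τ X : ℝ) ≤ Real.exp (3 * Lt τ X) := Nat.floor_le (Real.exp_pos _).le
  have h2 : Real.exp (3 * Lt τ X) < X := by
    conv_rhs => rw [← Real.exp_log h0]
    apply Real.exp_lt_exp.2
    unfold Lt
    nlinarith
  linarith

section

variable {K0 M R : ℕ}

theorem C1_UU_rad (F : (Fin (K0 + 1) → ℕ) → ℝ) (hF : ∀ c, F c ≠ 0 → rad c ≤ R + 1)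
    (i : Fin (K0 + 1)) (c : Fin K0 → ℕ) (hc : UU M F i c ≠ 0) : rad c ≤ R := by
  unfold UU at hc
  obtain ⟨t, _, ht⟩ := Finset.exists_ne_zero_of_sum_ne_zero hc
  have h1 := hF _ ht
  unfold rad at h1 ⊢
  rw [Fin.sum_univ_succAbove _ i] at h1
  simp only [Fin.insertNth_apply_same, Fin.insertNth_apply_succAbove] at h1
  omega

/-- summation over the box by splitting off coordinate `i` -/
theorem C1_sum_box (i : Fin (K0 + 1)) (g : (Fin (K0 + 1) → ℕ) → ℝ) :
    ∑ c ∈ Box (K0 + 1) M, g c =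
      ∑ c ∈ Box K0 M, ∑ t ∈ range M, g (Fin.insertNth (α := fun _ => ℕ) i t c) := by
  rw [← Finset.sum_product' (s := Box K0 M) (t := range M)
    (f := fun c t => g (Fin.insertNth (α := fun _ => ℕ) i t c))]
  symm
  refine Finset.sum_nbij' (fun p => Fin.insertNth (α := fun _ => ℕ) i p.2 p.1)
    (fun c => (fun j => c (i.succAbove j), c i)) ?_ ?_ ?_ ?_ ?_
  · rintro ⟨c, t⟩ hp
    rw [Finset.mem_product] at hp
    unfold Box at hp ⊢
    rw [Fintype.mem_piFinset] at hp ⊢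
    intro j
    rcases Fin.eq_self_or_eq_succAbove i j with rfl | ⟨k, rfl⟩
    · simpa using hp.2
    · simpa using hp.1 k
  · intro c hc
    unfold Box at hc ⊢
    rw [Fintype.mem_piFinset] at hc
    rw [Finset.mem_product, Fintype.mem_piFinset]
    exact ⟨fun j => hc _, hc _⟩
  · rintro ⟨c, t⟩ _
    simp
  · intro c _
    funext j
    rcases Fin.eq_self_or_eq_succAbove i j with rfl | ⟨k, rfl⟩
    · simp
    · simp
  · rintro ⟨c, t⟩ _
    rfl

/-- grouping by the radius -/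
theorem C1_group (F : (Fin (K0 + 1) → ℕ) → ℝ) (hF : ∀ c, F c ≠ 0 → rad c ≤ R + 1)
    (i : Fin (K0 + 1)) (P : (Fin K0 → ℕ) → ℝ) (g : ℕ → ℝ) :
    ∑ c ∈ Box K0 M, g (rad c) * (UU M F i c * P c) =
      ∑ s ∈ range (R + 1), g s * ∑ c ∈ Box K0 M, if rad c = s then UU M F i c * P c else 0 := by
  simp_rw [Finset.mul_sum]
  rw [Finset.sum_comm]
  apply Finset.sum_congr rfl
  intro c _
  by_cases h : rad c ∈ range (R + 1)
  · rw [Finset.sum_eq_single (rad c)]
    · rw [if_pos rfl]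
    · intro b _ hb
      rw [if_neg (Ne.symm hb), mul_zero]
    · intro h'; exact absurd h h'
  · have hU : UU M F i c = 0 := by
      by_contra hne
      have := C1_UU_rad F hF i c hne
      rw [Finset.mem_range] at h
      omega
    rw [hU]
    simp

end

theorem pointwise {K0 N1 M R : ℕ} {f ψ : ℕ → ℝ → ℝ} {β κ₀ : ℝ}
    (hN1 : 0 < N1) (hM : M ≤ 2 * N1) (hR : R < 2 * N1) (hf : Cells N1 M f β) (hψ : Psis N1 κ₀ ψ)
    (F : (Fin (K0 + 1) → ℕ) → ℝ) (hF : ∀ c, F c ≠ 0 → rad c ≤ R + 1)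
    (r : ℕ) (μ : Fin r → ℝ) (hμ : ∀ l, 0 ≤ μ l) (α : Fin r → ℕ → ℝ) (κ : ℕ → ℕ → ℝ)
    (hpsd : ∀ Y : ℕ → ℝ, ∑ s ∈ range (R + 1), ∑ s' ∈ range (R + 1), κ s s' * (Y s * Y s') ≤
      (∑ s ∈ range (R + 1), Y s) ^ 2 + ∑ l, μ l * (∑ s ∈ range (R + 1), α l s * Y s) ^ 2)
    (τ : ℝ) (hτ : 0 < τ) (hτ' : τ < 1 / 8) (D : ℕ) (h : Fin (K0 + 1) → ℕ) :
    ∀ᶠ X : ℝ in atTop, ∀ n : ℕ, X < n → (n : ℝ) ≤ 3 * X → ∀ i,
      th (n + h i) * qq τ D X f M F h i κ n - Real.log (4 * X) * ∑ l, μ l * zz τ D X f ψ M F h i (α l) n ^ 2 ≤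
        th (n + h i) * ww τ D X f M F h n ^ 2 := by
  filter_upwards [eventually_gt_atTop (1 : ℝ), eventually_ge_atTop (((∑ j, h j : ℕ) : ℝ))] with X hX1 hXh
  intro n hXn hn3 i
  have hX0 : 0 < X := by linarith
  have hlog4 : 0 ≤ Real.log (4 * X) := Real.log_nonneg (by linarith)
  have hS0 : 0 ≤ ∑ l, μ l * zz τ D X f ψ M F h i (α l) n ^ 2 :=
    Finset.sum_nonneg fun l _ => mul_nonneg (hμ l) (sq_nonneg _)
  by_cases hp : (n + h i).Prime
  swap
  · have : th (n + h i) = 0 := by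
      unfold th; rw [if_neg hp]
    rw [this]
    have := mul_nonneg hlog4 hS0
    linarith
  -- the prime case
  have hR1 : 1 ≤ Rt τ X := C1_Rt_pos τ hτ' X hX1.le
  have hRlt : Rt τ X < n + h i := by
    have h1 := C1_Rt_lt τ hτ X hX1
    have h2 : (Rt τ X : ℝ) < (n : ℝ) := by linarith
    have h3 : Rt τ X < n := by exact_mod_cast h2
    omega
  have hvv : ∀ φ : ℝ → ℝ, vv τ D X φ ((n : ℤ) + h i) = φ 0 := by
    intro φ
    unfold vv
    have : ((n : ℤ) + (h i : ℤ)) = ((n + h i : ℕ) : ℤ) := by push_cast; ring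
    rw [this]
    exact VV_prime _ _ hR1 _ _ _ hp hRlt
  set P : (Fin K0 → ℕ) → ℝ := fun c => prodv τ D X f (hrem h i) c n with hP
  set Y : ℕ → ℝ := fun s => ∑ c ∈ Box K0 M, if rad c = s then UU M F i c * P c else 0 with hY
  have hww : ww τ D X f M F h n = ∑ s ∈ range (R + 1), Y s := by
    have h1 : ww τ D X f M F h n = ∑ c ∈ Box K0 M, (1 : ℝ) * (UU M F i c * P c) := by
      unfold ww
      rw [C1_sum_box i]
      apply Finset.sum_congr rfl
      intro c _
      rw [one_mul, UU, Finset.sum_mul]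
      apply Finset.sum_congr rfl
      intro t _
      congr 1
      rw [hP]
      unfold prodv
      rw [Fin.prod_univ_succAbove _ i]
      simp only [Fin.insertNth_apply_same, Fin.insertNth_apply_succAbove]
      rw [hvv, hf.one, one_mul]
      rfl
    rw [h1, C1_group F hF i P (fun _ => 1)]
    apply Finset.sum_congr rfl
    intro s _
    rw [one_mul]
  have hzz : ∀ l, zz τ D X f ψ M F h i (α l) n = ∑ s ∈ range (R + 1), α l s * Y s := by
    intro l
    rw [← C1_group F hF i P (α l)]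
    unfold zz
    apply Finset.sum_congr rfl
    intro c _
    by_cases hU : UU M F i c = 0
    · rw [hU]; ring
    · have hr := C1_UU_rad F hF i c hU
      rw [hvv, hψ.one _ (by omega), one_mul, mul_assoc]
  have hqq : qq τ D X f M F h i κ n =
      ∑ s ∈ range (R + 1), ∑ s' ∈ range (R + 1), κ s s' * (Y s * Y s') := by
    have h1 : qq τ D X f M F h i κ n = ∑ c ∈ Box K0 M,
        (∑ s' ∈ range (R + 1), κ (rad c) s' * Y s') * (UU M F i c * P c) := by
      unfold qq
      apply Finset.sum_congr rfl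
      intro c _
      have h2 := C1_group (M := M) F hF i P (fun s => κ (rad c) s)
      have h3 : ∑ s' ∈ range (R + 1), κ (rad c) s' * Y s' =
          ∑ c' ∈ Box K0 M, κ (rad c) (rad c') * (UU M F i c' * P c') := h2.symm
      rw [h3, Finset.sum_mul]
      apply Finset.sum_congr rfl
      intro c' _
      ring
    rw [h1, C1_group F hF i P (fun s => ∑ s' ∈ range (R + 1), κ s s' * Y s')]
    apply Finset.sum_congr rfl
    intro s _
    rw [Finset.sum_mul]
    apply Finset.sum_congr rfl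
    intro s' _
    ring
  have hmain : qq τ D X f M F h i κ n ≤ ww τ D X f M F h n ^ 2 +
      ∑ l, μ l * zz τ D X f ψ M F h i (α l) n ^ 2 := by
    rw [hqq, hww]
    simp_rw [hzz]
    exact hpsd Y
  have hth0 : 0 ≤ th (n + h i) := th_nonneg _
  have hth1 : th (n + h i) ≤ Real.log (4 * X) := by
    unfold th
    rw [if_pos hp]
    apply Real.log_le_log
    · exact_mod_cast hp.pos
    · have h1 : ((h i : ℕ) : ℝ) ≤ ((∑ j, h j : ℕ) : ℝ) := by
        exact_mod_cast Finset.single_le_sum (f := h) (fun _ _ => Nat.zero_le _) (Finset.mem_univ i)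
      push_cast
      push_cast at h1 hXh
      linarith
  have e1 := mul_le_mul_of_nonneg_left hmain hth0
  have e2 := mul_le_mul_of_nonneg_right hth1 hS0
  rw [mul_add] at e1
  linarith

end Pool.Agent.H95R2.BG
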