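import Mathlib
import Pool.Agent.H95R2.BG.S1
import Pool.Agent.H95R2.BG.Cells
import Pool.Agent.H95R2.BG.LPointwise
import Pool.Agent.H95R2.BG.LLim
import Pool.Agent.Helper112.Arith

/-! BG project (helper459 for helper95), task L5: the criterion for linear forms, with a count. -/

open Finset Filter
open scoped ContDiff

namespace Pool.Agent.H95R2.BG.LF

open Pool.Agent.H378R2

/-- at most one of the forms is prime -/
theorem critL_sum_th {K : ℕ} (m : Fin K → ℕ) (Y : ℝ) (hY : 0 ≤ Y)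
    (hno : ∀ i j, i ≠ j → (m i).Prime → ¬ (m j).Prime)
    (hle : ∀ i, th (m i) ≤ Y) : ∑ i, th (m i) ≤ Y := by
  by_cases hex : ∃ i, (m i).Prime
  · obtain ⟨i, hi⟩ := hex
    rw [Finset.sum_eq_single i]
    · exact hle i
    · intro j _ hj
      unfold th
      rw [if_neg (hno i j (Ne.symm hj) hi)]
    · intro hi'
      exact absurd (Finset.mem_univ i) hi'
  · push Not at hex
    rw [Finset.sum_eq_zero]
    · exact hY
    · intro j _
      unfold th
      rw [if_neg (hex j)]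

theorem critL_sep {K : ℕ} (A B : Fin K → ℕ) (hA : ∀ i, 1 ≤ A i)
    (hne : ∀ i j, i ≠ j → A i * B j ≠ A j * B i) (D : ℕ)
    (hD : ∑ i, ∑ j, A i * B j + ∑ i, A i ≤ D) : SepL D A B := by
  have hS : ∀ i j, A i * B j ≤ ∑ i, ∑ j, A i * B j := by
    intro i j
    exact (Finset.single_le_sum (f := fun j => A i * B j) (fun _ _ => Nat.zero_le _)
      (mem_univ j)).trans (Finset.single_le_sum (f := fun i => ∑ j, A i * B j)
        (fun _ _ => Nat.zero_le _) (mem_univ i))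
  have hSA : ∀ i, A i ≤ ∑ i, A i := fun i =>
    Finset.single_le_sum (f := A) (fun _ _ => Nat.zero_le _) (mem_univ i)
  refine ⟨?_, hA, ?_⟩
  · intro i j hij p hp hDp hdvd
    have hi := hS i j
    have hj := hS j i
    have h0 : (A i : ℤ) * B j - (A j : ℤ) * B i = 0 := by
      apply Int.eq_zero_of_abs_lt_dvd hdvd
      rw [abs_lt]
      have h1 : ((A i * B j : ℕ) : ℤ) < p := by
        have : A i * B j < p := by omega
        exact_mod_cast this
      have h2 : ((A j * B i : ℕ) : ℤ) < p := by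
        have : A j * B i < p := by omega
        exact_mod_cast this
      push_cast at h1 h2
      have h3 : (0:ℤ) ≤ (A i : ℤ) * B j := by positivity
      have h4 : (0:ℤ) ≤ (A j : ℤ) * B i := by positivity
      constructor <;> linarith
    apply hne i j hij
    have : (A i : ℤ) * B j = (A j : ℤ) * B i := by linarith
    exact_mod_cast this
  · intro i p hp hDp hdvd
    have h1 := Nat.le_of_dvd (hA i) hdvd
    have := hSA i
    omega

theorem critL_class {K : ℕ} (A B : Fin K → ℕ)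
    (hadm : ∀ p : ℕ, p.Prime → ∃ a : ℕ, ∀ i, ¬ p ∣ A i * a + B i) (D : ℕ) :
    ∃ a : ℕ, ∀ i, (A i * a + B i).Coprime (WD D) := by
  choose b hb using hadm
  classical
  let c : ℕ → ℕ := fun p => if hp : p.Prime then b p hp else 0
  have hmem : ∀ p ∈ PD D, p.Prime := fun p hp => (Finset.mem_filter.1 hp).2
  obtain ⟨a, ha⟩ := Nat.chineseRemainderOfFinset c (fun p => p) (PD D)
    (fun p hp => (hmem p hp).ne_zero)
    (fun p hp q hq hpq => (Nat.coprime_primes (hmem p hp) (hmem q hq)).2 hpq)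
  refine ⟨a, fun i => ?_⟩
  unfold WD
  apply Nat.Coprime.prod_right
  intro p hp
  have hpp := hmem p hp
  rw [Nat.coprime_comm, hpp.coprime_iff_not_dvd]
  intro hdvd
  have h1 : a ≡ b p hpp [MOD p] := by
    have := ha p hp
    simpa [c, hpp] using this
  apply hb p hpp i
  have h2 : A i * a + B i ≡ A i * b p hpp + B i [MOD p] := (h1.mul_left _).add_right _
  exact (Nat.ModEq.dvd_iff h2 (dvd_refl p)).1 hdvd

theorem critL_log (a0 : ℕ) (h0 : 1 ≤ a0) (δ : ℝ) (hδ : 0 < δ) :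
    ∀ᶠ X : ℝ in atTop, Real.log (4 * a0 * X) ≤ (1 + δ) * Real.log X := by
  have h1 : ∀ᶠ X : ℝ in atTop, Real.log (4 * a0) / δ ≤ Real.log X :=
    Real.tendsto_log_atTop.eventually_ge_atTop _
  have h2 : (0 : ℝ) < a0 := by exact_mod_cast h0
  filter_upwards [h1, eventually_gt_atTop 0] with X hX hX0
  rw [Real.log_mul (by positivity) hX0.ne']
  rw [div_le_iff₀ hδ] at hX
  linarith

theorem vv_leL (τ : ℝ) (D : ℕ) (X : ℝ) (f : ℝ → ℝ) (hf : ∀ x, |f x| ≤ 1) (m : ℕ) (hm : 1 ≤ m) :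
    |vv τ D X f (m : ℤ)| ≤ (m.divisors.card : ℝ) := by
  unfold vv VVm
  refine (Finset.abs_sum_le_sum_abs _ _).trans ?_
  have h1 : ∀ d ∈ adm (PD D) (Rt τ X), |if ((d : ℕ) : ℤ) ∣ (m : ℤ) then
      ((ArithmeticFunction.moebius d : ℤ) : ℝ) * f (Real.log d / Lt τ X) else 0| ≤
      if d ∣ m then (1:ℝ) else 0 := by
    intro d _
    by_cases hd : d ∣ m
    · rw [if_pos (Int.natCast_dvd_natCast.2 hd), if_pos hd, abs_mul]
      have h2 : |((ArithmeticFunction.moebius d : ℤ) : ℝ)| ≤ 1 := by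
        have := ArithmeticFunction.abs_moebius_le_one (n := d)
        exact_mod_cast this
      calc _ ≤ (1 : ℝ) * 1 := mul_le_mul h2 (hf _) (abs_nonneg _) zero_le_one
        _ = 1 := by norm_num
    · rw [if_neg (fun h => hd (Int.natCast_dvd_natCast.1 h)), if_neg hd, abs_zero]
  refine (Finset.sum_le_sum h1).trans ?_
  rw [← Finset.sum_filter, Finset.sum_const, nsmul_eq_mul, mul_one]
  have h2 : ((adm (PD D) (Rt τ X)).filter (fun d => d ∣ m)).card ≤ m.divisors.card := by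
    apply Finset.card_le_card
    intro d hd
    rw [Nat.mem_divisors]
    exact ⟨(Finset.mem_filter.1 hd).2, by omega⟩
  exact_mod_cast h2

theorem wwL_le {K0 N1 M : ℕ} {f : ℕ → ℝ → ℝ} {β : ℝ} (hf : Cells N1 M f β)
    (F : (Fin (K0 + 1) → ℕ) → ℝ) (τ : ℝ) (D : ℕ) (A B : Fin (K0 + 1) → ℕ) (hA : ∀ i, 1 ≤ A i)
    (ε : ℝ) (hε : 0 < ε) :
    ∀ᶠ X : ℝ in atTop, ∀ n : ℕ, 1 ≤ n → (n : ℝ) ≤ 3 * X →
      ww τ D X f M F A B n ^ 2 ≤ X ^ ε := by
  obtain ⟨e, he⟩ : ∃ e : ℝ, e = ε / (4 * ((K0 + 1 : ℕ) : ℝ)) := ⟨_, rfl⟩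
  have hK : (0 : ℝ) < ((K0 + 1 : ℕ) : ℝ) := by positivity
  have he0 : 0 < e := by rw [he]; positivity
  obtain ⟨C, hC0, hC⟩ := Pool.Agent.Helper112.divisor_bound e he0
  obtain ⟨S, hS⟩ : ∃ S : ℝ, S = ((∑ i, A i : ℕ) : ℝ) + ((∑ i, B i : ℕ) : ℝ) := ⟨_, rfl⟩
  have hSA : ∀ i, (A i : ℝ) ≤ ((∑ i, A i : ℕ) : ℝ) := fun i => by
    exact_mod_cast Finset.single_le_sum (f := A) (fun _ _ => Nat.zero_le _) (mem_univ i)
  have hSB : ∀ i, (B i : ℝ) ≤ ((∑ i, B i : ℕ) : ℝ) := fun i => by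
    exact_mod_cast Finset.single_le_sum (f := B) (fun _ _ => Nat.zero_le _) (mem_univ i)
  have hS1 : 1 ≤ S := by
    have h1 := hSA 0
    have h2 : (1 : ℝ) ≤ A 0 := by exact_mod_cast hA 0
    have h3 : (0 : ℝ) ≤ ((∑ i, B i : ℕ) : ℝ) := Nat.cast_nonneg _
    linarith
  obtain ⟨C1, hC1⟩ : ∃ C1 : ℝ, C1 = C * (4 * S) ^ e := ⟨_, rfl⟩
  have hC10 : 0 ≤ C1 := by rw [hC1]; positivity
  obtain ⟨C2, hC2⟩ : ∃ C2 : ℝ, C2 = ∑ c ∈ Box (K0 + 1) M, |F c| * C1 ^ (K0 + 1) := ⟨_, rfl⟩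
  have hC20 : 0 ≤ C2 := by rw [hC2]; exact Finset.sum_nonneg fun _ _ => by positivity
  have hev : ∀ᶠ X : ℝ in atTop, C2 ^ 2 ≤ X ^ (ε / 2) :=
    (tendsto_rpow_atTop (by positivity : 0 < ε / 2)).eventually_ge_atTop _
  filter_upwards [hev, eventually_ge_atTop 1] with X hX hX1 n hn1 hn3
  have hX0 : 0 < X := by linarith
  -- one factor
  have hvv : ∀ (c : ℕ), c < M → ∀ j : Fin (K0 + 1),
      |vv τ D X (f c) ((A j : ℤ) * n + B j)| ≤ C1 * X ^ e := by
    intro c hc j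
    have hb := (hf.good c hc).bdd
    have hm1 : 1 ≤ A j * n + B j := by
      have := Nat.mul_le_mul (hA j) hn1
      omega
    have h1 := vv_leL τ D X (f c) hb (A j * n + B j) hm1
    have h2 := hC (A j * n + B j) hm1
    have h3 : ((A j * n + B j : ℕ) : ℝ) ≤ 4 * S * X := by
      push_cast
      have h4 := hSA j
      have h5 := hSB j
      have h6 : (0 : ℝ) ≤ A j := Nat.cast_nonneg _
      have h7 : (0 : ℝ) ≤ B j := Nat.cast_nonneg _
      have h8 : (A j : ℝ) * n ≤ A j * (3 * X) := mul_le_mul_of_nonneg_left hn3 h6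
      have h9 : (B j : ℝ) * 1 ≤ B j * X := mul_le_mul_of_nonneg_left hX1 h7
      have h10 : ((A j : ℝ) + B j) * X ≤ S * X := mul_le_mul_of_nonneg_right (by linarith) hX0.le
      have h11 : 0 ≤ (B j : ℝ) * X := by positivity
      nlinarith
    have h4 : ((A j * n + B j : ℕ) : ℝ) ^ e ≤ (4 * S * X) ^ e :=
      Real.rpow_le_rpow (Nat.cast_nonneg _) h3 he0.le
    have h5 : (4 * S * X) ^ e = (4 * S) ^ e * X ^ e := Real.mul_rpow (by linarith) hX0.le
    have h6 : (((A j * n + B j : ℕ) : ℕ) : ℤ) = (A j : ℤ) * n + B j := by push_cast; ring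
    rw [← h6]
    calc _ ≤ _ := h1
      _ ≤ C * ((A j * n + B j : ℕ) : ℝ) ^ e := h2
      _ ≤ C * ((4 * S) ^ e * X ^ e) := by
        rw [← h5]; exact mul_le_mul_of_nonneg_left h4 hC0.le
      _ = C1 * X ^ e := by rw [hC1]; ring
  have hpw : (X ^ e) ^ (K0 + 1) = X ^ (ε / 4) := by
    rw [← Real.rpow_natCast, ← Real.rpow_mul hX0.le]
    congr 1
    rw [he]
    field_simp
  have hprod : ∀ c ∈ Box (K0 + 1) M, |prodv τ D X f A B c n| ≤ C1 ^ (K0 + 1) * X ^ (ε / 4) := by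
    intro c hc
    unfold prodv
    rw [Finset.abs_prod]
    have hc' : ∀ j, c j < M := fun j => Finset.mem_range.1 ((Fintype.mem_piFinset.1 hc) j)
    calc _ ≤ ∏ _j : Fin (K0 + 1), C1 * X ^ e :=
          Finset.prod_le_prod (fun _ _ => abs_nonneg _) (fun j _ => hvv (c j) (hc' j) j)
      _ = (C1 * X ^ e) ^ (K0 + 1) := by
          rw [Finset.prod_const, Finset.card_univ, Fintype.card_fin]
      _ = _ := by rw [mul_pow, hpw]
  have hww : |ww τ D X f M F A B n| ≤ C2 * X ^ (ε / 4) := by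
    unfold ww
    refine (Finset.abs_sum_le_sum_abs _ _).trans ?_
    rw [hC2, Finset.sum_mul]
    refine Finset.sum_le_sum fun c hc => ?_
    rw [abs_mul, mul_assoc]
    exact mul_le_mul_of_nonneg_left (hprod c hc) (abs_nonneg _)
  have h1 : ww τ D X f M F A B n ^ 2 ≤ (C2 * X ^ (ε / 4)) ^ 2 := by
    rw [← sq_abs]
    exact pow_le_pow_left₀ (abs_nonneg _) hww 2
  refine h1.trans ?_
  have h2 : (X ^ (ε / 4)) ^ 2 = X ^ (ε / 2) := by
    rw [← Real.rpow_natCast, ← Real.rpow_mul hX0.le]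
    congr 1
    push_cast
    ring
  have h3 : X ^ ε = X ^ (ε / 2) * X ^ (ε / 2) := by
    rw [← Real.rpow_add hX0]
    congr 1
    ring
  rw [mul_pow, h2, h3]
  exact mul_le_mul_of_nonneg_right hX (by positivity)

theorem NN_geL (τ : ℝ) (hτ : τ < 1 / 4) (D K : ℕ) (e : ℝ) (he : 0 < e) :
    ∀ᶠ X : ℝ in atTop, X ^ (1 - e) ≤ NN τ D X K := by
  have hW : (0 : ℝ) < WD D := by exact_mod_cast WD_pos D
  have hB := BE_PD_pos D
  have hτ' : 0 < 1 / 4 - τ := by linarith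
  obtain ⟨c, hc⟩ : ∃ c : ℝ, c = 1 / 20 * (1 / (WD D : ℝ)) * (1 / ((1 / 4 - τ) * BE (PD D))) ^ K :=
    ⟨_, rfl⟩
  have hc0 : 0 < c := by rw [hc]; positivity
  have h1 : ∀ᶠ X : ℝ in atTop, Real.log X ^ (K : ℝ) ≤ X ^ (e / 2) := by
    have h := isLittleO_log_rpow_rpow_atTop (K : ℝ) (by positivity : 0 < e / 2)
    have h2 := h.bound (show (0 : ℝ) < 1 by norm_num)
    filter_upwards [h2, eventually_ge_atTop 1] with X hX hX1
    rw [one_mul, Real.norm_eq_abs, Real.norm_eq_abs] at hX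
    have h3 : |X ^ (e / 2)| = X ^ (e / 2) := abs_of_nonneg (by positivity)
    rw [h3] at hX
    exact (le_abs_self _).trans hX
  have h2 : ∀ᶠ X : ℝ in atTop, 1 / c ≤ X ^ (e / 2) :=
    (tendsto_rpow_atTop (by positivity : 0 < e / 2)).eventually_ge_atTop _
  filter_upwards [h1, h2, eventually_ge_atTop 40] with X hX1 hX2 hX40
  have hX0 : 0 < X := by linarith
  have hlog : 0 < Real.log X := Real.log_pos (by linarith)
  have hM := MPhi_ge X hX40
  have hcancel : 1 ≤ c * X ^ (e / 2) := by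
    rw [div_le_iff₀ hc0] at hX2
    linarith
  rw [Real.rpow_natCast] at hX1
  have hlogK : 0 < Real.log X ^ K := pow_pos hlog K
  have hN : NN τ D X K = MPhi X * ((1 / (WD D : ℝ)) * (1 / ((1 / 4 - τ) * BE (PD D))) ^ K) *
      (1 / Real.log X ^ K) := by
    unfold NN Lt
    rw [mul_assoc, mul_assoc, mul_assoc, mul_assoc]
    congr 2
    rw [← one_div_pow, ← mul_pow]
    congr 1
    field_simp
  have h3 : c * X * (1 / Real.log X ^ K) ≤ NN τ D X K := by
    rw [hN, hc]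
    have h4 : 0 ≤ ((1 / (WD D : ℝ)) * (1 / ((1 / 4 - τ) * BE (PD D))) ^ K) := by positivity
    have h5 : 0 ≤ 1 / Real.log X ^ K := by positivity
    refine mul_le_mul_of_nonneg_right ?_ h5
    calc _ = X / 20 * ((1 / (WD D : ℝ)) * (1 / ((1 / 4 - τ) * BE (PD D))) ^ K) := by ring
      _ ≤ _ := mul_le_mul_of_nonneg_right hM h4
  refine le_trans ?_ h3
  rw [mul_one_div, le_div_iff₀ hlogK]
  have h6 : X ^ (1 - e) * X ^ (e / 2) * X ^ (e / 2) = X := by
    rw [← Real.rpow_add hX0, ← Real.rpow_add hX0]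
    have : 1 - e + e / 2 + e / 2 = 1 := by ring
    rw [this, Real.rpow_one]
  have h7 : 0 < X ^ (1 - e) := by positivity
  have h8 : 0 < X ^ (e / 2) := by positivity
  calc X ^ (1 - e) * Real.log X ^ K ≤ X ^ (1 - e) * X ^ (e / 2) :=
        mul_le_mul_of_nonneg_left hX1 h7.le
    _ ≤ X ^ (1 - e) * X ^ (e / 2) * (c * X ^ (e / 2)) :=
        le_mul_of_one_le_right (by positivity) hcancel
    _ = c * (X ^ (1 - e) * X ^ (e / 2) * X ^ (e / 2)) := by ring
    _ = c * X := by rw [h6]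

/-- L5: the criterion for linear forms, with a count -/
theorem criterionL {K0 N1 M R : ℕ} (hN1 : 0 < N1) (hM : M ≤ 2 * N1) (hR : R < 2 * N1)
    (F : (Fin (K0 + 1) → ℕ) → ℝ) (hF : ∀ c, F c ≠ 0 → rad c ≤ R + 1)
    (r : ℕ) (μ : Fin r → ℝ) (hμ : ∀ l, 0 ≤ μ l) (α : Fin r → ℕ → ℝ) (κ : ℕ → ℕ → ℝ)
    (hpsd : ∀ Y : ℕ → ℝ, ∑ s ∈ range (R + 1), ∑ s' ∈ range (R + 1), κ s s' * (Y s * Y s') ≤
      (∑ s ∈ range (R + 1), Y s) ^ 2 + ∑ l, μ l * (∑ s ∈ range (R + 1), α l s * Y s) ^ 2)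
    (hκ : ∀ s s', s ≤ R → s' ≤ R → 2 * N1 < s + s' → κ s s' = 0)
    (hcrit : 4 * N1 * ∑ c ∈ Box (K0 + 1) M, F c ^ 2 <
      ∑ i, ∑ c ∈ Box K0 M, (κ (rad c) (rad c) - 4 * ∑ l, μ l * (α l (rad c) ^ 2 / (2 - (rad c : ℝ) / N1))) *
        UU M F i c ^ 2)
    (A B : Fin (K0 + 1) → ℕ) (hadm : AdmissibleL A B) (ε : ℝ) (hε : 0 < ε) :
    ∀ᶠ X : ℝ in atTop, X ^ (1 - ε) ≤ ((goodL A B X).card : ℝ) := by
  -- notation
  set SF : ℝ := ∑ c ∈ Box (K0 + 1) M, F c ^ 2 with hSF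
  have hSF0 : 0 ≤ SF := Finset.sum_nonneg fun c _ => sq_nonneg _
  obtain ⟨Sq, hSq⟩ : ∃ Sq : Fin (K0 + 1) → ℝ, ∀ i, Sq i =
      ∑ c ∈ Box K0 M, κ (rad c) (rad c) * UU M F i c ^ 2 := ⟨_, fun _ => rfl⟩
  obtain ⟨Sz, hSz⟩ : ∃ Sz : Fin r → Fin (K0 + 1) → ℝ, ∀ l i, Sz l i =
      ∑ c ∈ Box K0 M, α l (rad c) ^ 2 / (2 - (rad c : ℝ) / N1) * UU M F i c ^ 2 :=
    ⟨_, fun _ _ => rfl⟩
  obtain ⟨Z, hZ⟩ : ∃ Z : ℝ, Z = ∑ i, ∑ l, μ l * Sz l i := ⟨_, rfl⟩
  have hcrit' : N1 * SF + Z < (∑ i, Sq i) / 4 := by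
    have h1 : ∀ i, ∑ c ∈ Box K0 M, (κ (rad c) (rad c) -
        4 * ∑ l, μ l * (α l (rad c) ^ 2 / (2 - (rad c : ℝ) / N1))) * UU M F i c ^ 2 =
        Sq i - 4 * ∑ l, μ l * Sz l i := by
      intro i
      simp only [sub_mul, Finset.sum_sub_distrib, hSq i, hSz]
      congr 1
      simp only [Finset.mul_sum, Finset.sum_mul]
      rw [Finset.sum_comm]
      refine Finset.sum_congr rfl fun l _ => Finset.sum_congr rfl fun c _ => ?_
      ring
    rw [Finset.sum_congr rfl fun i _ => h1 i, Finset.sum_sub_distrib, ← Finset.mul_sum, ← hZ] at hcrit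
    linarith
  -- choice of κ₀
  obtain ⟨κ₀, hκ0, hκ₀⟩ : ∃ κ₀ : ℝ, 0 < κ₀ ∧ (1 + κ₀) * (N1 * SF + Z) < (∑ i, Sq i) / 4 := by
    have hc : Continuous fun x : ℝ => (1 + x) * (N1 * SF + Z) := by fun_prop
    have h1 : ∀ᶠ x in nhds (0 : ℝ), (1 + x) * (N1 * SF + Z) < (∑ i, Sq i) / 4 := by
      have h2 := hc.tendsto 0
      simp only [add_zero, one_mul] at h2
      exact h2.eventually_lt_const hcrit'
    have h3 : ∀ᶠ x in nhdsWithin (0 : ℝ) (Set.Ioi 0), (1 + x) * (N1 * SF + Z) < (∑ i, Sq i) / 4 :=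
      h1.filter_mono nhdsWithin_le_nhds
    obtain ⟨x, hx1, hx2⟩ := (h3.and self_mem_nhdsWithin).exists
    exact ⟨x, hx2, hx1⟩
  obtain ⟨f, β, hf, hβ⟩ := cells_exist N1 M hN1 hM κ₀ hκ0
  obtain ⟨ψ, hψ⟩ := psis_exist N1 hN1 κ₀ hκ0
  have hβ0 : 0 < β := hf.pos
  have hB0 : 0 < β ^ K0 := pow_pos hβ0 _
  -- choice of δ
  obtain ⟨δ, hδ, hδ8, hδg⟩ : ∃ δ : ℝ, 0 < δ ∧ δ < 1 / 8 ∧
      (1 + δ) * (β ^ (K0 + 1) * SF + δ) +
        (1 + δ) * (∑ i, ∑ l, μ l * (β ^ K0 * ((1 + κ₀) * Sz l i) + δ)) <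
      ∑ i, ((1 / 4 - δ) * (β ^ K0 * Sq i) - δ) := by
    have hc1 : Continuous fun x : ℝ => (1 + x) * (β ^ (K0 + 1) * SF + x) +
        (1 + x) * (∑ i, ∑ l, μ l * (β ^ K0 * ((1 + κ₀) * Sz l i) + x)) := by fun_prop
    have hc2 : Continuous fun x : ℝ => ∑ i, ((1 / 4 - x) * (β ^ K0 * Sq i) - x) := by fun_prop
    have h0 : (1 + (0 : ℝ)) * (β ^ (K0 + 1) * SF + 0) +
        (1 + (0 : ℝ)) * (∑ i, ∑ l, μ l * (β ^ K0 * ((1 + κ₀) * Sz l i) + 0)) <
        ∑ i, ((1 / 4 - (0 : ℝ)) * (β ^ K0 * Sq i) - 0) := by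
      have e1 : ∑ i, ∑ l, μ l * (β ^ K0 * ((1 + κ₀) * Sz l i) + 0) = β ^ K0 * ((1 + κ₀) * Z) := by
        rw [hZ]
        simp only [Finset.mul_sum]
        refine Finset.sum_congr rfl fun i _ => Finset.sum_congr rfl fun l _ => ?_
        ring
      have e2 : ∑ i, ((1 / 4 - (0 : ℝ)) * (β ^ K0 * Sq i) - 0) = β ^ K0 * ((∑ i, Sq i) / 4) := by
        rw [Finset.sum_div, Finset.mul_sum]
        refine Finset.sum_congr rfl fun i _ => ?_
        ring
      rw [e1, e2, pow_succ]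
      have h1 : β * SF ≤ (1 + κ₀) * N1 * SF := mul_le_mul_of_nonneg_right hβ hSF0
      have h2 : β * SF + (1 + κ₀) * Z < (∑ i, Sq i) / 4 := by
        calc β * SF + (1 + κ₀) * Z ≤ (1 + κ₀) * N1 * SF + (1 + κ₀) * Z := by linarith
          _ = (1 + κ₀) * (N1 * SF + Z) := by ring
          _ < _ := hκ₀
      have h3 := mul_lt_mul_of_pos_left h2 hB0
      calc (1 + (0 : ℝ)) * (β ^ K0 * β * SF + 0) + (1 + (0 : ℝ)) * (β ^ K0 * ((1 + κ₀) * Z))
          = β ^ K0 * (β * SF + (1 + κ₀) * Z) := by ring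
        _ < _ := h3
    have h1 := (hc1.tendsto 0).eventually_lt (hc2.tendsto 0) h0
    have h3 := h1.filter_mono (nhdsWithin_le_nhds (s := Set.Ioi (0 : ℝ)))
    have h4 : ∀ᶠ x in nhdsWithin (0 : ℝ) (Set.Ioi 0), x < 1 / 8 :=
      (gt_mem_nhds (by norm_num : (0 : ℝ) < 1 / 8)).filter_mono nhdsWithin_le_nhds
    obtain ⟨x, ⟨hx1, hx2⟩, hx3⟩ := ((h3.and h4).and self_mem_nhdsWithin).exists
    exact ⟨x, hx3, hx2, hx1⟩
  obtain ⟨gap, hgap⟩ : ∃ gap : ℝ, gap = ∑ i, ((1 / 4 - δ) * (β ^ K0 * Sq i) - δ) -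
    ((1 + δ) * (β ^ (K0 + 1) * SF + δ) +
        (1 + δ) * (∑ i, ∑ l, μ l * (β ^ K0 * ((1 + κ₀) * Sz l i) + δ))) := ⟨_, rfl⟩
  have hgap0 : 0 < gap := by rw [hgap]; linarith
  -- choice of D
  obtain ⟨D1, hD1⟩ := lim_wwL hN1 hM hR hf F hF δ hδ hδ8 δ hδ
  obtain ⟨D2, hD2⟩ := lim_qqL hN1 hM hR hf F hF κ hκ δ hδ hδ8 δ hδ
  choose D3 hD3 using fun l => lim_zzL hN1 hM hR hf hψ hκ0 F hF (α l) δ hδ hδ8 δ hδ
  obtain ⟨D, hD⟩ : ∃ D, D = D1 + D2 + ∑ l, D3 l + (∑ i, ∑ j, A i * B j + ∑ i, A i) := ⟨_, rfl⟩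
  have hDl : ∀ l, D3 l ≤ D := by
    intro l
    have : D3 l ≤ ∑ l, D3 l := Finset.single_le_sum (f := D3) (fun _ _ => Nat.zero_le _) (mem_univ l)
    omega
  have hsep : SepL D A B := critL_sep A B hadm.1 hadm.2.1 D (by omega)
  obtain ⟨a, ha⟩ := critL_class A B hadm.2.2 D
  obtain ⟨a0, ha0⟩ : ∃ a0 : ℕ, a0 = ∑ i, A i := ⟨_, rfl⟩
  have hAa0 : ∀ i, A i ≤ a0 := fun i => by
    rw [ha0]; exact Finset.single_le_sum (f := A) (fun _ _ => Nat.zero_le _) (mem_univ i)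
  have ha01 : 1 ≤ a0 := (hadm.1 0).trans (hAa0 0)
  have ha01' : (1 : ℝ) ≤ a0 := by exact_mod_cast ha01
  obtain ⟨e, he⟩ : ∃ e : ℝ, e = ε / 4 := ⟨_, rfl⟩
  have he0 : 0 < e := by rw [he]; positivity
  have hK1 : (0 : ℝ) < ((K0 + 1 : ℕ) : ℝ) := by positivity
  obtain ⟨c3, hc3⟩ : ∃ c3 : ℝ, c3 = gap / (((K0 + 1 : ℕ) : ℝ) * (1 + δ)) := ⟨_, rfl⟩
  have hc30 : 0 < c3 := by rw [hc3]; positivity
  -- the main inequality
  have hmain : ∀ᶠ X : ℝ in atTop, c3 * X ^ (1 - 2 * e) ≤ ((goodL A B (3 * X)).card : ℝ) := by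
    have evP := pointwiseL hN1 hM hR hf hψ F hF r μ hμ α κ hpsd δ hδ hδ8 D A B hadm.1 a0 hAa0
    have evW := hD1 D (by omega) A B hsep a
    have evQ : ∀ᶠ X : ℝ in atTop, ∀ i, _ :=
      eventually_all.2 fun i => hD2 D (by omega) A B hsep i a (ha i)
    have evZ : ∀ᶠ X : ℝ in atTop, ∀ i l, _ :=
      eventually_all.2 fun i => eventually_all.2 fun l => hD3 l D (hDl l) A B hsep i a
    have evN := NN_pos δ (by linarith) D (K0 + 1)
    have evN2 := NN_geL δ (by linarith) D (K0 + 1) e he0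
    have evL := critL_log a0 ha01 δ hδ
    have evU := wwL_le hf F δ D A B hadm.1 e he0
    have evB : ∀ᶠ X : ℝ in atTop, ((∑ i, B i : ℕ) : ℝ) + 3 ≤ X := eventually_ge_atTop _
    filter_upwards [evP, evW, evQ, evZ, evN, evN2, evL, evU, evB] with X hP hW hQ hZZ hN hN2 hL hU hB
    have hB0' : (0 : ℝ) ≤ ((∑ i, B i : ℕ) : ℝ) := Nat.cast_nonneg _
    have hX3 : (3 : ℝ) ≤ X := by linarith
    have hX0 : 0 < X := by linarith
    have hlogX : 0 < Real.log X := Real.log_pos (by linarith)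
    have h4X : (1 : ℝ) ≤ 4 * a0 * X := by nlinarith
    have hlog4 : 0 ≤ Real.log (4 * a0 * X) := Real.log_nonneg h4X
    obtain ⟨LG, hLG⟩ : ∃ LG : ℝ, LG = Real.log (4 * a0 * X) := ⟨_, rfl⟩
    rw [← hLG] at hlog4 hL
    have hXe : 0 ≤ X ^ e := by positivity
    obtain ⟨CC, hCC⟩ : ∃ CC : ℝ, CC = ((K0 + 1 : ℕ) : ℝ) * LG * X ^ e := ⟨_, rfl⟩
    have hCC0 : 0 ≤ CC := by rw [hCC]; positivity
    -- the pointwise inequality, summed over i and multiplied by ν
    have hpt : ∀ n ∈ Icc 1 ⌊3 * X⌋₊,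
        ∑ i, (nu X (WD D) a n * (th (A i * n + B i) * qq δ D X f M F A B i κ n) -
          LG * ∑ l, μ l * (nu X (WD D) a n * zz δ D X f ψ M F A B i (α l) n ^ 2)) ≤
        LG * (nu X (WD D) a n * ww δ D X f M F A B n ^ 2) +
          (if n ∈ goodL A B (3 * X) then CC else 0) := by
      intro n hn
      have hn1 : 1 ≤ n := (Finset.mem_Icc.1 hn).1
      have hn3 : (n : ℝ) ≤ 3 * X := by
        have := (Finset.mem_Icc.1 hn).2
        exact (Nat.le_floor_iff (by linarith)).1 this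
      have hite : 0 ≤ (if n ∈ goodL A B (3 * X) then CC else 0) := by
        split_ifs
        · exact hCC0
        · exact le_rfl
      by_cases hnX : (n : ℝ) ≤ X
      · have h0 : nu X (WD D) a n = 0 := by
          unfold nu
          split_ifs
          · apply Phi_eq_zero_of_le (by positivity)
            rw [div_le_one hX0]; exact hnX
          · rfl
        simp only [h0, zero_mul, mul_zero, Finset.sum_const_zero, sub_zero, zero_add]
        exact hite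
      · push Not at hnX
        have hnu := nu_nonneg X (WD D) a n
        have hnu1 : nu X (WD D) a n ≤ 1 := by
          unfold nu
          split_ifs
          · exact Phi_le_one _
          · exact zero_le_one
        have hthi : ∀ i, th (A i * n + B i) ≤ LG := by
          intro i
          unfold th
          split_ifs with hp
          · rw [hLG]
            apply Real.log_le_log
            · have := hp.pos
              exact_mod_cast this
            · have h1 : B i ≤ ∑ i, B i :=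
                Finset.single_le_sum (f := B) (fun _ _ => Nat.zero_le _) (mem_univ i)
              have h2 : (B i : ℝ) ≤ ((∑ i, B i : ℕ) : ℝ) := by exact_mod_cast h1
              have h3 : (A i : ℝ) ≤ a0 := by exact_mod_cast hAa0 i
              have h5 : (A i : ℝ) * n ≤ a0 * (3 * X) :=
                mul_le_mul h3 hn3 (Nat.cast_nonneg _) (Nat.cast_nonneg _)
              have h6 : 1 * X ≤ (a0 : ℝ) * X := mul_le_mul_of_nonneg_right ha01' hX0.le
              have h7 : ((A i * n + B i : ℕ) : ℝ) = (A i : ℝ) * n + B i := by push_cast; ring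
              rw [h7]
              linarith
          · exact hlog4
        have hww0 : 0 ≤ nu X (WD D) a n * ww δ D X f M F A B n ^ 2 :=
          mul_nonneg hnu (sq_nonneg _)
        have hth : (∑ i, th (A i * n + B i)) * (nu X (WD D) a n * ww δ D X f M F A B n ^ 2) ≤
            LG * (nu X (WD D) a n * ww δ D X f M F A B n ^ 2) +
              (if n ∈ goodL A B (3 * X) then CC else 0) := by
          by_cases hg : n ∈ goodL A B (3 * X)
          · rw [if_pos hg]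
            have h1 : ∑ i, th (A i * n + B i) ≤ ((K0 + 1 : ℕ) : ℝ) * LG := by
              calc _ ≤ ∑ _i : Fin (K0 + 1), LG := Finset.sum_le_sum fun i _ => hthi i
                _ = _ := by rw [Finset.sum_const, Finset.card_univ, Fintype.card_fin, nsmul_eq_mul]
            have h2 : nu X (WD D) a n * ww δ D X f M F A B n ^ 2 ≤ X ^ e := by
              calc _ ≤ 1 * ww δ D X f M F A B n ^ 2 :=
                    mul_le_mul_of_nonneg_right hnu1 (sq_nonneg _)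
                _ = ww δ D X f M F A B n ^ 2 := one_mul _
                _ ≤ _ := hU n hn1 hn3
            have h3 : (∑ i, th (A i * n + B i)) * (nu X (WD D) a n * ww δ D X f M F A B n ^ 2) ≤ CC := by
              rw [hCC]
              exact mul_le_mul h1 h2 hww0 (by positivity)
            have h4 : 0 ≤ LG * (nu X (WD D) a n * ww δ D X f M F A B n ^ 2) :=
              mul_nonneg hlog4 hww0
            linarith
          · rw [if_neg hg, add_zero]
            refine mul_le_mul_of_nonneg_right ?_ hww0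
            apply critL_sum_th (fun i => A i * n + B i) LG hlog4 _ hthi
            intro i j hij hi hj
            apply hg
            unfold goodL
            rw [Finset.mem_filter]
            exact ⟨hn, i, j, hij, hi, hj⟩
        calc ∑ i, (nu X (WD D) a n * (th (A i * n + B i) * qq δ D X f M F A B i κ n) -
              LG * ∑ l, μ l * (nu X (WD D) a n * zz δ D X f ψ M F A B i (α l) n ^ 2))
            = ∑ i, nu X (WD D) a n * (th (A i * n + B i) * qq δ D X f M F A B i κ n -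
              LG * ∑ l, μ l * zz δ D X f ψ M F A B i (α l) n ^ 2) := by
              refine Finset.sum_congr rfl fun i _ => ?_
              have : ∑ l, μ l * (nu X (WD D) a n * zz δ D X f ψ M F A B i (α l) n ^ 2) =
                  nu X (WD D) a n * ∑ l, μ l * zz δ D X f ψ M F A B i (α l) n ^ 2 := by
                rw [Finset.mul_sum]
                refine Finset.sum_congr rfl fun l _ => ?_
                ring
              rw [this]; ring
          _ ≤ ∑ i, nu X (WD D) a n * (th (A i * n + B i) * ww δ D X f M F A B n ^ 2) := by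
              refine Finset.sum_le_sum fun i _ => ?_
              rw [hLG]
              exact mul_le_mul_of_nonneg_left (hP n hnX hn3 i) hnu
          _ = (∑ i, th (A i * n + B i)) * (nu X (WD D) a n * ww δ D X f M F A B n ^ 2) := by
              rw [Finset.sum_mul]
              refine Finset.sum_congr rfl fun i _ => ?_
              ring
          _ ≤ _ := hth
    have hsum := Finset.sum_le_sum hpt
    rw [Finset.sum_add_distrib, ← Finset.mul_sum, Finset.sum_comm] at hsum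
    have hcard : ∑ n ∈ Icc 1 ⌊3 * X⌋₊, (if n ∈ goodL A B (3 * X) then CC else 0) ≤
        CC * ((goodL A B (3 * X)).card : ℝ) := by
      rw [← Finset.sum_filter, Finset.sum_const, nsmul_eq_mul, mul_comm]
      refine mul_le_mul_of_nonneg_left ?_ hCC0
      have : ((Icc 1 ⌊3 * X⌋₊).filter (fun n => n ∈ goodL A B (3 * X))).card ≤
          (goodL A B (3 * X)).card :=
        Finset.card_le_card fun n hn => (Finset.mem_filter.1 hn).2
      exact_mod_cast this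
    -- abbreviations
    obtain ⟨N, hNdef⟩ : ∃ N : ℝ, N = NN δ D X (K0 + 1) := ⟨_, rfl⟩
    obtain ⟨G, hG⟩ : ∃ G : ℝ, G = ((goodL A B (3 * X)).card : ℝ) := ⟨_, rfl⟩
    have hG0 : 0 ≤ G := by rw [hG]; exact Nat.cast_nonneg _
    obtain ⟨AA, hA⟩ : ∃ AA : ℝ, AA = ∑ n ∈ Icc 1 ⌊3 * X⌋₊,
        nu X (WD D) a n * ww δ D X f M F A B n ^ 2 := ⟨_, rfl⟩
    obtain ⟨Q, hQd⟩ : ∃ Q : Fin (K0 + 1) → ℝ, ∀ i, Q i = ∑ n ∈ Icc 1 ⌊3 * X⌋₊,
        nu X (WD D) a n * (th (A i * n + B i) * qq δ D X f M F A B i κ n) := ⟨_, fun _ => rfl⟩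
    obtain ⟨V, hV⟩ : ∃ V : Fin (K0 + 1) → Fin r → ℝ, ∀ i l, V i l = ∑ n ∈ Icc 1 ⌊3 * X⌋₊,
        nu X (WD D) a n * zz δ D X f ψ M F A B i (α l) n ^ 2 := ⟨_, fun _ _ => rfl⟩
    rw [← hA] at hsum
    rw [← hG] at hcard
    have hA0 : 0 ≤ AA := by
      rw [hA]
      exact Finset.sum_nonneg fun n _ => mul_nonneg (nu_nonneg _ _ _ _) (sq_nonneg _)
    have hV0 : ∀ i l, 0 ≤ V i l := by
      intro i l
      rw [hV]
      exact Finset.sum_nonneg fun n _ => mul_nonneg (nu_nonneg _ _ _ _) (sq_nonneg _)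
    have hsum2 : ∑ i, (Q i - LG * ∑ l, μ l * V i l) ≤ LG * AA + CC * G := by
      refine le_trans (le_of_eq ?_) (hsum.trans (by linarith))
      refine Finset.sum_congr rfl fun i _ => ?_
      rw [Finset.sum_sub_distrib, hQd i, ← Finset.mul_sum, Finset.sum_comm]
      congr 2
      refine Finset.sum_congr rfl fun l _ => ?_
      rw [hV, Finset.mul_sum]
    rw [← hNdef] at hN hN2
    have hW' : AA ≤ N * (β ^ (K0 + 1) * SF + δ) := by rw [hA, hNdef]; exact hW
    have hQ' : ∀ i, N * Real.log X * ((1 / 4 - δ) * (β ^ K0 * Sq i) - δ) ≤ Q i := by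
      intro i; rw [hNdef, hSq i, hQd i]; exact hQ i
    have hZ' : ∀ i l, V i l ≤ N * (β ^ K0 * ((1 + κ₀) * Sz l i) + δ) := by
      intro i l; rw [hNdef, hSz l i, hV i l]; exact hZZ i l
    have hNL : 0 < N * Real.log X := mul_pos hN hlogX
    have h1 : LG * AA ≤ N * Real.log X * ((1 + δ) * (β ^ (K0 + 1) * SF + δ)) := by
      calc LG * AA ≤ ((1 + δ) * Real.log X) * AA := mul_le_mul_of_nonneg_right hL hA0
        _ ≤ ((1 + δ) * Real.log X) * (N * (β ^ (K0 + 1) * SF + δ)) :=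
          mul_le_mul_of_nonneg_left hW' (by positivity)
        _ = _ := by ring
    have h2 : ∀ i l, LG * (μ l * V i l) ≤
        N * Real.log X * ((1 + δ) * (μ l * (β ^ K0 * ((1 + κ₀) * Sz l i) + δ))) := by
      intro i l
      have hm := mul_nonneg (hμ l) (hV0 i l)
      calc LG * (μ l * V i l) ≤ ((1 + δ) * Real.log X) * (μ l * V i l) :=
            mul_le_mul_of_nonneg_right hL hm
        _ ≤ ((1 + δ) * Real.log X) * (μ l * (N * (β ^ K0 * ((1 + κ₀) * Sz l i) + δ))) :=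
          mul_le_mul_of_nonneg_left (mul_le_mul_of_nonneg_left (hZ' i l) (hμ l)) (by positivity)
        _ = _ := by ring
    have h3 : N * Real.log X * ∑ i, ((1 / 4 - δ) * (β ^ K0 * Sq i) - δ) ≤ ∑ i, Q i := by
      rw [Finset.mul_sum]
      exact Finset.sum_le_sum fun i _ => hQ' i
    have h4 : ∑ i, (LG * ∑ l, μ l * V i l) ≤
        N * Real.log X * ((1 + δ) * ∑ i, ∑ l, μ l * (β ^ K0 * ((1 + κ₀) * Sz l i) + δ)) := by
      rw [Finset.mul_sum, Finset.mul_sum]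
      refine Finset.sum_le_sum fun i _ => ?_
      rw [Finset.mul_sum, Finset.mul_sum, Finset.mul_sum]
      exact Finset.sum_le_sum fun l _ => h2 i l
    rw [Finset.sum_sub_distrib] at hsum2
    have h5 : N * Real.log X * gap ≤ CC * G := by
      rw [hgap, mul_sub, mul_add]
      linarith
    -- the lower bound for the number of good integers
    have h6 : CC ≤ (((K0 + 1 : ℕ) : ℝ) * (1 + δ)) * X ^ e * Real.log X := by
      rw [hCC]
      calc ((K0 + 1 : ℕ) : ℝ) * LG * X ^ e ≤ ((K0 + 1 : ℕ) : ℝ) * ((1 + δ) * Real.log X) * X ^ e :=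
            mul_le_mul_of_nonneg_right (mul_le_mul_of_nonneg_left hL hK1.le) hXe
        _ = _ := by ring
    have h7 : N * gap * Real.log X ≤ (((K0 + 1 : ℕ) : ℝ) * (1 + δ)) * X ^ e * G * Real.log X := by
      calc N * gap * Real.log X = N * Real.log X * gap := by ring
        _ ≤ CC * G := h5
        _ ≤ ((((K0 + 1 : ℕ) : ℝ) * (1 + δ)) * X ^ e * Real.log X) * G :=
          mul_le_mul_of_nonneg_right h6 hG0
        _ = _ := by ring
    have h8 : N * gap ≤ (((K0 + 1 : ℕ) : ℝ) * (1 + δ)) * X ^ e * G :=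
      le_of_mul_le_mul_right h7 hlogX
    have h9 : X ^ (1 - e) * gap ≤ (((K0 + 1 : ℕ) : ℝ) * (1 + δ)) * X ^ e * G :=
      (mul_le_mul_of_nonneg_right hN2 hgap0.le).trans h8
    have h10 : X ^ (1 - e) = X ^ (1 - 2 * e) * X ^ e := by
      rw [← Real.rpow_add hX0]; congr 1; ring
    have hXe0 : 0 < X ^ e := by positivity
    have h11 : X ^ (1 - 2 * e) * gap * X ^ e ≤ (((K0 + 1 : ℕ) : ℝ) * (1 + δ)) * G * X ^ e := by
      rw [h10] at h9
      linarith
    have h12 : X ^ (1 - 2 * e) * gap ≤ (((K0 + 1 : ℕ) : ℝ) * (1 + δ)) * G :=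
      le_of_mul_le_mul_right h11 hXe0
    rw [← hG, hc3, div_mul_eq_mul_div, div_le_iff₀ (by positivity)]
    linarith
  -- rescaling
  have hresc : ∀ᶠ X : ℝ in atTop, c3 * (X / 3) ^ (1 - 2 * e) ≤ ((goodL A B (3 * (X / 3))).card : ℝ) :=
    (tendsto_id.atTop_div_const (by norm_num : (0 : ℝ) < 3)).eventually hmain
  obtain ⟨c4, hc4⟩ : ∃ c4 : ℝ, c4 = c3 * (1 / 3) ^ (1 - 2 * e) := ⟨_, rfl⟩
  have hc40 : 0 < c4 := by rw [hc4]; positivity
  have hlast : ∀ᶠ X : ℝ in atTop, 1 / c4 ≤ X ^ (2 * e) :=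
    (tendsto_rpow_atTop (by positivity : 0 < 2 * e)).eventually_ge_atTop _
  filter_upwards [hresc, hlast, eventually_gt_atTop 0] with X hX1 hX2 hX0
  have h1 : 3 * (X / 3) = X := by ring
  rw [h1] at hX1
  refine le_trans ?_ hX1
  rw [div_le_iff₀ hc40] at hX2
  have h2 : (X / 3) ^ (1 - 2 * e) = (1 / 3) ^ (1 - 2 * e) * X ^ (1 - 2 * e) := by
    rw [← Real.mul_rpow (by norm_num) hX0.le]
    congr 1
    ring
  have h3 : X ^ (1 - 2 * e) = X ^ (1 - ε) * X ^ (2 * e) := by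
    rw [← Real.rpow_add hX0]
    congr 1
    rw [he]
    ring
  have h4 : 0 < X ^ (1 - ε) := by positivity
  rw [h2, h3]
  calc X ^ (1 - ε) = X ^ (1 - ε) * 1 := (mul_one _).symm
    _ ≤ X ^ (1 - ε) * (X ^ (2 * e) * c4) := mul_le_mul_of_nonneg_left hX2 h4.le
    _ = _ := by rw [hc4]; ring

end Pool.Agent.H95R2.BG.LF
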