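import Mathlib
import Pool.Agent.H95R2.BG.Defs

/-! BG project: C4, the layered choice of the multipliers, as a consequence of the criterion (C3). -/

open Finset Filter MeasureTheory
open scoped ContDiff

namespace Pool.Agent.H95R2.BG

open Pool.Agent.H378R2

/-- statement of C3 (`criterion`) -/
def CriterionStm : Prop := ∀ {K0 N1 M R : ℕ} (_hN1 : 0 < N1) (_hM : M ≤ 2 * N1) (_hR : R < 2 * N1)
    (F : (Fin (K0 + 1) → ℕ) → ℝ) (_hF : ∀ c, F c ≠ 0 → rad c ≤ R + 1)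
    (r : ℕ) (μ : Fin r → ℝ) (_hμ : ∀ l, 0 ≤ μ l) (α : Fin r → ℕ → ℝ) (κ : ℕ → ℕ → ℝ)
    (_hpsd : ∀ Y : ℕ → ℝ, ∑ s ∈ range (R + 1), ∑ s' ∈ range (R + 1), κ s s' * (Y s * Y s') ≤
      (∑ s ∈ range (R + 1), Y s) ^ 2 + ∑ l, μ l * (∑ s ∈ range (R + 1), α l s * Y s) ^ 2)
    (_hκ : ∀ s s', s ≤ R → s' ≤ R → 2 * N1 < s + s' → κ s s' = 0)
    (_hcrit : 4 * N1 * ∑ c ∈ Box (K0 + 1) M, F c ^ 2 <
      ∑ i, ∑ c ∈ Box K0 M, (κ (rad c) (rad c) - 4 * ∑ l, μ l * (α l (rad c) ^ 2 / (2 - (rad c : ℝ) / N1))) *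
        UU M F i c ^ 2)
    (h : Fin (K0 + 1) → ℕ) (_hadm : Admissible h), TwoPrimes h

namespace C4

/-- a finite positive semidefinite identity -/
theorem psd {S : Finset ℕ} {r : ℕ} (μ : Fin r → ℝ) (hμ : ∀ l, 0 ≤ μ l) (α b : Fin r → ℕ → ℝ) (b0 : ℕ → ℝ)
    (Y : ℕ → ℝ) :
    ∑ s ∈ S, ∑ s' ∈ S, (1 + ∑ l, μ l * (α l s * α l s') - b0 s * b0 s' - ∑ l, μ l * (b l s * b l s')) *
        (Y s * Y s') ≤
      (∑ s ∈ S, Y s) ^ 2 + ∑ l, μ l * (∑ s ∈ S, α l s * Y s) ^ 2 := by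
  have key : ∀ g : ℕ → ℝ, ∑ s ∈ S, ∑ s' ∈ S, (g s * g s') * (Y s * Y s') = (∑ s ∈ S, g s * Y s) ^ 2 := by
    intro g
    rw [pow_two, Finset.sum_mul_sum]
    refine Finset.sum_congr rfl fun s _ => Finset.sum_congr rfl fun s' _ => ?_
    ring
  have keyl : ∀ g : Fin r → ℕ → ℝ, ∑ s ∈ S, ∑ s' ∈ S, (∑ l, μ l * (g l s * g l s')) * (Y s * Y s') =
      ∑ l, μ l * (∑ s ∈ S, g l s * Y s) ^ 2 := by
    intro g
    have : ∀ l, μ l * (∑ s ∈ S, g l s * Y s) ^ 2 =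
        ∑ s ∈ S, ∑ s' ∈ S, μ l * (g l s * g l s') * (Y s * Y s') := by
      intro l
      rw [← key (g l), Finset.mul_sum]
      refine Finset.sum_congr rfl fun s _ => ?_
      rw [Finset.mul_sum]
      refine Finset.sum_congr rfl fun s' _ => ?_
      ring
    simp only [this]
    symm
    rw [Finset.sum_comm]
    refine Finset.sum_congr rfl fun s _ => ?_
    rw [Finset.sum_comm]
    refine Finset.sum_congr rfl fun s' _ => ?_
    rw [Finset.sum_mul]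
  have h1 : ∑ s ∈ S, ∑ s' ∈ S, (1 + ∑ l, μ l * (α l s * α l s') - b0 s * b0 s' -
        ∑ l, μ l * (b l s * b l s')) * (Y s * Y s') =
      ∑ s ∈ S, ∑ s' ∈ S, ((fun _ : ℕ => (1 : ℝ)) s * (fun _ : ℕ => (1 : ℝ)) s') * (Y s * Y s') +
      ∑ s ∈ S, ∑ s' ∈ S, (∑ l, μ l * (α l s * α l s')) * (Y s * Y s') -
      ∑ s ∈ S, ∑ s' ∈ S, (b0 s * b0 s') * (Y s * Y s') -
      ∑ s ∈ S, ∑ s' ∈ S, (∑ l, μ l * (b l s * b l s')) * (Y s * Y s') := by
    rw [← Finset.sum_add_distrib, ← Finset.sum_sub_distrib, ← Finset.sum_sub_distrib]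
    refine Finset.sum_congr rfl fun s _ => ?_
    rw [← Finset.sum_add_distrib, ← Finset.sum_sub_distrib, ← Finset.sum_sub_distrib]
    refine Finset.sum_congr rfl fun s' _ => ?_
    ring
  rw [h1, key, keyl, key, keyl]
  have h2 : 0 ≤ (∑ s ∈ S, b0 s * Y s) ^ 2 := sq_nonneg _
  have h3 : 0 ≤ ∑ l, μ l * (∑ s ∈ S, b l s * Y s) ^ 2 :=
    Finset.sum_nonneg fun l _ => mul_nonneg (hμ l) (sq_nonneg _)
  have h4 : ∑ s ∈ S, (1 : ℝ) * Y s = ∑ s ∈ S, Y s := by simp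
  rw [h4]
  linarith

variable {r : ℕ} (N1 Dm : ℕ) (μ : Fin r → ℝ) (T : Fin r → ℕ)

/-- total mass of the thresholds `≤ N1 - s` -/
noncomputable def Mf (s : ℕ) : ℝ := ∑ l, if T l ≤ N1 - s then μ l else 0

/-- total mass of the thresholds `< s - N1` -/
noncomputable def MB (s : ℕ) : ℝ := ∑ l, if T l < s - N1 then μ l else 0

noncomputable def gam (s : ℕ) : ℝ := 1 / (1 + 4 / 3 * Mf N1 μ T s)

noncomputable def al (l : Fin r) (s : ℕ) : ℝ :=
  if N1 < s then (if T l < s - N1 then 1 else 0)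
  else if N1 < s + Dm then (if T l ≤ N1 - s then -(gam N1 μ T s) / 3 else 0) else 0

noncomputable def b0 (s : ℕ) : ℝ :=
  if N1 < s then 1 else if N1 < s + Dm then gam N1 μ T s else 0

noncomputable def bl (l : Fin r) (s : ℕ) : ℝ :=
  if N1 < s then (if T l < s - N1 then 1 else 0)
  else if N1 < s + Dm then (if T l ≤ N1 - s then gam N1 μ T s else 0) else 0

noncomputable def kk (s s' : ℕ) : ℝ :=
  1 + ∑ l, μ l * (al N1 Dm μ T l s * al N1 Dm μ T l s') - b0 N1 Dm μ T s * b0 N1 Dm μ T s' -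
    ∑ l, μ l * (bl N1 Dm μ T l s * bl N1 Dm μ T l s')

theorem kk_symm (s s' : ℕ) : kk N1 Dm μ T s s' = kk N1 Dm μ T s' s := by
  unfold kk
  have h1 : ∑ l, μ l * (al N1 Dm μ T l s * al N1 Dm μ T l s') =
      ∑ l, μ l * (al N1 Dm μ T l s' * al N1 Dm μ T l s) :=
    Finset.sum_congr rfl fun l _ => by ring
  have h2 : ∑ l, μ l * (bl N1 Dm μ T l s * bl N1 Dm μ T l s') =
      ∑ l, μ l * (bl N1 Dm μ T l s' * bl N1 Dm μ T l s) :=
    Finset.sum_congr rfl fun l _ => by ring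
  rw [h1, h2]
  ring

theorem Mf_nonneg (hμ : ∀ l, 0 ≤ μ l) (s : ℕ) : 0 ≤ Mf N1 μ T s :=
  Finset.sum_nonneg fun l _ => by split_ifs; exacts [hμ l, le_rfl]

theorem MB_nonneg (hμ : ∀ l, 0 ≤ μ l) (s : ℕ) : 0 ≤ MB N1 μ T s :=
  Finset.sum_nonneg fun l _ => by split_ifs; exacts [hμ l, le_rfl]

theorem gam_mul (hμ : ∀ l, 0 ≤ μ l) (s : ℕ) :
    gam N1 μ T s * (1 + 4 / 3 * Mf N1 μ T s) = 1 := by
  have := Mf_nonneg N1 μ T hμ s
  unfold gam
  field_simp

/-- both indices above `N1` -/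
theorem kk_BB (s s' : ℕ) (h : N1 < s) (h' : N1 < s') : kk N1 Dm μ T s s' = 0 := by
  unfold kk
  have h1 : ∑ l, μ l * (al N1 Dm μ T l s * al N1 Dm μ T l s') =
      ∑ l, μ l * (bl N1 Dm μ T l s * bl N1 Dm μ T l s') :=
    Finset.sum_congr rfl fun l _ => by simp [al, bl, h, h']
  rw [h1]
  simp [b0, h, h']

/-- one index above `N1` -/
theorem kk_BA (hμ : ∀ l, 0 ≤ μ l) (s s' : ℕ) (h : N1 < s) (h' : s' ≤ N1) (hs : s ≤ N1 + Dm)
    (hss : 2 * N1 < s + s') : kk N1 Dm μ T s s' = 0 := by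
  have hA : N1 < s' + Dm := by omega
  have hnot : ¬ N1 < s' := by omega
  have e1 : ∑ l, μ l * (al N1 Dm μ T l s * al N1 Dm μ T l s') =
      -(gam N1 μ T s') / 3 * Mf N1 μ T s' := by
    unfold Mf
    rw [Finset.mul_sum]
    refine Finset.sum_congr rfl fun l _ => ?_
    by_cases hT : T l ≤ N1 - s'
    · have hT2 : T l < s - N1 := by omega
      simp only [al, if_pos h, if_pos hT2, if_neg hnot, if_pos hA, if_pos hT]
      ring
    · simp only [al, if_pos h, if_neg hnot, if_pos hA, if_neg hT]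
      ring
  have e2 : ∑ l, μ l * (bl N1 Dm μ T l s * bl N1 Dm μ T l s') =
      gam N1 μ T s' * Mf N1 μ T s' := by
    unfold Mf
    rw [Finset.mul_sum]
    refine Finset.sum_congr rfl fun l _ => ?_
    by_cases hT : T l ≤ N1 - s'
    · have hT2 : T l < s - N1 := by omega
      simp only [bl, if_pos h, if_pos hT2, if_neg hnot, if_pos hA, if_pos hT]
      ring
    · simp only [bl, if_pos h, if_neg hnot, if_pos hA, if_neg hT]
      ring
  have e3 : b0 N1 Dm μ T s = 1 := by simp [b0, h]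
  have e4 : b0 N1 Dm μ T s' = gam N1 μ T s' := by simp only [b0, if_neg hnot, if_pos hA]
  unfold kk
  rw [e1, e2, e3, e4]
  have := gam_mul N1 μ T hμ s'
  linear_combination -this

theorem kk_zero (hμ : ∀ l, 0 ≤ μ l) (s s' : ℕ) (hs : s ≤ N1 + Dm) (hs' : s' ≤ N1 + Dm)
    (hss : 2 * N1 < s + s') : kk N1 Dm μ T s s' = 0 := by
  rcases lt_or_ge N1 s with h | h
  · rcases lt_or_ge N1 s' with h' | h'
    · exact kk_BB N1 Dm μ T s s' h h'
    · exact kk_BA N1 Dm μ T hμ s s' h h' hs hss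
  · rw [kk_symm]
    exact kk_BA N1 Dm μ T hμ s' s (by omega) h hs' (by omega)

theorem diag (hN1 : 0 < N1) (_hDm : Dm < N1) (hμ : ∀ l, 0 ≤ μ l) (W : ℕ → ℝ)
    (hW0 : ∀ s, s + Dm ≤ N1 → W s ≤ 1)
    (hWA : ∀ s, N1 < s + Dm → s ≤ N1 →
      W s ≤ 1 - 1 / (1 + 4 / 3 * ∑ l, if T l ≤ N1 - s then μ l else 0))
    (hWB : ∀ s, N1 < s → s ≤ N1 + Dm →
      W s ≤ - (4 * (∑ l, if T l < s - N1 then μ l else 0) / (2 - (s : ℝ) / N1)))
    (s : ℕ) (hs : s ≤ N1 + Dm) :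
    W s ≤ kk N1 Dm μ T s s - 4 * ∑ l, μ l * (al N1 Dm μ T l s ^ 2 / (2 - (s : ℝ) / N1)) := by
  have hN1r : (0 : ℝ) < N1 := by exact_mod_cast hN1
  rcases lt_or_ge N1 s with h | h
  · -- B
    rw [kk_BB N1 Dm μ T s s h h]
    refine (hWB s h hs).trans (le_of_eq ?_)
    have e1 : ∑ l, μ l * (al N1 Dm μ T l s ^ 2 / (2 - (s : ℝ) / N1)) =
        (∑ l, if T l < s - N1 then μ l else 0) / (2 - (s : ℝ) / N1) := by
      rw [Finset.sum_div]
      refine Finset.sum_congr rfl fun l _ => ?_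
      by_cases hT : T l < s - N1
      · simp only [al, if_pos h, if_pos hT]
        ring
      · simp only [al, if_pos h, if_neg hT]
        ring
    rw [e1]
    ring
  · rcases lt_or_ge N1 (s + Dm) with hA | hX
    · -- A
      have hnot : ¬ N1 < s := by omega
      have hM0 := Mf_nonneg N1 μ T hμ s
      have hgm := gam_mul N1 μ T hμ s
      have e1 : ∑ l, μ l * (al N1 Dm μ T l s * al N1 Dm μ T l s) =
          (gam N1 μ T s) ^ 2 / 9 * Mf N1 μ T s := by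
        unfold Mf
        rw [Finset.mul_sum]
        refine Finset.sum_congr rfl fun l _ => ?_
        by_cases hT : T l ≤ N1 - s
        · simp only [al, if_neg hnot, if_pos hA, if_pos hT]
          ring
        · simp only [al, if_neg hnot, if_pos hA, if_neg hT]
          ring
      have e2 : ∑ l, μ l * (bl N1 Dm μ T l s * bl N1 Dm μ T l s) =
          (gam N1 μ T s) ^ 2 * Mf N1 μ T s := by
        unfold Mf
        rw [Finset.mul_sum]
        refine Finset.sum_congr rfl fun l _ => ?_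
        by_cases hT : T l ≤ N1 - s
        · simp only [bl, if_neg hnot, if_pos hA, if_pos hT]
          ring
        · simp only [bl, if_neg hnot, if_pos hA, if_neg hT]
          ring
      have e4 : b0 N1 Dm μ T s = gam N1 μ T s := by simp only [b0, if_neg hnot, if_pos hA]
      have hden : 1 ≤ 2 - (s : ℝ) / N1 := by
        have : (s : ℝ) / N1 ≤ 1 := by
          rw [div_le_one hN1r]; exact_mod_cast h
        linarith
      have e5 : ∑ l, μ l * (al N1 Dm μ T l s ^ 2 / (2 - (s : ℝ) / N1)) ≤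
          (gam N1 μ T s) ^ 2 / 9 * Mf N1 μ T s := by
        rw [← e1]
        refine Finset.sum_le_sum fun l _ => ?_
        refine mul_le_mul_of_nonneg_left ?_ (hμ l)
        rw [← pow_two]
        exact div_le_self (sq_nonneg _) hden
      have hW := hWA s hA h
      have hW' : W s ≤ 1 - gam N1 μ T s := hW
      have hk : kk N1 Dm μ T s s = 1 + (gam N1 μ T s) ^ 2 / 9 * Mf N1 μ T s - gam N1 μ T s * gam N1 μ T s -
          (gam N1 μ T s) ^ 2 * Mf N1 μ T s := by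
        unfold kk
        rw [e1, e2, e4]
      rw [hk]
      refine hW'.trans ?_
      have h6 : gam N1 μ T s = gam N1 μ T s ^ 2 * (1 + 4 / 3 * Mf N1 μ T s) := by
        rw [pow_two, mul_assoc, hgm, mul_one]
      nlinarith [e5, h6]
    · -- X
      have hnot : ¬ N1 < s := by omega
      have hnA : ¬ N1 < s + Dm := by omega
      have e1 : ∀ l, al N1 Dm μ T l s = 0 := fun l => by simp only [al, if_neg hnot, if_neg hnA]
      have e2 : ∀ l, bl N1 Dm μ T l s = 0 := fun l => by simp only [bl, if_neg hnot, if_neg hnA]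
      have e3 : b0 N1 Dm μ T s = 0 := by simp only [b0, if_neg hnot, if_neg hnA]
      have hk : kk N1 Dm μ T s s = 1 := by
        unfold kk
        rw [e3]
        simp [e1, e2]
      rw [hk]
      have h7 : ∑ l, μ l * (al N1 Dm μ T l s ^ 2 / (2 - (s : ℝ) / N1)) = 0 := by
        simp [e1]
      rw [h7]
      simpa using hW0 s hX

theorem rad_insertNth {K0 : ℕ} (i : Fin (K0 + 1)) (t : ℕ) (c : Fin K0 → ℕ) :
    rad (Fin.insertNth (α := fun _ => ℕ) i t c) = (t + 1) + rad c := by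
  unfold rad
  rw [Fin.sum_univ_succAbove _ i]
  simp

theorem UU_zero {K0 M R : ℕ} (F : (Fin (K0 + 1) → ℕ) → ℝ) (hF : ∀ c, F c ≠ 0 → rad c ≤ R + 1)
    (i : Fin (K0 + 1)) (c : Fin K0 → ℕ) (hc : R < rad c) : UU M F i c = 0 := by
  unfold UU
  refine Finset.sum_eq_zero fun t _ => ?_
  by_contra hne
  have := hF _ hne
  rw [rad_insertNth] at this
  omega

end C4

open C4 in
/-- C4 from C3 -/
theorem layered_of (hC : CriterionStm) {K0 N1 M Dm : ℕ} (hN1 : 0 < N1) (hM : M ≤ 2 * N1) (hDm : Dm < N1)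
    (F : (Fin (K0 + 1) → ℕ) → ℝ) (hF : ∀ c, F c ≠ 0 → rad c ≤ N1 + Dm + 1)
    (r : ℕ) (μ : Fin r → ℝ) (hμ : ∀ l, 0 ≤ μ l) (T : Fin r → ℕ) (W : ℕ → ℝ)
    (hW0 : ∀ s, s + Dm ≤ N1 → W s ≤ 1)
    (hWA : ∀ s, N1 < s + Dm → s ≤ N1 →
      W s ≤ 1 - 1 / (1 + 4 / 3 * ∑ l, if T l ≤ N1 - s then μ l else 0))
    (hWB : ∀ s, N1 < s → s ≤ N1 + Dm →
      W s ≤ - (4 * (∑ l, if T l < s - N1 then μ l else 0) / (2 - (s : ℝ) / N1)))
    (hcrit : 4 * N1 * ∑ c ∈ Box (K0 + 1) M, F c ^ 2 < ∑ i, ∑ c ∈ Box K0 M, W (rad c) * UU M F i c ^ 2)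
    (h : Fin (K0 + 1) → ℕ) (hadm : Admissible h) : TwoPrimes h := by
  refine hC (R := N1 + Dm) hN1 hM (by omega) F hF r μ hμ (al N1 Dm μ T) (kk N1 Dm μ T) ?_ ?_ ?_ h hadm
  · intro Y
    exact psd μ hμ (al N1 Dm μ T) (bl N1 Dm μ T) (b0 N1 Dm μ T) Y
  · intro s s' hs hs' hss
    exact kk_zero N1 Dm μ T hμ s s' hs hs' hss
  · refine hcrit.trans_le ?_
    refine Finset.sum_le_sum fun i _ => Finset.sum_le_sum fun c _ => ?_
    rcases le_or_gt (rad c) (N1 + Dm) with hc | hc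
    · exact mul_le_mul_of_nonneg_right (diag N1 Dm μ T hN1 hDm hμ W hW0 hWA hWB (rad c) hc) (sq_nonneg _)
    · rw [UU_zero F hF i c hc]
      simp

end Pool.Agent.H95R2.BG
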