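import Mathlib
import Pool.Agent.H95R2.BG.LCriterion
import Pool.Agent.H95R2.BG.LLayeredAux

/-! BG project, linear forms, task L6 (`layeredL`; helper680). -/

open Finset Filter

namespace Pool.Agent.H95R2.BG.LF

/-- L6 -/
theorem layeredL {K0 N1 M Dm : ℕ} (hN1 : 0 < N1) (hM : M ≤ 2 * N1) (hDm : Dm < N1)
    (F : (Fin (K0 + 1) → ℕ) → ℝ) (hF : ∀ c, F c ≠ 0 → rad c ≤ N1 + Dm + 1)
    (r : ℕ) (μ : Fin r → ℝ) (hμ : ∀ l, 0 ≤ μ l) (T : Fin r → ℕ) (W : ℕ → ℝ)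
    (hW0 : ∀ s, s + Dm ≤ N1 → W s ≤ 1)
    (hWA : ∀ s, N1 < s + Dm → s ≤ N1 →
      W s ≤ 1 - 1 / (1 + 4 / 3 * ∑ l, if T l ≤ N1 - s then μ l else 0))
    (hWB : ∀ s, N1 < s → s ≤ N1 + Dm →
      W s ≤ - (4 * (∑ l, if T l < s - N1 then μ l else 0) / (2 - (s : ℝ) / N1)))
    (hcrit : 4 * N1 * ∑ c ∈ Box (K0 + 1) M, F c ^ 2 < ∑ i, ∑ c ∈ Box K0 M, W (rad c) * UU M F i c ^ 2)
    (A B : Fin (K0 + 1) → ℕ) (hadm : AdmissibleL A B) (ε : ℝ) (hε : 0 < ε) :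
    ∀ᶠ X : ℝ in atTop, X ^ (1 - ε) ≤ ((goodL A B X).card : ℝ) :=
  layeredL_of (fun hN1 hM hR F hF r μ hμ α κ hpsd hκ hcrit A B hadm ε hε =>
    criterionL hN1 hM hR F hF r μ hμ α κ hpsd hκ hcrit A B hadm ε hε) hN1 hM hDm F hF r μ hμ T W
    hW0 hWA hWB hcrit A B hadm ε hε

end Pool.Agent.H95R2.BG.LF
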