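import Mathlib
import Pool.Agent.H95R2.BG.LLayered
import Pool.Agent.H95R2.BG.K4
import Pool.Agent.H95R2.BG.K5
import Pool.Agent.H95R2.BG.K7

/-! BG project (helper95): `DHL[49,2]` for linear forms, with a count. -/

open Finset Filter

namespace Pool.Agent.H95R2.BG.LF

theorem dhl49L : Dhl49L := fun A B hadm ε hε =>
  layeredL (K0 := 48) (N1 := 30895) (M := 32768) (Dm := 1920) (by norm_num) (by norm_num) (by norm_num)
    Cert.FF (fun c hc => Cert.FF_supp c hc) 30 Cert.mul Cert.mul_nonneg' (fun l => 64 * (l : ℕ)) Cert.WW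
    Cert.WW_X Cert.WW_A Cert.WW_B Cert.crit49 A B hadm ε hε

end Pool.Agent.H95R2.BG.LF
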