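import Mathlib
import Pool.Agent.H95R2.BG.Quad

/-! BG project: task 8 (lim_ww, lim_qq, lim_zz). -/

open Finset Filter
open scoped ContDiff

namespace Pool.Agent.H95R2.BG

open Pool.Agent.H378R2

namespace Lim

theorem prod_DD {J N1 M : ℕ} {f : ℕ → ℝ → ℝ} {β : ℝ} (hf : Cells N1 M f β) (a b : Fin J → ℕ) :
    ∏ j, DD (f (a j)) (f (b j)) = if a = b then β ^ J else 0 := by
  split_ifs with h
  · subst h
    simp only [hf.energy, Finset.prod_const, Finset.card_univ, Fintype.card_fin]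
  · obtain ⟨j, hj⟩ := Function.ne_iff.1 h
    exact Finset.prod_eq_zero (Finset.mem_univ j) (hf.orth _ _ hj)

theorem mem_Box {J M : ℕ} {c : Fin J → ℕ} : c ∈ Box J M ↔ ∀ j, c j < M := by
  simp [Box, Fintype.mem_piFinset]

theorem sum_len {J : ℕ} (N1 : ℕ) (c : Fin J → ℕ) :
    ∑ j, ((c j : ℝ) + 1) / N1 = (rad c : ℝ) / N1 := by
  rw [← Finset.sum_div]
  congr 1
  unfold rad
  push_cast
  rfl

theorem rad_insertNth {K0 : ℕ} (i : Fin (K0 + 1)) (t : ℕ) (c : Fin K0 → ℕ) :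
    rad (Fin.insertNth (α := fun _ => ℕ) i t c) = t + 1 + rad c := by
  unfold rad
  rw [Fin.sum_univ_succAbove _ i]
  simp

theorem rad_le_of_UU {K0 M R : ℕ} {F : (Fin (K0 + 1) → ℕ) → ℝ}
    (hF : ∀ c, F c ≠ 0 → rad c ≤ R + 1) (i : Fin (K0 + 1)) {c : Fin K0 → ℕ}
    (h : UU M F i c ≠ 0) : rad c ≤ R := by
  unfold UU at h
  obtain ⟨t, _, ht⟩ := Finset.exists_ne_zero_of_sum_ne_zero h
  have := hF _ ht
  rw [rad_insertNth] at this
  omega

theorem le_two {N1 r : ℕ} (hN1 : 0 < N1) (h : r ≤ 2 * N1) : (r : ℝ) / N1 ≤ 2 := by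
  rw [div_le_iff₀ (by exact_mod_cast hN1)]
  exact_mod_cast h

end Lim

section crit

variable {K0 N1 M R : ℕ} {f ψ : ℕ → ℝ → ℝ} {β κ₀ : ℝ}

/-- C2a -/
theorem lim_ww (hN1 : 0 < N1) (hM : M ≤ 2 * N1) (hR : R < 2 * N1) (hf : Cells N1 M f β)
    (F : (Fin (K0 + 1) → ℕ) → ℝ) (hF : ∀ c, F c ≠ 0 → rad c ≤ R + 1)
    (τ : ℝ) (hτ : 0 < τ) (hτ' : τ < 1 / 8) (ε : ℝ) (hε : 0 < ε) :
    ∃ D0 : ℕ, ∀ D : ℕ, D0 ≤ D → ∀ h : Fin (K0 + 1) → ℕ, Sep D h → ∀ a : ℕ, ∀ᶠ X : ℝ in atTop,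
      ∑ n ∈ Icc 1 ⌊3 * X⌋₊, nu X (WD D) a n * ww τ D X f M F h n ^ 2 ≤
        NN τ D X (K0 + 1) * (β ^ (K0 + 1) * ∑ c ∈ Box (K0 + 1) M, F c ^ 2 + ε) := by
  classical
  set A := (Box (K0 + 1) M).filter (fun c => F c ≠ 0) with hA
  obtain ⟨D0, hD0⟩ := S1quad A τ hτ hτ' (fun c j => f (c j)) (fun c j => ((c j : ℝ) + 1) / N1)
    (fun c hc j => hf.good _ (Lim.mem_Box.1 (Finset.mem_filter.1 hc).1 j))
    (fun c hc => by
      rw [Lim.sum_len]
      exact Lim.le_two hN1 (by have := hF c (Finset.mem_filter.1 hc).2; omega)) F ε hε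
  refine ⟨D0, fun D hD h hS a => ?_⟩
  filter_upwards [hD0 D hD h hS a] with X hX
  have e1 : ∀ n : ℕ, ww τ D X f M F h n =
      ∑ c ∈ A, F c * ∏ j, vv τ D X (f (c j)) ((n : ℤ) + h j) := by
    intro n
    unfold ww prodv
    rw [hA, Finset.sum_filter_of_ne]
    intro c _ hc h0
    rw [h0, zero_mul] at hc
    exact hc rfl
  have e2 : ∑ a ∈ A, ∑ b ∈ A, F a * F b * ∏ j, DD (f (a j)) (f (b j)) =
      β ^ (K0 + 1) * ∑ c ∈ Box (K0 + 1) M, F c ^ 2 := by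
    have h1 : ∀ a ∈ A, ∑ b ∈ A, F a * F b * ∏ j, DD (f (a j)) (f (b j)) =
        β ^ (K0 + 1) * F a ^ 2 := by
      intro a ha
      rw [Finset.sum_eq_single_of_mem a ha]
      · rw [Lim.prod_DD hf, if_pos rfl]
        ring
      · intro b _ hb
        rw [Lim.prod_DD hf, if_neg (Ne.symm hb), mul_zero]
    rw [Finset.sum_congr rfl h1, ← Finset.mul_sum, hA, Finset.sum_filter_of_ne]
    intro c _ hc h0
    rw [h0] at hc
    simp at hc
  simp only [e1]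
  rw [e2] at hX
  have := (abs_le.1 hX).2
  linarith

/-- C2b -/
theorem lim_qq (hN1 : 0 < N1) (hM : M ≤ 2 * N1) (hR : R < 2 * N1) (hf : Cells N1 M f β)
    (F : (Fin (K0 + 1) → ℕ) → ℝ) (hF : ∀ c, F c ≠ 0 → rad c ≤ R + 1) (κ : ℕ → ℕ → ℝ)
    (hκ : ∀ s s', s ≤ R → s' ≤ R → 2 * N1 < s + s' → κ s s' = 0)
    (τ : ℝ) (hτ : 0 < τ) (hτ' : τ < 1 / 8) (ε : ℝ) (hε : 0 < ε) :
    ∃ D0 : ℕ, ∀ D : ℕ, D0 ≤ D → ∀ h : Fin (K0 + 1) → ℕ, Sep D h → ∀ (i : Fin (K0 + 1)) (a : ℕ),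
      (a + h i).Coprime (WD D) → ∀ᶠ X : ℝ in atTop,
      NN τ D X (K0 + 1) * Real.log X *
          ((1 / 4 - τ) * (β ^ K0 * ∑ c ∈ Box K0 M, κ (rad c) (rad c) * UU M F i c ^ 2) - ε) ≤
        ∑ n ∈ Icc 1 ⌊3 * X⌋₊, nu X (WD D) a n * (th (n + h i) * qq τ D X f M F h i κ n) := by
  classical
  set A : Fin (K0 + 1) → Finset (Fin K0 → ℕ) :=
    fun i => (Box K0 M).filter (fun c => UU M F i c ≠ 0) with hA
  have key := fun i : Fin (K0 + 1) => S2quad (A i) τ hτ hτ' (fun c j => f (c j))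
    (fun c j => ((c j : ℝ) + 1) / N1)
    (fun c hc j => hf.good _ (Lim.mem_Box.1 (Finset.mem_filter.1 hc).1 j))
    (fun c c' => κ (rad c) (rad c') * (UU M F i c * UU M F i c'))
    (fun a ha b hb hab => by
      rw [Lim.sum_len, Lim.sum_len, ← add_div]
      have h1 := Lim.rad_le_of_UU hF i (Finset.mem_filter.1 ha).2
      have h2 := Lim.rad_le_of_UU hF i (Finset.mem_filter.1 hb).2
      have h3 : ¬ (2 * N1 < rad a + rad b) := by
        intro h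
        rw [hκ _ _ h1 h2 h, zero_mul] at hab
        exact hab rfl
      have := Lim.le_two hN1 (not_lt.1 h3)
      exact_mod_cast this) ε hε
  choose D0 hD0 using key
  refine ⟨Finset.univ.sup D0, fun D hD h hS i a hcop => ?_⟩
  filter_upwards [hD0 i D ((Finset.le_sup (Finset.mem_univ i)).trans hD) h hS i a hcop] with X hX
  have e1 : ∀ n : ℕ, qq τ D X f M F h i κ n =
      ∑ a ∈ A i, ∑ b ∈ A i, κ (rad a) (rad b) * (UU M F i a * UU M F i b) *
          ((∏ j, vv τ D X (f (a j)) ((n : ℤ) + hrem h i j)) *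
            ∏ j, vv τ D X (f (b j)) ((n : ℤ) + hrem h i j)) := by
    intro n
    unfold qq prodv
    rw [hA]
    simp only
    rw [← Finset.sum_filter_of_ne (p := fun c => UU M F i c ≠ 0) (s := Box K0 M)]
    · refine Finset.sum_congr rfl fun a _ => ?_
      rw [← Finset.sum_filter_of_ne (p := fun c => UU M F i c ≠ 0) (s := Box K0 M)]
      · refine Finset.sum_congr rfl fun b _ => ?_
        ring
      · intro c _ hc h0
        rw [h0] at hc
        simp at hc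
    · intro c _ hc h0
      rw [h0] at hc
      simp at hc
  have e2 : ∑ a ∈ A i, ∑ b ∈ A i, κ (rad a) (rad b) * (UU M F i a * UU M F i b) *
      ∏ j, DD (f (a j)) (f (b j)) =
      β ^ K0 * ∑ c ∈ Box K0 M, κ (rad c) (rad c) * UU M F i c ^ 2 := by
    have h1 : ∀ a ∈ A i, ∑ b ∈ A i, κ (rad a) (rad b) * (UU M F i a * UU M F i b) *
        ∏ j, DD (f (a j)) (f (b j)) = β ^ K0 * (κ (rad a) (rad a) * UU M F i a ^ 2) := by
      intro a ha
      rw [Finset.sum_eq_single_of_mem a ha]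
      · rw [Lim.prod_DD hf, if_pos rfl]
        ring
      · intro b _ hb
        rw [Lim.prod_DD hf, if_neg (Ne.symm hb), mul_zero]
    rw [Finset.sum_congr rfl h1, ← Finset.mul_sum, hA]
    simp only
    rw [Finset.sum_filter_of_ne]
    intro c _ hc h0
    rw [h0] at hc
    simp at hc
  simp only [e1, ← mul_assoc] at hX ⊢
  simp only [← mul_assoc] at e2
  rw [e2] at hX
  have := (abs_le.1 hX).1
  linarith

/-- C2c -/
theorem lim_zz (hN1 : 0 < N1) (hM : M ≤ 2 * N1) (hR : R < 2 * N1) (hf : Cells N1 M f β) (hψ : Psis N1 κ₀ ψ)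
    (hκ₀ : 0 < κ₀) (F : (Fin (K0 + 1) → ℕ) → ℝ) (hF : ∀ c, F c ≠ 0 → rad c ≤ R + 1) (α : ℕ → ℝ)
    (τ : ℝ) (hτ : 0 < τ) (hτ' : τ < 1 / 8) (ε : ℝ) (hε : 0 < ε) :
    ∃ D0 : ℕ, ∀ D : ℕ, D0 ≤ D → ∀ h : Fin (K0 + 1) → ℕ, Sep D h → ∀ (i : Fin (K0 + 1)) (a : ℕ),
      ∀ᶠ X : ℝ in atTop,
      ∑ n ∈ Icc 1 ⌊3 * X⌋₊, nu X (WD D) a n * zz τ D X f ψ M F h i α n ^ 2 ≤
        NN τ D X (K0 + 1) * (β ^ K0 * ((1 + κ₀) *
          ∑ c ∈ Box K0 M, α (rad c) ^ 2 / (2 - (rad c : ℝ) / N1) * UU M F i c ^ 2) + ε) := by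
  classical
  set A : Fin (K0 + 1) → Finset (Fin K0 → ℕ) :=
    fun i => (Box K0 M).filter (fun c => UU M F i c ≠ 0) with hA
  set G : Fin (K0 + 1) → (Fin K0 → ℕ) → Fin (K0 + 1) → ℝ → ℝ :=
    fun i c => Fin.insertNth (α := fun _ => ℝ → ℝ) i (ψ (rad c)) (fun j => f (c j)) with hG
  have key := fun i : Fin (K0 + 1) => S1quad (A i) τ hτ hτ' (G i)
    (fun c => Fin.insertNth (α := fun _ => ℝ) i (2 - (rad c : ℝ) / N1)
      (fun j => ((c j : ℝ) + 1) / N1))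
    (fun c hc => by
      have h1 := Lim.rad_le_of_UU hF i (Finset.mem_filter.1 hc).2
      rw [Fin.forall_iff_succAbove i]
      refine ⟨?_, fun j => ?_⟩
      · simp only [hG, Fin.insertNth_apply_same]
        exact hψ.good _ (by omega)
      · simp only [hG, Fin.insertNth_apply_succAbove]
        exact hf.good _ (Lim.mem_Box.1 (Finset.mem_filter.1 hc).1 j))
    (fun c hc => by
      rw [Fin.sum_univ_succAbove _ i]
      simp only [Fin.insertNth_apply_same, Fin.insertNth_apply_succAbove]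
      rw [Lim.sum_len]
      linarith)
    (fun c => α (rad c) * UU M F i c) ε hε
  choose D0 hD0 using key
  refine ⟨Finset.univ.sup D0, fun D hD h hS i a => ?_⟩
  filter_upwards [hD0 i D ((Finset.le_sup (Finset.mem_univ i)).trans hD) h hS a,
    NN_pos τ (by linarith) D (K0 + 1)] with X hX hN
  have e1 : ∀ n : ℕ, zz τ D X f ψ M F h i α n =
      ∑ c ∈ A i, α (rad c) * UU M F i c * ∏ j, vv τ D X (G i c j) ((n : ℤ) + h j) := by
    intro n
    unfold zz prodv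
    rw [hA]
    simp only
    rw [← Finset.sum_filter_of_ne (p := fun c => UU M F i c ≠ 0) (s := Box K0 M)]
    · refine Finset.sum_congr rfl fun c _ => ?_
      rw [Fin.prod_univ_succAbove _ i]
      simp only [hG, Fin.insertNth_apply_same, Fin.insertNth_apply_succAbove]
      rfl
    · intro c _ hc h0
      rw [h0] at hc
      simp at hc
  have e2 : ∑ a ∈ A i, ∑ b ∈ A i, α (rad a) * UU M F i a * (α (rad b) * UU M F i b) *
      ∏ j, DD (G i a j) (G i b j) =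
      β ^ K0 * ∑ c ∈ A i, DD (ψ (rad c)) (ψ (rad c)) * (α (rad c) ^ 2 * UU M F i c ^ 2) := by
    have h1 : ∀ a ∈ A i, ∑ b ∈ A i, α (rad a) * UU M F i a * (α (rad b) * UU M F i b) *
        ∏ j, DD (G i a j) (G i b j) =
        β ^ K0 * (DD (ψ (rad a)) (ψ (rad a)) * (α (rad a) ^ 2 * UU M F i a ^ 2)) := by
      intro a ha
      have h2 : ∀ b, ∏ j, DD (G i a j) (G i b j) =
          DD (ψ (rad a)) (ψ (rad b)) * ∏ j, DD (f (a j)) (f (b j)) := by
        intro b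
        rw [Fin.prod_univ_succAbove _ i]
        simp only [hG, Fin.insertNth_apply_same, Fin.insertNth_apply_succAbove]
      rw [Finset.sum_eq_single_of_mem a ha]
      · rw [h2, Lim.prod_DD hf, if_pos rfl]
        ring
      · intro b _ hb
        rw [h2, Lim.prod_DD hf, if_neg (Ne.symm hb), mul_zero, mul_zero]
    rw [Finset.sum_congr rfl h1, ← Finset.mul_sum]
  simp only [e1]
  rw [e2] at hX
  have h3 := (abs_le.1 hX).2
  have hβ : 0 ≤ β := hf.pos.le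
  have h4 : ∑ c ∈ A i, DD (ψ (rad c)) (ψ (rad c)) * (α (rad c) ^ 2 * UU M F i c ^ 2) ≤
      (1 + κ₀) * ∑ c ∈ Box K0 M, α (rad c) ^ 2 / (2 - (rad c : ℝ) / N1) * UU M F i c ^ 2 := by
    have h5 : ∑ c ∈ Box K0 M, α (rad c) ^ 2 / (2 - (rad c : ℝ) / N1) * UU M F i c ^ 2 =
        ∑ c ∈ A i, α (rad c) ^ 2 / (2 - (rad c : ℝ) / N1) * UU M F i c ^ 2 := by
      rw [hA]
      simp only
      rw [Finset.sum_filter_of_ne]
      intro c _ hc h0
      rw [h0] at hc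
      simp at hc
    rw [h5, Finset.mul_sum]
    refine Finset.sum_le_sum fun c hc => ?_
    have h6 := Lim.rad_le_of_UU hF i (Finset.mem_filter.1 hc).2
    have h7 := hψ.energy (rad c) (by omega)
    have h8 : (0 : ℝ) ≤ α (rad c) ^ 2 * UU M F i c ^ 2 := by positivity
    calc DD (ψ (rad c)) (ψ (rad c)) * (α (rad c) ^ 2 * UU M F i c ^ 2)
        ≤ (1 + κ₀) / (2 - (rad c : ℝ) / N1) * (α (rad c) ^ 2 * UU M F i c ^ 2) :=
          mul_le_mul_of_nonneg_right h7 h8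
      _ = _ := by ring
  have h9 : β ^ K0 * ∑ c ∈ A i, DD (ψ (rad c)) (ψ (rad c)) * (α (rad c) ^ 2 * UU M F i c ^ 2) ≤
      β ^ K0 * ((1 + κ₀) * ∑ c ∈ Box K0 M, α (rad c) ^ 2 / (2 - (rad c : ℝ) / N1) *
        UU M F i c ^ 2) := mul_le_mul_of_nonneg_left h4 (by positivity)
  have h10 := mul_le_mul_of_nonneg_left h9 hN.le
  linarith

end crit

end Pool.Agent.H95R2.BG
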