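import Mathlib
import Pool.Agent.H95R2.BG.S1
import Pool.Agent.H95R2.BG.Cells
import Pool.Agent.H95R2.BG.Pointwise
import Pool.Agent.H95R2.BG.Lim

/-! BG project (helper95), task C3: the criterion (helper230). -/

open Finset Filter
open scoped ContDiff

namespace Pool.Agent.H95R2.BG

open Pool.Agent.H378R2

/-- at most one of the shifts is prime -/
theorem crit_sum_th {K : ℕ} (h : Fin K → ℕ) (n : ℕ) (Y : ℝ) (hY : 0 ≤ Y)
    (hno : ∀ i j, i ≠ j → (n + h i).Prime → ¬ (n + h j).Prime)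
    (hle : ∀ i, th (n + h i) ≤ Y) : ∑ i, th (n + h i) ≤ Y := by
  by_cases hex : ∃ i, (n + h i).Prime
  · obtain ⟨i, hi⟩ := hex
    rw [Finset.sum_eq_single i]
    · exact hle i
    · intro j _ hj
      unfold th
      rw [if_neg (hno i j (Ne.symm hj) hi)]
    · intro hi'
      exact absurd (Finset.mem_univ i) hi'
  · push Not at hex
    rw [Finset.sum_eq_zero]
    · exact hY
    · intro j _
      unfold th
      rw [if_neg (hex j)]

theorem crit_sep {K : ℕ} (h : Fin K → ℕ) (hinj : Function.Injective h) (D : ℕ)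
    (hD : ∑ i, h i ≤ D) : Sep D h := by
  intro i j hij p hp hDp hdvd
  have hi : h i ≤ ∑ i, h i := Finset.single_le_sum (f := h) (fun _ _ => Nat.zero_le _) (mem_univ i)
  have hj : h j ≤ ∑ i, h i := Finset.single_le_sum (f := h) (fun _ _ => Nat.zero_le _) (mem_univ j)
  have h0 : (h i : ℤ) - h j = 0 := by
    apply Int.eq_zero_of_abs_lt_dvd hdvd
    rw [abs_lt]
    constructor <;> omega
  apply hij
  apply hinj
  omega

theorem crit_class {K : ℕ} (h : Fin K → ℕ) (hadm : Admissible h) (D : ℕ) :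
    ∃ a : ℕ, ∀ i, (a + h i).Coprime (WD D) := by
  choose b hb using hadm.2
  classical
  let c : ℕ → ℕ := fun p => if hp : p.Prime then b p hp else 0
  have hmem : ∀ p ∈ PD D, p.Prime := fun p hp => (Finset.mem_filter.1 hp).2
  obtain ⟨a, ha⟩ := Nat.chineseRemainderOfFinset c (fun p => p) (PD D)
    (fun p hp => (hmem p hp).ne_zero)
    (fun p hp q hq hpq => (Nat.coprime_primes (hmem p hp) (hmem q hq)).2 hpq)
  refine ⟨a, fun i => ?_⟩
  unfold WD
  apply Nat.Coprime.prod_right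
  intro p hp
  have hpp := hmem p hp
  rw [Nat.coprime_comm, hpp.coprime_iff_not_dvd]
  intro hdvd
  have h1 : a ≡ b p hpp [MOD p] := by
    have := ha p hp
    simpa [c, hpp] using this
  apply hb p hpp i
  have h2 : a + h i ≡ b p hpp + h i [MOD p] := h1.add_right _
  exact (Nat.ModEq.dvd_iff h2 (dvd_refl p)).1 hdvd

theorem crit_log (δ : ℝ) (hδ : 0 < δ) :
    ∀ᶠ X : ℝ in atTop, Real.log (4 * X) ≤ (1 + δ) * Real.log X := by
  have h1 : ∀ᶠ X : ℝ in atTop, Real.log 4 / δ ≤ Real.log X :=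
    Real.tendsto_log_atTop.eventually_ge_atTop _
  filter_upwards [h1, eventually_gt_atTop 0] with X hX hX0
  rw [Real.log_mul (by norm_num) hX0.ne']
  rw [div_le_iff₀ hδ] at hX
  linarith

/-- C3: the criterion -/
theorem criterion {K0 N1 M R : ℕ} (hN1 : 0 < N1) (hM : M ≤ 2 * N1) (hR : R < 2 * N1)
    (F : (Fin (K0 + 1) → ℕ) → ℝ) (hF : ∀ c, F c ≠ 0 → rad c ≤ R + 1)
    (r : ℕ) (μ : Fin r → ℝ) (hμ : ∀ l, 0 ≤ μ l) (α : Fin r → ℕ → ℝ) (κ : ℕ → ℕ → ℝ)
    (hpsd : ∀ Y : ℕ → ℝ, ∑ s ∈ range (R + 1), ∑ s' ∈ range (R + 1), κ s s' * (Y s * Y s') ≤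
      (∑ s ∈ range (R + 1), Y s) ^ 2 + ∑ l, μ l * (∑ s ∈ range (R + 1), α l s * Y s) ^ 2)
    (hκ : ∀ s s', s ≤ R → s' ≤ R → 2 * N1 < s + s' → κ s s' = 0)
    (hcrit : 4 * N1 * ∑ c ∈ Box (K0 + 1) M, F c ^ 2 <
      ∑ i, ∑ c ∈ Box K0 M, (κ (rad c) (rad c) - 4 * ∑ l, μ l * (α l (rad c) ^ 2 / (2 - (rad c : ℝ) / N1))) *
        UU M F i c ^ 2)
    (h : Fin (K0 + 1) → ℕ) (hadm : Admissible h) : TwoPrimes h := by
  by_contra hT
  obtain ⟨n0, hn0⟩ := (Set.not_infinite.1 hT).bddAbove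
  have hno : ∀ n, n0 < n → ∀ i j, i ≠ j → (n + h i).Prime → ¬ (n + h j).Prime := by
    intro n hn i j hij hi hj
    have h1 : n ≤ n0 := hn0 ⟨i, j, hij, hi, hj⟩
    omega
  -- notation
  set SF : ℝ := ∑ c ∈ Box (K0 + 1) M, F c ^ 2 with hSF
  have hSF0 : 0 ≤ SF := Finset.sum_nonneg fun c _ => sq_nonneg _
  obtain ⟨Sq, hSq⟩ : ∃ Sq : Fin (K0 + 1) → ℝ, ∀ i, Sq i =
      ∑ c ∈ Box K0 M, κ (rad c) (rad c) * UU M F i c ^ 2 := ⟨_, fun _ => rfl⟩
  obtain ⟨Sz, hSz⟩ : ∃ Sz : Fin r → Fin (K0 + 1) → ℝ, ∀ l i, Sz l i =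
      ∑ c ∈ Box K0 M, α l (rad c) ^ 2 / (2 - (rad c : ℝ) / N1) * UU M F i c ^ 2 :=
    ⟨_, fun _ _ => rfl⟩
  obtain ⟨Z, hZ⟩ : ∃ Z : ℝ, Z = ∑ i, ∑ l, μ l * Sz l i := ⟨_, rfl⟩
  have hcrit' : N1 * SF + Z < (∑ i, Sq i) / 4 := by
    have h1 : ∀ i, ∑ c ∈ Box K0 M, (κ (rad c) (rad c) -
        4 * ∑ l, μ l * (α l (rad c) ^ 2 / (2 - (rad c : ℝ) / N1))) * UU M F i c ^ 2 =
        Sq i - 4 * ∑ l, μ l * Sz l i := by
      intro i
      simp only [sub_mul, Finset.sum_sub_distrib, hSq i, hSz]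
      congr 1
      simp only [Finset.mul_sum, Finset.sum_mul]
      rw [Finset.sum_comm]
      refine Finset.sum_congr rfl fun l _ => Finset.sum_congr rfl fun c _ => ?_
      ring
    rw [Finset.sum_congr rfl fun i _ => h1 i, Finset.sum_sub_distrib, ← Finset.mul_sum, ← hZ] at hcrit
    linarith
  -- choice of κ₀
  obtain ⟨κ₀, hκ0, hκ₀⟩ : ∃ κ₀ : ℝ, 0 < κ₀ ∧ (1 + κ₀) * (N1 * SF + Z) < (∑ i, Sq i) / 4 := by
    have hc : Continuous fun x : ℝ => (1 + x) * (N1 * SF + Z) := by fun_prop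
    have h1 : ∀ᶠ x in nhds (0 : ℝ), (1 + x) * (N1 * SF + Z) < (∑ i, Sq i) / 4 := by
      have h2 := hc.tendsto 0
      simp only [add_zero, one_mul] at h2
      exact h2.eventually_lt_const hcrit'
    have h3 : ∀ᶠ x in nhdsWithin (0 : ℝ) (Set.Ioi 0), (1 + x) * (N1 * SF + Z) < (∑ i, Sq i) / 4 :=
      h1.filter_mono nhdsWithin_le_nhds
    obtain ⟨x, hx1, hx2⟩ := (h3.and self_mem_nhdsWithin).exists
    exact ⟨x, hx2, hx1⟩
  obtain ⟨f, β, hf, hβ⟩ := cells_exist N1 M hN1 hM κ₀ hκ0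
  obtain ⟨ψ, hψ⟩ := psis_exist N1 hN1 κ₀ hκ0
  have hβ0 : 0 < β := hf.pos
  have hB0 : 0 < β ^ K0 := pow_pos hβ0 _
  -- choice of δ
  obtain ⟨δ, hδ, hδ8, hδg⟩ : ∃ δ : ℝ, 0 < δ ∧ δ < 1 / 8 ∧
      (1 + δ) * (β ^ (K0 + 1) * SF + δ) +
        (1 + δ) * (∑ i, ∑ l, μ l * (β ^ K0 * ((1 + κ₀) * Sz l i) + δ)) <
      ∑ i, ((1 / 4 - δ) * (β ^ K0 * Sq i) - δ) := by
    have hc1 : Continuous fun x : ℝ => (1 + x) * (β ^ (K0 + 1) * SF + x) +
        (1 + x) * (∑ i, ∑ l, μ l * (β ^ K0 * ((1 + κ₀) * Sz l i) + x)) := by fun_prop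
    have hc2 : Continuous fun x : ℝ => ∑ i, ((1 / 4 - x) * (β ^ K0 * Sq i) - x) := by fun_prop
    have h0 : (1 + (0 : ℝ)) * (β ^ (K0 + 1) * SF + 0) +
        (1 + (0 : ℝ)) * (∑ i, ∑ l, μ l * (β ^ K0 * ((1 + κ₀) * Sz l i) + 0)) <
        ∑ i, ((1 / 4 - (0 : ℝ)) * (β ^ K0 * Sq i) - 0) := by
      have e1 : ∑ i, ∑ l, μ l * (β ^ K0 * ((1 + κ₀) * Sz l i) + 0) = β ^ K0 * ((1 + κ₀) * Z) := by
        rw [hZ]
        simp only [Finset.mul_sum]
        refine Finset.sum_congr rfl fun i _ => Finset.sum_congr rfl fun l _ => ?_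
        ring
      have e2 : ∑ i, ((1 / 4 - (0 : ℝ)) * (β ^ K0 * Sq i) - 0) = β ^ K0 * ((∑ i, Sq i) / 4) := by
        rw [Finset.sum_div, Finset.mul_sum]
        refine Finset.sum_congr rfl fun i _ => ?_
        ring
      rw [e1, e2, pow_succ]
      have h1 : β * SF ≤ (1 + κ₀) * N1 * SF := mul_le_mul_of_nonneg_right hβ hSF0
      have h2 : β * SF + (1 + κ₀) * Z < (∑ i, Sq i) / 4 := by
        calc β * SF + (1 + κ₀) * Z ≤ (1 + κ₀) * N1 * SF + (1 + κ₀) * Z := by linarith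
          _ = (1 + κ₀) * (N1 * SF + Z) := by ring
          _ < _ := hκ₀
      have h3 := mul_lt_mul_of_pos_left h2 hB0
      calc (1 + (0 : ℝ)) * (β ^ K0 * β * SF + 0) + (1 + (0 : ℝ)) * (β ^ K0 * ((1 + κ₀) * Z))
          = β ^ K0 * (β * SF + (1 + κ₀) * Z) := by ring
        _ < _ := h3
    have h1 := (hc1.tendsto 0).eventually_lt (hc2.tendsto 0) h0
    have h3 := h1.filter_mono (nhdsWithin_le_nhds (s := Set.Ioi (0 : ℝ)))
    have h4 : ∀ᶠ x in nhdsWithin (0 : ℝ) (Set.Ioi 0), x < 1 / 8 :=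
      (gt_mem_nhds (by norm_num : (0 : ℝ) < 1 / 8)).filter_mono nhdsWithin_le_nhds
    obtain ⟨x, ⟨hx1, hx2⟩, hx3⟩ := ((h3.and h4).and self_mem_nhdsWithin).exists
    exact ⟨x, hx3, hx2, hx1⟩
  -- choice of D
  obtain ⟨D1, hD1⟩ := lim_ww hN1 hM hR hf F hF δ hδ hδ8 δ hδ
  obtain ⟨D2, hD2⟩ := lim_qq hN1 hM hR hf F hF κ hκ δ hδ hδ8 δ hδ
  choose D3 hD3 using fun l => lim_zz hN1 hM hR hf hψ hκ0 F hF (α l) δ hδ hδ8 δ hδ
  obtain ⟨D, hD⟩ : ∃ D, D = D1 + D2 + ∑ l, D3 l + ∑ i, h i := ⟨_, rfl⟩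
  have hDl : ∀ l, D3 l ≤ D := by
    intro l
    have : D3 l ≤ ∑ l, D3 l := Finset.single_le_sum (f := D3) (fun _ _ => Nat.zero_le _) (mem_univ l)
    omega
  have hsep : Sep D h := crit_sep h hadm.1 D (by omega)
  obtain ⟨a, ha⟩ := crit_class h hadm D
  -- choice of X
  have evP := pointwise hN1 hM hR hf hψ F hF r μ hμ α κ hpsd δ hδ hδ8 D h
  have evW := hD1 D (by omega) h hsep a
  have evQ : ∀ᶠ X : ℝ in atTop, ∀ i, _ :=
    eventually_all.2 fun i => hD2 D (by omega) h hsep i a (ha i)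
  have evZ : ∀ᶠ X : ℝ in atTop, ∀ i l, _ :=
    eventually_all.2 fun i => eventually_all.2 fun l => hD3 l D (hDl l) h hsep i a
  have evN := NN_pos δ (by linarith) D (K0 + 1)
  have evL := crit_log δ hδ
  have evB : ∀ᶠ X : ℝ in atTop, (n0 : ℝ) + (∑ i, h i : ℕ) + 3 ≤ X := eventually_ge_atTop _
  obtain ⟨X, hP, hW, hQ, hZZ, hN, hL, hB⟩ :=
    (evP.and (evW.and (evQ.and (evZ.and (evN.and (evL.and evB)))))).exists
  have hX3 : (3 : ℝ) ≤ X := by
    have h1 : (0 : ℝ) ≤ n0 := Nat.cast_nonneg _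
    have h2 : (0 : ℝ) ≤ ((∑ i, h i : ℕ) : ℝ) := Nat.cast_nonneg _
    linarith
  have hX0 : 0 < X := by linarith
  have hlogX : 0 < Real.log X := Real.log_pos (by linarith)
  have hlog4 : 0 ≤ Real.log (4 * X) := Real.log_nonneg (by linarith)
  -- the pointwise inequality, summed over i and multiplied by ν
  have hpt : ∀ n ∈ Icc 1 ⌊3 * X⌋₊,
      ∑ i, (nu X (WD D) a n * (th (n + h i) * qq δ D X f M F h i κ n) -
        Real.log (4 * X) * ∑ l, μ l * (nu X (WD D) a n * zz δ D X f ψ M F h i (α l) n ^ 2)) ≤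
      Real.log (4 * X) * (nu X (WD D) a n * ww δ D X f M F h n ^ 2) := by
    intro n hn
    have hn3 : (n : ℝ) ≤ 3 * X := by
      have := (Finset.mem_Icc.1 hn).2
      exact (Nat.le_floor_iff (by linarith)).1 this
    by_cases hnX : (n : ℝ) ≤ X
    · have h0 : nu X (WD D) a n = 0 := by
        unfold nu
        split_ifs
        · apply Phi_eq_zero_of_le (by positivity)
          rw [div_le_one hX0]; exact hnX
        · rfl
      simp [h0]
    · push Not at hnX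
      have hnu := nu_nonneg X (WD D) a n
      have hn0' : n0 < n := by
        have h2 : (0 : ℝ) ≤ ((∑ i, h i : ℕ) : ℝ) := Nat.cast_nonneg _
        have : (n0 : ℝ) < n := by linarith
        exact_mod_cast this
      have hth : ∑ i, th (n + h i) ≤ Real.log (4 * X) := by
        apply crit_sum_th h n _ hlog4 (hno n hn0')
        intro i
        unfold th
        split_ifs with hp
        · apply Real.log_le_log
          · have := hp.pos
            exact_mod_cast this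
          · have h1 : h i ≤ ∑ i, h i :=
              Finset.single_le_sum (f := h) (fun _ _ => Nat.zero_le _) (mem_univ i)
            have h2 : (h i : ℝ) ≤ ((∑ i, h i : ℕ) : ℝ) := by exact_mod_cast h1
            have h3 : (0 : ℝ) ≤ n0 := Nat.cast_nonneg _
            push_cast
            push_cast at h2 hB
            linarith
        · exact hlog4
      calc ∑ i, (nu X (WD D) a n * (th (n + h i) * qq δ D X f M F h i κ n) -
            Real.log (4 * X) * ∑ l, μ l * (nu X (WD D) a n * zz δ D X f ψ M F h i (α l) n ^ 2))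
          = ∑ i, nu X (WD D) a n * (th (n + h i) * qq δ D X f M F h i κ n -
            Real.log (4 * X) * ∑ l, μ l * zz δ D X f ψ M F h i (α l) n ^ 2) := by
            refine Finset.sum_congr rfl fun i _ => ?_
            have : ∑ l, μ l * (nu X (WD D) a n * zz δ D X f ψ M F h i (α l) n ^ 2) =
                nu X (WD D) a n * ∑ l, μ l * zz δ D X f ψ M F h i (α l) n ^ 2 := by
              rw [Finset.mul_sum]
              refine Finset.sum_congr rfl fun l _ => ?_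
              ring
            rw [this]; ring
        _ ≤ ∑ i, nu X (WD D) a n * (th (n + h i) * ww δ D X f M F h n ^ 2) := by
            refine Finset.sum_le_sum fun i _ => ?_
            exact mul_le_mul_of_nonneg_left (hP n hnX hn3 i) hnu
        _ = (∑ i, th (n + h i)) * (nu X (WD D) a n * ww δ D X f M F h n ^ 2) := by
            rw [Finset.sum_mul]
            refine Finset.sum_congr rfl fun i _ => ?_
            ring
        _ ≤ _ := mul_le_mul_of_nonneg_right hth (mul_nonneg hnu (sq_nonneg _))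
  have hsum := Finset.sum_le_sum hpt
  rw [← Finset.mul_sum, Finset.sum_comm] at hsum
  -- abbreviations
  obtain ⟨N, hNdef⟩ : ∃ N : ℝ, N = NN δ D X (K0 + 1) := ⟨_, rfl⟩
  obtain ⟨A, hA⟩ : ∃ A : ℝ, A = ∑ n ∈ Icc 1 ⌊3 * X⌋₊, nu X (WD D) a n * ww δ D X f M F h n ^ 2 :=
    ⟨_, rfl⟩
  obtain ⟨Q, hQd⟩ : ∃ Q : Fin (K0 + 1) → ℝ, ∀ i, Q i = ∑ n ∈ Icc 1 ⌊3 * X⌋₊,
      nu X (WD D) a n * (th (n + h i) * qq δ D X f M F h i κ n) := ⟨_, fun _ => rfl⟩
  obtain ⟨V, hV⟩ : ∃ V : Fin (K0 + 1) → Fin r → ℝ, ∀ i l, V i l = ∑ n ∈ Icc 1 ⌊3 * X⌋₊,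
      nu X (WD D) a n * zz δ D X f ψ M F h i (α l) n ^ 2 := ⟨_, fun _ _ => rfl⟩
  rw [← hA] at hsum
  have hA0 : 0 ≤ A := by
    rw [hA]
    exact Finset.sum_nonneg fun n _ => mul_nonneg (nu_nonneg _ _ _ _) (sq_nonneg _)
  have hV0 : ∀ i l, 0 ≤ V i l := by
    intro i l
    rw [hV]
    exact Finset.sum_nonneg fun n _ => mul_nonneg (nu_nonneg _ _ _ _) (sq_nonneg _)
  have hsum2 : ∑ i, (Q i - Real.log (4 * X) * ∑ l, μ l * V i l) ≤ Real.log (4 * X) * A := by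
    refine le_trans (le_of_eq ?_) hsum
    refine Finset.sum_congr rfl fun i _ => ?_
    rw [Finset.sum_sub_distrib, hQd i, ← Finset.mul_sum, Finset.sum_comm]
    congr 2
    refine Finset.sum_congr rfl fun l _ => ?_
    rw [hV, Finset.mul_sum]
  rw [← hNdef] at hN
  have hW' : A ≤ N * (β ^ (K0 + 1) * SF + δ) := by rw [hA, hNdef]; exact hW
  have hQ' : ∀ i, N * Real.log X * ((1 / 4 - δ) * (β ^ K0 * Sq i) - δ) ≤ Q i := by
    intro i; rw [hNdef, hSq i, hQd i]; exact hQ i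
  have hZ' : ∀ i l, V i l ≤ N * (β ^ K0 * ((1 + κ₀) * Sz l i) + δ) := by
    intro i l; rw [hNdef, hSz l i, hV i l]; exact hZZ i l
  have hNL : 0 < N * Real.log X := mul_pos hN hlogX
  have h1 : Real.log (4 * X) * A ≤ N * Real.log X * ((1 + δ) * (β ^ (K0 + 1) * SF + δ)) := by
    calc Real.log (4 * X) * A ≤ ((1 + δ) * Real.log X) * A := mul_le_mul_of_nonneg_right hL hA0
      _ ≤ ((1 + δ) * Real.log X) * (N * (β ^ (K0 + 1) * SF + δ)) :=
        mul_le_mul_of_nonneg_left hW' (by positivity)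
      _ = _ := by ring
  have h2 : ∀ i l, Real.log (4 * X) * (μ l * V i l) ≤
      N * Real.log X * ((1 + δ) * (μ l * (β ^ K0 * ((1 + κ₀) * Sz l i) + δ))) := by
    intro i l
    have hm := mul_nonneg (hμ l) (hV0 i l)
    calc Real.log (4 * X) * (μ l * V i l) ≤ ((1 + δ) * Real.log X) * (μ l * V i l) :=
          mul_le_mul_of_nonneg_right hL hm
      _ ≤ ((1 + δ) * Real.log X) * (μ l * (N * (β ^ K0 * ((1 + κ₀) * Sz l i) + δ))) :=
        mul_le_mul_of_nonneg_left (mul_le_mul_of_nonneg_left (hZ' i l) (hμ l)) (by positivity)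
      _ = _ := by ring
  have h3 : N * Real.log X * ∑ i, ((1 / 4 - δ) * (β ^ K0 * Sq i) - δ) ≤ ∑ i, Q i := by
    rw [Finset.mul_sum]
    exact Finset.sum_le_sum fun i _ => hQ' i
  have h4 : ∑ i, (Real.log (4 * X) * ∑ l, μ l * V i l) ≤
      N * Real.log X * ((1 + δ) * ∑ i, ∑ l, μ l * (β ^ K0 * ((1 + κ₀) * Sz l i) + δ)) := by
    rw [Finset.mul_sum, Finset.mul_sum]
    refine Finset.sum_le_sum fun i _ => ?_
    rw [Finset.mul_sum, Finset.mul_sum, Finset.mul_sum]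
    exact Finset.sum_le_sum fun l _ => h2 i l
  rw [Finset.sum_sub_distrib] at hsum2
  have h5 := mul_lt_mul_of_pos_left hδg hNL
  rw [mul_add] at h5
  linarith

end Pool.Agent.H95R2.BG
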