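import Mathlib
import Pool.Agent.H95R2.BG.Defs

/-! BG project (helper95): definitions for the quantitative / consecutive versions. -/

open Finset Filter

namespace Pool.Agent.H95R2.BG

open Classical in
/-- the good integers `n ≤ X` in the class `b` mod `Q` -/
noncomputable def goodN {K : ℕ} (h : Fin K → ℕ) (Q b : ℕ) (X : ℝ) : Finset ℕ :=
  (Icc 1 ⌊X⌋₊).filter (fun n => n ≡ b [MOD Q] ∧ ∃ i j, i ≠ j ∧ (n + h i).Prime ∧ (n + h j).Prime)

/-- the statement `DHL[49,2]` with count and class, proved from `layered_count` and the certificate -/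
def Dhl49Count : Prop := ∀ (h : Fin 49 → ℕ), Admissible h → ∀ (Q b : ℕ), Squarefree Q →
  (∀ i, (b + h i).Coprime Q) → ∀ ε : ℝ, 0 < ε → ∀ᶠ X : ℝ in atTop, X ^ (1 - ε) ≤ ((goodN h Q b X).card : ℝ)

end Pool.Agent.H95R2.BG
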