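import Mathlib
import Pool.Agent.H95R2.BG.Defs
import Pool.Agent.Helper112.Arith

/-! BG project: X1, divisor bound for the sieve weight (helper613). -/

open Finset Filter
open scoped ContDiff

namespace Pool.Agent.H95R2.BG

open Pool.Agent.H378R2

/-- the truncated divisor sum is at most the number of divisors -/
theorem X1_vv_le (τ : ℝ) (D : ℕ) (X : ℝ) (f : ℝ → ℝ) (hf : ∀ x, |f x| ≤ 1) (m : ℕ) (hm : 1 ≤ m)
    (x : ℤ) (hx : x = (m : ℤ)) : |vv τ D X f x| ≤ (m.divisors.card : ℝ) := by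
  classical
  unfold vv VVm
  calc |∑ d ∈ adm (PD D) (Rt τ X), if (d : ℤ) ∣ x then
        ((ArithmeticFunction.moebius d : ℤ) : ℝ) * f (Real.log d / Lt τ X) else 0|
      ≤ ∑ d ∈ adm (PD D) (Rt τ X), |if (d : ℤ) ∣ x then
        ((ArithmeticFunction.moebius d : ℤ) : ℝ) * f (Real.log d / Lt τ X) else 0| :=
        abs_sum_le_sum_abs _ _
    _ ≤ ∑ d ∈ adm (PD D) (Rt τ X), if (d : ℤ) ∣ x then (1 : ℝ) else 0 := by
        refine sum_le_sum fun d _ => ?_
        split_ifs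
        · rw [abs_mul]
          have h1 : |((ArithmeticFunction.moebius d : ℤ) : ℝ)| ≤ 1 := by
            exact_mod_cast ArithmeticFunction.abs_moebius_le_one
          have h2 := hf (Real.log d / Lt τ X)
          calc _ ≤ (1 : ℝ) * 1 := mul_le_mul h1 h2 (abs_nonneg _) zero_le_one
            _ = 1 := one_mul 1
        · simp
    _ = (((adm (PD D) (Rt τ X)).filter fun d : ℕ => (d : ℤ) ∣ x).card : ℝ) := by
        rw [sum_ite, sum_const_zero, add_zero, sum_const, nsmul_eq_mul, mul_one]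
    _ ≤ (m.divisors.card : ℝ) := by
        exact_mod_cast card_le_card fun d hd => by
          have h1 := (mem_filter.1 hd).2
          rw [hx] at h1
          exact Nat.mem_divisors.2 ⟨by exact_mod_cast h1, by omega⟩

/-- X1: divisor bound for the sieve weight -/
theorem ww_le {K0 N1 M : ℕ} {f : ℕ → ℝ → ℝ} {β : ℝ} (hN1 : 0 < N1) (hM : M ≤ 2 * N1) (hf : Cells N1 M f β)
    (F : (Fin (K0 + 1) → ℕ) → ℝ) (τ : ℝ) (hτ : 0 < τ) (hτ' : τ < 1 / 8) (D : ℕ) (h : Fin (K0 + 1) → ℕ)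
    (ε : ℝ) (hε : 0 < ε) :
    ∀ᶠ X : ℝ in atTop, ∀ n : ℕ, 1 ≤ n → (n : ℝ) ≤ 3 * X → ww τ D X f M F h n ^ 2 ≤ X ^ ε := by
  classical
  have hK : (0 : ℝ) < (K0 : ℝ) + 1 := by positivity
  set e : ℝ := ε / (4 * ((K0 : ℝ) + 1)) with he
  have he0 : 0 < e := by positivity
  obtain ⟨C, hC0, hC⟩ := Pool.Agent.Helper112.divisor_bound e he0
  set A : ℝ := ∑ c ∈ Box (K0 + 1) M, |F c| with hA
  have hA0 : 0 ≤ A := sum_nonneg fun _ _ => abs_nonneg _
  have ev1 : ∀ᶠ X : ℝ in atTop, (((∑ j, h j : ℕ) : ℝ)) ≤ X := eventually_ge_atTop _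
  have ev2 : ∀ᶠ X : ℝ in atTop,
      (A * C ^ (K0 + 1)) ^ 2 * (4 : ℝ) ^ (ε / 2) ≤ X ^ (ε / 2) :=
    (tendsto_rpow_atTop (by positivity : (0 : ℝ) < ε / 2)).eventually_ge_atTop _
  filter_upwards [ev1, ev2, eventually_gt_atTop (0 : ℝ)] with X hX1 hX2 hX0 n hn hnX
  have hvv : ∀ c ∈ Box (K0 + 1) M, ∀ j, |vv τ D X (f (c j)) ((n : ℤ) + h j)| ≤
      C * (4 * X) ^ e := by
    intro c hc j
    have hcj : c j < M := mem_range.1 (Fintype.mem_piFinset.1 hc j)
    have hg := hf.good (c j) hcj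
    have hmj : 1 ≤ n + h j := by omega
    refine (X1_vv_le τ D X (f (c j)) hg.bdd (n + h j) hmj _ (by push_cast; rfl)).trans
      ((hC (n + h j) hmj).trans ?_)
    refine mul_le_mul_of_nonneg_left (Real.rpow_le_rpow (by positivity) ?_ he0.le) hC0.le
    have h1 : (h j : ℝ) ≤ ((∑ j, h j : ℕ) : ℝ) := by
      exact_mod_cast single_le_sum (f := h) (fun i _ => Nat.zero_le _) (mem_univ j)
    push_cast
    linarith
  have hprod : ∀ c ∈ Box (K0 + 1) M, |prodv τ D X f h c n| ≤ (C * (4 * X) ^ e) ^ (K0 + 1) := by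
    intro c hc
    unfold prodv
    rw [abs_prod]
    calc ∏ j, |vv τ D X (f (c j)) ((n : ℤ) + h j)| ≤ ∏ _j : Fin (K0 + 1), (C * (4 * X) ^ e) :=
          prod_le_prod (fun _ _ => abs_nonneg _) fun j _ => hvv c hc j
      _ = _ := by rw [prod_const, card_univ, Fintype.card_fin]
  have hww : |ww τ D X f M F h n| ≤ A * (C * (4 * X) ^ e) ^ (K0 + 1) := by
    unfold ww
    calc |∑ c ∈ Box (K0 + 1) M, F c * prodv τ D X f h c n|
        ≤ ∑ c ∈ Box (K0 + 1) M, |F c * prodv τ D X f h c n| := abs_sum_le_sum_abs _ _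
      _ ≤ ∑ c ∈ Box (K0 + 1) M, |F c| * (C * (4 * X) ^ e) ^ (K0 + 1) := by
          refine sum_le_sum fun c hc => ?_
          rw [abs_mul]
          exact mul_le_mul_of_nonneg_left (hprod c hc) (abs_nonneg _)
      _ = _ := by rw [hA, sum_mul]
  have hexp : ((4 * X) ^ e) ^ (K0 + 1) = (4 * X) ^ (ε / 4) := by
    rw [← Real.rpow_natCast, ← Real.rpow_mul (by positivity)]
    congr 1
    rw [he]
    push_cast
    field_simp
  have h4 : ((4 * X) ^ (ε / 4)) ^ 2 = (4 : ℝ) ^ (ε / 2) * X ^ (ε / 2) := by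
    rw [← Real.rpow_natCast, ← Real.rpow_mul (by positivity), ← Real.mul_rpow (by norm_num) hX0.le]
    congr 1
    push_cast
    ring
  calc ww τ D X f M F h n ^ 2 = |ww τ D X f M F h n| ^ 2 := (sq_abs _).symm
    _ ≤ (A * (C * (4 * X) ^ e) ^ (K0 + 1)) ^ 2 := pow_le_pow_left₀ (abs_nonneg _) hww 2
    _ = ((A * C ^ (K0 + 1)) ^ 2 * (4 : ℝ) ^ (ε / 2)) * X ^ (ε / 2) := by
        rw [mul_pow C, hexp, ← mul_assoc, mul_pow, h4]
        ring
    _ ≤ X ^ (ε / 2) * X ^ (ε / 2) := mul_le_mul_of_nonneg_right hX2 (by positivity)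
    _ = X ^ ε := by rw [← Real.rpow_add hX0]; congr 1; ring

end Pool.Agent.H95R2.BG
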