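import Mathlib
import Pool.Agent.H95R2.BG.X2Aux
import Pool.Agent.H95R2.BG.X1

/-! BG project (helper95), task X2: the criterion with a count and a residue class (helper30). -/

open Finset Filter
open scoped ContDiff

namespace Pool.Agent.H95R2.BG

open Pool.Agent.H378R2

/-- X2: the criterion with a count and a residue class -/
theorem criterion_count {K0 N1 M R : ℕ} (hN1 : 0 < N1) (hM : M ≤ 2 * N1) (hR : R < 2 * N1)
    (F : (Fin (K0 + 1) → ℕ) → ℝ) (hF : ∀ c, F c ≠ 0 → rad c ≤ R + 1)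
    (r : ℕ) (μ : Fin r → ℝ) (hμ : ∀ l, 0 ≤ μ l) (α : Fin r → ℕ → ℝ) (κ : ℕ → ℕ → ℝ)
    (hpsd : ∀ Y : ℕ → ℝ, ∑ s ∈ range (R + 1), ∑ s' ∈ range (R + 1), κ s s' * (Y s * Y s') ≤
      (∑ s ∈ range (R + 1), Y s) ^ 2 + ∑ l, μ l * (∑ s ∈ range (R + 1), α l s * Y s) ^ 2)
    (hκ : ∀ s s', s ≤ R → s' ≤ R → 2 * N1 < s + s' → κ s s' = 0)
    (hcrit : 4 * N1 * ∑ c ∈ Box (K0 + 1) M, F c ^ 2 <
      ∑ i, ∑ c ∈ Box K0 M, (κ (rad c) (rad c) - 4 * ∑ l, μ l * (α l (rad c) ^ 2 / (2 - (rad c : ℝ) / N1))) *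
        UU M F i c ^ 2)
    (h : Fin (K0 + 1) → ℕ) (hadm : Admissible h) (Q b : ℕ) (hQ : Squarefree Q) (hb : ∀ i, (b + h i).Coprime Q)
    (ε : ℝ) (hε : 0 < ε) :
    ∀ᶠ X : ℝ in atTop, X ^ (1 - ε) ≤ ((goodN h Q b X).card : ℝ) := by
  exact criterion_count_of (fun hN1 hM hf F τ hτ hτ' D h ε hε => ww_le hN1 hM hf F τ hτ hτ' D h ε hε)
    hN1 hM hR F hF r μ hμ α κ hpsd hκ hcrit h hadm Q b hQ hb ε hε

end Pool.Agent.H95R2.BG
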