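import Mathlib
import Pool.Agent.H95R2.BG.LayeredAux
import Pool.Agent.H95R2.BG.Defs2

/-! BG project (helper95), task X3: the layered choice of the multipliers with a count, as a
consequence of the criterion with a count (helper819). -/

open Finset Filter MeasureTheory
open scoped ContDiff

namespace Pool.Agent.H95R2.BG

open Pool.Agent.H378R2

/-- statement of X2 (`criterion_count`) -/
def CriterionCountStm : Prop := ∀ {K0 N1 M R : ℕ} (_hN1 : 0 < N1) (_hM : M ≤ 2 * N1) (_hR : R < 2 * N1)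
    (F : (Fin (K0 + 1) → ℕ) → ℝ) (_hF : ∀ c, F c ≠ 0 → rad c ≤ R + 1)
    (r : ℕ) (μ : Fin r → ℝ) (_hμ : ∀ l, 0 ≤ μ l) (α : Fin r → ℕ → ℝ) (κ : ℕ → ℕ → ℝ)
    (_hpsd : ∀ Y : ℕ → ℝ, ∑ s ∈ range (R + 1), ∑ s' ∈ range (R + 1), κ s s' * (Y s * Y s') ≤
      (∑ s ∈ range (R + 1), Y s) ^ 2 + ∑ l, μ l * (∑ s ∈ range (R + 1), α l s * Y s) ^ 2)
    (_hκ : ∀ s s', s ≤ R → s' ≤ R → 2 * N1 < s + s' → κ s s' = 0)
    (_hcrit : 4 * N1 * ∑ c ∈ Box (K0 + 1) M, F c ^ 2 <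
      ∑ i, ∑ c ∈ Box K0 M, (κ (rad c) (rad c) - 4 * ∑ l, μ l * (α l (rad c) ^ 2 / (2 - (rad c : ℝ) / N1))) *
        UU M F i c ^ 2)
    (h : Fin (K0 + 1) → ℕ) (_hadm : Admissible h) (Q b : ℕ) (_hQ : Squarefree Q)
    (_hb : ∀ i, (b + h i).Coprime Q) (ε : ℝ) (_hε : 0 < ε),
    ∀ᶠ X : ℝ in atTop, X ^ (1 - ε) ≤ ((goodN h Q b X).card : ℝ)

open C4 in
/-- X3 from X2 -/
theorem layered_count_of (hC : CriterionCountStm) {K0 N1 M Dm : ℕ} (hN1 : 0 < N1) (hM : M ≤ 2 * N1)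
    (hDm : Dm < N1)
    (F : (Fin (K0 + 1) → ℕ) → ℝ) (hF : ∀ c, F c ≠ 0 → rad c ≤ N1 + Dm + 1)
    (r : ℕ) (μ : Fin r → ℝ) (hμ : ∀ l, 0 ≤ μ l) (T : Fin r → ℕ) (W : ℕ → ℝ)
    (hW0 : ∀ s, s + Dm ≤ N1 → W s ≤ 1)
    (hWA : ∀ s, N1 < s + Dm → s ≤ N1 →
      W s ≤ 1 - 1 / (1 + 4 / 3 * ∑ l, if T l ≤ N1 - s then μ l else 0))
    (hWB : ∀ s, N1 < s → s ≤ N1 + Dm →
      W s ≤ - (4 * (∑ l, if T l < s - N1 then μ l else 0) / (2 - (s : ℝ) / N1)))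
    (hcrit : 4 * N1 * ∑ c ∈ Box (K0 + 1) M, F c ^ 2 < ∑ i, ∑ c ∈ Box K0 M, W (rad c) * UU M F i c ^ 2)
    (h : Fin (K0 + 1) → ℕ) (hadm : Admissible h) (Q b : ℕ) (hQ : Squarefree Q) (hb : ∀ i, (b + h i).Coprime Q)
    (ε : ℝ) (hε : 0 < ε) :
    ∀ᶠ X : ℝ in atTop, X ^ (1 - ε) ≤ ((goodN h Q b X).card : ℝ) := by
  refine hC (R := N1 + Dm) hN1 hM (by omega) F hF r μ hμ (al N1 Dm μ T) (kk N1 Dm μ T) ?_ ?_ ?_ h hadm
    Q b hQ hb ε hε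
  · intro Y
    exact psd μ hμ (al N1 Dm μ T) (bl N1 Dm μ T) (b0 N1 Dm μ T) Y
  · intro s s' hs hs' hss
    exact kk_zero N1 Dm μ T hμ s s' hs hs' hss
  · refine hcrit.trans_le ?_
    refine Finset.sum_le_sum fun i _ => Finset.sum_le_sum fun c _ => ?_
    rcases le_or_gt (rad c) (N1 + Dm) with hc | hc
    · exact mul_le_mul_of_nonneg_right (diag N1 Dm μ T hN1 hDm hμ W hW0 hWA hWB (rad c) hc) (sq_nonneg _)
    · rw [UU_zero F hF i c hc]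
      simp

end Pool.Agent.H95R2.BG
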