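import Mathlib
import Pool.Agent.H95R2.BG.X2
import Pool.Agent.H95R2.BG.X3Aux

/-! BG project (helper95), task X3 (helper819). -/

open Finset Filter
open scoped ContDiff

namespace Pool.Agent.H95R2.BG

open Pool.Agent.H378R2

/-- X3 -/
theorem layered_count {K0 N1 M Dm : ℕ} (hN1 : 0 < N1) (hM : M ≤ 2 * N1) (hDm : Dm < N1)
    (F : (Fin (K0 + 1) → ℕ) → ℝ) (hF : ∀ c, F c ≠ 0 → rad c ≤ N1 + Dm + 1)
    (r : ℕ) (μ : Fin r → ℝ) (hμ : ∀ l, 0 ≤ μ l) (T : Fin r → ℕ) (W : ℕ → ℝ)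
    (hW0 : ∀ s, s + Dm ≤ N1 → W s ≤ 1)
    (hWA : ∀ s, N1 < s + Dm → s ≤ N1 →
      W s ≤ 1 - 1 / (1 + 4 / 3 * ∑ l, if T l ≤ N1 - s then μ l else 0))
    (hWB : ∀ s, N1 < s → s ≤ N1 + Dm →
      W s ≤ - (4 * (∑ l, if T l < s - N1 then μ l else 0) / (2 - (s : ℝ) / N1)))
    (hcrit : 4 * N1 * ∑ c ∈ Box (K0 + 1) M, F c ^ 2 < ∑ i, ∑ c ∈ Box K0 M, W (rad c) * UU M F i c ^ 2)
    (h : Fin (K0 + 1) → ℕ) (hadm : Admissible h) (Q b : ℕ) (hQ : Squarefree Q) (hb : ∀ i, (b + h i).Coprime Q)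
    (ε : ℝ) (hε : 0 < ε) :
    ∀ᶠ X : ℝ in atTop, X ^ (1 - ε) ≤ ((goodN h Q b X).card : ℝ) :=
  layered_count_of (fun hN1 hM hR F hF r μ hμ α κ hpsd hκ hcrit h hadm Q b hQ hb ε hε =>
    criterion_count hN1 hM hR F hF r μ hμ α κ hpsd hκ hcrit h hadm Q b hQ hb ε hε)
    hN1 hM hDm F hF r μ hμ T W hW0 hWA hWB hcrit h hadm Q b hQ hb ε hε

end Pool.Agent.H95R2.BG
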