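import Mathlib
import Pool.Agent.H95R2.BG.Tuple
import Pool.Agent.H95R2.BG.Defs2

/-! BG project (helper95), tasks X4/X5 (helper93). -/

set_option autoImplicit false

open Finset Filter

namespace Pool.Agent.H95R2.BG

theorem X5_asy (ε : ℝ) (hε : 0 < ε) (C D : ℝ) :
    ∃ δ : ℝ, 0 < δ ∧ ∀ᶠ x : ℝ in atTop, C * x ^ (1 - ε) + D ≤ (x / 2) ^ (1 - δ) := by
  obtain ⟨δ, hδ0, hδ1, hδ2⟩ : ∃ δ : ℝ, 0 < δ ∧ δ < 1 ∧ δ < ε := by
    refine ⟨min (ε / 2) (1 / 2), by positivity, ?_, ?_⟩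
    · exact lt_of_le_of_lt (min_le_right _ _) (by norm_num)
    · exact lt_of_le_of_lt (min_le_left _ _) (by linarith)
  refine ⟨δ, hδ0, ?_⟩
  have t1 : Tendsto (fun x : ℝ => x ^ (-(ε - δ))) atTop (nhds 0) := tendsto_rpow_neg_atTop (by linarith)
  have t2 : Tendsto (fun x : ℝ => x ^ (-(1 - δ))) atTop (nhds 0) := tendsto_rpow_neg_atTop (by linarith)
  have t3 : Tendsto (fun x : ℝ => 2 ^ (1 - δ) * (C * x ^ (-(ε - δ)) + D * x ^ (-(1 - δ)))) atTop (nhds 0) := by
    have := ((t1.const_mul C).add (t2.const_mul D)).const_mul ((2 : ℝ) ^ (1 - δ))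
    simpa using this
  filter_upwards [t3.eventually (gt_mem_nhds (show (0 : ℝ) < 1 by norm_num)), eventually_gt_atTop (0 : ℝ)]
    with x hx hx0
  have h2 : (0 : ℝ) < 2 ^ (1 - δ) := Real.rpow_pos_of_pos (by norm_num) _
  have hxp : (0 : ℝ) < x ^ (1 - δ) := Real.rpow_pos_of_pos hx0 _
  rw [Real.div_rpow hx0.le (by norm_num), le_div_iff₀ h2]
  have e1 : x ^ (1 - ε) = x ^ (-(ε - δ)) * x ^ (1 - δ) := by
    rw [← Real.rpow_add hx0]; congr 1; ring
  have e2 : x ^ (-(1 - δ)) * x ^ (1 - δ) = 1 := by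
    rw [← Real.rpow_add hx0]; simp
  calc (C * x ^ (1 - ε) + D) * 2 ^ (1 - δ)
      = (2 ^ (1 - δ) * (C * x ^ (-(ε - δ)) + D * x ^ (-(1 - δ)))) * x ^ (1 - δ) := by
        rw [e1]
        generalize x ^ (-(ε - δ)) = A at *
        generalize x ^ (-(1 - δ)) = B at *
        generalize x ^ (1 - δ) = E at *
        generalize (2 : ℝ) ^ (1 - δ) = T at *
        linear_combination (-T * D) * e2
    _ ≤ 1 * x ^ (1 - δ) := by
        apply mul_le_mul_of_nonneg_right hx.le hxp.le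
    _ = x ^ (1 - δ) := one_mul _

theorem X5_gap (n a b : ℕ) (hab : a < b) (hb : b ≤ 240) (hpa : (n + a).Prime) (hpb : (n + b).Prime) :
    n ≤ Nat.nth Nat.Prime (Nat.count Nat.Prime n) ∧ Nat.nth Nat.Prime (Nat.count Nat.Prime n) ≤ n + 240 ∧
    Nat.nth Nat.Prime (Nat.count Nat.Prime n + 1) ≤ n + 240 := by
  have h1 : Nat.count Nat.Prime n ≤ Nat.count Nat.Prime (n + a) := Nat.count_monotone _ (by omega)
  have h2 : Nat.count Nat.Prime (n + a + 1) = Nat.count Nat.Prime (n + a) + 1 := by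
    rw [Nat.count_succ, if_pos hpa]
  have h3 : Nat.count Nat.Prime (n + a + 1) ≤ Nat.count Nat.Prime (n + b) := Nat.count_monotone _ (by omega)
  have h4 : Nat.count Nat.Prime (n + b + 1) = Nat.count Nat.Prime (n + b) + 1 := by
    rw [Nat.count_succ, if_pos hpb]
  have h5 : Nat.nth Nat.Prime (Nat.count Nat.Prime n + 1) < n + b + 1 := Nat.nth_lt_of_lt_count (by omega)
  have h6 : Nat.nth Nat.Prime (Nat.count Nat.Prime n) < n + b + 1 := Nat.nth_lt_of_lt_count (by omega)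
  exact ⟨Nat.le_nth_count Nat.infinite_setOfPred_prime n, by omega, by omega⟩

open Classical in
/-- X5: many gaps at most 240 -/
theorem gaps240_of_count (H : Dhl49Count) (ε : ℝ) (hε : 0 < ε) :
    ∀ᶠ x : ℝ in atTop, x ^ (1 - ε) ≤ (((Icc 1 ⌊x⌋₊).filter (fun n : ℕ =>
      Nat.nth Nat.Prime n ≤ x ∧ Nat.nth Nat.Prime (n + 1) - Nat.nth Nat.Prime n ≤ 240)).card : ℝ) := by
  obtain ⟨δ, hδ, hasy⟩ := X5_asy ε hε 241 2
  have h1 := H tup tup_admissible 1 0 squarefree_one (fun i => Nat.coprime_one_right _) δ hδ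
  have h2 : Tendsto (fun x : ℝ => x / 2) atTop atTop := tendsto_id.atTop_div_const (by norm_num)
  filter_upwards [hasy, h2.eventually h1, eventually_ge_atTop (480 : ℝ)] with x hx1 hx2 hx3
  set T := (Icc 1 ⌊x⌋₊).filter (fun n : ℕ =>
      (Nat.nth Nat.Prime n : ℝ) ≤ x ∧ Nat.nth Nat.Prime (n + 1) - Nat.nth Nat.Prime n ≤ 240) with hT
  set S := (goodN tup 1 0 (x / 2)) \ {1, 2} with hS
  have hgood : ∀ n ∈ S, 3 ≤ n ∧ (n : ℝ) ≤ x / 2 ∧ (n ≤ Nat.nth Nat.Prime (Nat.count Nat.Prime n) ∧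
      Nat.nth Nat.Prime (Nat.count Nat.Prime n) ≤ n + 240 ∧
      Nat.nth Nat.Prime (Nat.count Nat.Prime n + 1) ≤ n + 240) := by
    intro n hn
    rw [hS, Finset.mem_sdiff] at hn
    obtain ⟨hn1, hn2⟩ := hn
    rw [goodN, Finset.mem_filter, Finset.mem_Icc] at hn1
    obtain ⟨⟨h1n, hnx⟩, -, i, j, hij, hi, hj⟩ := hn1
    have hn3 : n ≠ 1 ∧ n ≠ 2 := by
      constructor
      · rintro rfl; exact hn2 (by simp)
      · rintro rfl; exact hn2 (by simp)
    refine ⟨by omega, ?_, ?_⟩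
    · exact (Nat.le_floor_iff (by linarith)).mp hnx
    · rcases lt_or_gt_of_ne (fun h => hij (tup_admissible.1 h) : tup i ≠ tup j) with h | h
      · exact X5_gap n _ _ h (tup_le j) hi hj
      · exact X5_gap n _ _ h (tup_le i) hj hi
  have himg : S.image (fun n => Nat.count Nat.Prime n) ⊆ T := by
    intro m hm
    obtain ⟨n, hn, rfl⟩ := Finset.mem_image.mp hm
    obtain ⟨g1, g2, g3, g4, g5⟩ := hgood n hn
    rw [hT, Finset.mem_filter, Finset.mem_Icc]
    refine ⟨⟨?_, ?_⟩, ?_, ?_⟩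
    · have : Nat.count Nat.Prime 3 ≤ Nat.count Nat.Prime n := Nat.count_monotone _ g1
      have h3 : Nat.count Nat.Prime 3 = 1 := by decide
      omega
    · rw [Nat.le_floor_iff (by linarith)]
      have : Nat.count Nat.Prime n ≤ n := Nat.count_le _
      have : (Nat.count Nat.Prime n : ℝ) ≤ n := by exact_mod_cast this
      linarith
    · have : (Nat.nth Nat.Prime (Nat.count Nat.Prime n) : ℝ) ≤ n + 240 := by exact_mod_cast g4
      linarith
    · omega
  have hfib : ∀ m ∈ S.image (fun n => Nat.count Nat.Prime n),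
      (S.filter (fun n => Nat.count Nat.Prime n = m)).card ≤ 241 := by
    intro m _
    have : S.filter (fun n => Nat.count Nat.Prime n = m) ⊆
        Finset.Icc (Nat.nth Nat.Prime m - 240) (Nat.nth Nat.Prime m) := by
      intro n hn
      rw [Finset.mem_filter] at hn
      obtain ⟨hnS, hnm⟩ := hn
      obtain ⟨g1, g2, g3, g4, g5⟩ := hgood n hnS
      rw [hnm] at g3 g4
      rw [Finset.mem_Icc]
      omega
    refine (Finset.card_le_card this).trans ?_
    rw [Nat.card_Icc]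
    omega
  have hcard : S.card ≤ 241 * (S.image (fun n => Nat.count Nat.Prime n)).card :=
    Finset.card_le_mul_card_image S 241 hfib
  have hcard2 : S.card ≤ 241 * T.card := hcard.trans (Nat.mul_le_mul_left _ (Finset.card_le_card himg))
  have hcard3 : (goodN tup 1 0 (x / 2)).card ≤ S.card + 2 := by
    have h5 := Finset.le_card_sdiff ({1, 2} : Finset ℕ) (goodN tup 1 0 (x / 2))
    have h6 : ({1, 2} : Finset ℕ).card ≤ 2 := Finset.card_le_two
    rw [← hS] at h5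
    omega
  have hcard4 : ((goodN tup 1 0 (x / 2)).card : ℝ) ≤ 241 * (T.card : ℝ) + 2 := by
    have : (goodN tup 1 0 (x / 2)).card ≤ 241 * T.card + 2 := by omega
    exact_mod_cast this
  linarith

end Pool.Agent.H95R2.BG
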