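import Mathlib
import Pool.Agent.H95R2.BG.X3
import Pool.Agent.H95R2.BG.X4
import Pool.Agent.H95R2.BG.X5
import Pool.Agent.H95R2.BG.K4
import Pool.Agent.H95R2.BG.K5
import Pool.Agent.H95R2.BG.K7

/-! BG project (helper95): `DHL[49,2]` with a count, in residue classes, with consecutive primes. -/

open Finset Filter

namespace Pool.Agent.H95R2.BG

theorem dhl49_count : Dhl49Count := fun h hadm Q b hQ hb ε hε =>
  layered_count (K0 := 48) (N1 := 30895) (M := 32768) (Dm := 1920) (by norm_num) (by norm_num) (by norm_num)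
    Cert.FF (fun c hc => Cert.FF_supp c hc) 30 Cert.mul Cert.mul_nonneg' (fun l => 64 * (l : ℕ)) Cert.WW
    Cert.WW_X Cert.WW_A Cert.WW_B Cert.crit49 h hadm Q b hQ hb ε hε

open Classical in
/-- at least `x^(1-ε)` of the `n ≤ x` have two primes among `n + a i` and no other prime in the interval spanned -/
theorem dhl49_consecutive (a : Fin 49 → ℤ) (hinj : Function.Injective a)
    (hadm : ∀ p : ℕ, p.Prime → ∃ r : ℤ, ∀ i, ¬ (p : ℤ) ∣ r + a i) (ε : ℝ) (hε : 0 < ε) :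
    ∀ᶠ x : ℝ in atTop, x ^ (1 - ε) ≤ (((Icc 1 ⌊x⌋₊).filter (fun n : ℕ =>
      (∃ i j, i ≠ j ∧ ∃ p q : ℕ, p.Prime ∧ q.Prime ∧ (p : ℤ) = n + a i ∧ (q : ℤ) = n + a j) ∧
      ∀ p : ℕ, p.Prime → (∃ i j, (n : ℤ) + a i ≤ p ∧ (p : ℤ) ≤ n + a j) → ∃ i, (p : ℤ) = n + a i)).card : ℝ) :=
  consecutive_of_count dhl49_count a hinj hadm ε hε

open Classical in
/-- many gaps at most 240 -/
theorem gaps240 (ε : ℝ) (hε : 0 < ε) :
    ∀ᶠ x : ℝ in atTop, x ^ (1 - ε) ≤ (((Icc 1 ⌊x⌋₊).filter (fun n : ℕ =>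
      Nat.nth Nat.Prime n ≤ x ∧ Nat.nth Nat.Prime (n + 1) - Nat.nth Nat.Prime n ≤ 240)).card : ℝ) :=
  gaps240_of_count dhl49_count ε hε

end Pool.Agent.H95R2.BG
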