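import Mathlib
import Pool.Agent.H95R2.BG.FinalL

/-! BG project (helper95): 49 linear forms with integer coefficients, a fixed pair. -/

open Finset Filter

namespace Pool.Agent.H95R2.BG.LF

/-- pigeonhole for counting functions -/
theorem pigeon {ι : Type*} [Fintype ι] [Nonempty ι] (G : ι → ℝ → ℝ)
    (h : ∀ ε : ℝ, 0 < ε → ∀ᶠ x : ℝ in atTop, x ^ (1 - ε) ≤ ∑ i, G i x) :
    ∃ i, ∀ ε : ℝ, 0 < ε → ∃ᶠ x : ℝ in atTop, x ^ (1 - ε) ≤ G i x := by
  by_contra hcon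
  push Not at hcon
  choose e he0 he using hcon
  obtain ⟨i0, -, hmin⟩ := Finset.exists_min_image (Finset.univ : Finset ι) e Finset.univ_nonempty
  have hall : ∀ᶠ x : ℝ in atTop, ∀ i, G i x < x ^ (1 - e i) := by
    rw [Filter.eventually_all]
    exact he
  have h1 : Tendsto (fun x : ℝ => x ^ (e i0 / 2)) atTop atTop := tendsto_rpow_atTop (by linarith [he0 i0])
  obtain ⟨x, hx1, hx2, hx3, hx4⟩ := ((h (e i0 / 2) (by linarith [he0 i0])).and (hall.and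
    ((eventually_ge_atTop (1 : ℝ)).and (h1.eventually (eventually_ge_atTop ((Fintype.card ι : ℝ) + 1)))))).exists
  have hx0 : (0 : ℝ) < x := by linarith
  have h2 : ∑ i, G i x ≤ (Fintype.card ι : ℝ) * x ^ (1 - e i0) := by
    calc ∑ i, G i x ≤ ∑ _i : ι, x ^ (1 - e i0) := Finset.sum_le_sum fun i _ =>
          (hx2 i).le.trans (Real.rpow_le_rpow_of_exponent_le hx3 (by linarith [hmin i (Finset.mem_univ _)]))
      _ = (Fintype.card ι : ℝ) * x ^ (1 - e i0) := by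
          rw [Finset.sum_const, Finset.card_univ, nsmul_eq_mul]
  have h3 : x ^ (1 - e i0 / 2) = x ^ (e i0 / 2) * x ^ (1 - e i0) := by
    rw [← Real.rpow_add hx0]; congr 1; ring
  have h4 : 0 < x ^ (1 - e i0) := Real.rpow_pos_of_pos hx0 _
  rw [h3] at hx1
  nlinarith

open Classical in
theorem forms49 (a b : Fin 49 → ℤ) (ha : ∀ i, 0 < a i) (hne : ∀ i j, i ≠ j → a i * b j ≠ a j * b i)
    (hadm : ∀ p : ℕ, p.Prime → ∃ n : ℤ, ∀ i, ¬ (p : ℤ) ∣ a i * n + b i) (ε : ℝ) (hε : 0 < ε) :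
    ∀ᶠ x : ℝ in atTop, x ^ (1 - ε) ≤ (((Icc 1 ⌊x⌋₊).filter (fun n : ℕ =>
      ∃ i j, i ≠ j ∧ ∃ p q : ℕ, p.Prime ∧ q.Prime ∧ (p : ℤ) = a i * n + b i ∧ (q : ℤ) = a j * n + b j)).card : ℝ) := by
  -- shift to natural coefficients
  obtain ⟨t, ht⟩ : ∃ t : ℕ, ∀ i, 0 ≤ a i * t + b i := by
    obtain ⟨i0, -, hi0⟩ := Finset.exists_max_image (Finset.univ : Finset (Fin 49)) (fun i => (-b i).toNat)
      ⟨0, Finset.mem_univ _⟩
    refine ⟨(-b i0).toNat, fun i => ?_⟩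
    have h1 : -b i ≤ ((-b i).toNat : ℤ) := Int.self_le_toNat _
    have h2 : ((-b i).toNat : ℤ) ≤ ((-b i0).toNat : ℤ) := by exact_mod_cast hi0 i (Finset.mem_univ _)
    have h3 : (0 : ℤ) ≤ ((-b i0).toNat : ℤ) := Int.natCast_nonneg _
    have h4 := ha i
    nlinarith
  set A : Fin 49 → ℕ := fun i => (a i).toNat with hA
  set B : Fin 49 → ℕ := fun i => (a i * t + b i).toNat with hB
  have cA : ∀ i, (A i : ℤ) = a i := fun i => Int.toNat_of_nonneg (ha i).le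
  have cB : ∀ i, (B i : ℤ) = a i * t + b i := fun i => Int.toNat_of_nonneg (ht i)
  have hAB : AdmissibleL A B := by
    refine ⟨fun i => ?_, fun i j hij h => hne i j hij ?_, fun p hp => ?_⟩
    · have : (1 : ℤ) ≤ A i := by rw [cA]; exact ha i
      exact_mod_cast this
    · have h1 : (A i : ℤ) * B j = A j * B i := by exact_mod_cast h
      rw [cA, cA, cB, cB] at h1
      linarith
    · obtain ⟨n, hn⟩ := hadm p hp
      have hp0 : (p : ℤ) ≠ 0 := by exact_mod_cast hp.ne_zero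
      refine ⟨((n - t) % p).toNat, fun i hd => hn i ?_⟩
      have h3 : (((n - t) % p).toNat : ℤ) = (n - t) % p := Int.toNat_of_nonneg (Int.emod_nonneg _ hp0)
      have h4 : (p : ℤ) ∣ (A i : ℤ) * (((n - t) % p).toNat : ℤ) + B i := by exact_mod_cast hd
      rw [h3, cA, cB] at h4
      have h5 : a i * n + b i = (a i * ((n - t) % p) + (a i * t + b i)) + p * (a i * ((n - t) / p)) := by
        have := Int.emod_add_mul_ediv (n - t) p
        have h6 : n = (n - t) % p + p * ((n - t) / p) + t := by linarith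
        calc a i * n + b i = a i * ((n - t) % p + p * ((n - t) / p) + t) + b i := by rw [← h6]
          _ = _ := by ring
      rw [h5]
      exact dvd_add h4 (dvd_mul_right _ _)
  -- asymptotics
  have hδ : (0 : ℝ) < min (ε / 2) (1 / 2) := by positivity
  set δ := min (ε / 2) (1 / 2) with hδdef
  have hδ1 : δ ≤ ε / 2 := min_le_left _ _
  have hδ2 : δ ≤ 1 / 2 := min_le_right _ _
  have h2 : Tendsto (fun x : ℝ => x / 2) atTop atTop := tendsto_id.atTop_div_const (by norm_num)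
  have h3 : Tendsto (fun x : ℝ => x ^ (ε / 2)) atTop atTop := tendsto_rpow_atTop (by linarith)
  filter_upwards [h2.eventually (dhl49L A B hAB δ hδ), h3.eventually (eventually_ge_atTop (2 : ℝ)),
    eventually_ge_atTop (1 : ℝ), eventually_ge_atTop (2 * (t : ℝ) + 2)] with x hx1 hx2 hx3 hx4
  have hx0 : (0 : ℝ) < x := by linarith
  -- injection n ↦ n + t
  have hcard : (goodL A B (x / 2)).card ≤ ((Icc 1 ⌊x⌋₊).filter (fun n : ℕ =>
      ∃ i j, i ≠ j ∧ ∃ p q : ℕ, p.Prime ∧ q.Prime ∧ (p : ℤ) = a i * n + b i ∧ (q : ℤ) = a j * n + b j)).card := by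
    apply Finset.card_le_card_of_injOn (fun n => n + t)
    · intro n hn
      rw [Finset.mem_coe, goodL, Finset.mem_filter, Finset.mem_Icc] at hn
      obtain ⟨⟨hn1, hn2⟩, i, j, hij, hi, hj⟩ := hn
      rw [Finset.mem_coe, Finset.mem_filter, Finset.mem_Icc]
      have hn3 : (n : ℝ) ≤ x / 2 := (Nat.le_floor_iff (by linarith)).mp hn2
      refine ⟨⟨Nat.le_add_right_of_le hn1, (Nat.le_floor_iff hx0.le).mpr (by push_cast; linarith)⟩, i, j, hij, _, _, hi, hj, ?_, ?_⟩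
      · push_cast; rw [cA, cB]; ring
      · push_cast; rw [cA, cB]; ring
    · intro n _ n' _ h
      simpa using h
  have h5 : (x / 2) ^ (1 - δ) ≤ (((Icc 1 ⌊x⌋₊).filter (fun n : ℕ =>
      ∃ i j, i ≠ j ∧ ∃ p q : ℕ, p.Prime ∧ q.Prime ∧ (p : ℤ) = a i * n + b i ∧ (q : ℤ) = a j * n + b j)).card : ℝ) :=
    hx1.trans (by exact_mod_cast hcard)
  refine le_trans ?_ h5
  rw [Real.div_rpow hx0.le (by norm_num), le_div_iff₀ (Real.rpow_pos_of_pos (by norm_num) _)]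
  have h6 : (2 : ℝ) ^ (1 - δ) ≤ 2 := by
    calc (2 : ℝ) ^ (1 - δ) ≤ 2 ^ (1 : ℝ) := Real.rpow_le_rpow_of_exponent_le (by norm_num) (by linarith)
      _ = 2 := Real.rpow_one 2
  have h7 : x ^ (1 - ε) * x ^ (ε / 2) = x ^ (1 - ε / 2) := by
    rw [← Real.rpow_add hx0]; congr 1; ring
  have h8 : 0 < x ^ (1 - ε) := Real.rpow_pos_of_pos hx0 _
  calc x ^ (1 - ε) * 2 ^ (1 - δ) ≤ x ^ (1 - ε) * x ^ (ε / 2) :=
        mul_le_mul_of_nonneg_left (h6.trans hx2) h8.le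
    _ = x ^ (1 - ε / 2) := h7
    _ ≤ x ^ (1 - δ) := Real.rpow_le_rpow_of_exponent_le hx3 (by linarith)

open Classical in
/-- a fixed pair of forms -/
theorem forms49_pair (a b : Fin 49 → ℤ) (ha : ∀ i, 0 < a i) (hne : ∀ i j, i ≠ j → a i * b j ≠ a j * b i)
    (hadm : ∀ p : ℕ, p.Prime → ∃ n : ℤ, ∀ i, ¬ (p : ℤ) ∣ a i * n + b i) :
    ∃ i j, i ≠ j ∧ ∀ ε : ℝ, 0 < ε → ∃ᶠ x : ℝ in atTop, x ^ (1 - ε) ≤
      (Set.ncard {n : ℕ | (n : ℝ) ≤ x ∧ ∃ p q : ℕ, p.Prime ∧ q.Prime ∧ (p : ℤ) = a i * n + b i ∧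
        (q : ℤ) = a j * n + b j} : ℝ) := by
  have hfin : ∀ (P : ℕ → Prop) (x : ℝ), {n : ℕ | (n : ℝ) ≤ x ∧ P n}.Finite := by
    intro P x
    apply (Set.finite_Iic ⌊x⌋₊).subset
    rintro n ⟨hn, -⟩
    rw [Set.mem_Iic]
    exact Nat.le_floor hn
  have hne1 : Nonempty {ij : Fin 49 × Fin 49 // ij.1 ≠ ij.2} := ⟨⟨(0, 1), by decide⟩⟩
  obtain ⟨⟨⟨i, j⟩, hij⟩, h⟩ := pigeon (ι := {ij : Fin 49 × Fin 49 // ij.1 ≠ ij.2})
    (fun ij x => (Set.ncard {n : ℕ | (n : ℝ) ≤ x ∧ ∃ p q : ℕ, p.Prime ∧ q.Prime ∧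
      (p : ℤ) = a ij.1.1 * n + b ij.1.1 ∧ (q : ℤ) = a ij.1.2 * n + b ij.1.2} : ℝ)) (by
    intro ε hε
    filter_upwards [forms49 a b ha hne hadm ε hε, eventually_ge_atTop (0 : ℝ)] with x hx hx0
    refine hx.trans ?_
    rw [← Set.ncard_coe_finset]
    have hsub : (((Icc 1 ⌊x⌋₊).filter (fun n : ℕ =>
      ∃ i j, i ≠ j ∧ ∃ p q : ℕ, p.Prime ∧ q.Prime ∧ (p : ℤ) = a i * n + b i ∧ (q : ℤ) = a j * n + b j) : Finset ℕ) :
        Set ℕ) ⊆ ⋃ ij : {ij : Fin 49 × Fin 49 // ij.1 ≠ ij.2}, {n : ℕ | (n : ℝ) ≤ x ∧ ∃ p q : ℕ, p.Prime ∧ q.Prime ∧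
      (p : ℤ) = a ij.1.1 * n + b ij.1.1 ∧ (q : ℤ) = a ij.1.2 * n + b ij.1.2} := by
      intro n hn
      rw [Finset.mem_coe, Finset.mem_filter, Finset.mem_Icc] at hn
      obtain ⟨⟨hn1, hn2⟩, i, j, hij, hpq⟩ := hn
      rw [Set.mem_iUnion]
      exact ⟨⟨(i, j), hij⟩, (Nat.le_floor_iff hx0).mp hn2, hpq⟩
    have h1 := (Set.ncard_le_ncard hsub (Set.finite_iUnion fun ij => hfin _ x)).trans
      (Set.ncard_iUnion_le_of_fintype _)
    exact_mod_cast h1)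
  exact ⟨i, j, hij, h⟩

end Pool.Agent.H95R2.BG.LF
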