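import Mathlib
import Pool.Agent.H95R2.BG.FormPairs

/-! BG project (helper95): 49 linear forms, counting the primes, ordered pair. -/

open Finset Filter

namespace Pool.Agent.H95R2.BG.LF

/-- a fixed ordered pair `i < j`; the first primes are counted -/
theorem forms49_primes (a b : Fin 49 → ℤ) (ha : ∀ i, 0 < a i) (hne : ∀ i j, i ≠ j → a i * b j ≠ a j * b i)
    (hadm : ∀ p : ℕ, p.Prime → ∃ n : ℤ, ∀ i, ¬ (p : ℤ) ∣ a i * n + b i) :
    ∃ i j, i < j ∧ ∀ ε : ℝ, 0 < ε → ∃ᶠ x : ℝ in atTop, x ^ (1 - ε) ≤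
      (Set.ncard {p : ℕ | (p : ℝ) ≤ x ∧ p.Prime ∧ ∃ n q : ℕ, q.Prime ∧ (p : ℤ) = a i * n + b i ∧
        (q : ℤ) = a j * n + b j} : ℝ) := by
  obtain ⟨i, j, hij, h⟩ : ∃ i j, i < j ∧ ∀ ε : ℝ, 0 < ε → ∃ᶠ x : ℝ in atTop, x ^ (1 - ε) ≤
      (Set.ncard {n : ℕ | (n : ℝ) ≤ x ∧ ∃ p q : ℕ, p.Prime ∧ q.Prime ∧ (p : ℤ) = a i * n + b i ∧
        (q : ℤ) = a j * n + b j} : ℝ) := by
    obtain ⟨i, j, hij, h⟩ := forms49_pair a b ha hne hadm
    rcases lt_or_gt_of_ne hij with h1 | h1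
    · exact ⟨i, j, h1, h⟩
    · refine ⟨j, i, h1, fun ε hε => ?_⟩
      have h2 := h ε hε
      have hset : ∀ x : ℝ, {n : ℕ | (n : ℝ) ≤ x ∧ ∃ p q : ℕ, p.Prime ∧ q.Prime ∧ (p : ℤ) = a i * n + b i ∧
          (q : ℤ) = a j * n + b j} = {n : ℕ | (n : ℝ) ≤ x ∧ ∃ p q : ℕ, p.Prime ∧ q.Prime ∧ (p : ℤ) = a j * n + b j ∧
          (q : ℤ) = a i * n + b i} := by
        intro x
        ext n
        simp only [Set.mem_ofPred_eq, and_congr_right_iff]
        intro _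
        constructor
        · rintro ⟨p, q, hp, hq, h3, h4⟩; exact ⟨q, p, hq, hp, h4, h3⟩
        · rintro ⟨p, q, hp, hq, h3, h4⟩; exact ⟨q, p, hq, hp, h4, h3⟩
      simp only [hset] at h2
      exact h2
  refine ⟨i, j, hij, fun ε hε => ?_⟩
  set C : ℝ := (a i : ℝ) + |(b i : ℝ)| + 1 with hC
  have hai : (1 : ℝ) ≤ a i := by exact_mod_cast ha i
  have hC1 : 1 ≤ C := by have := abs_nonneg (b i : ℝ); linarith
  -- pass from `x` to `y = C x`
  have h3 : Tendsto (fun x : ℝ => x ^ (ε / 2)) atTop atTop := tendsto_rpow_atTop (by linarith)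
  rw [Filter.frequently_atTop]
  intro y0
  obtain ⟨x, hx0, hx1⟩ := (Filter.frequently_atTop.mp ((h (ε / 2) (by linarith)).and_eventually
    ((eventually_ge_atTop (max y0 1)).and (h3.eventually (eventually_ge_atTop (C + 1)))))) 1
  obtain ⟨hx1, hx2, hx3⟩ := hx1
  have hxp : (0 : ℝ) < x := by linarith
  have hx1' : 1 ≤ x := hx0
  refine ⟨C * x, ?_, ?_⟩
  · have : y0 ≤ x := le_trans (le_max_left _ _) hx2
    nlinarith
  · have h5 : (C * x) ^ (1 - ε) ≤ x ^ (1 - ε / 2) := by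
      have h6 : (C * x) ^ (1 - ε) = C ^ (1 - ε) * x ^ (1 - ε) := Real.mul_rpow (by linarith) hxp.le
      have h7 : C ^ (1 - ε) ≤ C := by
        calc C ^ (1 - ε) ≤ C ^ (1 : ℝ) := Real.rpow_le_rpow_of_exponent_le hC1 (by linarith)
          _ = C := Real.rpow_one C
      have h8 : x ^ (1 - ε / 2) = x ^ (ε / 2) * x ^ (1 - ε) := by
        rw [← Real.rpow_add hxp]; congr 1; ring
      rw [h6, h8]
      exact mul_le_mul_of_nonneg_right (by linarith) (Real.rpow_nonneg hxp.le _)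
    refine h5.trans (hx1.trans ?_)
    have hfin : {p : ℕ | (p : ℝ) ≤ C * x ∧ p.Prime ∧ ∃ n q : ℕ, q.Prime ∧ (p : ℤ) = a i * n + b i ∧
        (q : ℤ) = a j * n + b j}.Finite := by
      apply (Set.finite_Iic ⌊C * x⌋₊).subset
      rintro n ⟨hn, -⟩
      rw [Set.mem_Iic]
      exact Nat.le_floor hn
    have hle : ({n : ℕ | (n : ℝ) ≤ x ∧ ∃ p q : ℕ, p.Prime ∧ q.Prime ∧ (p : ℤ) = a i * n + b i ∧
        (q : ℤ) = a j * n + b j}).ncard ≤ ({p : ℕ | (p : ℝ) ≤ C * x ∧ p.Prime ∧ ∃ n q : ℕ, q.Prime ∧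
        (p : ℤ) = a i * n + b i ∧ (q : ℤ) = a j * n + b j}).ncard := by
      apply Set.ncard_le_ncard_of_injOn (fun n : ℕ => (a i * n + b i).toNat) _ _ hfin
      · rintro n ⟨hn, p, q, hp, hq, h9, h10⟩
        have e : (a i * n + b i).toNat = p := by rw [← h9]; simp
        show (((a i * n + b i).toNat : ℕ) : ℝ) ≤ C * x ∧ ((a i * n + b i).toNat).Prime ∧ _
        rw [e]
        refine ⟨?_, hp, n, q, hq, h9, h10⟩
        have h11 : (p : ℝ) = a i * n + b i := by exact_mod_cast h9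
        rw [h11]
        have h12 : (b i : ℝ) ≤ |(b i : ℝ)| := le_abs_self _
        have h13 := abs_nonneg (b i : ℝ)
        have h14 : (0 : ℝ) ≤ a i := by linarith
        nlinarith [mul_le_mul_of_nonneg_left hn h14]
      · rintro n ⟨hn, p, q, hp, hq, h9, h10⟩ n' ⟨hn', p', q', hp', hq', h9', h10'⟩ h15
        have h15' : (a i * n + b i).toNat = (a i * n' + b i).toNat := h15
        rw [← h9, ← h9', Int.toNat_natCast, Int.toNat_natCast] at h15'
        have h16 : a i * (n : ℤ) = a i * n' := by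
          have : (p : ℤ) = p' := by exact_mod_cast h15'
          linarith
        have h17 : (n : ℤ) = n' := mul_left_cancel₀ (ha i).ne' h16
        exact_mod_cast h17
    exact_mod_cast hle

end Pool.Agent.H95R2.BG.LF
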