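import Mathlib
import Pool.Agent.H95R2.BG.Final2

/-! BG project (helper95): differences of consecutive primes from admissible 49-tuples. -/

open Finset Filter

namespace Pool.Agent.H95R2.BG

/-- indices `m` with `p_m ≤ x` and `p_{m+1} - p_m = d` -/
def gapSet (d : ℤ) (x : ℝ) : Set ℕ :=
  {m : ℕ | (Nat.nth Nat.Prime m : ℝ) ≤ x ∧ (Nat.nth Nat.Prime (m + 1) : ℤ) - Nat.nth Nat.Prime m = d}

theorem gapSet_finite (d : ℤ) (x : ℝ) : (gapSet d x).Finite := by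
  rcases lt_or_ge x 0 with hx | hx
  · have : gapSet d x = ∅ := by
      ext m
      simp only [gapSet, Set.mem_ofPred_eq, Set.mem_empty_iff_false, iff_false, not_and]
      intro h
      exfalso
      have : (0 : ℝ) ≤ (Nat.nth Nat.Prime m : ℝ) := Nat.cast_nonneg _
      linarith
    rw [this]
    exact Set.finite_empty
  · apply (Set.finite_Iic ⌊x⌋₊).subset
    rintro n ⟨hn, -⟩
    rw [Set.mem_Iic, Nat.le_floor_iff hx]
    refine le_trans ?_ hn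
    exact_mod_cast (Nat.nth_strictMono Nat.infinite_setOfPred_prime).le_apply

theorem gapSet_mono (d : ℤ) {x y : ℝ} (h : x ≤ y) : (gapSet d x).ncard ≤ (gapSet d y).ncard :=
  Set.ncard_le_ncard (fun _ hm => ⟨hm.1.trans h, hm.2⟩) (gapSet_finite d y)

/-- two primes `n + a i₀ < n + a j₀` and no further primes outside the tuple give consecutive primes -/
theorem consec_pair (a : Fin 49 → ℤ) (n : ℕ)
    (h1 : ∃ i j, i ≠ j ∧ ∃ p q : ℕ, p.Prime ∧ q.Prime ∧ (p : ℤ) = n + a i ∧ (q : ℤ) = n + a j)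
    (hinj : Function.Injective a)
    (h2 : ∀ p : ℕ, p.Prime → (∃ i j, (n : ℤ) + a i ≤ p ∧ (p : ℤ) ≤ n + a j) → ∃ i, (p : ℤ) = n + a i) :
    ∃ i j, a i < a j ∧ ∃ m : ℕ, (Nat.nth Nat.Prime m : ℤ) = n + a i ∧ (Nat.nth Nat.Prime (m + 1) : ℤ) = n + a j := by
  obtain ⟨i, j, p, q, hp, hq, hpi, hqj, hpq⟩ : ∃ i j, ∃ p q : ℕ, p.Prime ∧ q.Prime ∧ (p : ℤ) = n + a i ∧
      (q : ℤ) = n + a j ∧ p < q := by
    obtain ⟨i, j, hij, p, q, hp, hq, hpi, hqj⟩ := h1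
    rcases lt_trichotomy p q with h | h | h
    · exact ⟨i, j, p, q, hp, hq, hpi, hqj, h⟩
    · exfalso
      apply hij
      apply hinj
      have : (p : ℤ) = q := by rw [h]
      linarith
    · exact ⟨j, i, q, p, hq, hp, hqj, hpi, h⟩
  set m := Nat.count Nat.Prime p with hm
  have e1 : Nat.nth Nat.Prime m = p := Nat.nth_count hp
  have c1 : Nat.count Nat.Prime (p + 1) = m + 1 := by rw [Nat.count_succ, if_pos hp]
  have c2 : Nat.count Nat.Prime (p + 1) ≤ Nat.count Nat.Prime q := Nat.count_monotone _ (by omega)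
  have c3 : Nat.count Nat.Prime (q + 1) = Nat.count Nat.Prime q + 1 := by rw [Nat.count_succ, if_pos hq]
  have e2 : Nat.nth Nat.Prime (m + 1) < q + 1 := Nat.nth_lt_of_lt_count (by omega)
  have e3 : Nat.nth Nat.Prime m < Nat.nth Nat.Prime (m + 1) :=
    Nat.nth_strictMono Nat.infinite_setOfPred_prime (Nat.lt_succ_self m)
  have hr : (Nat.nth Nat.Prime (m + 1)).Prime := Nat.nth_mem_of_infinite Nat.infinite_setOfPred_prime _
  obtain ⟨k, hk⟩ := h2 _ hr ⟨i, j, by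
    have : (p : ℤ) < (Nat.nth Nat.Prime (m + 1) : ℕ) := by exact_mod_cast e1 ▸ e3
    linarith, by
    have : ((Nat.nth Nat.Prime (m + 1) : ℕ) : ℤ) ≤ q := by exact_mod_cast Nat.lt_succ_iff.mp e2
    linarith⟩
  refine ⟨i, k, ?_, m, ?_, hk⟩
  · have : (p : ℤ) < (Nat.nth Nat.Prime (m + 1) : ℕ) := by exact_mod_cast e1 ▸ e3
    linarith
  · rw [e1]; exact hpi

open Classical in
theorem gap_of_admissible (a : Fin 49 → ℤ) (hinj : Function.Injective a)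
    (hadm : ∀ p : ℕ, p.Prime → ∃ r : ℤ, ∀ i, ¬ (p : ℤ) ∣ r + a i) :
    ∃ i j, a i < a j ∧ ∀ ε : ℝ, 0 < ε → ∃ᶠ x : ℝ in atTop, x ^ (1 - ε) ≤ ((gapSet (a j - a i) x).ncard : ℝ) := by
  by_contra hcon
  push Not at hcon
  have hpair : ∀ ij : Fin 49 × Fin 49, ∃ ε : ℝ, 0 < ε ∧ (a ij.1 < a ij.2 →
      ∀ᶠ x : ℝ in atTop, ((gapSet (a ij.2 - a ij.1) x).ncard : ℝ) < x ^ (1 - ε)) := by
    intro ij
    by_cases h : a ij.1 < a ij.2
    · obtain ⟨ε, hε, hx⟩ := hcon ij.1 ij.2 h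
      refine ⟨ε, hε, fun _ => ?_⟩
      filter_upwards [hx] with x hx
      exact hx
    · exact ⟨1, one_pos, fun h' => absurd h' h⟩
  choose e he0 he using hpair
  obtain ⟨ij0, -, hmin⟩ := Finset.exists_min_image (Finset.univ : Finset (Fin 49 × Fin 49)) e ⟨(0, 0), Finset.mem_univ _⟩
  set ε := e ij0 with hεdef
  have hε : 0 < ε := he0 ij0
  obtain ⟨δ, hδ, hasy⟩ := X5_asy ε hε 2401 1
  -- bound on the shifts
  obtain ⟨A, hA⟩ : ∃ A : ℕ, ∀ i, a i ≤ A := by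
    obtain ⟨i0, -, hi0⟩ := Finset.exists_max_image (Finset.univ : Finset (Fin 49)) a ⟨0, Finset.mem_univ _⟩
    exact ⟨(a i0).toNat, fun i => (hi0 i (Finset.mem_univ _)).trans (Int.self_le_toNat _)⟩
  have hall : ∀ᶠ x : ℝ in atTop, ∀ ij : Fin 49 × Fin 49, a ij.1 < a ij.2 →
      ((gapSet (a ij.2 - a ij.1) x).ncard : ℝ) < x ^ (1 - e ij) := by
    rw [Filter.eventually_all]
    intro ij
    by_cases h : a ij.1 < a ij.2
    · filter_upwards [he ij h] with x hx _ using hx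
    · exact Filter.Eventually.of_forall fun x h' => absurd h' h
  have h2 : Tendsto (fun x : ℝ => x / 2) atTop atTop := tendsto_id.atTop_div_const (by norm_num)
  have hT := h2.eventually (dhl49_consecutive a hinj hadm δ hδ)
  obtain ⟨x, hx1, hx2, hx3, hx4, hx5⟩ := (hT.and (hall.and (hasy.and
    ((eventually_ge_atTop (1 : ℝ)).and (eventually_ge_atTop (2 * (A : ℝ))))))).exists
  set S := ((Icc 1 ⌊x / 2⌋₊).filter (fun n : ℕ =>
      (∃ i j, i ≠ j ∧ ∃ p q : ℕ, p.Prime ∧ q.Prime ∧ (p : ℤ) = n + a i ∧ (q : ℤ) = n + a j) ∧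
      ∀ p : ℕ, p.Prime → (∃ i j, (n : ℤ) + a i ≤ p ∧ (p : ℤ) ≤ n + a j) → ∃ i, (p : ℤ) = n + a i)) with hS
  have hSsub : (S : Set ℕ) ⊆ ⋃ ij : Fin 49 × Fin 49, {n : ℕ | a ij.1 < a ij.2 ∧ (n : ℝ) ≤ x / 2 ∧
      ∃ m : ℕ, (Nat.nth Nat.Prime m : ℤ) = n + a ij.1 ∧ (Nat.nth Nat.Prime (m + 1) : ℤ) = n + a ij.2} := by
    intro n hn
    rw [Finset.mem_coe, hS, Finset.mem_filter, Finset.mem_Icc] at hn
    obtain ⟨⟨hn1, hn2⟩, hn3, hn4⟩ := hn
    obtain ⟨i, j, hij, m, hm⟩ := consec_pair a n hn3 hinj hn4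
    rw [Set.mem_iUnion]
    exact ⟨(i, j), hij, (Nat.le_floor_iff (by linarith)).mp hn2, m, hm⟩
  have hbnd : ∀ ij : Fin 49 × Fin 49, (({n : ℕ | a ij.1 < a ij.2 ∧ (n : ℝ) ≤ x / 2 ∧
      ∃ m : ℕ, (Nat.nth Nat.Prime m : ℤ) = n + a ij.1 ∧ (Nat.nth Nat.Prime (m + 1) : ℤ) = n + a ij.2}).ncard : ℝ) ≤
      x ^ (1 - ε) ∧ ({n : ℕ | a ij.1 < a ij.2 ∧ (n : ℝ) ≤ x / 2 ∧
      ∃ m : ℕ, (Nat.nth Nat.Prime m : ℤ) = n + a ij.1 ∧ (Nat.nth Nat.Prime (m + 1) : ℤ) = n + a ij.2}).Finite := by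
    intro ij
    by_cases h : a ij.1 < a ij.2
    · set U := {n : ℕ | a ij.1 < a ij.2 ∧ (n : ℝ) ≤ x / 2 ∧
        ∃ m : ℕ, (Nat.nth Nat.Prime m : ℤ) = n + a ij.1 ∧ (Nat.nth Nat.Prime (m + 1) : ℤ) = n + a ij.2} with hU
      have hUm : ∀ n ∈ U, ∃ m ∈ gapSet (a ij.2 - a ij.1) x, (Nat.nth Nat.Prime m : ℤ) = n + a ij.1 := by
        rintro n ⟨-, hnx, m, hm1, hm2⟩
        refine ⟨m, ⟨?_, by rw [hm1, hm2]; ring⟩, hm1⟩
        have : ((Nat.nth Nat.Prime m : ℕ) : ℤ) ≤ n + A := by rw [hm1]; linarith [hA ij.1]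
        have h3 : ((Nat.nth Nat.Prime m : ℕ) : ℝ) ≤ n + A := by exact_mod_cast this
        linarith
      choose! g hg1 hg2 using hUm
      have hginj : Set.InjOn g U := by
        intro n hn n' hn' hnn
        have e1 := hg2 n hn
        have e2 := hg2 n' hn'
        rw [hnn] at e1
        have : (n : ℤ) = n' := by linarith
        exact_mod_cast this
      have hfin : U.Finite := Set.Finite.of_injOn (fun n hn => hg1 n hn) hginj (gapSet_finite _ _)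
      refine ⟨?_, hfin⟩
      have h5 : U.ncard ≤ (gapSet (a ij.2 - a ij.1) x).ncard :=
        Set.ncard_le_ncard_of_injOn g (fun n hn => hg1 n hn) hginj (gapSet_finite _ _)
      have h6 : (U.ncard : ℝ) ≤ ((gapSet (a ij.2 - a ij.1) x).ncard : ℝ) := by exact_mod_cast h5
      refine h6.trans ((hx2 ij h).le.trans ?_)
      exact Real.rpow_le_rpow_of_exponent_le hx4 (by linarith [hmin ij (Finset.mem_univ _)])
    · have : {n : ℕ | a ij.1 < a ij.2 ∧ (n : ℝ) ≤ x / 2 ∧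
        ∃ m : ℕ, (Nat.nth Nat.Prime m : ℤ) = n + a ij.1 ∧ (Nat.nth Nat.Prime (m + 1) : ℤ) = n + a ij.2} = ∅ := by
        ext n
        simp [h]
      rw [this]
      exact ⟨by simp only [Set.ncard_empty, Nat.cast_zero]; exact Real.rpow_nonneg (by linarith) _, Set.finite_empty⟩
  have hcard : (S.card : ℝ) ≤ 2401 * x ^ (1 - ε) := by
    have h7 : S.card ≤ ∑ ij : Fin 49 × Fin 49, ({n : ℕ | a ij.1 < a ij.2 ∧ (n : ℝ) ≤ x / 2 ∧
      ∃ m : ℕ, (Nat.nth Nat.Prime m : ℤ) = n + a ij.1 ∧ (Nat.nth Nat.Prime (m + 1) : ℤ) = n + a ij.2}).ncard := by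
      rw [← Set.ncard_coe_finset]
      refine (Set.ncard_le_ncard hSsub (Set.finite_iUnion fun ij => (hbnd ij).2)).trans ?_
      have := Set.ncard_iUnion_le_of_fintype (fun ij : Fin 49 × Fin 49 => {n : ℕ | a ij.1 < a ij.2 ∧ (n : ℝ) ≤ x / 2 ∧
        ∃ m : ℕ, (Nat.nth Nat.Prime m : ℤ) = n + a ij.1 ∧ (Nat.nth Nat.Prime (m + 1) : ℤ) = n + a ij.2})
      exact this
    have h8 : (S.card : ℝ) ≤ ∑ ij : Fin 49 × Fin 49, (({n : ℕ | a ij.1 < a ij.2 ∧ (n : ℝ) ≤ x / 2 ∧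
      ∃ m : ℕ, (Nat.nth Nat.Prime m : ℤ) = n + a ij.1 ∧ (Nat.nth Nat.Prime (m + 1) : ℤ) = n + a ij.2}).ncard : ℝ) := by
      exact_mod_cast h7
    refine h8.trans ((Finset.sum_le_sum fun ij _ => (hbnd ij).1).trans ?_)
    rw [Finset.sum_const, Finset.card_univ, Fintype.card_prod, Fintype.card_fin, nsmul_eq_mul]
    norm_num
  have : (x / 2) ^ (1 - δ) ≤ 2401 * x ^ (1 - ε) := by
    refine le_trans ?_ hcard
    convert hx1
  linarith

end Pool.Agent.H95R2.BG
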