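import Mathlib
import Pool.Agent.H95R2.BG.GapPairs

/-! BG project (helper95): every even number has a multiple `k N`, `k ≤ 120`, which is a gap; difference sets. -/

open Finset Filter

namespace Pool.Agent.H95R2.BG

theorem tup_even (i : Fin 49) : 2 ∣ tup i := by
  fin_cases i <;> decide

theorem multiple_gap (N : ℕ) (hN : 0 < N) :
    ∃ k : ℕ, 1 ≤ k ∧ k ≤ 120 ∧ ∀ ε : ℝ, 0 < ε → ∃ᶠ x : ℝ in atTop,
      x ^ (1 - ε) ≤ ((gapSet ((k : ℤ) * (2 * N)) x).ncard : ℝ) := by
  obtain ⟨i, j, hij, h⟩ := gap_of_admissible (fun i => (N : ℤ) * tup i) (by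
      intro i j hij
      have h1 : (N : ℤ) * tup i = N * tup j := hij
      have h2 : (tup i : ℤ) = tup j := mul_left_cancel₀ (by exact_mod_cast hN.ne') h1
      exact tup_admissible.1 (by exact_mod_cast h2)) (by
      intro p hp
      by_cases hpN : p ∣ N
      · refine ⟨1, fun i hdvd => ?_⟩
        have h1 : (p : ℤ) ∣ (N : ℤ) * tup i := Dvd.dvd.mul_right (by exact_mod_cast hpN) _
        have h2 : (p : ℤ) ∣ 1 := (Int.dvd_iff_dvd_of_dvd_add hdvd).mpr h1
        have h3 : (p : ℕ) ∣ 1 := by exact_mod_cast h2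
        exact hp.one_lt.ne' (Nat.dvd_one.mp h3)
      · obtain ⟨a0, ha0⟩ := tup_admissible.2 p hp
        refine ⟨(N : ℤ) * a0, fun i hdvd => ?_⟩
        have h1 : (p : ℤ) ∣ (N : ℤ) * ((a0 + tup i : ℕ) : ℤ) := by
          push_cast
          rw [mul_add]
          exact hdvd
        have h2 : p ∣ N * (a0 + tup i) := by exact_mod_cast h1
        rcases hp.dvd_mul.mp h2 with h3 | h3
        · exact hpN h3
        · exact ha0 i h3)
  have hlt : tup i < tup j := by
    have h1 : (N : ℤ) * tup i < N * tup j := hij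
    have h2 : (tup i : ℤ) < tup j := lt_of_mul_lt_mul_left h1 (by positivity)
    exact_mod_cast h2
  obtain ⟨u, hu⟩ := tup_even i
  obtain ⟨v, hv⟩ := tup_even j
  have hj := tup_le j
  refine ⟨v - u, by omega, by omega, fun ε hε => ?_⟩
  have e : ((v - u : ℕ) : ℤ) * (2 * N) = (N : ℤ) * tup j - (N : ℤ) * tup i := by
    rw [Nat.cast_sub (by omega), hu, hv]
    push_cast
    ring
  rw [e]
  exact h ε hε

theorem remove_class (p : ℕ) (hp : 0 < p) (S : Finset ℤ) :
    ∃ S' ⊆ S, (∃ c : ℤ, ∀ s ∈ S', ¬ (p : ℤ) ∣ s - c) ∧ S.card ≤ S'.card + S.card / p := by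
  classical
  by_contra hcon
  push Not at hcon
  have hp0 : (p : ℤ) ≠ 0 := by exact_mod_cast hp.ne'
  have h1 : ∀ c ∈ Finset.range p, S.card / p + 1 ≤ (S.filter (fun s => s % p = (c : ℤ))).card := by
    intro c hcr
    have hcp : c < p := Finset.mem_range.mp hcr
    have h2 := hcon (S.filter (fun s => ¬ s % p = (c : ℤ))) (Finset.filter_subset _ _) ⟨c, fun s hs hd => by
      rw [Finset.mem_filter] at hs
      apply hs.2
      have h3 : s % p = (c : ℤ) % p := Int.ModEq.symm (Int.modEq_iff_dvd.mpr hd)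
      rw [h3]
      exact Int.emod_eq_of_lt (by positivity) (by exact_mod_cast hcp)⟩
    have h4 := Finset.card_filter_add_card_filter_not (s := S) (fun s => s % p = (c : ℤ))
    omega
  have h5 : S.card = ∑ c ∈ Finset.range p, (S.filter (fun s => s % p = (c : ℤ))).card := by
    have h6 := Finset.card_eq_sum_card_fiberwise (s := S) (t := Finset.range p) (f := fun s : ℤ => (s % p).toNat) (by
      intro s _
      rw [Finset.coe_range, Set.mem_Iio]
      show (s % p).toNat < p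
      have h7 := Int.emod_nonneg s hp0
      have h8 := Int.emod_lt_of_pos s (by exact_mod_cast hp : (0 : ℤ) < p)
      omega)
    rw [h6]
    apply Finset.sum_congr rfl
    intro c _
    congr 1
    ext s
    simp only [Finset.mem_filter, and_congr_right_iff]
    intro _
    have h7 := Int.emod_nonneg s hp0
    constructor
    · intro h; omega
    · intro h; omega
  have h9 : p * (S.card / p + 1) ≤ S.card := by
    calc p * (S.card / p + 1) = ∑ c ∈ Finset.range p, (S.card / p + 1) := by simp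
      _ ≤ ∑ c ∈ Finset.range p, (S.filter (fun s => s % p = (c : ℤ))).card := Finset.sum_le_sum h1
      _ = S.card := h5.symm
  have h10 := Nat.lt_mul_div_succ S.card hp
  have : p * (S.card / p + 1) = p * (S.card / p).succ := rfl
  omega

/-- avoiding one class modulo each prime `≤ 47` costs at most `319 → 49` -/
theorem admissible_subset (S : Finset ℤ) (hS : 319 ≤ S.card) :
    ∃ T ⊆ S, T.card = 49 ∧ ∀ p : ℕ, p.Prime → ∃ c : ℤ, ∀ s ∈ T, ¬ (p : ℤ) ∣ s - c := by
  classical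
  obtain ⟨S1, s1, ⟨c1, hc1⟩, k1⟩ := remove_class 2 (by norm_num) S
  obtain ⟨S2, s2, ⟨c2, hc2⟩, k2⟩ := remove_class 3 (by norm_num) S1
  obtain ⟨S3, s3, ⟨c3, hc3⟩, k3⟩ := remove_class 5 (by norm_num) S2
  obtain ⟨S4, s4, ⟨c4, hc4⟩, k4⟩ := remove_class 7 (by norm_num) S3
  obtain ⟨S5, s5, ⟨c5, hc5⟩, k5⟩ := remove_class 11 (by norm_num) S4
  obtain ⟨S6, s6, ⟨c6, hc6⟩, k6⟩ := remove_class 13 (by norm_num) S5
  obtain ⟨S7, s7, ⟨c7, hc7⟩, k7⟩ := remove_class 17 (by norm_num) S6
  obtain ⟨S8, s8, ⟨c8, hc8⟩, k8⟩ := remove_class 19 (by norm_num) S7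
  obtain ⟨S9, s9, ⟨c9, hc9⟩, k9⟩ := remove_class 23 (by norm_num) S8
  obtain ⟨S10, s10, ⟨c10, hc10⟩, k10⟩ := remove_class 29 (by norm_num) S9
  obtain ⟨S11, s11, ⟨c11, hc11⟩, k11⟩ := remove_class 31 (by norm_num) S10
  obtain ⟨S12, s12, ⟨c12, hc12⟩, k12⟩ := remove_class 37 (by norm_num) S11
  obtain ⟨S13, s13, ⟨c13, hc13⟩, k13⟩ := remove_class 41 (by norm_num) S12
  obtain ⟨S14, s14, ⟨c14, hc14⟩, k14⟩ := remove_class 43 (by norm_num) S13
  obtain ⟨S15, s15, ⟨c15, hc15⟩, k15⟩ := remove_class 47 (by norm_num) S14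
  have h1 : 160 ≤ S1.card := by omega
  have h2 : 107 ≤ S2.card := by omega
  have h3 : 86 ≤ S3.card := by omega
  have h4 : 74 ≤ S4.card := by omega
  have h5 : 68 ≤ S5.card := by omega
  have h6 : 63 ≤ S6.card := by omega
  have h7 : 60 ≤ S7.card := by omega
  have h8 : 57 ≤ S8.card := by omega
  have h9 : 55 ≤ S9.card := by omega
  have h10 : 54 ≤ S10.card := by omega
  have h11 : 53 ≤ S11.card := by omega
  have h12 : 52 ≤ S12.card := by omega
  have h13 : 51 ≤ S13.card := by omega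
  have h14 : 50 ≤ S14.card := by omega
  have h15 : 49 ≤ S15.card := by omega
  obtain ⟨T, hT, hTc⟩ := Finset.exists_subset_card_eq h15
  have t15 := hT
  have t14 := t15.trans s15
  have t13 := t14.trans s14
  have t12 := t13.trans s13
  have t11 := t12.trans s12
  have t10 := t11.trans s11
  have t9 := t10.trans s10
  have t8 := t9.trans s9
  have t7 := t8.trans s8
  have t6 := t7.trans s7
  have t5 := t6.trans s6
  have t4 := t5.trans s5
  have t3 := t4.trans s4
  have t2 := t3.trans s3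
  have t1 := t2.trans s2
  refine ⟨T, t1.trans s1, hTc, fun p hp => ?_⟩
  by_cases hbig : 49 < p
  · -- a class is missed
    have hp0 : (p : ℤ) ≠ 0 := by exact_mod_cast hp.ne_zero
    have hcard : (T.image (fun s : ℤ => (s % p).toNat)).card < (Finset.range p).card := by
      rw [Finset.card_range]
      exact lt_of_le_of_lt Finset.card_image_le (by omega)
    obtain ⟨c, hc, hcn⟩ := Finset.exists_mem_notMem_of_card_lt_card hcard
    refine ⟨c, fun s hs hd => hcn ?_⟩
    rw [Finset.mem_image]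
    refine ⟨s, hs, ?_⟩
    have h3 : s % p = (c : ℤ) % p := Int.ModEq.symm ((Int.modEq_iff_dvd).mpr hd)
    rw [h3, Int.emod_eq_of_lt (by positivity) (by exact_mod_cast Finset.mem_range.mp hc)]
    simp
  · have hp49 : p ≤ 49 := by omega
    interval_cases p <;> first
      | exact ⟨c1, fun s hs => hc1 s (t1 hs)⟩
      | exact ⟨c2, fun s hs => hc2 s (t2 hs)⟩
      | exact ⟨c3, fun s hs => hc3 s (t3 hs)⟩
      | exact ⟨c4, fun s hs => hc4 s (t4 hs)⟩
      | exact ⟨c5, fun s hs => hc5 s (t5 hs)⟩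
      | exact ⟨c6, fun s hs => hc6 s (t6 hs)⟩
      | exact ⟨c7, fun s hs => hc7 s (t7 hs)⟩
      | exact ⟨c8, fun s hs => hc8 s (t8 hs)⟩
      | exact ⟨c9, fun s hs => hc9 s (t9 hs)⟩
      | exact ⟨c10, fun s hs => hc10 s (t10 hs)⟩
      | exact ⟨c11, fun s hs => hc11 s (t11 hs)⟩
      | exact ⟨c12, fun s hs => hc12 s (t12 hs)⟩
      | exact ⟨c13, fun s hs => hc13 s (t13 hs)⟩
      | exact ⟨c14, fun s hs => hc14 s (t14 hs)⟩
      | exact ⟨c15, fun s hs => hc15 s (t15 hs)⟩
      | (exfalso; revert hp; norm_num)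

theorem difference_gap (S : Finset ℤ) (hS : 319 ≤ S.card) :
    ∃ a ∈ S, ∃ b ∈ S, a < b ∧ ∀ ε : ℝ, 0 < ε → ∃ᶠ x : ℝ in atTop,
      x ^ (1 - ε) ≤ ((gapSet (b - a) x).ncard : ℝ) := by
  obtain ⟨T, hTS, hT, hc⟩ := admissible_subset S hS
  set f := T.orderEmbOfFin hT with hf
  have hmem : ∀ i, f i ∈ T := fun i => Finset.orderEmbOfFin_mem T hT i
  obtain ⟨i, j, hij, h⟩ := gap_of_admissible (fun i => f i) f.injective (by
    intro p hp
    obtain ⟨c, hc'⟩ := hc p hp
    refine ⟨-c, fun i hd => hc' _ (hmem i) ?_⟩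
    rwa [neg_add_eq_sub] at hd)
  exact ⟨f i, hTS (hmem i), f j, hTS (hmem j), hij, h⟩

end Pool.Agent.H95R2.BG
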